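import Pool.Agent.NFW.Defs

/-!
# NFW: basic lemmas on `pr` and `Rh`
-/

set_option autoImplicit false

open Polynomial

noncomputable section

namespace NFW

/-! ### Probability -/

section pr

variable {ι κ : Type}

theorem pr_nonneg (p : ι → Prop) : 0 ≤ pr p := by
  unfold pr; positivity

theorem pr_congr {p q : ι → Prop} (h : ∀ i, p i ↔ q i) : pr p = pr q := by
  have : p = q := funext fun i => propext (h i)
  rw [this]

theorem pr_mono [Finite ι] {p q : ι → Prop} (h : ∀ i, p i → q i) : pr p ≤ pr q := by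
  unfold pr
  have : Nat.card {i // p i} ≤ Nat.card {i // q i} :=
    Nat.card_le_card_of_injective (fun x => (⟨x.1, h _ x.2⟩ : {i // q i}))
      (fun x y hxy => Subtype.ext (by simpa using hxy))
  gcongr

theorem pr_le_one [Finite ι] (p : ι → Prop) : pr p ≤ 1 := by
  unfold pr
  have : Nat.card {i // p i} ≤ Nat.card ι :=
    Nat.card_le_card_of_injective (fun x => x.1) Subtype.val_injective
  rcases Nat.eq_zero_or_pos (Nat.card ι) with h | h
  · simp [h]
  · rw [div_le_one (by exact_mod_cast h)]; exact_mod_cast this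

theorem pr_equiv (e : ι ≃ κ) (p : κ → Prop) : pr (fun i => p (e i)) = pr p := by
  unfold pr
  rw [Nat.card_congr e, Nat.card_congr (e.subtypeEquiv (p := fun i => p (e i)) (q := p)
    (fun a => Iff.rfl))]

theorem pr_or [Finite ι] (p q : ι → Prop) : pr (fun i => p i ∨ q i) ≤ pr p + pr q := by
  unfold pr
  rw [← add_div]
  have : Nat.card {i // p i ∨ q i} ≤ Nat.card {i // p i} + Nat.card {i // q i} := by
    classical
    have := Fintype.ofFinite ι
    simp only [Nat.card_eq_fintype_card, Fintype.card_subtype]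
    rw [Finset.filter_or]
    exact Finset.card_union_le _ _
  have h2 : (Nat.card {i // p i ∨ q i} : ℝ) ≤ Nat.card {i // p i} + Nat.card {i // q i} := by
    exact_mod_cast this
  gcongr

theorem pr_union [Finite ι] {σ : Type} (s : Finset σ) (p : σ → ι → Prop) :
    pr (fun i => ∃ k ∈ s, p k i) ≤ ∑ k ∈ s, pr (p k) := by
  classical
  induction s using Finset.induction_on with
  | empty =>
    simp only [Finset.notMem_empty, false_and, exists_false, Finset.sum_empty]
    unfold pr
    simp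
  | insert a s ha ih =>
    rw [Finset.sum_insert ha]
    calc pr (fun i => ∃ k ∈ insert a s, p k i) ≤ pr (fun i => p a i ∨ ∃ k ∈ s, p k i) := by
          apply pr_mono
          rintro i ⟨k, hk, hki⟩
          rcases Finset.mem_insert.1 hk with rfl | hk
          · exact Or.inl hki
          · exact Or.inr ⟨k, hk, hki⟩
      _ ≤ pr (p a) + pr (fun i => ∃ k ∈ s, p k i) := pr_or _ _
      _ ≤ _ := by gcongr

theorem pr_union_le [Finite ι] {σ : Type} (s : Finset σ) (p : σ → ι → Prop) (ε : ℝ)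
    (h : ∀ k ∈ s, pr (p k) ≤ ε) : pr (fun i => ∃ k ∈ s, p k i) ≤ s.card * ε :=
  (pr_union s p).trans (by simpa using Finset.sum_le_card_nsmul s (fun k => pr (p k)) ε h)

theorem pr_true [Finite ι] [Nonempty ι] : pr (fun _ : ι => True) = 1 := by
  unfold pr
  have h : (Nat.card ι : ℝ) ≠ 0 := by exact_mod_cast Nat.card_pos.ne'
  have : Nat.card {_i : ι // True} = Nat.card ι := Nat.card_congr (Equiv.subtypeUnivEquiv (by simp))
  rw [this, div_self h]

theorem pr_false (ι : Type) : pr (fun _ : ι => False) = 0 := by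
  unfold pr
  simp

theorem pr_not [Finite ι] [Nonempty ι] (p : ι → Prop) : pr (fun i => ¬ p i) = 1 - pr p := by
  classical
  have h : (Nat.card ι : ℝ) ≠ 0 := by exact_mod_cast Nat.card_pos.ne'
  have := Fintype.ofFinite ι
  unfold pr
  rw [eq_sub_iff_add_eq, ← add_div, div_eq_one_iff_eq h]
  simp only [Nat.card_eq_fintype_card, Fintype.card_subtype]
  rw [add_comm]
  exact_mod_cast Finset.card_filter_add_card_filter_not (s := Finset.univ) p

/-- if the exceptional set has probability less than one, there is a good point -/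
theorem exists_of_pr [Finite ι] [Nonempty ι] {p : ι → Prop} (h : pr (fun i => ¬ p i) < 1) :
    ∃ i, p i := by
  by_contra hc
  push Not at hc
  have : pr (fun i => ¬ p i) = 1 := by
    rw [pr_congr (q := fun _ => True) (fun i => by simp [hc i])]
    exact pr_true
  linarith

/-- if `p` has probability less than `pr q`, there is a point of `q` outside of `p` -/
theorem exists_of_pr_lt [Finite ι] {p q : ι → Prop} (h : pr p < pr q) : ∃ i, q i ∧ ¬ p i := by
  by_contra hc
  push Not at hc
  exact absurd (pr_mono hc) (not_le.2 h)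

theorem pr_prod_card [Finite ι] [Finite κ] (p : ι × κ → Prop) :
    (Nat.card {x // p x} : ℝ) = ∑ᶠ i, (Nat.card {j // p (i, j)} : ℝ) := by
  classical
  have := Fintype.ofFinite ι
  have := Fintype.ofFinite κ
  rw [finsum_eq_sum_of_fintype]
  have e : {x : ι × κ // p x} ≃ (Σ i, {j // p (i, j)}) :=
    { toFun := fun x => ⟨x.1.1, x.1.2, x.2⟩
      invFun := fun x => ⟨(x.1, x.2.1), x.2.2⟩
      left_inv := fun x => rfl
      right_inv := fun x => rfl }
  rw [Nat.card_congr e, Nat.card_sigma]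
  push_cast
  rfl

/-- Fubini: a bound for all first coordinates -/
theorem pr_prod [Finite ι] [Nonempty ι] [Finite κ] {p : ι × κ → Prop} {ε : ℝ}
    (h : ∀ i, pr (fun j => p (i, j)) ≤ ε) : pr p ≤ ε := by
  classical
  have := Fintype.ofFinite ι
  rcases isEmpty_or_nonempty κ with hκ | hκ
  · have h0 : 0 ≤ ε := (pr_nonneg _).trans (h (Classical.arbitrary ι))
    unfold pr
    have : IsEmpty (ι × κ) := by infer_instance
    simpa using h0
  have hι : (0 : ℝ) < Nat.card ι := by exact_mod_cast Nat.card_pos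
  have hκ' : (0 : ℝ) < Nat.card κ := by exact_mod_cast Nat.card_pos
  unfold pr
  rw [pr_prod_card, Nat.card_prod, div_le_iff₀ (by push_cast; positivity),
    finsum_eq_sum_of_fintype]
  calc ∑ i, (Nat.card {j // p (i, j)} : ℝ) ≤ ∑ _i : ι, ε * Nat.card κ := by
        apply Finset.sum_le_sum
        intro i _
        have := h i
        unfold pr at this
        rwa [div_le_iff₀ hκ'] at this
    _ = ε * ((Nat.card ι * Nat.card κ : ℕ) : ℝ) := by
        simp [Nat.card_eq_fintype_card]; ring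

/-- Fubini: a bound for all second coordinates -/
theorem pr_prod' [Finite ι] [Finite κ] [Nonempty κ] {p : ι × κ → Prop} {ε : ℝ}
    (h : ∀ j, pr (fun i => p (i, j)) ≤ ε) : pr p ≤ ε := by
  rw [← pr_equiv (Equiv.prodComm κ ι)]
  exact pr_prod h

/-- Fubini: averages -/
theorem exists_pr_prod [Finite ι] [Nonempty ι] [Finite κ] [Nonempty κ] {p : ι × κ → Prop}
    {ε : ℝ} (h : pr p ≤ ε) : ∃ i, pr (fun j => p (i, j)) ≤ ε := by
  classical
  by_contra hc
  push Not at hc
  have := Fintype.ofFinite ι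
  have hι : (0 : ℝ) < Nat.card ι := by exact_mod_cast Nat.card_pos
  have hκ' : (0 : ℝ) < Nat.card κ := by exact_mod_cast Nat.card_pos
  unfold pr at h
  rw [pr_prod_card, Nat.card_prod, div_le_iff₀ (by push_cast; positivity),
    finsum_eq_sum_of_fintype] at h
  have : ∑ _i : ι, ε * Nat.card κ < ∑ i, (Nat.card {j // p (i, j)} : ℝ) := by
    apply Finset.sum_lt_sum_of_nonempty Finset.univ_nonempty
    intro i _
    have := hc i
    unfold pr at this
    rwa [lt_div_iff₀ hκ'] at this
  have h2 : ∑ _i : ι, ε * Nat.card κ = ε * ((Nat.card ι * Nat.card κ : ℕ) : ℝ) := by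
    simp [Nat.card_eq_fintype_card]; ring
  linarith

/-- marginals -/
theorem pr_fst [Finite ι] [Finite κ] [Nonempty κ] (p : ι → Prop) :
    pr (fun x : ι × κ => p x.1) = pr p := by
  have hκ' : (Nat.card κ : ℝ) ≠ 0 := by exact_mod_cast Nat.card_pos.ne'
  unfold pr
  have e : {x : ι × κ // p x.1} ≃ {i // p i} × κ :=
    { toFun := fun x => (⟨x.1.1, x.2⟩, x.1.2)
      invFun := fun x => ⟨(x.1.1, x.2), x.1.2⟩
      left_inv := fun x => rfl
      right_inv := fun x => rfl }
  rw [Nat.card_congr e, Nat.card_prod, Nat.card_prod]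
  push_cast
  rw [mul_div_mul_right _ _ hκ']

theorem pr_snd [Finite ι] [Nonempty ι] [Finite κ] (p : κ → Prop) :
    pr (fun x : ι × κ => p x.2) = pr p := by
  rw [← pr_equiv (Equiv.prodComm κ ι)]
  exact pr_fst p

end pr

/-! ### `Rh` -/

section Rh

variable {U B : Type} [Field U] {ι κ : Type}

theorem Rh.mono {Φ : U → B} {c : ι → U} {v : U} {ε ε' : ℝ} (h : Rh Φ c v ε) (hε : ε ≤ ε') :
    Rh Φ c v ε' := fun u => (h u).trans hε

theorem Rh.zero (Φ : U → B) (c : ι → U) {ε : ℝ} (hε : 0 ≤ ε) : Rh Φ c 0 ε := by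
  intro u
  rw [pr_congr (q := fun _ => False) (fun i => by simp)]
  rw [pr_false]; exact hε

theorem Rh.add [Finite ι] {Φ : U → B} {c : ι → U} {v w : U} {ε ε' : ℝ} (h : Rh Φ c v ε)
    (h' : Rh Φ c w ε') : Rh Φ c (v + w) (ε + ε') := by
  intro u
  have h1 := h (u + w)
  have h2 := h' u
  calc pr (fun i => Φ (u + c i + (v + w)) ≠ Φ (u + c i))
      ≤ pr (fun i => Φ (u + w + c i + v) ≠ Φ (u + w + c i) ∨
          Φ (u + c i + w) ≠ Φ (u + c i)) := by
        apply pr_mono
        intro i hi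
        by_contra hc
        push Not at hc
        apply hi
        rw [← hc.2, show u + c i + (v + w) = u + w + c i + v by ring, hc.1]
        congr 1; ring
    _ ≤ _ := (pr_or _ _).trans (add_le_add h1 h2)

theorem Rh.neg {Φ : U → B} {c : ι → U} {v : U} {ε : ℝ} (h : Rh Φ c v ε) : Rh Φ c (-v) ε := by
  intro u
  rw [pr_congr (q := fun i => Φ (u - v + c i + v) ≠ Φ (u - v + c i))]
  · exact h (u - v)
  · intro i
    rw [show u - v + c i + v = u + c i by ring, show u - v + c i = u + c i + -v by ring]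
    exact ne_comm

theorem Rh.sub [Finite ι] {Φ : U → B} {c : ι → U} {v w : U} {ε ε' : ℝ} (h : Rh Φ c v ε)
    (h' : Rh Φ c w ε') : Rh Φ c (v - w) (ε + ε') := by
  rw [sub_eq_add_neg]; exact h.add h'.neg

theorem Rh.sum [Finite ι] {Φ : U → B} {c : ι → U} {σ : Type} (s : Finset σ) (v : σ → U)
    {ε : ℝ} (h : ∀ k ∈ s, Rh Φ c (v k) ε) : Rh Φ c (∑ k ∈ s, v k) (s.card * ε) := by
  classical
  induction s using Finset.induction_on with
  | empty => simpa using Rh.zero Φ c le_rfl
  | insert a s ha ih =>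
    rw [Finset.sum_insert ha, Finset.card_insert_of_notMem ha]
    have := (h a (Finset.mem_insert_self a s)).add
      (ih fun k hk => h k (Finset.mem_insert_of_mem hk))
    refine this.mono (le_of_eq ?_)
    push_cast; ring

theorem Rh.prod_left [Finite ι] [Finite κ] [Nonempty κ] {Φ : U → B} {c : ι → U} {v : U} {ε : ℝ}
    (h : Rh Φ c v ε) (d : κ → U) : Rh Φ (fun p : ι × κ => c p.1 + d p.2) v ε := by
  intro u
  apply pr_prod'
  intro j
  have := h (u + d j)
  refine le_trans (le_of_eq (pr_congr fun i => ?_)) this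
  rw [show u + (c i + d j) = u + d j + c i by ring]

theorem Rh.prod_right [Finite ι] [Nonempty ι] [Finite κ] {Φ : U → B} {d : κ → U} {v : U}
    {ε : ℝ} (h : Rh Φ d v ε) (c : ι → U) : Rh Φ (fun p : ι × κ => c p.1 + d p.2) v ε := by
  intro u
  apply pr_prod
  intro i
  have := h (u + c i)
  refine le_trans (le_of_eq (pr_congr fun j => ?_)) this
  rw [show u + (c i + d j) = u + c i + d j by ring]

theorem Rh.equiv {Φ : U → B} {c : κ → U} {v : U} {ε : ℝ} (e : ι ≃ κ) :
    Rh Φ (fun i => c (e i)) v ε ↔ Rh Φ c v ε := by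
  unfold Rh
  refine forall_congr' fun u => ?_
  rw [← pr_equiv e]

omit [Field U] in
theorem Spr.equiv {c : κ → U} {ε : ℝ} (e : ι ≃ κ) :
    Spr (fun i => c (e i)) ε ↔ Spr c ε := by
  unfold Spr
  refine forall_congr' fun u => ?_
  rw [← pr_equiv e]

theorem Spr.prod_left [Finite ι] [Finite κ] [Nonempty κ] {c : ι → U} {ε : ℝ}
    (h : Spr c ε) (d : κ → U) : Spr (fun p : ι × κ => c p.1 + d p.2) ε := by
  intro x
  apply pr_prod'
  intro j
  refine le_trans (le_of_eq (pr_congr fun i => ?_)) (h (x - d j))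
  exact eq_sub_iff_add_eq.symm

theorem Spr.prod_right [Finite ι] [Nonempty ι] [Finite κ] {d : κ → U} {ε : ℝ}
    (h : Spr d ε) (c : ι → U) : Spr (fun p : ι × κ => c p.1 + d p.2) ε := by
  intro x
  apply pr_prod
  intro i
  refine le_trans (le_of_eq (pr_congr fun j => ?_)) (h (x - c i))
  exact eq_sub_iff_add_eq'.symm

/-- a finite family may be indexed by `Fin m` -/
theorem exists_fin [Finite ι] [Nonempty ι] (c : ι → U) : ∃ (m : ℕ) (c' : Fin m → U), 0 < m ∧
    (∀ i, ∃ j, c' i = c j) ∧ ∀ (B' : Type) (Φ : U → B') (v : U) (ε : ℝ),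
      Rh Φ c' v ε ↔ Rh Φ c v ε := by
  obtain ⟨m, ⟨e⟩⟩ := Finite.exists_equiv_fin ι
  refine ⟨m, fun i => c (e.symm i), ?_, fun i => ⟨_, rfl⟩, fun B' Φ v ε => Rh.equiv e.symm⟩
  have := e (Classical.arbitrary ι)
  exact this.pos

/-- the coordinate `j` of a combination -/
theorem Rh.lin_of [Finite ι] [Nonempty ι] [Fintype κ] {Φ : U → B} {c : ι → U} {t : κ → U}
    (j : κ) {v : U} {ε : ℝ} (h : Rh Φ (fun i => c i * t j) v ε) : Rh Φ (lin c t) v ε := by
  classical
  let e : (κ → ι) ≃ ι × ({j' : κ // j' ≠ j} → ι) :=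
    (Equiv.funSplitAt j ι)
  have h1 := h.prod_left (fun f : {j' : κ // j' ≠ j} → ι => ∑ j', c (f j') * t j'.1)
  have h2 := (Rh.equiv (Φ := Φ) (v := v) (ε := ε) (e := e)).2 h1
  refine cast ?_ h2
  congr 1
  funext f
  unfold lin
  have h3 := Fintype.sum_eq_add_sum_subtype_ne (fun j' => c (f j') * t j') j
  rw [h3]
  rfl

theorem lin_add {ι' : Type} [Fintype κ] (c : ι → U) (c' : ι' → U) (t : κ → U) (f : κ → ι × ι') :
    lin (fun p : ι × ι' => c p.1 + c' p.2) t f =
      lin c t (fun j => (f j).1) + lin c' t (fun j => (f j).2) := by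
  unfold lin
  rw [← Finset.sum_add_distrib]
  exact Finset.sum_congr rfl fun j _ => by ring

theorem lin_smul [Fintype κ] (s : U) (c : ι → U) (t : κ → U) (f : κ → ι) :
    lin (fun i => s * c i) t f = s * lin c t f := by
  unfold lin
  rw [Finset.mul_sum]
  exact Finset.sum_congr rfl fun j _ => by ring

theorem lin_smul' [Fintype κ] (s : U) (c : ι → U) (t : κ → U) (f : κ → ι) :
    lin c (fun j => s * t j) f = s * lin c t f := by
  unfold lin
  rw [Finset.mul_sum]
  exact Finset.sum_congr rfl fun j _ => by ring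

theorem Rh.lin_prod_left {ι' : Type} [Finite ι] [Finite ι'] [Nonempty ι'] [Fintype κ] {Φ : U → B}
    {c : ι → U} {t : κ → U} {v : U} {ε : ℝ} (h : Rh Φ (lin c t) v ε) (c' : ι' → U) :
    Rh Φ (lin (fun p : ι × ι' => c p.1 + c' p.2) t) v ε := by
  have h1 := h.prod_left (lin c' t)
  have h2 := (Rh.equiv (Φ := Φ) (v := v) (ε := ε)
    (e := Equiv.arrowProdEquivProdArrow κ (fun _ => ι) (fun _ => ι'))).2 h1
  refine cast ?_ h2
  congr 1
  funext f
  rw [lin_add]
  rfl

theorem Rh.lin_prod_right {ι' : Type} [Finite ι] [Nonempty ι] [Finite ι'] [Fintype κ] {Φ : U → B}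
    {c' : ι' → U} {t : κ → U} {v : U} {ε : ℝ} (h : Rh Φ (lin c' t) v ε) (c : ι → U) :
    Rh Φ (lin (fun p : ι × ι' => c p.1 + c' p.2) t) v ε := by
  have h1 := h.prod_right (lin c t)
  have h2 := (Rh.equiv (Φ := Φ) (v := v) (ε := ε)
    (e := Equiv.arrowProdEquivProdArrow κ (fun _ => ι) (fun _ => ι'))).2 h1
  refine cast ?_ h2
  congr 1
  funext f
  rw [lin_add]
  rfl

/-- more generators -/
theorem Rh.lin_sub {κ' : Type} [Finite ι] [Nonempty ι] [Fintype κ] [Fintype κ'] {Φ : U → B}
    {c : ι → U} {t : κ → U} {t' : κ' → U} {v : U} {ε : ℝ} (e : κ' → κ)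
    (he : Function.Injective e) (ht : ∀ j, t' j = t (e j)) (h : Rh Φ (lin c t') v ε) :
    Rh Φ (lin c t) v ε := by
  classical
  let e1 : κ' ≃ {j // j ∈ Set.range e} := Equiv.ofInjective e he
  let e2 : (κ → ι) ≃ (κ' → ι) × ({j // j ∉ Set.range e} → ι) :=
    (Equiv.piEquivPiSubtypeProd (fun j => j ∈ Set.range e) (fun _ => ι)).trans
      ((Equiv.arrowCongr e1.symm (Equiv.refl ι)).prodCongr (Equiv.refl _))
  have h1 := h.prod_left (fun f : {j // j ∉ Set.range e} → ι => ∑ j, c (f j) * t j.1)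
  have h2 := (Rh.equiv (Φ := Φ) (v := v) (ε := ε) (e := e2)).2 h1
  refine cast ?_ h2
  congr 1
  funext f
  have hsum : ∑ j, c (f j) * t j = (∑ j : {j // j ∈ Set.range e}, c (f j) * t j.1) +
      ∑ j : {j // j ∉ Set.range e}, c (f j) * t j.1 := by
    have := Fintype.sum_subtype_add_sum_subtype (fun j => j ∈ Set.range e)
      (fun j => c (f j) * t j)
    rw [← this]
    congr
    exact Subsingleton.elim _ _
  have hs2 : lin c t' (fun j => f (e j)) =
      ∑ j : {j // j ∈ Set.range e}, c (f j) * t j.1 := by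
    unfold lin
    rw [← Equiv.sum_comp e1]
    exact Finset.sum_congr rfl fun j _ => by rw [ht]; rfl
  unfold lin
  rw [hsum, ← hs2]
  rfl

variable [CommGroupWithZero B]

theorem Rh.smul {Φ : U →*₀ B} {c : ι → U} {v : U} {ε : ℝ} (h : Rh Φ c v ε) (hε : 0 ≤ ε)
    (a : U) : Rh Φ (fun i => a * c i) (a * v) ε := by
  intro u
  rcases eq_or_ne a 0 with rfl | ha
  · rw [pr_congr (q := fun _ => False) (fun i => by simp)]
    rw [pr_false]; exact hε
  · refine le_trans (le_of_eq (pr_congr fun i => ?_)) (h (a⁻¹ * u))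
    have h1 : Φ (u + a * c i + a * v) = Φ a * Φ (a⁻¹ * u + c i + v) := by
      rw [← map_mul]; congr 1; field_simp
    have h2 : Φ (u + a * c i) = Φ a * Φ (a⁻¹ * u + c i) := by
      rw [← map_mul]; congr 1; field_simp
    have h3 : Φ a ≠ 0 := (map_ne_zero Φ).2 ha
    rw [h1, h2]
    exact not_congr ⟨fun h => mul_left_cancel₀ h3 h, fun h => by rw [h]⟩

end Rh

end NFW
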