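import Pool.Agent.NFV.Defs

/-!
# NFW: ordered fields with finite power classes of finite VC dimension — definitions
-/

set_option autoImplicit false

open Polynomial

noncomputable section

namespace NFW

/-! ### Probability on finite types -/

/-- the probability of `p` for the uniform measure on a finite type -/
def pr {ι : Type} (p : ι → Prop) : ℝ := (Nat.card {i // p i} : ℝ) / Nat.card ι

/-- translation by `v` changes the value of `Φ` at few points of each translate of the family `c` -/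
def Rh {U B ι : Type} [Field U] (Φ : U → B) (c : ι → U) (v : U) (ε : ℝ) : Prop :=
  ∀ u : U, pr (fun i => Φ (u + c i + v) ≠ Φ (u + c i)) ≤ ε

/-- each value is taken rarely by the family -/
def Spr {U ι : Type} (c : ι → U) (ε : ℝ) : Prop := ∀ x : U, pr (fun i => c i = x) ≤ ε

/-- the combinations of the `t j` with independent coefficients from the family `c` -/
def lin {U ι κ : Type} [Field U] [Fintype κ] (c : ι → U) (t : κ → U) : (κ → ι) → U :=
  fun f => ∑ j, c (f j) * t j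

/-- the threshold `ε₀` -/
def e0 (n : ℕ) : ℝ := 1 / (4 * ((n : ℝ) + 1) ^ 2)

/-! ### The calculus over a subfield -/

/-- near constancy within `S` -/
def NCS {U B : Type} [Field U] (Φ : U → B) (S : Subfield U) : Prop :=
  ∀ F : Finset U, (∀ v ∈ F, v ∈ S) → ∀ ε : ℝ, 0 < ε →
    ∃ (ι : Type) (_ : Finite ι) (_ : Nonempty ι) (c : ι → U),
      (∀ i, c i ∈ S) ∧ (∀ v ∈ F, Rh Φ c v ε) ∧ Spr c ε

/-- `M(t)` -/
def Md {U B κ : Type} [Field U] [Fintype κ] (Φ : U → B) (S : Subfield U) (t : κ → U) : Set U :=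
  {v | ∀ ε : ℝ, 0 < ε → ∃ (ι : Type) (_ : Finite ι) (_ : Nonempty ι) (c : ι → U),
    (∀ i, c i ∈ S) ∧ Rh Φ (lin c t) v ε}

/-- `𝔪(t)` -/
def Mm {U B κ : Type} [Field U] [Fintype κ] (Φ : U → B) (S : Subfield U) (t : κ → U) : Set U :=
  {v | ∀ ε : ℝ, 0 < ε → ∃ (ι : Type) (_ : Finite ι) (_ : Nonempty ι) (c : ι → U),
    (∀ i, c i ∈ S) ∧ ∀ C ∈ S, Rh Φ (lin c t) (C * v) ε}

/-- `R_t` -/
def RT {U B κ : Type} [Field U] [Fintype κ] (Φ : U → B) (S : Subfield U) (t : κ → U) : Set U :=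
  {x | ∀ j, x * t j ∈ Md Φ S t}

/-- `E_t` -/
def ET {U B κ : Type} [Field U] [Fintype κ] (Φ : U → B) (S : Subfield U) (t : κ → U) : Set U :=
  {x | ∀ j, x * t j ∈ Mm Φ S t}

/-- the union of the `R_t` over the finite families containing `1` -/
def RH {U B : Type} [Field U] (Φ : U → B) (S : Subfield U) : Set U :=
  {x | ∃ (κ : Type) (_ : Fintype κ) (t : κ → U), (∃ j, t j = 1) ∧ x ∈ RT Φ S t}

/-- the union of the `E_t` over the finite families containing `1` -/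
def EH {U B : Type} [Field U] (Φ : U → B) (S : Subfield U) : Set U :=
  {x | ∃ (κ : Type) (_ : Fintype κ) (t : κ → U), (∃ j, t j = 1) ∧ x ∈ ET Φ S t}

/-- `μ_S` -/
def mu {U B : Type} [Field U] [One B] (Φ : U → B) (S : Subfield U) : Set U :=
  {x | ∀ b ∈ S, Φ (1 + b * x) = 1}

/-- the stabiliser of a set -/
def Stb {U : Type} [Field U] (μ : Set U) : Set U := {x | ∀ m ∈ μ, x * m ∈ μ}

/-- of any `n` different translates of `y` by elements of `S` one has its inverse in `R` -/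
def Few {U : Type} [Field U] (S : Subfield U) (R : Set U) (n : ℕ) : Prop :=
  ∀ (y : U) (s : Fin n → U), Function.Injective s → (∀ i, s i ∈ S) →
    ∃ i, y + s i ≠ 0 ∧ (y + s i)⁻¹ ∈ R

/-- good subfields -/
structure Good {U B : Type} [Field U] [One B] (Φ : U → B) (n : ℕ) (S : Subfield U) : Prop where
  cnt : (S : Set U).Countable
  g1 : ∀ ε : ℝ, 0 < ε → ∃ (ι : Type) (_ : Finite ι) (_ : Nonempty ι) (c : ι → U) (E : Finset U),
    (∀ i, c i ∈ S) ∧ (∀ a ∈ E, a ∈ S ∧ a ≠ 0) ∧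
      ∀ x : U, (∀ a ∈ E, Φ (a + x) = Φ a) → Rh Φ c x ε
  g2 : ∀ (ι : Type) [Finite ι] [Nonempty ι] (c : ι → U), (∀ i, c i ∈ S) →
    ∃ E : Finset U, (∀ a ∈ E, a ∈ S) ∧
      ∀ v : U, (∀ a ∈ E, Rh Φ c (a * v) (e0 n)) → Φ (1 + v) = 1

/-! ### Valuation rings attached to `S` -/

/-- `𝒪` is the family of valuation rings attached to `S` -/
structure Fml {U B : Type} [Field U] [One B] (Φ : U → B) (S : Subfield U)
    (𝒪 : Finset (ValuationSubring U)) : Prop where
  ne : 𝒪.Nonempty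
  sub : ∀ O ∈ 𝒪, ∀ x ∈ S, x ∈ O
  anti : ∀ O ∈ 𝒪, ∀ O' ∈ 𝒪, O ≤ O' → O = O'
  ring : ∀ x : U, x ∈ Stb (mu Φ S) ↔ ∀ O ∈ 𝒪, x ∈ O
  ideal : ∀ x : U, x ∈ mu Φ S ↔ ∀ O ∈ 𝒪, x ∈ O.nonunits

/-- the component at `O` is not trivial -/
def NT {U B : Type} [Field U] [One B] (Φ : U → B) (𝒪 : Finset (ValuationSubring U))
    (O : ValuationSubring U) : Prop :=
  ∃ p : U, p ∈ O ∧ p⁻¹ ∈ O ∧ (∀ O' ∈ 𝒪, O' ≠ O → p - 1 ∈ O'.nonunits) ∧ p ≠ 0 ∧ Φ p ≠ 1

/-! ### Power classes -/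

/-- finitely many classes modulo `q`-th powers, and the classes of translates have finite VC
dimension -/
def PQ (L : Type) [Field L] (q : ℕ) : Prop :=
  NFV.FinCl L q ∧ ∃ n : ℕ, ∀ a c : Fin n → L, ∃ S : Finset (Fin n), ∀ x : L,
    ¬ ∀ i, ((∃ y : L, y ≠ 0 ∧ x + a i = c i * y ^ q) ↔ i ∈ S)

/-- saturation for countable systems of conditions on power classes -/
def PowSat (L : Type) [Field L] (q : ℕ) : Prop :=
  ∀ α β : ℕ → L, (∀ k, ∃ y, ∀ j < k, ∃ w, w ≠ 0 ∧ α j + β j * y = w ^ q) →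
    ∃ y, ∀ j, ∃ w, w ≠ 0 ∧ α j + β j * y = w ^ q

/-- `PQ` for the extensions generated by one `q`-th root -/
def PE (N : Type) [Field N] (q : ℕ) : Prop :=
  ∀ (L : Type) [Field L] [Algebra N L] (δ : L) (d : N), δ ^ q = algebraMap N L d →
    IntermediateField.adjoin N {δ} = ⊤ → PQ L q

/-- `PQ` and `PowSat` for the extensions generated by one `q`-th root -/
def PS (N : Type) [Field N] (q : ℕ) : Prop :=
  ∀ (L : Type) [Field L] [Algebra N L] (δ : L) (d : N), δ ^ q = algebraMap N L d →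
    IntermediateField.adjoin N {δ} = ⊤ → PQ L q ∧ PowSat L q

/-- every nonzero element of `1 + 𝔪` is a `q`-th power -/
def Hq {L : Type} [Field L] (O : ValuationSubring L) (q : ℕ) : Prop :=
  ∀ x ∈ O.nonunits, ∃ w : L, w ≠ 0 ∧ 1 + x = w ^ q

/-- positive integers are units of `O` -/
def Q0 {L : Type} [Field L] (O : ValuationSubring L) : Prop :=
  ∀ n : ℕ, 0 < n → (n : L) ≠ 0 ∧ ((n : L))⁻¹ ∈ O

end NFW
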