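import Pool.Agent.NFW.Targets1

/-!
# NFW, T_CLO: good countable subfields exist
-/

set_option autoImplicit false

open Cardinal

noncomputable section

namespace NFW

/-- the subfield generated by a countable set is countable -/
theorem CLO_cl {U : Type} [Field U] {s : Set U} (hs : s.Countable) :
    ((Subfield.closure s : Subfield U) : Set U).Countable := by
  rw [← Cardinal.le_aleph0_iff_set_countable]
  refine (Subfield.cardinalMk_closure_le_max s).trans ?_
  exact max_le (Cardinal.le_aleph0_iff_set_countable.2 hs) le_rfl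

/-- one closing step -/
def CLO_step {U : Type} [Field U] (F : (m : ℕ) → (Fin (m + 1) → U) → Finset U) (τ : U ≃+* U)
    (S : Subfield U) : Subfield U :=
  Subfield.closure (((S : Set U) ∪ τ '' (S : Set U)) ∪ (τ.symm '' (S : Set U) ∪
    ⋃ m : ℕ, ⋃ c : Fin (m + 1) → S, (F m (fun i => (c i : U)) : Set U)))

theorem CLO_step_count {U : Type} [Field U] (F : (m : ℕ) → (Fin (m + 1) → U) → Finset U)
    (τ : U ≃+* U) (S : Subfield U) (hS : (S : Set U).Countable) :
    (CLO_step F τ S : Set U).Countable := by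
  apply CLO_cl
  have : Countable S := hS.to_subtype
  refine (hS.union (hS.image _)).union ((hS.image _).union ?_)
  refine Set.countable_iUnion fun m => Set.countable_iUnion fun c => ?_
  exact Finset.countable_toSet _

theorem CLO_step_le {U : Type} [Field U] (F : (m : ℕ) → (Fin (m + 1) → U) → Finset U)
    (τ : U ≃+* U) (S : Subfield U) : S ≤ CLO_step F τ S := fun _ hx =>
  Subfield.subset_closure (Or.inl (Or.inl hx))

theorem CLO_step_tau {U : Type} [Field U] (F : (m : ℕ) → (Fin (m + 1) → U) → Finset U)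
    (τ : U ≃+* U) (S : Subfield U) (x : U) (hx : x ∈ S) : τ x ∈ CLO_step F τ S :=
  Subfield.subset_closure (Or.inl (Or.inr ⟨x, hx, rfl⟩))

theorem CLO_step_tau' {U : Type} [Field U] (F : (m : ℕ) → (Fin (m + 1) → U) → Finset U)
    (τ : U ≃+* U) (S : Subfield U) (x : U) (hx : x ∈ S) : τ.symm x ∈ CLO_step F τ S :=
  Subfield.subset_closure (Or.inr (Or.inl ⟨x, hx, rfl⟩))

theorem CLO_step_F {U : Type} [Field U] (F : (m : ℕ) → (Fin (m + 1) → U) → Finset U)
    (τ : U ≃+* U) (S : Subfield U) (m : ℕ) (c : Fin (m + 1) → U) (hc : ∀ i, c i ∈ S) (a : U)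
    (ha : a ∈ F m c) : a ∈ CLO_step F τ S := by
  refine Subfield.subset_closure (Or.inr (Or.inr ?_))
  refine Set.mem_iUnion.2 ⟨m, Set.mem_iUnion.2 ⟨fun i => ⟨c i, hc i⟩, ?_⟩⟩
  exact ha

/-- the stages -/
def CLO_st {U : Type} [Field U] (F : (m : ℕ) → (Fin (m + 1) → U) → Finset U) (τ : U ≃+* U)
    (A : Set U) : ℕ → Subfield U
  | 0 => Subfield.closure A
  | k + 1 => CLO_step F τ (CLO_st F τ A k)

theorem CLO_st_count {U : Type} [Field U] (F : (m : ℕ) → (Fin (m + 1) → U) → Finset U)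
    (τ : U ≃+* U) (A : Set U) (hA : A.Countable) (k : ℕ) : (CLO_st F τ A k : Set U).Countable := by
  induction k with
  | zero => exact CLO_cl hA
  | succ k ih => exact CLO_step_count F τ _ ih

theorem CLO_st_mono {U : Type} [Field U] (F : (m : ℕ) → (Fin (m + 1) → U) → Finset U)
    (τ : U ≃+* U) (A : Set U) : Monotone (CLO_st F τ A) :=
  monotone_nat_of_le_succ fun k => CLO_step_le F τ (CLO_st F τ A k)

/-- closing off -/
theorem CLO_close {U : Type} [Field U] (F : (m : ℕ) → (Fin (m + 1) → U) → Finset U) (τ : U ≃+* U)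
    (A : Set U) (hA : A.Countable) :
    ∃ S : Subfield U, (S : Set U).Countable ∧ A ⊆ S ∧ (∀ x ∈ S, τ x ∈ S ∧ τ.symm x ∈ S) ∧
      ∀ (m : ℕ) (c : Fin (m + 1) → U), (∀ i, c i ∈ S) → ∀ a ∈ F m c, a ∈ S := by
  have hmono := CLO_st_mono F τ A
  have hdir : Directed (· ≤ ·) (CLO_st F τ A) := hmono.directed_le
  have hmem : ∀ x : U, x ∈ (⨆ k, CLO_st F τ A k) ↔ ∃ k, x ∈ CLO_st F τ A k := fun x =>
    Subfield.mem_iSup_of_directed hdir
  refine ⟨⨆ k, CLO_st F τ A k, ?_, ?_, ?_, ?_⟩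
  · have : ((⨆ k, CLO_st F τ A k : Subfield U) : Set U) = ⋃ k, (CLO_st F τ A k : Set U) := by
      ext x
      rw [Set.mem_iUnion]
      exact hmem x
    rw [this]
    exact Set.countable_iUnion fun k => CLO_st_count F τ A hA k
  · intro x hx
    exact (hmem x).2 ⟨0, Subfield.subset_closure hx⟩
  · intro x hx
    obtain ⟨k, hk⟩ := (hmem x).1 hx
    exact ⟨(hmem _).2 ⟨k + 1, CLO_step_tau F τ _ x hk⟩,
      (hmem _).2 ⟨k + 1, CLO_step_tau' F τ _ x hk⟩⟩
  · intro m c hc a ha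
    have h1 : ∀ i, ∃ k, c i ∈ CLO_st F τ A k := fun i => (hmem _).1 (hc i)
    choose k hk using h1
    refine (hmem a).2 ⟨Finset.univ.sup k + 1, ?_⟩
    refine CLO_step_F F τ _ m c (fun i => ?_) a ha
    exact hmono (Finset.le_sup (Finset.mem_univ i)) (hk i)

/-- reindexing -/
theorem CLO_Rh {U B ι κ : Type} [Field U] (Φ : U → B) (e : ι ≃ κ) (c : ι → U) (v : U) (ε : ℝ)
    (h : Rh Φ c v ε) : Rh Φ (c ∘ e.symm) v ε := by
  intro u
  have h1 := pr_equiv e.symm (fun i => Φ (u + c i + v) ≠ Φ (u + c i))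
  have h2 := h u
  rw [← h1] at h2
  exact h2

theorem p_CLO (h_TS : T_TS) (h_SM : T_SM) : T_CLO := by
  intro U B _ _ _ _ Φ n hNS hg A hA τ
  have hTS : ∀ k : ℕ, ∃ (m : ℕ) (c : Fin m → U) (E : Finset U), 0 < m ∧
      (∀ a ∈ E, a ≠ 0) ∧ ∀ x : U, (∀ a ∈ E, Φ (a + x) = Φ a) → Rh Φ c x (1 / ((k : ℝ) + 1)) :=
    fun k => h_TS U B Φ n hNS _ (by positivity)
  choose mk ck Ek hmk hEk hRk using hTS
  have hSM : ∀ (m : ℕ) (c : Fin (m + 1) → U), ∃ E : Finset U,
      ∀ v : U, (∀ a ∈ E, Rh Φ c (a * v) (e0 n)) → Φ (1 + v) = 1 :=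
    fun m c => h_SM U B Φ n hNS hg (Fin (m + 1)) c
  choose F hF using hSM
  set A0 : Set U := A ∪ ⋃ k : ℕ, (Set.range (ck k) ∪ (Ek k : Set U)) with hA0
  have hA0c : A0.Countable := by
    refine hA.union (Set.countable_iUnion fun k => ?_)
    exact (Set.countable_range _).union (Finset.countable_toSet _)
  obtain ⟨S, hS1, hS2, hS3, hS4⟩ := CLO_close F τ A0 hA0c
  refine ⟨S, ⟨hS1, ?_, ?_⟩, fun x hx => hS2 (Or.inl hx), hS3⟩
  · intro ε hε
    obtain ⟨k, hk⟩ := exists_nat_one_div_lt hε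
    have hne : Nonempty (Fin (mk k)) := ⟨⟨0, hmk k⟩⟩
    refine ⟨Fin (mk k), inferInstance, hne, ck k, Ek k, ?_, ?_, ?_⟩
    · intro i
      exact hS2 (Or.inr (Set.mem_iUnion.2 ⟨k, Or.inl ⟨i, rfl⟩⟩))
    · intro a ha
      exact ⟨hS2 (Or.inr (Set.mem_iUnion.2 ⟨k, Or.inr ha⟩)), hEk k a ha⟩
    · intro x hx u
      exact (hRk k x hx u).trans hk.le
  · intro ι _ _ c hc
    obtain ⟨m, hm⟩ : ∃ m, Nat.card ι = m + 1 :=
      ⟨Nat.card ι - 1, by have := Nat.card_pos (α := ι); omega⟩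
    let e : ι ≃ Fin (m + 1) := (Finite.equivFin ι).trans (finCongr hm)
    refine ⟨F m (c ∘ e.symm), fun a ha => hS4 m _ (fun i => hc _) a ha, ?_⟩
    intro v hv
    exact hF m (c ∘ e.symm) v fun a ha => CLO_Rh Φ e c (a * v) (e0 n) (hv a ha)

end NFW
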