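import Pool.Agent.NFW.Targets1

/-!
# NFW: target EE1 (decorrelation)
-/

set_option autoImplicit false

open Polynomial NFV

noncomputable section

namespace NFW

namespace EE1_

variable {U B : Type} [Field U]

/-- finitely many families may be replaced by one -/
theorem comb {Φ : U → B} {S : Subfield U} {κ : Type} [Fintype κ] (t : κ → U) {σ : Type}
    (s : Finset σ) (V : σ → Set U) (ε : ℝ)
    (h : ∀ k ∈ s, ∃ (ι : Type) (_ : Finite ι) (_ : Nonempty ι) (c : ι → U),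
      (∀ i, c i ∈ S) ∧ ∀ v ∈ V k, Rh Φ (lin c t) v ε) :
    ∃ (ι : Type) (_ : Finite ι) (_ : Nonempty ι) (c : ι → U),
      (∀ i, c i ∈ S) ∧ ∀ k ∈ s, ∀ v ∈ V k, Rh Φ (lin c t) v ε := by
  classical
  induction s using Finset.induction_on with
  | empty =>
    exact ⟨Unit, inferInstance, inferInstance, fun _ => 0, fun _ => S.zero_mem, by simp⟩
  | insert a s ha ih =>
    obtain ⟨ι, _, _, c, hc, h1⟩ := ih (fun k hk => h k (Finset.mem_insert_of_mem hk))
    obtain ⟨ι', _, _, c', hc', h2⟩ := h a (Finset.mem_insert_self a s)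
    refine ⟨ι × ι', inferInstance, inferInstance, fun p => c p.1 + c' p.2,
      fun p => S.add_mem (hc _) (hc' _), ?_⟩
    intro k hk v hv
    rcases Finset.mem_insert.1 hk with rfl | hk
    · exact (h2 v hv).lin_prod_right c
    · exact (h1 k hk v hv).lin_prod_left c'

/-- the combinations are spread if one generator is `1` -/
theorem spr_lin {ι κ : Type} [Finite ι] [Nonempty ι] [Fintype κ] {c : ι → U} {t : κ → U} (j : κ)
    (hj : t j = 1) {ε : ℝ} (h : Spr c ε) : Spr (lin c t) ε := by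
  classical
  let e : (κ → ι) ≃ ι × ({j' : κ // j' ≠ j} → ι) :=
    (Equiv.funSplitAt j ι)
  have h1 := h.prod_left (fun f : {j' : κ // j' ≠ j} → ι => ∑ j', c (f j') * t j'.1)
  have h2 := (Spr.equiv (ε := ε) (e := e)).2 h1
  refine cast ?_ h2
  congr 1
  funext f
  unfold lin
  have h3 := Fintype.sum_eq_add_sum_subtype_ne (fun j' => c (f j') * t j') j
  rw [h3, hj, mul_one]
  rfl

theorem zero_mem_Md (Φ : U → B) (S : Subfield U) {κ : Type} [Fintype κ] (t : κ → U) :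
    (0 : U) ∈ Md Φ S t := by
  intro ε hε
  exact ⟨Unit, inferInstance, inferInstance, fun _ => 0, fun _ => S.zero_mem,
    Rh.zero Φ _ hε.le⟩

end EE1_

open EE1_

theorem p_EE1 (h_MC1 : T_MC1) : T_EE1 := by
  classical
  intro U B _ _ Φ S hS κ _ t ht e he hz hR
  obtain ⟨j0, hj0⟩ := ht
  obtain ⟨m1, m2, -, m4, -, -, -, -, -⟩ := h_MC1 U B Φ S hS κ t
  set z : U := 1 + e with hzdef
  set k : ℕ := Fintype.card κ with hk
  set ε : ℝ := 1 / (4 * ((k : ℝ) + 2)) with hε
  have hεpos : 0 < ε := by positivity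
  -- sums of elements of `Md`
  have hsum : ∀ (w : κ → U), (∀ j, w j ∈ Md (⇑Φ) S t) → ∑ j, w j ∈ Md (⇑Φ) S t := by
    intro w hw
    have : ∀ s : Finset κ, ∑ j ∈ s, w j ∈ Md (⇑Φ) S t := by
      intro s
      induction s using Finset.induction_on with
      | empty => simpa using zero_mem_Md (⇑Φ) S t
      | insert a s ha ih =>
        rw [Finset.sum_insert ha]
        exact m2 _ (hw a) _ ih
    exact this Finset.univ
  -- the family `c`
  obtain ⟨ι, hι1, hι2, c, hcS, hc⟩ := comb (Φ := ⇑Φ) (S := S) t (Finset.univ : Finset κ)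
    (fun j => {v | ∃ C ∈ S, v = C * (e * t j)}) ε (by
      intro j _
      obtain ⟨ι, i1, i2, c, hc1, hc2⟩ := he j ε hεpos
      refine ⟨ι, i1, i2, c, hc1, ?_⟩
      rintro v ⟨C, hC, rfl⟩
      exact hc2 C hC)
  have hcsum : ∀ C : κ → U, (∀ j, C j ∈ S) → Rh (⇑Φ) (lin c t) (∑ j, C j * (e * t j))
      (k * ε) := by
    intro C hC
    have := Rh.sum (Φ := ⇑Φ) (c := lin c t) (Finset.univ : Finset κ)
      (fun j => C j * (e * t j)) (ε := ε)
      (fun j _ => hc j (Finset.mem_univ j) _ ⟨C j, hC j, rfl⟩)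
    simpa [hk] using this
  -- the elements `g f`
  have hg1 : ∀ f : κ → ι, lin c t f ∈ Md (⇑Φ) S t := by
    intro f
    exact hsum _ fun j => m1 j _ (hcS _)
  have hg2 : ∀ f : κ → ι, z⁻¹ * lin c t f ∈ Md (⇑Φ) S t := by
    intro f
    have h1 : z⁻¹ * lin c t f = ∑ j, c (f j) * (z⁻¹ * t j) := by
      unfold lin
      rw [Finset.mul_sum]
      exact Finset.sum_congr rfl fun j _ => by ring
    rw [h1]
    exact hsum _ fun j => m4 _ (hR j) _ (hcS _)
  have hfin : Fintype (κ → ι) := Fintype.ofFinite _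
  -- the family `c'`
  obtain ⟨ι1, hι11, hι12, c1, hc1S, hc1⟩ := comb (Φ := ⇑Φ) (S := S) t
    (Finset.univ : Finset (Bool × (κ → ι)))
    (fun p => {v | v = if p.1 then lin c t p.2 else z⁻¹ * lin c t p.2}) ε (by
      rintro ⟨b, f⟩ _
      cases b with
      | true =>
        obtain ⟨ι', i1, i2, c', h1, h2⟩ := hg1 f ε hεpos
        refine ⟨ι', i1, i2, c', h1, ?_⟩
        rintro v rfl
        simpa using h2
      | false =>
        obtain ⟨ι', i1, i2, c', h1, h2⟩ := hg2 f ε hεpos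
        refine ⟨ι', i1, i2, c', h1, ?_⟩
        rintro v rfl
        simpa using h2)
  obtain ⟨ι2, hι21, hι22, c2, hc2S, -, hc2⟩ := hS ∅ (by simp) (1 / 4) (by norm_num)
  set c' : ι1 × ι2 → U := fun p => c1 p.1 + c2 p.2 with hc'
  have hc'S : ∀ p, c' p ∈ S := fun p => S.add_mem (hc1S _) (hc2S _)
  have hspr : Spr (lin c' t) (1 / 4) := spr_lin j0 hj0 (hc2.prod_right c1)
  have r1 : ∀ f : κ → ι, Rh (⇑Φ) (lin c' t) (lin c t f) ε := by
    intro f
    have h1 := hc1 (true, f) (Finset.mem_univ _) _ rfl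
    simp only [if_true] at h1
    exact h1.lin_prod_left c2
  have r2 : ∀ f : κ → ι, Rh (⇑Φ) (lin c' t) (z⁻¹ * lin c t f) ε := by
    intro f
    have h1 := hc1 (false, f) (Finset.mem_univ _) _ rfl
    simp only [Bool.false_eq_true, if_false] at h1
    exact h1.lin_prod_left c2
  -- the four events
  let p1 : (κ → ι1 × ι2) × (κ → ι) → Prop := fun x =>
    Φ (0 + lin c' t x.1 + z⁻¹ * lin c t x.2) ≠ Φ (0 + lin c' t x.1)
  let p2 : (κ → ι1 × ι2) × (κ → ι) → Prop := fun x =>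
    Φ (lin c' t x.1 + lin c t x.2 + ∑ j, c' (x.1 j) * (e * t j)) ≠
      Φ (lin c' t x.1 + lin c t x.2)
  let p3 : (κ → ι1 × ι2) × (κ → ι) → Prop := fun x =>
    Φ (0 + lin c' t x.1 + lin c t x.2) ≠ Φ (0 + lin c' t x.1)
  let p4 : (κ → ι1 × ι2) × (κ → ι) → Prop := fun x => lin c' t x.1 = 0
  have q1 : pr p1 ≤ ε := pr_prod' fun f => r2 f 0
  have q2 : pr p2 ≤ k * ε := pr_prod fun F =>
    hcsum (fun j => c' (F j)) (fun j => hc'S _) (lin c' t F)
  have q3 : pr p3 ≤ ε := pr_prod' fun f => r1 f 0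
  have q4 : pr p4 ≤ 1 / 4 := pr_prod' fun _ => hspr 0
  have q : pr (fun x => ¬ ¬ ((p1 x ∨ p2 x) ∨ (p3 x ∨ p4 x))) < 1 := by
    have e1 : pr (fun x => ¬ ¬ ((p1 x ∨ p2 x) ∨ (p3 x ∨ p4 x))) =
        pr (fun x => (p1 x ∨ p2 x) ∨ (p3 x ∨ p4 x)) := pr_congr fun x => not_not
    have e2 := pr_or (fun x => p1 x ∨ p2 x) (fun x => p3 x ∨ p4 x)
    have e3 := pr_or p1 p2
    have e4 := pr_or p3 p4
    have e5 : ((k : ℝ) + 2) * ε = 1 / 4 := by
      rw [hε]
      field_simp
    rw [e1]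
    nlinarith
  obtain ⟨⟨F, f⟩, hx⟩ := exists_of_pr q
  push Not at hx
  obtain ⟨⟨x1, x2⟩, x3, x4⟩ := hx
  have y1 : Φ (0 + lin c' t F + z⁻¹ * lin c t f) = Φ (0 + lin c' t F) := by
    by_contra h
    exact x1 h
  have y2 : Φ (lin c' t F + lin c t f + ∑ j, c' (F j) * (e * t j)) =
      Φ (lin c' t F + lin c t f) := by
    by_contra h
    exact x2 h
  have y3 : Φ (0 + lin c' t F + lin c t f) = Φ (0 + lin c' t F) := by
    by_contra h
    exact x3 h
  have y4 : lin c' t F ≠ 0 := x4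
  rw [zero_add] at y1 y3
  have w1 : lin c' t F + lin c t f + ∑ j, c' (F j) * (e * t j) =
      z * (lin c' t F + z⁻¹ * lin c t f) := by
    have w2 : ∑ j, c' (F j) * (e * t j) = e * lin c' t F := by
      unfold lin
      rw [Finset.mul_sum]
      exact Finset.sum_congr rfl fun j _ => by ring
    rw [w2, mul_add, mul_inv_cancel_left₀ hz, hzdef]
    ring
  rw [w1, map_mul, y1, y3] at y2
  have y5 : Φ (lin c' t F) ≠ 0 := (map_ne_zero Φ).2 y4
  exact mul_right_cancel₀ y5 (by rw [y2, one_mul])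

end NFW
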