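import Pool.Agent.NFW.Targets1

/-!
# NFW, target EE2: the ideal `E` is the ideal `𝔪(1)`
-/

set_option autoImplicit false

open Polynomial NFV

noncomputable section

namespace NFW

theorem EE2_card {m n : ℕ} (p : Fin m → Prop)
    (h : ∀ f : Fin n → Fin m, Function.Injective f → ∃ i, ¬ p (f i)) :
    (Nat.card {i : Fin m // p i} : ℝ) ≤ n := by
  classical
  have h1 : Nat.card {i : Fin m // p i} ≤ n := by
    by_contra hc
    push Not at hc
    obtain ⟨k, ⟨e⟩⟩ := Finite.exists_equiv_fin {i : Fin m // p i}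
    have hk : Nat.card {i : Fin m // p i} = k := by
      rw [Nat.card_congr e]; simp
    rw [hk] at hc
    obtain ⟨i, hi⟩ := h (fun i => (e.symm (Fin.castLE hc.le i)).1) (by
      intro a b hab
      have h2 : e.symm (Fin.castLE hc.le a) = e.symm (Fin.castLE hc.le b) := Subtype.ext hab
      have h3 := e.symm.injective h2
      exact Fin.castLE_injective hc.le h3)
    exact hi (e.symm (Fin.castLE hc.le i)).2
  exact_mod_cast h1

theorem EE2_few {U : Type} [Field U] [CharZero U] (S : Subfield U) (R : Set U) (n : ℕ)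
    (hF : Few S R n) (y : U) (m : ℕ) (hm : 0 < m) :
    pr (fun i : Fin m => ¬ (y + ((i : ℕ) : U) ≠ 0 ∧ (y + ((i : ℕ) : U))⁻¹ ∈ R)) ≤ n / m := by
  unfold pr
  have h1 := EE2_card (m := m) (n := n)
    (fun i : Fin m => ¬ (y + ((i : ℕ) : U) ≠ 0 ∧ (y + ((i : ℕ) : U))⁻¹ ∈ R)) (by
      intro f hf
      obtain ⟨i, hi⟩ := hF y (fun i => ((f i : ℕ) : U)) (by
        intro a b hab
        have h2 : ((f a : ℕ) : U) = ((f b : ℕ) : U) := hab
        have h3 : (f a : ℕ) = (f b : ℕ) := by exact_mod_cast h2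
        exact hf (Fin.ext h3)) (fun i => natCast_mem S _)
      exact ⟨i, not_not.2 hi⟩)
  have h2 : (Nat.card (Fin m) : ℝ) = m := by simp
  rw [h2]
  have hm' : (0 : ℝ) < m := by exact_mod_cast hm
  gcongr

theorem EE2_a (h1 : T_EE1) (h2 : T_MC3) {U B : Type} [Field U] [CommGroupWithZero B]
    (Φ : U →*₀ B) (S : Subfield U) (hN : NCS Φ S) {e : U} (he : e ∈ EH Φ S) (u C a : U)
    (hC : C ∈ S) (ha1 : u + a ≠ 0) (ha2 : (u + a)⁻¹ ∈ RH Φ S)
    (hb1 : u + C * e + a ≠ 0) (hb2 : (u + C * e + a)⁻¹ ∈ RH Φ S) :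
    Φ (u + a + C * e) = Φ (u + a) := by
  obtain ⟨κ1, F1, t1, ⟨j1, hj1⟩, he1⟩ := he
  obtain ⟨κ2, F2, t2, ⟨j2, hj2⟩, he2⟩ := ha2
  obtain ⟨κ3, F3, t3, ⟨j3, hj3⟩, he3⟩ := hb2
  obtain ⟨hA, hB, -⟩ := h2 U B Φ S hN
  let t12 : κ1 × κ2 → U := fun p => t1 p.1 * t2 p.2
  let t : (κ1 × κ2) × κ3 → U := fun p => t12 p.1 * t3 p.2
  have e1 : e ∈ ET Φ S t :=
    (hB (κ1 × κ2) κ3 t12 t3).2.2.1 ((hB κ1 κ2 t1 t2).2.2.1 he1)
  have e2 : (u + a)⁻¹ ∈ RT Φ S t :=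
    (hB (κ1 × κ2) κ3 t12 t3).1 ((hB κ1 κ2 t1 t2).2.1 he2)
  have e3 : (u + C * e + a)⁻¹ ∈ RT Φ S t :=
    (hB (κ1 × κ2) κ3 t12 t3).2.1 he3
  obtain ⟨hS, hadd, hmul, -, hRE, hER, -⟩ := hA ((κ1 × κ2) × κ3) t
  have e4 : (C * (u + a)⁻¹) * e ∈ ET Φ S t := hRE _ (hmul _ (hS C hC) _ e2) _ e1
  have e5 : 1 + ((-C) * (u + C * e + a)⁻¹) * e ∈ RT Φ S t :=
    hadd _ (hS 1 (one_mem S)) _ (hER (hRE _ (hmul _ (hS (-C) (neg_mem hC)) _ e3) _ e1))
  have hz : 1 + (C * (u + a)⁻¹) * e = (u + C * e + a) / (u + a) := by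
    field_simp
    ring
  have hz0 : 1 + (C * (u + a)⁻¹) * e ≠ 0 := by
    rw [hz]
    exact div_ne_zero hb1 ha1
  have hzi : (1 + (C * (u + a)⁻¹) * e)⁻¹ = 1 + ((-C) * (u + C * e + a)⁻¹) * e := by
    rw [hz, inv_div]
    field_simp
    ring
  have hone := h1 U B Φ S hN ((κ1 × κ2) × κ3) t ⟨((j1, j2), j3), by
    show t1 j1 * t2 j2 * t3 j3 = 1
    rw [hj1, hj2, hj3]; ring⟩ _ e4 hz0 (by rw [hzi]; exact e5)
  have hfin : u + a + C * e = (u + a) * (1 + (C * (u + a)⁻¹) * e) := by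
    field_simp
  rw [hfin, map_mul, hone, mul_one]

theorem p_EE2 (h1 : T_EE1) (h2 : T_MC3) : T_EE2 := by
  intro U B _ _ _ Φ S n hN hF
  have hM := h2 U B Φ S hN
  apply Set.Subset.antisymm
  · intro e he ε hε
    obtain ⟨m, hm⟩ := exists_nat_gt (2 * (n : ℝ) / ε)
    have hm0' : (0 : ℝ) < m := lt_of_le_of_lt (by positivity) hm
    have hm0 : 0 < m := by exact_mod_cast hm0'
    have : Nonempty (Fin m) := ⟨⟨0, hm0⟩⟩
    refine ⟨Fin m, inferInstance, inferInstance, fun i => ((i : ℕ) : U),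
      fun i => natCast_mem S _, ?_⟩
    intro C hC
    apply Rh.lin_of (c := fun i : Fin m => ((i : ℕ) : U)) (t := fun _ : Unit => (1 : U)) ()
    intro u
    have hb := EE2_few S (RH Φ S) n hF u m hm0
    have hb' := EE2_few S (RH Φ S) n hF (u + C * e) m hm0
    calc pr (fun i : Fin m => Φ (u + ((i : ℕ) : U) * 1 + C * e) ≠ Φ (u + ((i : ℕ) : U) * 1))
        ≤ pr (fun i : Fin m => ¬ (u + ((i : ℕ) : U) ≠ 0 ∧ (u + ((i : ℕ) : U))⁻¹ ∈ RH Φ S) ∨
          ¬ (u + C * e + ((i : ℕ) : U) ≠ 0 ∧ (u + C * e + ((i : ℕ) : U))⁻¹ ∈ RH Φ S)) := by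
          apply pr_mono
          intro i hi
          by_contra hc
          push Not at hc
          apply hi
          rw [mul_one]
          exact EE2_a h1 h2 Φ S hN he u C _ hC hc.1.1 hc.1.2 hc.2.1 hc.2.2
      _ ≤ n / m + n / m := (pr_or _ _).trans (add_le_add hb hb')
      _ = 2 * (n : ℝ) / m := by ring
      _ ≤ ε := by
          rw [div_le_iff₀ hm0']
          rw [div_lt_iff₀ hε] at hm
          linarith
  · exact hM.2.2.2.2.2.2.2.1

end NFW
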