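import Pool.Agent.NFW.Targets4

/-!
# NFW: HEN, the Hensel property and the residue field (helper49)
-/

set_option autoImplicit false

open Polynomial

noncomputable section

namespace NFW.HEN_

/-! ### Valuation subrings of an algebraically closed field -/

section val

variable {C : Type} [Field C] (V : ValuationSubring C)

theorem mul_nu {x y : C} (hx : x ∈ V) (hy : y ∈ V.nonunits) : x * y ∈ V.nonunits := by
  rw [ValuationSubring.mem_nonunits_iff, map_mul]
  rw [ValuationSubring.mem_nonunits_iff] at hy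
  have h1 := (V.valuation_le_one_iff x).2 hx
  calc V.valuation x * V.valuation y ≤ 1 * V.valuation y := mul_le_mul' h1 le_rfl
    _ = V.valuation y := one_mul _
    _ < 1 := hy

theorem root_int {f : V[X]} (hf : f.Monic) {z : C} (hz : aeval z f = 0) : z ∈ V := by
  have h1 : IsIntegral V z := ⟨f, hf, hz⟩
  obtain ⟨y, hy⟩ := IsIntegrallyClosed.isIntegral_iff.1 h1
  rw [← hy]
  exact y.2

theorem root_near [IsAlgClosed C] (n : ℕ) : ∀ f : V[X], f.Monic → f.natDegree = n → ∀ a : V,
    f.eval a ∈ IsLocalRing.maximalIdeal V →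
    ∃ z : V, f.IsRoot z ∧ a - z ∈ IsLocalRing.maximalIdeal V := by
  induction n with
  | zero =>
    intro f hf hn a ha
    have : f = 1 := hf.natDegree_eq_zero.1 hn
    rw [this, eval_one] at ha
    exact absurd ha (Ideal.ne_top_iff_one _ |>.1 (IsLocalRing.maximalIdeal.isMaximal V).ne_top)
  | succ n ih =>
    intro f hf hn a ha
    have hd : f.degree ≠ 0 := by
      rw [degree_eq_natDegree hf.ne_zero, hn]
      norm_cast
    obtain ⟨z, hz⟩ := IsAlgClosed.exists_aeval_eq_zero C f hd
    have hzV := root_int V hf hz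
    have hr : f.IsRoot ⟨z, hzV⟩ := by
      have h1 : algebraMap V C (f.eval ⟨z, hzV⟩) = 0 := by
        rw [← hz, ← aeval_algebraMap_apply_eq_algebraMap_eval]
        rfl
      exact (map_eq_zero_iff _ (IsFractionRing.injective V C)).1 h1
    obtain ⟨g, hg⟩ := dvd_iff_isRoot.2 hr
    have hgm : g.Monic := (monic_X_sub_C _).of_mul_monic_left (hg ▸ hf)
    have hgn : g.natDegree = n := by
      have := congrArg natDegree hg
      rw [(monic_X_sub_C _).natDegree_mul hgm, natDegree_X_sub_C, hn] at this
      omega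
    rw [hg, eval_mul, eval_sub, eval_X, eval_C] at ha
    rcases (IsLocalRing.maximalIdeal.isMaximal V).isPrime.mem_or_mem ha with h | h
    · exact ⟨_, hr, h⟩
    · obtain ⟨w, hw, hwa⟩ := ih g hgm hgn a h
      refine ⟨w, ?_, hwa⟩
      rw [hg, IsRoot, eval_mul, hw.eq_zero, mul_zero]

theorem root_uniq {f : V[X]} {z z' a : V} (hz : f.IsRoot z) (hz' : f.IsRoot z') (hne : z' ≠ z)
    (h1 : a - z ∈ IsLocalRing.maximalIdeal V) (h2 : a - z' ∈ IsLocalRing.maximalIdeal V) :
    f.derivative.eval a ∈ IsLocalRing.maximalIdeal V := by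
  obtain ⟨g, hg⟩ := dvd_iff_isRoot.2 hz
  have hg' : g.IsRoot z' := by
    rw [hg, IsRoot, eval_mul, eval_sub, eval_X, eval_C] at hz'
    rcases mul_eq_zero.1 hz' with h | h
    · exact absurd (sub_eq_zero.1 h) hne
    · exact h
  obtain ⟨k, hk⟩ := dvd_iff_isRoot.2 hg'
  have e1 : f.derivative.eval a = (a - z') * k.eval a + (a - z) * g.derivative.eval a := by
    rw [hg, derivative_mul]
    simp only [derivative_sub, derivative_X, derivative_C, sub_zero, one_mul, eval_add, eval_mul,
      eval_sub, eval_X, eval_C]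
    rw [hk]
    simp only [eval_mul, eval_sub, eval_X, eval_C]
  rw [e1]
  exact Ideal.add_mem _ (Ideal.mul_mem_right _ _ h2) (Ideal.mul_mem_right _ _ h1)

end val

/-! ### Conjugation -/

section conj

variable {R C : Type} [Field R] [LinearOrder R] [Field C] [Algebra R C]

theorem uniq [IsStrictOrderedRing R] {i : C} (hi : i ^ 2 = -1) {a b a' b' : R}
    (h : algebraMap R C a + algebraMap R C b * i = algebraMap R C a' + algebraMap R C b' * i) :
    a = a' ∧ b = b' := by
  have h1 : algebraMap R C (a - a') = algebraMap R C (b' - b) * i := by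
    rw [map_sub, map_sub]
    linear_combination h
  have h2 : algebraMap R C ((a - a') ^ 2 + (b' - b) ^ 2) = 0 := by
    rw [map_add, map_pow, map_pow, h1]
    linear_combination (algebraMap R C (b' - b)) ^ 2 * hi
  have h3 : (a - a') ^ 2 + (b' - b) ^ 2 = 0 :=
    (map_eq_zero_iff _ (algebraMap R C).injective).1 h2
  have h4 : (a - a') ^ 2 = 0 := by nlinarith [sq_nonneg (a - a'), sq_nonneg (b' - b)]
  have h5 : (b' - b) ^ 2 = 0 := by nlinarith [sq_nonneg (a - a'), sq_nonneg (b' - b)]
  have h6 := pow_eq_zero_iff (two_ne_zero) |>.1 h4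
  have h7 := pow_eq_zero_iff (two_ne_zero) |>.1 h5
  exact ⟨sub_eq_zero.1 h6, (sub_eq_zero.1 h7).symm⟩

theorem exists_conj [IsStrictOrderedRing R] {i : C} (hi : i ^ 2 = -1)
    (hg : ∀ z : C, ∃ a b : R, z = algebraMap R C a + algebraMap R C b * i) :
    ∃ τ : C ≃ₐ[R] C, ∀ a b : R, τ (algebraMap R C a + algebraMap R C b * i) =
      algebraMap R C a - algebraMap R C b * i := by
  choose re im hz using hg
  have hre : ∀ (z : C) (a b : R), z = algebraMap R C a + algebraMap R C b * i →
      re z = a ∧ im z = b := by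
    intro z a b h
    exact uniq hi ((hz z).symm.trans h)
  let f : C →ₐ[R] C :=
    { toFun := fun z => algebraMap R C (re z) - algebraMap R C (im z) * i
      map_one' := by
        obtain ⟨h1, h2⟩ := hre 1 1 0 (by simp)
        rw [h1, h2]; simp
      map_zero' := by
        obtain ⟨h1, h2⟩ := hre 0 0 0 (by simp)
        rw [h1, h2]; simp
      map_add' := by
        intro z w
        obtain ⟨h1, h2⟩ := hre (z + w) (re z + re w) (im z + im w) (by
          rw [map_add, map_add]
          linear_combination hz z + hz w)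
        rw [h1, h2, map_add, map_add]; ring
      map_mul' := by
        intro z w
        obtain ⟨h1, h2⟩ := hre (z * w) (re z * re w - im z * im w) (re z * im w + im z * re w) (by
          rw [map_add, map_sub, map_mul, map_mul, map_mul, map_mul]
          linear_combination w * hz z + (algebraMap R C (re z) + algebraMap R C (im z) * i) * hz w
            + algebraMap R C (im z) * algebraMap R C (im w) * hi)
        rw [h1, h2, map_add, map_sub, map_mul, map_mul, map_mul, map_mul]
        linear_combination - algebraMap R C (im z) * algebraMap R C (im w) * hi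
      commutes' := by
        intro a
        obtain ⟨h1, h2⟩ := hre (algebraMap R C a) a 0 (by simp)
        show algebraMap R C (re (algebraMap R C a)) -
          algebraMap R C (im (algebraMap R C a)) * i = _
        rw [h1, h2]; simp }
  have hf : ∀ a b : R, f (algebraMap R C a + algebraMap R C b * i) =
      algebraMap R C a - algebraMap R C b * i := by
    intro a b
    obtain ⟨h1, h2⟩ := hre (algebraMap R C a + algebraMap R C b * i) a b rfl
    show algebraMap R C (re _) - algebraMap R C (im _) * i = _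
    rw [h1, h2]
  have hff : f.comp f = AlgHom.id R C := by
    ext z
    rw [AlgHom.comp_apply, AlgHom.id_apply]
    conv_lhs => rw [hz z]
    rw [hf]
    have h1 : algebraMap R C (re z) - algebraMap R C (im z) * i =
        algebraMap R C (re z) + algebraMap R C (- im z) * i := by
      rw [map_neg]; ring
    rw [h1, hf, map_neg]
    conv_rhs => rw [hz z]
    ring
  exact ⟨AlgEquiv.ofAlgHom f f hff hff, hf⟩

end conj

/-! ### Galois descent -/

section gal

variable {K R C : Type} [Field K] [LinearOrder K] [Field R] [LinearOrder R] [Field C]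
  [Algebra K R] [Algebra R C] [Algebra K C] {i : C}

theorem alg (h : RC K R C i) : Algebra.IsAlgebraic K C := by
  have := h.tower
  have := h.alg
  have h2 : Algebra.IsAlgebraic R C := by
    refine ⟨fun z => ?_⟩
    obtain ⟨a, b, rfl⟩ := h.gen z
    have hi : IsAlgebraic R i := ⟨X ^ 2 + 1, by
      intro h0
      have := congrArg (fun p : R[X] => p.coeff 2) h0
      simp [coeff_one] at this, by simp [h.sq]⟩
    exact (isAlgebraic_algebraMap a).add ((isAlgebraic_algebraMap b).mul hi)
  exact Algebra.IsAlgebraic.trans K R C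

/-- the setting -/
structure St (K R : Type) {C : Type} [Field K] [LinearOrder K] [Field R] [LinearOrder R] [Field C]
    [Algebra K R] [Algebra R C] [Algebra K C] (i : C) (V : ValuationSubring C)
    (τ : C ≃ₐ[K] C) : Prop where
  rc : RC K R C i
  nv : NV (R := R) i V
  tm : ∀ M : IntermediateField K C, FiniteDimensional K M → Normal K M → i ∈ M → Tm V i M
  ti : τ i = -i
  tr : ∀ a : R, τ (algebraMap R C a) = algebraMap R C a

theorem charZeroK (h : RC K R C i) : CharZero K := by
  have := h.ordK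
  exact IsStrictOrderedRing.toCharZero

theorem gal_near {V : ValuationSubring C} {τ : C ≃ₐ[K] C} (h : St K R i V τ) (z : C) (hz : z ∈ V)
    (ht : τ z = z) : ∃ M : IntermediateField K C, FiniteDimensional K M ∧ Normal K M ∧
      ∃ zM : M, (zM : C) = z ∧ ∀ σ : M ≃ₐ[K] M, ((σ zM : M) : C) - z ∈ V.nonunits := by
  have := alg h.rc
  have := h.rc.acl
  have hzi : IsIntegral K z := (Algebra.IsAlgebraic.isAlgebraic z).isIntegral
  have hii : IsIntegral K i := (Algebra.IsAlgebraic.isAlgebraic i).isIntegral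
  let f : K[X] := minpoly K z * minpoly K i
  have hf0 : f ≠ 0 := mul_ne_zero (minpoly.ne_zero hzi) (minpoly.ne_zero hii)
  have hfz : z ∈ f.rootSet C := by
    rw [mem_rootSet]
    exact ⟨hf0, by rw [map_mul, minpoly.aeval, zero_mul]⟩
  have hfi : i ∈ f.rootSet C := by
    rw [mem_rootSet]
    exact ⟨hf0, by rw [map_mul, minpoly.aeval, mul_zero]⟩
  let M : IntermediateField K C := IntermediateField.adjoin K (f.rootSet C)
  have hsp : f.IsSplittingField K M :=
    IntermediateField.adjoin_rootSet_isSplittingField (IsAlgClosed.splits _)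
  have hfd : FiniteDimensional K M := IsSplittingField.finiteDimensional M f
  have hn : Normal K M := Normal.of_isSplittingField f
  have hzM : z ∈ M := IntermediateField.subset_adjoin K _ hfz
  have hiM : i ∈ M := IntermediateField.subset_adjoin K _ hfi
  refine ⟨M, hfd, hn, ⟨z, hzM⟩, rfl, fun σ => ?_⟩
  have hT := h.tm M hfd hn hiM
  have hsq : (⟨i, hiM⟩ : M) ^ 2 = -1 := Subtype.ext h.rc.sq
  have hcase : σ ⟨i, hiM⟩ = ⟨i, hiM⟩ ∨ σ ⟨i, hiM⟩ = -⟨i, hiM⟩ := by
    have h1 : (σ ⟨i, hiM⟩) ^ 2 = (⟨i, hiM⟩ : M) ^ 2 := by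
      rw [← map_pow, hsq, map_neg, map_one]
    exact sq_eq_sq_iff_eq_or_eq_neg.1 h1
  rcases hcase with hc | hc
  · refine (hT σ (fun x hx => ?_) ⟨z, hzM⟩ hz).2
    have : x = ⟨i, hiM⟩ := Subtype.ext hx
    rw [this, hc]
  · let τM : M ≃ₐ[K] M := τ.restrictNormal M
    have hτM : ∀ x : M, ((τM x : M) : C) = τ (x : C) := fun x => τ.restrictNormal_commutes M x
    have e1 : τM ⟨i, hiM⟩ = -⟨i, hiM⟩ := by
      apply Subtype.ext
      rw [hτM]
      exact h.ti
    have e2 : τM ⟨z, hzM⟩ = ⟨z, hzM⟩ := by
      apply Subtype.ext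
      rw [hτM]
      exact ht
    have e3 := (hT (τM.trans σ) (fun x hx => ?_) ⟨z, hzM⟩ hz).2
    · rw [AlgEquiv.trans_apply, e2] at e3
      exact e3
    · have : x = ⟨i, hiM⟩ := Subtype.ext hx
      rw [this, AlgEquiv.trans_apply, e1, map_neg, hc, neg_neg]

theorem root_conj {M : IntermediateField K C} (σ : M ≃ₐ[K] M) (x : M) (p : K[X])
    (hp : aeval (x : C) p = 0) : aeval ((σ x : M) : C) p = 0 := by
  rw [IntermediateField.aeval_coe] at hp ⊢
  have h1 : aeval x p = 0 := by
    exact_mod_cast hp
  have h2 : aeval (σ x) p = σ (aeval x p) := aeval_algHom_apply (σ : M →ₐ[K] M) x p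
  rw [h2, h1, map_zero]
  rfl

theorem descend {V : ValuationSubring C} {τ : C ≃ₐ[K] C} (h : St K R i V τ) (z : C) (hz : z ∈ V)
    (ht : τ z = z) (iso : ∀ w : C, aeval w (minpoly K z) = 0 → w - z ∈ V.nonunits → w = z) :
    ∃ x : K, algebraMap K C x = z := by
  have := charZeroK h.rc
  obtain ⟨M, hfd, hn, zM, hzM, hσ⟩ := gal_near h z hz ht
  have := hfd
  have := hn
  have : IsGalois K M := ⟨⟩
  have h1 : zM ∈ (⊥ : IntermediateField K M) := by
    rw [IsGalois.mem_bot_iff_fixed]
    intro σ
    apply Subtype.ext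
    rw [hzM]
    exact iso _ (root_conj σ zM _ (by rw [hzM]; exact minpoly.aeval K z)) (hσ σ)
  rw [IntermediateField.mem_bot] at h1
  obtain ⟨x, hx⟩ := h1
  exact ⟨x, by rw [← hzM, ← hx]; rfl⟩

theorem coeR (h : RC K R C i) (x : K) :
    algebraMap K C x = algebraMap R C (algebraMap K R x) + algebraMap R C 0 * i := by
  have := h.tower
  rw [IsScalarTower.algebraMap_apply K R C, map_zero, zero_mul, add_zero]

theorem inv_nat {V : ValuationSubring C} (h : RC K R C i) (hv : NV (R := R) i V) (n : ℕ)
    (hn : 0 < n) : (n : C) ≠ 0 ∧ ((n : C))⁻¹ ∈ V := by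
  have := h.ord
  have hnR : (n : R) ≠ 0 := by
    have : (0 : R) < n := Nat.cast_pos.2 hn
    exact this.ne'
  have e1 : (n : C) = algebraMap R C n := (map_natCast _ n).symm
  refine ⟨by rw [e1, Ne, map_eq_zero]; exact hnR, ?_⟩
  have e2 : ((n : C))⁻¹ = algebraMap R C ((n : R)⁻¹) + algebraMap R C 0 * i := by
    rw [e1, map_inv₀, map_zero, zero_mul, add_zero]
  rw [e2, hv.1]
  refine ⟨1, ?_⟩
  have h1 : (1 : R) ≤ n := by exact_mod_cast hn
  have h2 : (n : R)⁻¹ ≤ 1 := inv_le_one_of_one_le₀ h1
  have h3 : (0 : R) ≤ (n : R)⁻¹ := by positivity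
  push_cast
  nlinarith

theorem avg {V : ValuationSubring C} {τ : C ≃ₐ[K] C} (h : St K R i V τ) (z : C) (hz : z ∈ V)
    (ht : τ z = z) : ∃ x : K, algebraMap K C x - z ∈ V.nonunits := by
  have := charZeroK h.rc
  obtain ⟨M, hfd, hn, zM, hzM, hσ⟩ := gal_near h z hz ht
  have := hfd
  have := hn
  have : IsGalois K M := ⟨⟩
  let y : M := ∑ σ : M ≃ₐ[K] M, σ zM
  have h1 : y ∈ (⊥ : IntermediateField K M) := by
    rw [IsGalois.mem_bot_iff_fixed]
    intro ρ
    show ρ (∑ σ : M ≃ₐ[K] M, σ zM) = ∑ σ : M ≃ₐ[K] M, σ zM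
    rw [map_sum]
    exact Fintype.sum_equiv (Equiv.mulLeft ρ) _ _ (fun σ => rfl)
  rw [IntermediateField.mem_bot] at h1
  obtain ⟨x, hx⟩ := h1
  have hN : 0 < Fintype.card (M ≃ₐ[K] M) := Fintype.card_pos
  obtain ⟨hN1, hN2⟩ := inv_nat h.rc h.nv _ hN
  refine ⟨((Fintype.card (M ≃ₐ[K] M) : ℕ) : K)⁻¹ * x, ?_⟩
  have e1 : algebraMap K C x = ∑ σ : M ≃ₐ[K] M, ((σ zM : M) : C) := by
    have : algebraMap K C x = ((algebraMap K M x : M) : C) := rfl
    rw [this, hx]
    exact map_sum (algebraMap M C) _ _
  have e2 : algebraMap K C (((Fintype.card (M ≃ₐ[K] M) : ℕ) : K)⁻¹ * x) - z =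
      ((Fintype.card (M ≃ₐ[K] M) : ℕ) : C)⁻¹ * ∑ σ : M ≃ₐ[K] M, (((σ zM : M) : C) - z) := by
    rw [Finset.sum_sub_distrib, Finset.sum_const, map_mul, map_inv₀, map_natCast, e1,
      Finset.card_univ, nsmul_eq_mul, mul_sub, inv_mul_cancel_left₀ hN1]
  rw [e2]
  exact mul_nu V hN2 (sum_mem fun σ _ => hσ σ)

theorem tau_mem {V : ValuationSubring C} {τ : C ≃ₐ[K] C} (h : St K R i V τ) (z : C) :
    (z ∈ V → τ z ∈ V) ∧ (z ∈ V.nonunits → τ z ∈ V.nonunits) := by
  obtain ⟨a, b, rfl⟩ := h.rc.gen z
  have e1 : τ (algebraMap R C a + algebraMap R C b * i) =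
      algebraMap R C a + algebraMap R C (-b) * i := by
    rw [map_add, map_mul, h.tr, h.tr, h.ti, map_neg]
    ring
  rw [e1, h.nv.1, h.nv.1, h.nv.2, h.nv.2, neg_sq]
  exact ⟨id, id⟩

end gal

/-! ### The valuation ring of `K` -/

section main

variable {K R C : Type} [Field K] [LinearOrder K] [Field R] [LinearOrder R] [Field C]
  [Algebra K R] [Algebra R C] [Algebra K C] {i : C}

theorem nu_iff (V : ValuationSubring C) (x : K) :
    x ∈ (V.comap (algebraMap K C)).nonunits ↔ algebraMap K C x ∈ V.nonunits := by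
  rw [ValuationSubring.mem_nonunits_iff_or, ValuationSubring.mem_nonunits_iff_or,
    ValuationSubring.mem_comap, map_inv₀, map_eq_zero]

/-- the inclusion -/
def jj (K : Type) [Field K] {C : Type} [Field C] [Algebra K C] (V : ValuationSubring C) :
    V.comap (algebraMap K C) →+* V :=
  RingHom.codRestrict ((algebraMap K C).comp (V.comap (algebraMap K C)).subtype) V
    (fun x => x.2)

theorem jj_coe (V : ValuationSubring C) (x : V.comap (algebraMap K C)) :
    ((jj K V x : V) : C) = algebraMap K C x := rfl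

theorem jj_inj (V : ValuationSubring C) : Function.Injective (jj K V) := by
  intro x y hxy
  apply Subtype.ext
  apply (algebraMap K C).injective
  rw [← jj_coe, ← jj_coe, hxy]

theorem jj_max (V : ValuationSubring C) (x : V.comap (algebraMap K C)) :
    x ∈ IsLocalRing.maximalIdeal (V.comap (algebraMap K C)) ↔
      jj K V x ∈ IsLocalRing.maximalIdeal V := by
  rw [← ValuationSubring.coe_mem_nonunits_iff, ← ValuationSubring.coe_mem_nonunits_iff, nu_iff,
    jj_coe]

theorem eval_jj (V : ValuationSubring C) (f : (V.comap (algebraMap K C))[X]) (w : V) :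
    (((f.map (jj K V)).eval w : V) : C) =
      aeval (w : C) (f.map (V.comap (algebraMap K C)).subtype) := by
  rw [eval_map, aeval_def, eval₂_map]
  exact hom_eval₂ f (jj K V) V.subtype w

theorem root_jj (V : ValuationSubring C) (f : (V.comap (algebraMap K C))[X]) (w : V) :
    (f.map (jj K V)).IsRoot w ↔
      aeval (w : C) (f.map (V.comap (algebraMap K C)).subtype) = 0 := by
  rw [← eval_jj, IsRoot]
  constructor
  · intro h
    rw [h]; rfl
  · intro h
    exact Subtype.ext h

theorem nu_mem {V : ValuationSubring C} {x : C} (hx : x ∈ V.nonunits) : x ∈ V :=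
  V.nonunits_le hx

theorem hensel {V : ValuationSubring C} {τ : C ≃ₐ[K] C} (h : St K R i V τ) :
    HenselianLocalRing (V.comap (algebraMap K C)) := by
  have := h.rc.acl
  refine { is_henselian := ?_ }
  intro f hf a ha hda
  have hfV : (f.map (jj K V)).Monic := hf.map _
  have hev : (f.map (jj K V)).eval (jj K V a) ∈ IsLocalRing.maximalIdeal V := by
    rw [eval_map_apply, ← jj_max]
    exact ha
  obtain ⟨z, hz, hza⟩ := root_near V _ _ hfV rfl _ hev
  have hun : ∀ w : V, (f.map (jj K V)).IsRoot w →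
      jj K V a - w ∈ IsLocalRing.maximalIdeal V → w = z := by
    intro w hw hwa
    by_contra hne
    have h1 := root_uniq V hz hw hne hza hwa
    rw [derivative_map, eval_map_apply, ← jj_max] at h1
    exact (IsLocalRing.mem_maximalIdeal _).1 h1 hda
  have hza' : algebraMap K C a - z ∈ V.nonunits := by
    have := (ValuationSubring.coe_mem_nonunits_iff (A := V)).2 hza
    exact this
  have hzK := (root_jj V f z).1 hz
  have hτz : τ (z : C) = z := by
    have h1 : aeval (τ (z : C)) (f.map (V.comap (algebraMap K C)).subtype) = 0 := by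
      have := aeval_algHom_apply (τ : C →ₐ[K] C) (z : C) (f.map (V.comap (algebraMap K C)).subtype)
      rw [hzK, map_zero] at this
      exact this
    have h2 : τ (z : C) ∈ V := (tau_mem h _).1 z.2
    have h3 : (⟨τ (z : C), h2⟩ : V) = z := by
      apply hun
      · rw [root_jj]
        exact h1
      · rw [← ValuationSubring.coe_mem_nonunits_iff]
        have := (tau_mem h _).2 hza'
        rw [map_sub, AlgEquiv.commutes] at this
        exact this
    exact congrArg Subtype.val h3
  obtain ⟨x, hx⟩ := descend h z z.2 hτz (fun w hw hwz => by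
    have hwV : w ∈ V := by
      have := add_mem (nu_mem hwz) z.2
      rwa [sub_add_cancel] at this
    have h3 : (⟨w, hwV⟩ : V) = z := by
      apply hun
      · rw [root_jj]
        obtain ⟨g, hg⟩ := minpoly.dvd K (z : C) hzK
        rw [hg, map_mul]
        show aeval w _ * _ = 0
        rw [hw, zero_mul]
      · rw [← ValuationSubring.coe_mem_nonunits_iff]
        have h5 := sub_mem hza' hwz
        have e : algebraMap K C a - z - (w - z) = algebraMap K C a - w := by ring
        rw [e] at h5
        exact h5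
    exact congrArg Subtype.val h3)
  have hxO : x ∈ V.comap (algebraMap K C) := by
    rw [ValuationSubring.mem_comap, hx]
    exact z.2
  have hjx : jj K V ⟨x, hxO⟩ = z := Subtype.ext hx
  refine ⟨⟨x, hxO⟩, ?_, ?_⟩
  · apply jj_inj (K := K) V
    rw [map_zero, ← eval_map_apply, hjx]
    exact hz
  · rw [jj_max, map_sub, hjx, ← neg_sub]
    exact neg_mem hza

theorem real {V : ValuationSubring C} {τ : C ≃ₐ[K] C} (h : St K R i V τ) (n : ℕ)
    (f : Fin n → IsLocalRing.ResidueField (V.comap (algebraMap K C))) :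
    ∑ j, f j ^ 2 ≠ -1 := by
  intro hs
  have := h.rc.ord
  have := h.rc.ordK
  choose g hg using fun j => IsLocalRing.residue_surjective (f j)
  have h1 : IsLocalRing.residue _ (1 + ∑ j, g j ^ 2) = 0 := by
    rw [map_add, map_one, map_sum]
    simp only [map_pow, hg]
    rw [hs]; ring
  rw [IsLocalRing.residue_eq_zero_iff, ← ValuationSubring.coe_mem_nonunits_iff, nu_iff,
    coeR h.rc, h.nv.2] at h1
  have h2 := h1 2 (by norm_num)
  have h3 : (1 : K) ≤ ((1 + ∑ j, g j ^ 2 : V.comap (algebraMap K C)) : K) := by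
    push_cast
    have : (0 : K) ≤ ∑ j, (g j : K) ^ 2 := Finset.sum_nonneg fun j _ => sq_nonneg _
    linarith
  have h4 : (1 : R) ≤ algebraMap K R ((1 + ∑ j, g j ^ 2 : V.comap (algebraMap K C)) : K) := by
    rw [← map_one (algebraMap K R)]
    exact h.rc.mono.monotone h3
  have key : ∀ A : R, 1 ≤ A → (A ^ 2 + 0 ^ 2) * ((2 : ℕ) : R) ≤ 1 → False := by
    intro A hA hA2
    push_cast at hA2
    nlinarith
  exact key _ h4 h2

theorem sqr {V : ValuationSubring C} {τ : C ≃ₐ[K] C} (h : St K R i V τ)
    (x : V.comap (algebraMap K C)) (hx : 0 ≤ (x : K)) :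
    ∃ b : IsLocalRing.ResidueField (V.comap (algebraMap K C)), b ^ 2 =
      IsLocalRing.residue _ x := by
  have := h.rc.ord
  have := h.rc.ordK
  have := h.rc.rc
  have := h.rc.tower
  by_cases hm : x ∈ IsLocalRing.maximalIdeal (V.comap (algebraMap K C))
  · refine ⟨0, ?_⟩
    rw [(IsLocalRing.residue_eq_zero_iff x).2 hm]
    simp
  · have h0 : (0 : R) ≤ algebraMap K R (x : K) := by
      rw [← map_zero (algebraMap K R)]
      exact h.rc.mono.monotone hx
    obtain ⟨s, hs⟩ := IsRealClosed.nonneg_iff_isSquare.1 h0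
    have hz2 : algebraMap R C s * algebraMap R C s = algebraMap K C x := by
      rw [← map_mul, ← hs, ← IsScalarTower.algebraMap_apply]
    have hzV : algebraMap R C s ∈ V := by
      refine root_int V (f := X ^ 2 - Polynomial.C (jj K V x))
        (monic_X_pow_sub_C _ (by norm_num)) ?_
      rw [map_sub, map_pow, aeval_X, aeval_C, pow_two, hz2]
      exact sub_self _
    have hnz : algebraMap R C s ∉ V.nonunits := by
      intro hc
      apply hm
      rw [← ValuationSubring.coe_mem_nonunits_iff, nu_iff, ← hz2]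
      exact mul_nu V hzV hc
    obtain ⟨y, hy⟩ := descend h (algebraMap R C s) hzV (h.tr s) (fun w hw hwz => by
      obtain ⟨g, hg⟩ := minpoly.dvd K (algebraMap R C s) (p := X ^ 2 - Polynomial.C (x : K)) (by
        rw [map_sub, map_pow, aeval_X, aeval_C, pow_two, hz2]
        exact sub_self _)
      have h1 : aeval w (X ^ 2 - Polynomial.C (x : K)) = 0 := by
        rw [hg, map_mul, hw, zero_mul]
      rw [map_sub, map_pow, aeval_X, aeval_C, ← hz2, ← pow_two, sub_eq_zero] at h1
      rcases sq_eq_sq_iff_eq_or_eq_neg.1 h1 with h2 | h2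
      · exact h2
      · exfalso
        apply hnz
        obtain ⟨h3, h4⟩ := inv_nat h.rc h.nv 2 (by norm_num)
        have h5 := mul_nu V h4 (neg_mem hwz)
        rw [h2] at h5
        have e : ((2 : ℕ) : C)⁻¹ * -(-algebraMap R C s - algebraMap R C s) =
            algebraMap R C s := by
          field_simp
          push_cast
          ring
        rwa [e] at h5)
    have hyO : y ∈ V.comap (algebraMap K C) := by
      rw [ValuationSubring.mem_comap, hy]
      exact hzV
    refine ⟨IsLocalRing.residue _ ⟨y, hyO⟩, ?_⟩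
    rw [← map_pow]
    congr 1
    apply Subtype.ext
    apply (algebraMap K C).injective
    show algebraMap K C (y ^ 2) = _
    rw [map_pow, hy, pow_two, hz2]

theorem odd {V : ValuationSubring C} {τ : C ≃ₐ[K] C} (h : St K R i V τ)
    (p : Polynomial (IsLocalRing.ResidueField (V.comap (algebraMap K C))))
    (hp : Odd p.natDegree) : ∃ x, p.IsRoot x := by
  have := h.rc.rc
  have := h.rc.tower
  have hp0 : p ≠ 0 := by
    rintro rfl
    simp at hp
  have hl : p.leadingCoeff⁻¹ ≠ 0 := inv_ne_zero (leadingCoeff_ne_zero.2 hp0)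
  let p1 := Polynomial.C (p.leadingCoeff⁻¹) * p
  have hp1 : p1.Monic := by
    show (Polynomial.C (p.leadingCoeff⁻¹) * p).Monic
    rw [mul_comm]
    exact monic_mul_leadingCoeff_inv hp0
  have hp1d : p1.natDegree = p.natDegree := natDegree_C_mul hl
  obtain ⟨f, hf1, hf2, hf3⟩ := lifts_and_natDegree_eq_and_monic
    (f := IsLocalRing.residue (V.comap (algebraMap K C))) (p := p1)
    ((mem_lifts p1).2 (map_surjective _ IsLocalRing.residue_surjective p1)) hp1
  let fR : R[X] := f.map ((algebraMap K R).comp (V.comap (algebraMap K C)).subtype)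
  have hfR : Odd fR.natDegree := by
    show Odd (f.map _).natDegree
    rw [hf3.natDegree_map, hf2, hp1d]
    exact hp
  obtain ⟨s, hs⟩ := IsRealClosed.exists_isRoot_of_odd_natDegree hfR
  have hs1 : aeval (algebraMap R C s) (f.map (V.comap (algebraMap K C)).subtype) = 0 := by
    rw [aeval_def, eval₂_map]
    have h1 : algebraMap R C (fR.eval s) = 0 := by
      rw [hs.eq_zero, map_zero]
    rw [eval_map, hom_eval₂] at h1
    rw [← h1]
    congr 1
    ext y
    show algebraMap K C _ = algebraMap R C (algebraMap K R _)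
    exact IsScalarTower.algebraMap_apply K R C _
  have hzV : algebraMap R C s ∈ V := by
    refine root_int V (f := f.map (jj K V)) (hf3.map _) ?_
    rw [← hs1, aeval_def, aeval_def, eval₂_map, eval₂_map]
    rfl
  obtain ⟨x, hx⟩ := avg h (algebraMap R C s) hzV (h.tr s)
  have hxO : x ∈ V.comap (algebraMap K C) := by
    rw [ValuationSubring.mem_comap]
    have := add_mem (nu_mem hx) hzV
    rwa [sub_add_cancel] at this
  have hroot : (f.map (jj K V)).IsRoot ⟨algebraMap R C s, hzV⟩ := by
    rw [root_jj]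
    exact hs1
  have h1 : f.eval ⟨x, hxO⟩ ∈ IsLocalRing.maximalIdeal (V.comap (algebraMap K C)) := by
    rw [jj_max, ← eval_map_apply]
    have h2 := sub_dvd_eval_sub (jj K V ⟨x, hxO⟩) ⟨algebraMap R C s, hzV⟩ (f.map (jj K V))
    rw [hroot.eq_zero, sub_zero] at h2
    refine Ideal.mem_of_dvd _ h2 ?_
    rw [← ValuationSubring.coe_mem_nonunits_iff]
    exact hx
  refine ⟨IsLocalRing.residue _ ⟨x, hxO⟩, ?_⟩
  have h3 : p1.eval (IsLocalRing.residue _ ⟨x, hxO⟩) = 0 := by
    rw [← hf1, eval_map_apply]
    exact (IsLocalRing.residue_eq_zero_iff _).2 h1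
  have h4 : p.leadingCoeff⁻¹ * p.eval (IsLocalRing.residue _ ⟨x, hxO⟩) = 0 := by
    rw [← h3]
    show _ = (Polynomial.C (p.leadingCoeff⁻¹) * p).eval _
    rw [eval_mul, eval_C]
  rcases mul_eq_zero.1 h4 with h5 | h5
  · exact absurd h5 hl
  · exact h5

end main

end HEN_

theorem p_HEN : T_HEN := by
  intro K R C _ _ _ _ _ _ _ _ i h V hv hT
  have := h.ord
  have := h.tower
  obtain ⟨τ, hτ⟩ := HEN_.exists_conj h.sq h.gen
  have hst : HEN_.St K R i V (τ.restrictScalars K) :=
    { rc := h
      nv := hv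
      tm := hT
      ti := by
        have := hτ 0 1
        simpa using this
      tr := fun a => τ.commutes a }
  refine ⟨V.comap (algebraMap K C), HEN_.hensel hst, HEN_.real hst, ?_, HEN_.odd hst⟩
  intro c
  obtain ⟨x, rfl⟩ := IsLocalRing.residue_surjective c
  have := h.ordK
  rcases le_total 0 (x : K) with h0 | h0
  · obtain ⟨b, hb⟩ := HEN_.sqr hst x h0
    exact ⟨b, Or.inl hb⟩
  · obtain ⟨b, hb⟩ := HEN_.sqr hst (-x) (by
      have : ((-x : V.comap (algebraMap K C)) : K) = -(x : K) := rfl
      rw [this]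
      linarith)
    exact ⟨b, Or.inr (by rw [hb, map_neg])⟩

end NFW
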