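import Pool.Agent.NFW.Targets3

/-!
# NFW: the property `Hq` passes to unramified Kummer extensions
-/

set_option autoImplicit false

open Polynomial

noncomputable section

namespace NFW

namespace HPL_

/-- `(τ - 1) ^ q` is divisible by `q` if `τ ^ q = 1` -/
theorem nil {M : Type} [AddCommGroup M] (τ : AddMonoid.End M) {q : ℕ} (hq : q.Prime)
    (hτ : τ ^ q = 1) (x : M) : ∃ y : M, ((τ - 1) ^ q) x = q • y := by
  obtain ⟨r, hr⟩ := exists_add_pow_prime_eq hq (X : ℤ[X]) (-1)
  obtain ⟨s, hs⟩ : ∃ s : ℤ[X], (-1 : ℤ[X]) ^ q = -1 + (q : ℤ[X]) * s := by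
    rcases hq.eq_two_or_odd' with rfl | h
    · exact ⟨1, by norm_num⟩
    · exact ⟨0, by rw [h.neg_one_pow]; ring⟩
  have h1 : ((X : ℤ[X]) - 1) ^ q = X ^ q - 1 + (q : ℤ[X]) * (s + X * (-1) * r) := by
    rw [sub_eq_add_neg, hr, hs]; ring
  have h2 := congrArg (aeval τ) h1
  simp only [map_pow, map_sub, map_add, map_mul, aeval_X, map_one, map_natCast, hτ, sub_self,
    zero_add] at h2
  refine ⟨(aeval τ s + τ * (aeval τ) (-1 : ℤ[X]) * (aeval τ) r) x, ?_⟩
  rw [h2]
  exact AddMonoid.End.natCast_apply q _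

theorem ind {M : Type} [AddCommGroup M] (τ : AddMonoid.End M) {q : ℕ} (hq : q.Prime)
    (hτ : τ ^ q = 1) (U : AddSubgroup M) (hU : ∀ u ∈ U, τ u ∈ U)
    (h1 : ∀ x ∈ U, (∃ y, τ x - x = q • y) → ∃ y, x = q • y) :
    ∀ x ∈ U, ∃ y, x = q • y := by
  have key : ∀ k : ℕ, ∀ x ∈ U, (∃ y, ((τ - 1) ^ k) x = q • y) → ∃ y, x = q • y := by
    intro k
    induction k with
    | zero =>
      rintro x - ⟨y, hy⟩
      exact ⟨y, by simpa using hy⟩
    | succ k ih =>
      rintro x hx ⟨y, hy⟩
      rw [pow_succ] at hy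
      change ((τ - 1) ^ k) ((τ - 1) x) = q • y at hy
      have h2 : (τ - 1) x = τ x - x := rfl
      refine h1 x hx ?_
      have h3 := ih ((τ - 1) x) (by rw [h2]; exact U.sub_mem (hU x hx) hx) ⟨y, hy⟩
      rwa [h2] at h3
  exact fun x hx => key q x hx (nil τ hq hτ x)

section

variable {L : Type} [Field L] (O : ValuationSubring L)

theorem mem_of_pow {q : ℕ} (hq : 0 < q) {w : L} (h : w ^ q ∈ O) : w ∈ O := by
  rw [← ValuationSubring.valuation_le_one_iff] at h ⊢
  rw [map_pow] at h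
  exact (pow_le_one_iff_of_nonneg zero_le hq.ne').1 h

theorem mem_U {u : Lˣ} : u ∈ O.principalUnitGroup ↔ (u : L) - 1 ∈ O.nonunits := Iff.rfl

theorem mul_nonunits {a b : L} (ha : a ∈ O) (hb : b ∈ O.nonunits) : a * b ∈ O.nonunits := by
  rw [ValuationSubring.mem_nonunits_iff] at hb ⊢
  rw [map_mul]
  exact mul_lt_one_of_nonneg_of_lt_one_right ((O.valuation_le_one_iff a).2 ha) zero_le hb

theorem mem_of_nonunits {a : L} (ha : a ∈ O.nonunits) : a ∈ O := O.nonunits_le ha

theorem one_notMem : (1 : L) ∉ O.nonunits := by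
  rw [ValuationSubring.mem_nonunits_iff, map_one]
  exact lt_irrefl _

/-- a nonzero sum of `q` elements of `U` -/
theorem sum_U {q : ℕ} (f : ℕ → Lˣ) (hf : ∀ i, f i ∈ O.principalUnitGroup) :
    (∑ i ∈ Finset.range q, (f i : L)) - (q : L) ∈ O.nonunits := by
  have h : (∑ i ∈ Finset.range q, (f i : L)) - (q : L)
      = ∑ i ∈ Finset.range q, ((f i : L) - 1) := by
    rw [Finset.sum_sub_distrib]; simp
  rw [h]
  exact sum_mem fun i _ => (mem_U O).1 (hf i)

theorem ne_zero_of {q : ℕ} (hq : (q : L)⁻¹ ∈ O) (hq0 : (q : L) ≠ 0) {S : L}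
    (h : S - (q : L) ∈ O.nonunits) : S ≠ 0 := by
  rintro rfl
  rw [zero_sub] at h
  have h1 := mul_nonunits O hq (neg_mem h)
  rw [neg_neg, inv_mul_cancel₀ hq0] at h1
  exact one_notMem O h1

theorem torsion {q : ℕ} (hq : (q : L)⁻¹ ∈ O) (hq0 : (q : L) ≠ 0)
    {u : Lˣ} (hu : u ∈ O.principalUnitGroup) (h : u ^ q = 1) : u = 1 := by
  have h1 : ((u : L) - 1) * ∑ i ∈ Finset.range q, (u : L) ^ i = (u : L) ^ q - 1 :=
    mul_geom_sum (u : L) q
  have h2 : (u : L) ^ q = 1 := by rw [← Units.val_pow_eq_pow_val, h, Units.val_one]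
  rw [h2, sub_self] at h1
  have h3 := sum_U O (q := q) (fun i => u ^ i) fun i => Subgroup.pow_mem _ hu i
  have h4 := ne_zero_of O hq hq0 h3
  rcases mul_eq_zero.1 h1 with h5 | h5
  · exact Units.ext (sub_eq_zero.1 h5)
  · exact absurd (by simpa using h5) h4

theorem root {q : ℕ} (hq : q.Prime) {ζ : L} (hζ : IsPrimitiveRoot ζ q) (w : Lˣ)
    (hw : w ^ q ∈ O.principalUnitGroup) :
    ∃ y : Lˣ, y ∈ O.principalUnitGroup ∧ y ^ q = w ^ q := by
  have hne : NeZero q := ⟨hq.ne_zero⟩
  have h1 : (w : L) ^ q - 1 ∈ O.nonunits := by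
    have := (mem_U O).1 hw
    simpa using this
  have h2 := hζ.pow_sub_pow_eq_prod_sub_mul (w : L) 1 hq.pos
  rw [one_pow] at h2
  have hwO : (w : L) ∈ O := by
    apply mem_of_pow O hq.pos
    have := O.add_mem _ _ (mem_of_nonunits O h1) O.one_mem
    rwa [sub_add_cancel] at this
  have h3 : ∃ μ ∈ nthRootsFinset q (1 : L), (w : L) - μ * 1 ∈ O.nonunits := by
    by_contra hcon
    push Not at hcon
    have h4 : ∀ s : Finset L, (∀ μ ∈ s, (w : L) - μ * 1 ∉ O.nonunits) →
        ∏ μ ∈ s, ((w : L) - μ * 1) ∉ O.nonunits := by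
      intro s
      classical
      induction s using Finset.induction_on with
      | empty => intro _; rw [Finset.prod_empty]; exact one_notMem O
      | insert a s ha ih =>
        intro h
        rw [Finset.prod_insert ha]
        have h5 := h a (Finset.mem_insert_self _ _)
        have h6 := ih fun μ hμ => h μ (Finset.mem_insert_of_mem hμ)
        rw [ValuationSubring.mem_nonunits_iff, not_lt] at h5 h6 ⊢
        rw [map_mul]
        exact one_le_mul_of_one_le_of_one_le h5 h6
    exact h4 _ hcon (h2 ▸ h1)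
  obtain ⟨μ, hμ, h5⟩ := h3
  have hμ1 : μ ^ q = 1 := (mem_nthRootsFinset hq.pos (1 : L)).1 hμ
  have hμ0 : μ ≠ 0 := by
    rintro rfl
    rw [zero_pow hq.ne_zero] at hμ1
    exact zero_ne_one hμ1
  rw [mul_one] at h5
  refine ⟨w * (Units.mk0 μ hμ0)⁻¹, ?_, ?_⟩
  · rw [mem_U]
    have h6 : μ⁻¹ ∈ O := by
      apply mem_of_pow O hq.pos
      rw [inv_pow, hμ1, inv_one]
      exact O.one_mem
    have h7 := mul_nonunits O h6 h5
    have h8 : ((w * (Units.mk0 μ hμ0)⁻¹ : Lˣ) : L) - 1 = μ⁻¹ * ((w : L) - μ) := by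
      rw [Units.val_mul, Units.val_inv_eq_inv_val, Units.val_mk0, mul_sub, inv_mul_cancel₀ hμ0,
        mul_comm]
    rw [h8]
    exact h7
  · have h9 : (Units.mk0 μ hμ0) ^ q = 1 := Units.ext (by simpa using hμ1)
    rw [mul_pow, inv_pow, h9, inv_one, mul_one]

/-- an element of norm one is a quotient -/
theorem hilb {q : ℕ} (hq : (q : L)⁻¹ ∈ O) (hq0 : (q : L) ≠ 0)
    (σ : L ≃+* L) (hU : ∀ u ∈ O.principalUnitGroup, Units.map (σ : L →* L) u ∈
      O.principalUnitGroup) (y : Lˣ) (hy : y ∈ O.principalUnitGroup)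
    (hN : ∏ i ∈ Finset.range q, ((Units.map (σ : L →* L)) : Lˣ → Lˣ)^[i] y = 1) :
    ∃ z : Lˣ, z ∈ O.principalUnitGroup ∧ y * Units.map (σ : L →* L) z = z := by
  set s : Lˣ →* Lˣ := Units.map (σ : L →* L) with hs
  set f : ℕ → Lˣ := fun j => ∏ i ∈ Finset.range j, (s : Lˣ → Lˣ)^[i] y with hf
  have hit : ∀ i, (s : Lˣ → Lˣ)^[i] y ∈ O.principalUnitGroup := by
    intro i
    induction i with
    | zero => exact hy
    | succ i ih => rw [Function.iterate_succ_apply']; exact hU _ ih
  have hfU : ∀ j, f j ∈ O.principalUnitGroup := fun j =>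
    Subgroup.prod_mem _ fun i _ => hit i
  have hstep : ∀ j, y * s (f j) = f (j + 1) := by
    intro j
    simp only [hf]
    rw [Finset.prod_range_succ', map_prod, mul_comm]
    congr 1
    exact Finset.prod_congr rfl fun i _ => (Function.iterate_succ_apply' _ _ _).symm
  have hsum := sum_U O (q := q) f hfU
  set S : L := ∑ i ∈ Finset.range q, (f i : L) with hS
  have hS0 : S ≠ 0 := ne_zero_of O hq hq0 hsum
  have h1 : (y : L) * σ S = S := by
    rw [hS, map_sum, Finset.mul_sum]
    have h2 : ∀ i, (y : L) * σ (f i : L) = (f (i + 1) : L) := fun i => by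
      have := congrArg Units.val (hstep i)
      rw [Units.val_mul] at this
      exact this
    simp only [h2]
    have h3 := Finset.sum_range_succ' (fun i => (f i : L)) q
    have h4 := Finset.sum_range_succ (fun i => (f i : L)) q
    have h5 : (f q : L) = (f 0 : L) := by
      have : f q = f 0 := by
        simp only [hf]
        rw [hN, Finset.prod_range_zero]
      rw [this]
    rw [h4, h5] at h3
    exact (add_right_cancel h3).symm
  have hz0 : S * (q : L)⁻¹ ≠ 0 := mul_ne_zero hS0 (inv_ne_zero hq0)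
  refine ⟨Units.mk0 (S * (q : L)⁻¹) hz0, ?_, ?_⟩
  · rw [mem_U, Units.val_mk0]
    have h6 := mul_nonunits O hq hsum
    have h7 : S * (q : L)⁻¹ - 1 = (q : L)⁻¹ * (S - (q : L)) := by
      rw [mul_sub, inv_mul_cancel₀ hq0, mul_comm]
    rw [h7]
    exact h6
  · apply Units.ext
    rw [Units.val_mul, Units.val_mk0]
    change (y : L) * σ (S * (q : L)⁻¹) = _
    rw [map_mul, map_inv₀, map_natCast, ← mul_assoc, h1]

/-- the main step, for a fixed class -/
theorem step {q : ℕ} (hqp : q.Prime) {ζ : L} (hζ : IsPrimitiveRoot ζ q)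
    (hq : (q : L)⁻¹ ∈ O) (hq0 : (q : L) ≠ 0)
    (σ : L ≃+* L) (hU : ∀ u ∈ O.principalUnitGroup, Units.map (σ : L →* L) u ∈
      O.principalUnitGroup)
    (hord : ∀ u : Lˣ, ((Units.map (σ : L →* L)) : Lˣ → Lˣ)^[q] u = u)
    (hfix : ∀ u ∈ O.principalUnitGroup, Units.map (σ : L →* L) u = u → ∃ w : Lˣ, u = w ^ q)
    (x : Lˣ) (hx : x ∈ O.principalUnitGroup)
    (h : ∃ w : Lˣ, Units.map (σ : L →* L) x = x * w ^ q) : ∃ w : Lˣ, x = w ^ q := by
  set s : Lˣ →* Lˣ := Units.map (σ : L →* L) with hs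
  obtain ⟨w, hw⟩ := h
  have hwU : w ^ q ∈ O.principalUnitGroup := by
    have h1 : w ^ q = x⁻¹ * s x := by rw [hw, inv_mul_cancel_left]
    rw [h1]
    exact Subgroup.mul_mem _ (Subgroup.inv_mem _ hx) (hU x hx)
  obtain ⟨y, hy, hyw⟩ := root O hqp hζ w hwU
  rw [← hyw] at hw
  have hit : ∀ i, (s : Lˣ → Lˣ)^[i] y ∈ O.principalUnitGroup := by
    intro i
    induction i with
    | zero => exact hy
    | succ i ih => rw [Function.iterate_succ_apply']; exact hU _ ih
  have hpow : ∀ j, (∏ i ∈ Finset.range j, (s : Lˣ → Lˣ)^[i] y) ^ q * x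
      = (s : Lˣ → Lˣ)^[j] x := by
    intro j
    induction j with
    | zero => simp
    | succ j ih =>
      rw [Finset.prod_range_succ, mul_pow, mul_right_comm, ih, Function.iterate_succ_apply]
      rw [hw]
      have h2 : ∀ (j : ℕ) (a b : Lˣ), (s : Lˣ → Lˣ)^[j] (a * b ^ q)
          = (s : Lˣ → Lˣ)^[j] a * ((s : Lˣ → Lˣ)^[j] b) ^ q := by
        intro j
        induction j with
        | zero => intro a b; rfl
        | succ j ih2 =>
          intro a b
          rw [Function.iterate_succ_apply', Function.iterate_succ_apply',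
            Function.iterate_succ_apply', ih2, map_mul, map_pow]
      rw [h2]
  have hN : ∏ i ∈ Finset.range q, (s : Lˣ → Lˣ)^[i] y = 1 := by
    apply torsion O hq hq0
    · exact Subgroup.prod_mem _ fun i _ => hit i
    · have h3 := hpow q
      rw [hord x] at h3
      exact mul_eq_right.1 h3
  obtain ⟨z, hz, hyz⟩ := hilb O hq hq0 σ hU y hy hN
  have h4 : s (x * z ^ q) = x * z ^ q := by
    rw [map_mul, map_pow, hw, mul_assoc, ← mul_pow]
    change x * (y * (Units.map (σ : L →* L)) z) ^ q = _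
    rw [hyz]
  obtain ⟨v, hv⟩ := hfix (x * z ^ q) (Subgroup.mul_mem _ hx (Subgroup.pow_mem _ hz q)) h4
  refine ⟨v * z⁻¹, ?_⟩
  rw [mul_pow, ← hv, inv_pow, mul_inv_cancel_right]

theorem all {q : ℕ} (hqp : q.Prime) {ζ : L} (hζ : IsPrimitiveRoot ζ q)
    (hq : (q : L)⁻¹ ∈ O) (hq0 : (q : L) ≠ 0)
    (σ : L ≃+* L) (hU : ∀ u ∈ O.principalUnitGroup, Units.map (σ : L →* L) u ∈
      O.principalUnitGroup)
    (hord : ∀ u : Lˣ, ((Units.map (σ : L →* L)) : Lˣ → Lˣ)^[q] u = u)
    (hfix : ∀ u ∈ O.principalUnitGroup, Units.map (σ : L →* L) u = u → ∃ w : Lˣ, u = w ^ q)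
    (x : Lˣ) (hx : x ∈ O.principalUnitGroup) : ∃ w : Lˣ, x = w ^ q := by
  set s : Lˣ →* Lˣ := Units.map (σ : L →* L) with hs
  let τ : AddMonoid.End (Additive Lˣ) := MonoidHom.toAdditive s
  have hτk : ∀ (k : ℕ) (u : Lˣ), (τ ^ k) (Additive.ofMul u)
      = Additive.ofMul ((s : Lˣ → Lˣ)^[k] u) := by
    intro k
    induction k with
    | zero => intro u; rfl
    | succ k ih =>
      intro u
      rw [pow_succ, Function.iterate_succ_apply, ← ih]
      rfl
  have hτ : τ ^ q = 1 := by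
    apply AddMonoidHom.ext
    intro u
    have := hτk q u.toMul
    rw [hord] at this
    exact this
  have := ind τ hqp hτ (Subgroup.toAddSubgroup O.principalUnitGroup)
    (fun u hu => hU u.toMul hu) (by
      rintro u hu ⟨y, hy⟩
      have h1 : s u.toMul = u.toMul * y.toMul ^ q := by
        have : τ u = u + q • y := by rw [← hy]; abel
        exact this
      obtain ⟨w, hw⟩ := step O hqp hζ hq hq0 σ hU hord hfix u.toMul hu ⟨y.toMul, h1⟩
      exact ⟨Additive.ofMul w, hw⟩) (Additive.ofMul x) hx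
  obtain ⟨w, hw⟩ := this
  exact ⟨w.toMul, hw⟩

end

theorem expand {N L : Type} [Field N] [Field L] [Algebra N L] {q : ℕ} (hq : 0 < q) (δ : L) (d : N)
    (hδ : δ ^ q = algebraMap N L d) (htop : IntermediateField.adjoin N {δ} = ⊤) (x : L) :
    ∃ a : Fin q → N, x = ∑ j, algebraMap N L (a j) * δ ^ (j : ℕ) := by
  have hint : IsIntegral N δ := IsIntegral.of_pow hq (by rw [hδ]; exact isIntegral_algebraMap)
  have hA : Algebra.adjoin N {δ} = ⊤ := by
    rw [← IntermediateField.adjoin_simple_toSubalgebra_of_isAlgebraic hint.isAlgebraic, htop]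
    rfl
  have hx : x ∈ Algebra.adjoin N {δ} := by rw [hA]; exact Algebra.mem_top
  rw [Algebra.adjoin_singleton_eq_range_aeval] at hx
  obtain ⟨p, rfl⟩ := hx
  have hmon : (X ^ q - C d : N[X]).Monic := monic_X_pow_sub_C d hq.ne'
  have h1 : aeval δ p = aeval δ (p %ₘ (X ^ q - C d)) := by
    conv_lhs => rw [← modByMonic_add_div p (X ^ q - C d)]
    rw [map_add, map_mul]
    simp [hδ]
  have h2 : (p %ₘ (X ^ q - C d)).natDegree < q := by
    have := natDegree_modByMonic_lt p hmon (by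
      intro h
      have := congrArg natDegree h
      rw [natDegree_X_pow_sub_C, natDegree_one] at this
      omega)
    rwa [natDegree_X_pow_sub_C] at this
  refine ⟨fun j => (p %ₘ (X ^ q - C d)).coeff j, ?_⟩
  change aeval δ p = _
  rw [h1, aeval_eq_sum_range' h2, ← Fin.sum_univ_eq_sum_range
    (fun i => (p %ₘ (X ^ q - C d)).coeff i • δ ^ i)]
  exact Finset.sum_congr rfl fun i _ => Algebra.smul_def _ _

theorem aut {N L : Type} [Field N] [Field L] [Algebra N L] {q : ℕ} (hq : q.Prime) (ζ : N)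
    (hζ : IsPrimitiveRoot ζ q) (δ : L) (d : N) (hd : d ≠ 0) (hδ : δ ^ q = algebraMap N L d)
    (htop : IntermediateField.adjoin N {δ} = ⊤) (hirr : ∀ b : N, b ^ q ≠ d) :
    ∃ σ : L ≃ₐ[N] L, σ δ = algebraMap N L ζ * δ := by
  have hinj := (algebraMap N L).injective
  have hζ' : IsPrimitiveRoot (algebraMap N L ζ) q := hζ.map_of_injective hinj
  have hne : NeZero q := ⟨hq.ne_zero⟩
  have hqN : ((q : ℕ) : N) ≠ 0 := hζ.neZero'.out
  have hmap : (X ^ q - C d : N[X]).map (algebraMap N L) = X ^ q - C (algebraMap N L d) := by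
    simp
  have hint : IsIntegral N δ := IsIntegral.of_pow hq.pos (by
    rw [hδ]; exact isIntegral_algebraMap)
  have hA : Algebra.adjoin N {δ} = ⊤ := by
    rw [← IntermediateField.adjoin_simple_toSubalgebra_of_isAlgebraic hint.isAlgebraic, htop]
    rfl
  have hsplit : (X ^ q - C d : N[X]).IsSplittingField N L := by
    refine ⟨?_, ?_⟩
    · rw [hmap]
      exact X_pow_sub_C_splits_of_isPrimitiveRoot hζ' hδ
    · rw [eq_top_iff, ← hA]
      refine Algebra.adjoin_mono (Set.singleton_subset_iff.2 ?_)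
      rw [mem_rootSet_of_ne (X_pow_sub_C_ne_zero hq.pos d)]
      simp [hδ]
  have : FiniteDimensional N L :=
    Polynomial.IsSplittingField.finiteDimensional L (X ^ q - C d : N[X])
  have : IsGalois N L :=
    IsGalois.of_separable_splitting_field (p := (X ^ q - C d : N[X]))
      (separable_X_pow_sub_C d hqN hd)
  have hir : Irreducible (X ^ q - C d : N[X]) := X_pow_sub_C_irreducible_of_prime hq hirr
  have hmon : (X ^ q - C d : N[X]).Monic := monic_X_pow_sub_C d hq.ne_zero
  have hc : IsConjRoot N (algebraMap N L ζ * δ) δ := by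
    have h1 : aeval δ (X ^ q - C d : N[X]) = 0 := by simp [hδ]
    have h2 : aeval (algebraMap N L ζ * δ) (X ^ q - C d : N[X]) = 0 := by
      simp [mul_pow, hδ, hζ'.pow_eq_one]
    have h3 := minpoly.eq_of_irreducible_of_monic hir h1 hmon
    have h4 := minpoly.eq_of_irreducible_of_monic hir h2 hmon
    exact h4.symm.trans h3
  exact hc.exists_algEquiv

end HPL_

open HPL_

theorem p_HPL : T_HPL := by
  intro N _ _ q ζ O hq hζ hQ0 hHq L _ _ δ d hδ htop hd hdi hpow hd0 OL hOL hOLm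
  have hinj := (algebraMap N L).injective
  have hζ' : IsPrimitiveRoot (algebraMap N L ζ) q := hζ.map_of_injective hinj
  have hirr : ∀ b : N, b ^ q ≠ d := by
    intro b hb
    have hbO : b ∈ O := mem_of_pow O hq.pos (hb ▸ hd)
    refine hpow b hbO ?_
    rw [hb, sub_self]
    exact zero_mem _
  obtain ⟨σ, hσ⟩ := aut hq ζ hζ δ d hd0 hδ htop hirr
  have hζO : ∀ k : ℕ, ζ ^ k ∈ O := fun k => by
    apply mem_of_pow O hq.pos
    rw [← pow_mul, mul_comm, pow_mul, hζ.pow_eq_one, one_pow]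
    exact O.one_mem
  -- the action of `σ` on expansions
  have hσa : ∀ a : Fin q → N, σ (∑ j, algebraMap N L (a j) * δ ^ (j : ℕ))
      = ∑ j : Fin q, algebraMap N L (ζ ^ (j : ℕ) * a j) * δ ^ (j : ℕ) := by
    intro a
    rw [map_sum]
    refine Finset.sum_congr rfl fun j _ => ?_
    rw [map_mul, map_pow, hσ, AlgEquiv.commutes, mul_pow, map_mul, map_pow]
    ring
  have hex := expand hq.pos δ d hδ htop
  -- elements of `N`
  have hN : ∀ a : N, algebraMap N L a ∈ OL.nonunits ↔ a ∈ O.nonunits := by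
    intro a
    have h0 : algebraMap N L a = ∑ j : Fin q, algebraMap N L
        (if (j : ℕ) = 0 then a else 0) * δ ^ (j : ℕ) := by
      rw [Finset.sum_eq_single (⟨0, hq.pos⟩ : Fin q)]
      · simp
      · intro b _ hb
        have : (b : ℕ) ≠ 0 := fun h => hb (Fin.ext h)
        simp [this]
      · intro h
        exact absurd (Finset.mem_univ _) h
    rw [h0, hOLm]
    constructor
    · intro h
      simpa using h ⟨0, hq.pos⟩
    · intro h j
      split_ifs
      · exact h
      · exact zero_mem _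
  have hN' : ∀ a : N, a ∈ O → algebraMap N L a ∈ OL := by
    intro a ha
    have h0 : algebraMap N L a = ∑ j : Fin q, algebraMap N L
        (if (j : ℕ) = 0 then a else 0) * δ ^ (j : ℕ) := by
      rw [Finset.sum_eq_single (⟨0, hq.pos⟩ : Fin q)]
      · simp
      · intro b _ hb
        have : (b : ℕ) ≠ 0 := fun h => hb (Fin.ext h)
        simp [this]
      · intro h
        exact absurd (Finset.mem_univ _) h
    rw [h0, hOL]
    intro j
    split_ifs
    · exact ha
    · exact zero_mem _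
  have hq0 : (q : L) ≠ 0 := by
    have := (hQ0 q hq.pos).1
    rw [← map_natCast (algebraMap N L)]
    exact (map_ne_zero_iff _ hinj).2 this
  have hqi : (q : L)⁻¹ ∈ OL := by
    have := hN' _ (hQ0 q hq.pos).2
    rwa [map_inv₀, map_natCast] at this
  have hσm : ∀ x ∈ OL.nonunits, σ x ∈ OL.nonunits := by
    intro x hx
    obtain ⟨a, rfl⟩ := hex x
    rw [hσa, hOLm]
    rw [hOLm] at hx
    exact fun j => mul_nonunits O (hζO j) (hx j)
  have hU : ∀ u ∈ OL.principalUnitGroup, Units.map ((σ : L ≃+* L) : L →* L) u ∈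
      OL.principalUnitGroup := by
    intro u hu
    rw [mem_U] at hu ⊢
    have h1 := hσm _ hu
    rw [map_sub, map_one] at h1
    exact h1
  have hσit : ∀ (k : ℕ) (a : Fin q → N), (σ : L → L)^[k] (∑ j, algebraMap N L (a j) * δ ^ (j : ℕ))
      = ∑ j : Fin q, algebraMap N L ((ζ ^ (j : ℕ)) ^ k * a j) * δ ^ (j : ℕ) := by
    intro k
    induction k with
    | zero => intro a; simp
    | succ k ih =>
      intro a
      rw [Function.iterate_succ_apply, hσa, ih]
      refine Finset.sum_congr rfl fun j _ => ?_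
      rw [pow_succ, mul_assoc]
  have hordL : ∀ x : L, (σ : L → L)^[q] x = x := by
    intro x
    obtain ⟨a, rfl⟩ := hex x
    rw [hσit]
    refine Finset.sum_congr rfl fun j _ => ?_
    rw [← pow_mul, mul_comm (j : ℕ) q, pow_mul, hζ.pow_eq_one, one_pow, one_mul]
  have hord : ∀ u : Lˣ, ((Units.map ((σ : L ≃+* L) : L →* L)) : Lˣ → Lˣ)^[q] u = u := by
    have h1 : ∀ (k : ℕ) (u : Lˣ), (((Units.map ((σ : L ≃+* L) : L →* L)) : Lˣ → Lˣ)^[k] u : L)
        = (σ : L → L)^[k] (u : L) := by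
      intro k
      induction k with
      | zero => intro u; rfl
      | succ k ih =>
        intro u
        rw [Function.iterate_succ_apply, Function.iterate_succ_apply, ih]
        rfl
    intro u
    exact Units.ext ((h1 q u).trans (hordL _))
  -- fixed elements
  have huniq : ∀ a : Fin q → N, ∑ j, algebraMap N L (a j) * δ ^ (j : ℕ) = 0 → ∀ j, a j = 0 := by
    intro a ha j
    by_contra hj
    have h1 : ∑ i, algebraMap N L ((a j)⁻¹ * a i) * δ ^ (i : ℕ) = 0 := by
      have : ∑ i, algebraMap N L ((a j)⁻¹ * a i) * δ ^ (i : ℕ)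
          = algebraMap N L (a j)⁻¹ * ∑ i, algebraMap N L (a i) * δ ^ (i : ℕ) := by
        rw [Finset.mul_sum]
        refine Finset.sum_congr rfl fun i _ => ?_
        rw [map_mul, mul_assoc]
      rw [this, ha, mul_zero]
    have h2 := (hOLm (fun i => (a j)⁻¹ * a i)).1 (by rw [h1]; exact zero_mem _) j
    simp only [inv_mul_cancel₀ hj] at h2
    exact one_notMem O h2
  have hfix : ∀ u ∈ OL.principalUnitGroup, Units.map ((σ : L ≃+* L) : L →* L) u = u →
      ∃ w : Lˣ, u = w ^ q := by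
    intro u hu hfu
    obtain ⟨a, ha⟩ := hex (u : L)
    have h1 : σ (u : L) = u := congrArg Units.val hfu
    have h2 : ∀ j : Fin q, (ζ ^ (j : ℕ) - 1) * a j = 0 := by
      apply huniq
      have : ∑ j : Fin q, algebraMap N L ((ζ ^ (j : ℕ) - 1) * a j) * δ ^ (j : ℕ)
          = σ (u : L) - u := by
        conv_rhs => rw [ha]
        rw [hσa, ← Finset.sum_sub_distrib]
        refine Finset.sum_congr rfl fun j _ => ?_
        rw [← sub_mul, ← map_sub, sub_mul, one_mul]
      rw [this, h1, sub_self]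
    have h3 : ∀ j : Fin q, (j : ℕ) ≠ 0 → a j = 0 := by
      intro j hj
      rcases mul_eq_zero.1 (h2 j) with h | h
      · exact absurd (sub_eq_zero.1 h) (hζ.pow_ne_one_of_pos_of_lt hj j.2)
      · exact h
    have h4 : (u : L) = algebraMap N L (a ⟨0, hq.pos⟩) := by
      rw [ha, Finset.sum_eq_single (⟨0, hq.pos⟩ : Fin q)]
      · simp
      · intro b _ hb
        have : (b : ℕ) ≠ 0 := fun h => hb (Fin.ext h)
        rw [h3 b this, map_zero, zero_mul]
      · intro h
        exact absurd (Finset.mem_univ _) h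
    have h5 : a ⟨0, hq.pos⟩ - 1 ∈ O.nonunits := by
      rw [← hN, map_sub, map_one, ← h4]
      exact (mem_U OL).1 hu
    obtain ⟨w, hw0, hw⟩ := hHq _ h5
    rw [add_sub_cancel] at hw
    refine ⟨Units.mk0 (algebraMap N L w) ((map_ne_zero_iff _ hinj).2 hw0), Units.ext ?_⟩
    rw [Units.val_pow_eq_pow_val, Units.val_mk0, h4, hw, map_pow]
  intro x hx
  have hx0 : (1 : L) + x ≠ 0 := by
    intro h
    have h1 : x = -1 := by linear_combination h
    rw [h1] at hx
    have h2 := neg_mem hx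
    rw [neg_neg] at h2
    exact one_notMem OL h2
  obtain ⟨w, hw⟩ := all OL hq hζ' hqi hq0 (σ : L ≃+* L) hU hord hfix (Units.mk0 (1 + x) hx0)
    ((mem_U OL).2 (by rw [Units.val_mk0, add_sub_cancel_left]; exact hx))
  refine ⟨w, w.ne_zero, ?_⟩
  have := congrArg Units.val hw
  rwa [Units.val_mk0, Units.val_pow_eq_pow_val] at this

end NFW
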