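import Pool.Agent.NFW.Targets4

/-!
# NFW, job MAN: the main theorem, algebraic form
-/

set_option autoImplicit false

namespace NFW

/-- positive integers are units of `V` -/
theorem MAN_.q0 {R C : Type} [Field R] [LinearOrder R] [IsStrictOrderedRing R] [Field C]
    [Algebra R C] (i : C) (V : ValuationSubring C) (hV : NV (R := R) i V) : Q0 V := by
  intro n hn
  have hn' : (0 : R) < (n : R) := by exact_mod_cast hn
  have hn1 : (1 : R) ≤ (n : R) := by exact_mod_cast hn
  have hc : (n : C) = algebraMap R C (n : R) := by simp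
  refine ⟨?_, ?_⟩
  · rw [hc]
    intro h0
    have := (algebraMap R C).injective (h0.trans (map_zero (algebraMap R C)).symm)
    exact hn'.ne' this
  · have h1 : ((n : C))⁻¹ = algebraMap R C ((n : R)⁻¹) + algebraMap R C 0 * i := by
      rw [hc, map_inv₀]; simp
    rw [h1, hV.1]
    refine ⟨1, ?_⟩
    have h2 : (n : R)⁻¹ ≤ 1 := inv_le_one_of_one_le₀ hn1
    have h3 : (0 : R) ≤ (n : R)⁻¹ := by positivity
    have h4 : ((n : R)⁻¹) ^ 2 ≤ 1 := pow_le_one₀ h3 h2
    simpa using h4

theorem p_MAN (h_SET : T_SET) (h_VNT : T_VNT) (h_HUX : T_HUX) (h_AL2 : T_AL2)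
    (h_HEN : T_HEN) : T_MAN := by
  intro K _ _ _ hK
  obtain ⟨R, C, _, _, _, _, _, _, i, h⟩ := h_SET K
  have := h.ord
  have := h.acl
  obtain ⟨V, hV⟩ := h_VNT R C i h.sq h.gen
  have hHU : HU (K := K) V i := h_HUX K R C i h V hV hK
  have hq0 : Q0 V := MAN_.q0 i V hV
  have : CharZero K := inferInstance
  exact h_HEN K R C i h V hV fun M hM hN hi =>
    h_AL2 K C V i h.sq hq0 hHU M hM hN hi

end NFW
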