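import Pool.Agent.NFW.Targets1

/-!
# NFW: module facts for `Md` and `Mm`
-/

set_option autoImplicit false

noncomputable section

namespace NFW

namespace MC1_

theorem lin_smul_fun {U ι κ : Type} [Field U] [Fintype κ] (s : U) (c : ι → U) (t : κ → U) :
    lin (fun i => s * c i) t = fun f => s * lin c t f :=
  funext fun f => lin_smul s c t f

theorem lin_smul_fun' {U ι κ : Type} [Field U] [Fintype κ] (s : U) (c : ι → U) (t : κ → U) :
    lin c (fun j => s * t j) = fun f => s * lin c t f :=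
  funext fun f => lin_smul' s c t f

end MC1_

open MC1_ in
theorem p_MC1 : T_MC1 := by
  intro U B _ _ Φ S hS κ _ t
  refine ⟨?_, ?_, ?_, ?_, ?_, ?_, ?_, ?_, ?_⟩
  · intro j s hs ε hε
    obtain ⟨ι, hι, hι', c, hc, hR, -⟩ := hS {s} (fun v hv => by
      rw [Finset.mem_singleton.1 hv]; exact hs) ε hε
    refine ⟨ι, hι, hι', c, hc, ?_⟩
    apply Rh.lin_of j
    have h := (hR s (Finset.mem_singleton_self s)).smul hε.le (t j)
    rw [mul_comm s (t j)]
    have e : (fun i => c i * t j) = fun i => t j * c i := funext fun i => mul_comm _ _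
    rw [e]
    exact h
  · intro v hv w hw ε hε
    obtain ⟨ι, hι, hι', c, hc, hR⟩ := hv (ε / 2) (half_pos hε)
    obtain ⟨ι2, hι2, hι2', c2, hc2, hR2⟩ := hw (ε / 2) (half_pos hε)
    refine ⟨ι × ι2, inferInstance, inferInstance, fun p => c p.1 + c2 p.2,
      fun p => S.add_mem (hc _) (hc2 _), ?_⟩
    have h1 := hR.lin_prod_left c2
    have h2 := hR2.lin_prod_right c
    exact (h1.add h2).mono (by linarith)
  · intro v hv w hw ε hε
    obtain ⟨ι, hι, hι', c, hc, hR⟩ := hv (ε / 2) (half_pos hε)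
    obtain ⟨ι2, hι2, hι2', c2, hc2, hR2⟩ := hw (ε / 2) (half_pos hε)
    refine ⟨ι × ι2, inferInstance, inferInstance, fun p => c p.1 + c2 p.2,
      fun p => S.add_mem (hc _) (hc2 _), ?_⟩
    intro C hC
    have h1 := (hR C hC).lin_prod_left c2
    have h2 := (hR2 C hC).lin_prod_right c
    rw [mul_add]
    exact (h1.add h2).mono (by linarith)
  · intro v hv s hs ε hε
    obtain ⟨ι, hι, hι', c, hc, hR⟩ := hv ε hε
    refine ⟨ι, hι, hι', fun i => s * c i, fun i => S.mul_mem hs (hc i), ?_⟩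
    rw [lin_smul_fun]
    exact hR.smul hε.le s
  · intro v hv s hs ε hε
    obtain ⟨ι, hι, hι', c, hc, hR⟩ := hv ε hε
    refine ⟨ι, hι, hι', c, hc, ?_⟩
    intro C hC
    rw [← mul_assoc]
    exact hR (C * s) (S.mul_mem hC hs)
  · intro v hv ε hε
    obtain ⟨ι, hι, hι', c, hc, hR⟩ := hv ε hε
    refine ⟨ι, hι, hι', c, hc, ?_⟩
    have h := hR 1 S.one_mem
    rw [one_mul] at h
    exact h
  · intro a v hv ε hε
    obtain ⟨ι, hι, hι', c, hc, hR⟩ := hv ε hε
    refine ⟨ι, hι, hι', c, hc, ?_⟩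
    rw [lin_smul_fun']
    exact hR.smul hε.le a
  · intro a v hv ε hε
    obtain ⟨ι, hι, hι', c, hc, hR⟩ := hv ε hε
    refine ⟨ι, hι, hι', c, hc, ?_⟩
    intro C hC
    rw [lin_smul_fun', show C * (a * v) = a * (C * v) by ring]
    exact (hR C hC).smul hε.le a
  · intro κ' _ t' e he ht
    constructor
    · intro v hv ε hε
      obtain ⟨ι, hι, hι', c, hc, hR⟩ := hv ε hε
      exact ⟨ι, hι, hι', c, hc, Rh.lin_sub e he ht hR⟩
    · intro v hv ε hε
      obtain ⟨ι, hι, hι', c, hc, hR⟩ := hv ε hε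
      exact ⟨ι, hι, hι', c, hc, fun C hC => Rh.lin_sub e he ht (hR C hC)⟩

end NFW
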