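import Pool.Agent.NFW.Targets1

/-!
# NFW: transitivity of `M(t)` and `𝔪(t)` (T_MC2)
-/

set_option autoImplicit false

open Polynomial NFV

noncomputable section

namespace NFW

namespace MC2_

variable {U B : Type} [Field U]

/-- composition of two families -/
theorem comp {α β : Type} [Finite α] [Nonempty α] [Finite β] [Nonempty β] {Φ : U → B}
    {a : α → U} {b : β → U} {v : U} {ε ε' : ℝ} (h : Rh Φ b v ε) (h' : ∀ f, Rh Φ a (b f) ε') :
    Rh Φ a v (ε + 2 * ε') := by
  intro u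
  have h1 : pr (fun p : α × β => Φ (u + v + a p.1 + b p.2) ≠ Φ (u + v + a p.1)) ≤ ε' := by
    apply pr_prod'
    intro f
    exact h' f (u + v)
  have h2 : pr (fun p : α × β => Φ (u + a p.1 + b p.2 + v) ≠ Φ (u + a p.1 + b p.2)) ≤ ε := by
    apply pr_prod
    intro i
    exact h (u + a i)
  have h3 : pr (fun p : α × β => Φ (u + a p.1 + b p.2) ≠ Φ (u + a p.1)) ≤ ε' := by
    apply pr_prod'
    intro f
    exact h' f u
  rw [← pr_fst (κ := β)]
  calc pr (fun p : α × β => Φ (u + a p.1 + v) ≠ Φ (u + a p.1))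
      ≤ pr (fun p : α × β => (Φ (u + v + a p.1 + b p.2) ≠ Φ (u + v + a p.1)) ∨
          ((Φ (u + a p.1 + b p.2 + v) ≠ Φ (u + a p.1 + b p.2)) ∨
            (Φ (u + a p.1 + b p.2) ≠ Φ (u + a p.1)))) := by
        apply pr_mono
        intro p hp
        by_contra hc
        push Not at hc
        apply hp
        rw [show u + a p.1 + v = u + v + a p.1 by ring, ← hc.1, ← hc.2.2, ← hc.2.1]
        congr 1
        ring
    _ ≤ ε' + (ε + ε') := (pr_or _ _).trans (add_le_add h1 ((pr_or _ _).trans (add_le_add h2 h3)))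
    _ = ε + 2 * ε' := by ring

/-- one family for finitely many elements of `M(t)` -/
theorem unifMd {κ : Type} [Fintype κ] (Φ : U → B) (S : Subfield U) (t : κ → U) (F : Finset U)
    (hF : ∀ g ∈ F, g ∈ Md Φ S t) (ε : ℝ) (hε : 0 < ε) :
    ∃ (ι : Type) (_ : Finite ι) (_ : Nonempty ι) (c : ι → U), (∀ i, c i ∈ S) ∧
      ∀ g ∈ F, Rh Φ (lin c t) g ε := by
  classical
  induction F using Finset.induction_on with
  | empty =>
    exact ⟨Unit, inferInstance, inferInstance, fun _ => 0, fun _ => S.zero_mem, by simp⟩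
  | insert a F ha ih =>
    obtain ⟨ι, h1, h2, c, hc, hcF⟩ := ih fun g hg => hF g (Finset.mem_insert_of_mem hg)
    obtain ⟨ι', h1', h2', c', hc', hca⟩ := hF a (Finset.mem_insert_self a F) ε hε
    refine ⟨ι × ι', inferInstance, inferInstance, fun p => c p.1 + c' p.2,
      fun p => S.add_mem (hc _) (hc' _), ?_⟩
    intro g hg
    rcases Finset.mem_insert.1 hg with rfl | hg
    · exact hca.lin_prod_right c
    · exact (hcF g hg).lin_prod_left c'

/-- one family for finitely many elements of `𝔪(t)` -/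
theorem unifMm {κ : Type} [Fintype κ] (Φ : U → B) (S : Subfield U) (t : κ → U) (F : Finset U)
    (hF : ∀ g ∈ F, g ∈ Mm Φ S t) (ε : ℝ) (hε : 0 < ε) :
    ∃ (ι : Type) (_ : Finite ι) (_ : Nonempty ι) (c : ι → U), (∀ i, c i ∈ S) ∧
      ∀ g ∈ F, ∀ C ∈ S, Rh Φ (lin c t) (C * g) ε := by
  classical
  induction F using Finset.induction_on with
  | empty =>
    exact ⟨Unit, inferInstance, inferInstance, fun _ => 0, fun _ => S.zero_mem, by simp⟩
  | insert a F ha ih =>
    obtain ⟨ι, h1, h2, c, hc, hcF⟩ := ih fun g hg => hF g (Finset.mem_insert_of_mem hg)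
    obtain ⟨ι', h1', h2', c', hc', hca⟩ := hF a (Finset.mem_insert_self a F) ε hε
    refine ⟨ι × ι', inferInstance, inferInstance, fun p => c p.1 + c' p.2,
      fun p => S.add_mem (hc _) (hc' _), ?_⟩
    intro g hg C hC
    rcases Finset.mem_insert.1 hg with rfl | hg
    · exact (hca C hC).lin_prod_right c
    · exact (hcF g hg C hC).lin_prod_left c'

theorem zero_Md {κ : Type} [Fintype κ] (Φ : U → B) (S : Subfield U) (t : κ → U) :
    (0 : U) ∈ Md Φ S t := by
  intro ε hε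
  exact ⟨Unit, inferInstance, inferInstance, fun _ => 0, fun _ => S.zero_mem,
    Rh.zero _ _ hε.le⟩

theorem zero_Mm {κ : Type} [Fintype κ] (Φ : U → B) (S : Subfield U) (t : κ → U) :
    (0 : U) ∈ Mm Φ S t := by
  intro ε hε
  refine ⟨Unit, inferInstance, inferInstance, fun _ => 0, fun _ => S.zero_mem, fun C _ => ?_⟩
  rw [mul_zero]
  exact Rh.zero _ _ hε.le

end MC2_

/-- T_MC2 -/
theorem p_MC2 (h_MC1 : T_MC1) : T_MC2 := by
  classical
  intro U B _ _ Φ S hS κ κ' _ _ t t'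
  obtain ⟨-, hadd, hadd', hsm, hsm', -, -, -, -⟩ := h_MC1 U B Φ S hS κ t
  have hMd : (∀ j, t' j ∈ Md Φ S t) → ∀ (ι' : Type) (c' : ι' → U), (∀ i, c' i ∈ S) →
      ∀ f, lin c' t' f ∈ Md Φ S t := by
    intro ht ι' c' hc' f
    unfold lin
    exact Finset.sum_induction _ (fun x => x ∈ Md Φ S t) (fun x y hx hy => hadd x hx y hy)
      (MC2_.zero_Md Φ S t) (fun j _ => hsm _ (ht j) _ (hc' _))
  have hMm : (∀ j, t' j ∈ Mm Φ S t) → ∀ (ι' : Type) (c' : ι' → U), (∀ i, c' i ∈ S) →
      ∀ f, lin c' t' f ∈ Mm Φ S t := by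
    intro ht ι' c' hc' f
    unfold lin
    exact Finset.sum_induction _ (fun x => x ∈ Mm Φ S t) (fun x y hx hy => hadd' x hx y hy)
      (MC2_.zero_Mm Φ S t) (fun j _ => hsm' _ (ht j) _ (hc' _))
  refine ⟨?_, ?_, ?_⟩
  · intro ht v hv ε hε
    obtain ⟨ι', h1', h2', c', hc', hv'⟩ := hv (ε / 3) (by positivity)
    have hfin : (Set.range (lin c' t')).Finite := Set.finite_range _
    obtain ⟨ι, h1, h2, c, hc, hcF⟩ := MC2_.unifMd Φ S t hfin.toFinset (by
      intro g hg
      obtain ⟨f, rfl⟩ := hfin.mem_toFinset.1 hg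
      exact hMd ht ι' c' hc' f) (ε / 3) (by positivity)
    refine ⟨ι, h1, h2, c, hc, ?_⟩
    have h := MC2_.comp (a := lin c t) hv' (fun f => hcF _ (hfin.mem_toFinset.2 ⟨f, rfl⟩))
    exact h.mono (by linarith)
  · intro ht v hv ε hε
    obtain ⟨ι', h1', h2', c', hc', hv'⟩ := hv (ε / 3) (by positivity)
    have hfin : (Set.range (lin c' t')).Finite := Set.finite_range _
    obtain ⟨ι, h1, h2, c, hc, hcF⟩ := MC2_.unifMd Φ S t hfin.toFinset (by
      intro g hg
      obtain ⟨f, rfl⟩ := hfin.mem_toFinset.1 hg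
      exact hMd ht ι' c' hc' f) (ε / 3) (by positivity)
    refine ⟨ι, h1, h2, c, hc, fun C hC => ?_⟩
    have h := MC2_.comp (a := lin c t) (hv' C hC) (fun f => hcF _ (hfin.mem_toFinset.2 ⟨f, rfl⟩))
    exact h.mono (by linarith)
  · intro ht v hv ε hε
    obtain ⟨ι', h1', h2', c', hc', hv'⟩ := hv (ε / 3) (by positivity)
    have hfin : (Set.range (lin c' t')).Finite := Set.finite_range _
    obtain ⟨ι, h1, h2, c, hc, hcF⟩ := MC2_.unifMm Φ S t hfin.toFinset (by
      intro g hg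
      obtain ⟨f, rfl⟩ := hfin.mem_toFinset.1 hg
      exact hMm ht ι' c' hc' f) (ε / 3) (by positivity)
    refine ⟨ι, h1, h2, c, hc, fun C hC => ?_⟩
    have h := MC2_.comp (a := lin c t) (b := fun f => C * lin c' t' f)
      (hv'.smul (by positivity) C) (fun f => hcF _ (hfin.mem_toFinset.2 ⟨f, rfl⟩) C hC)
    exact h.mono (by linarith)

end NFW
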