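import Pool.Agent.NFW.Targets1

/-!
# NFW-MC3: the rings `R_t`, the ideals `E_t`
-/

set_option autoImplicit false

open Polynomial NFV

noncomputable section

namespace NFW

namespace MC3_

theorem partA (h_MC1 : T_MC1) (h_MC2 : T_MC2) (U B : Type) [Field U] [CommGroupWithZero B]
    (Φ : U →*₀ B) (S : Subfield U) (hS : NCS Φ S) (κ : Type) [Fintype κ] (t : κ → U) :
    (∀ s ∈ S, s ∈ RT Φ S t) ∧ (∀ x ∈ RT Φ S t, ∀ y ∈ RT Φ S t, x + y ∈ RT Φ S t) ∧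
      (∀ x ∈ RT Φ S t, ∀ y ∈ RT Φ S t, x * y ∈ RT Φ S t) ∧
      (∀ x ∈ ET Φ S t, ∀ y ∈ ET Φ S t, x + y ∈ ET Φ S t) ∧
      (∀ x ∈ RT Φ S t, ∀ y ∈ ET Φ S t, x * y ∈ ET Φ S t) ∧ ET Φ S t ⊆ RT Φ S t ∧
      Mm Φ S (fun _ : Unit => (1 : U)) ⊆ ET Φ S t := by
  obtain ⟨a1, a2, a3, a4, a5, a6, a7, a8, a9⟩ := h_MC1 U B Φ S hS κ t
  refine ⟨fun s hs j => a1 j s hs, ?_, ?_, ?_, ?_, ?_, ?_⟩
  · intro x hx y hy j
    rw [add_mul]
    exact a2 _ (hx j) _ (hy j)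
  · intro x hx y hy j
    rw [mul_assoc]
    exact (h_MC2 U B Φ S hS κ κ t (fun j => x * t j)).1 hx (a7 x _ (hy j))
  · intro x hx y hy j
    rw [add_mul]
    exact a3 _ (hx j) _ (hy j)
  · intro x hx y hy j
    rw [mul_comm x y, mul_assoc]
    exact (h_MC2 U B Φ S hS κ κ t (fun j => y * t j)).2.2 hy (a7 y _ (hx j))
  · intro x hx j
    exact a6 (hx j)
  · intro x hx j
    obtain ⟨_, _, _, _, _, _, _, b8, _⟩ := h_MC1 U B Φ S hS Unit (fun _ => (1 : U))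
    obtain ⟨_, _, _, _, _, _, _, _, c9⟩ := h_MC1 U B Φ S hS Unit (fun _ => t j * (1 : U))
    rw [mul_comm x]
    exact (c9 κ t (fun _ => j) (fun _ _ _ => rfl) (fun _ => mul_one _)).2 (b8 (t j) x hx)

theorem partB (h_MC1 : T_MC1) (U B : Type) [Field U] [CommGroupWithZero B]
    (Φ : U →*₀ B) (S : Subfield U) (hS : NCS Φ S) (κ κ' : Type) [Fintype κ] [Fintype κ']
    (t : κ → U) (t' : κ' → U) :
      RT Φ S t ⊆ RT Φ S (fun p : κ × κ' => t p.1 * t' p.2) ∧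
      RT Φ S t' ⊆ RT Φ S (fun p : κ × κ' => t p.1 * t' p.2) ∧
      ET Φ S t ⊆ ET Φ S (fun p : κ × κ' => t p.1 * t' p.2) ∧
      ET Φ S t' ⊆ ET Φ S (fun p : κ × κ' => t p.1 * t' p.2) := by
  obtain ⟨_, _, _, _, _, _, a7, a8, _⟩ := h_MC1 U B Φ S hS κ t
  obtain ⟨_, _, _, _, _, _, b7, b8, _⟩ := h_MC1 U B Φ S hS κ' t'
  refine ⟨?_, ?_, ?_, ?_⟩
  · rintro x hx ⟨i, j⟩
    obtain ⟨_, _, _, _, _, _, _, _, c9⟩ := h_MC1 U B Φ S hS κ (fun k => t' j * t k)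
    rw [show x * (t (i, j).1 * t' (i, j).2) = t' j * (x * t i) by simp only; ring]
    exact (c9 (κ × κ') (fun p : κ × κ' => t p.1 * t' p.2) (fun k => (k, j))
      (fun _ _ h => congrArg Prod.fst h) (fun k => mul_comm _ _)).1 (a7 (t' j) _ (hx i))
  · rintro x hx ⟨i, j⟩
    obtain ⟨_, _, _, _, _, _, _, _, c9⟩ := h_MC1 U B Φ S hS κ' (fun k => t i * t' k)
    rw [show x * (t (i, j).1 * t' (i, j).2) = t i * (x * t' j) by simp only; ring]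
    exact (c9 (κ × κ') (fun p : κ × κ' => t p.1 * t' p.2) (fun k => (i, k))
      (fun _ _ h => congrArg Prod.snd h) (fun k => rfl)).1 (b7 (t i) _ (hx j))
  · rintro x hx ⟨i, j⟩
    obtain ⟨_, _, _, _, _, _, _, _, c9⟩ := h_MC1 U B Φ S hS κ (fun k => t' j * t k)
    rw [show x * (t (i, j).1 * t' (i, j).2) = t' j * (x * t i) by simp only; ring]
    exact (c9 (κ × κ') (fun p : κ × κ' => t p.1 * t' p.2) (fun k => (k, j))
      (fun _ _ h => congrArg Prod.fst h) (fun k => mul_comm _ _)).2 (a8 (t' j) _ (hx i))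
  · rintro x hx ⟨i, j⟩
    obtain ⟨_, _, _, _, _, _, _, _, c9⟩ := h_MC1 U B Φ S hS κ' (fun k => t i * t' k)
    rw [show x * (t (i, j).1 * t' (i, j).2) = t i * (x * t' j) by simp only; ring]
    exact (c9 (κ × κ') (fun p : κ × κ' => t p.1 * t' p.2) (fun k => (i, k))
      (fun _ _ h => congrArg Prod.snd h) (fun k => rfl)).2 (b8 (t i) _ (hx j))

end MC3_

theorem p_MC3 (h_MC1 : T_MC1) (h_MC2 : T_MC2) : T_MC3 := by
  intro U B _ _ Φ S hS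
  have hA := MC3_.partA h_MC1 h_MC2 U B Φ S hS
  have hB := MC3_.partB h_MC1 U B Φ S hS
  refine ⟨fun κ _ t => hA κ t, fun κ κ' _ _ t t' => hB κ κ' t t', ?_, ?_, ?_, ?_, ?_, ?_, ?_⟩
  · intro s hs
    exact ⟨Unit, inferInstance, fun _ => 1, ⟨(), rfl⟩, (hA Unit (fun _ => 1)).1 s hs⟩
  · rintro x ⟨κ, hκ, t, ⟨j, hj⟩, hx⟩ y ⟨κ', hκ', t', ⟨j', hj'⟩, hy⟩
    have hb := hB κ κ' t t'
    refine ⟨κ × κ', inferInstance, fun p : κ × κ' => t p.1 * t' p.2, ⟨(j, j'), ?_⟩,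
      (hA _ _).2.1 x (hb.1 hx) y (hb.2.1 hy)⟩
    change t j * t' j' = 1
    rw [hj, hj', one_mul]
  · rintro x ⟨κ, hκ, t, ⟨j, hj⟩, hx⟩ y ⟨κ', hκ', t', ⟨j', hj'⟩, hy⟩
    have hb := hB κ κ' t t'
    refine ⟨κ × κ', inferInstance, fun p : κ × κ' => t p.1 * t' p.2, ⟨(j, j'), ?_⟩,
      (hA _ _).2.2.1 x (hb.1 hx) y (hb.2.1 hy)⟩
    change t j * t' j' = 1
    rw [hj, hj', one_mul]
  · rintro x ⟨κ, hκ, t, ⟨j, hj⟩, hx⟩ y ⟨κ', hκ', t', ⟨j', hj'⟩, hy⟩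
    have hb := hB κ κ' t t'
    refine ⟨κ × κ', inferInstance, fun p : κ × κ' => t p.1 * t' p.2, ⟨(j, j'), ?_⟩,
      (hA _ _).2.2.2.2.1 x (hb.1 hx) y (hb.2.2.2 hy)⟩
    change t j * t' j' = 1
    rw [hj, hj', one_mul]
  · rintro x ⟨κ, hκ, t, hj, hx⟩
    exact ⟨κ, hκ, t, hj, (hA κ t).2.2.2.2.2.1 hx⟩
  · intro x hx
    exact ⟨Unit, inferInstance, fun _ => 1, ⟨(), rfl⟩, (hA Unit (fun _ => 1)).2.2.2.2.2.2 hx⟩
  · intro x hx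
    exact ⟨Unit, inferInstance, fun _ => 1, ⟨(), rfl⟩, fun _ => by rw [mul_one]; exact hx⟩

end NFW
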