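import Pool.Agent.NFW.Targets2

/-!
# NFW-MCH: matching of the families
-/

set_option autoImplicit false

open Polynomial NFV

noncomputable section

namespace NFW

namespace MCH_

theorem infS {U : Type} [Field U] [CharZero U] (S : Subfield U) : Infinite S := by
  refine Infinite.of_injective (fun n : ℕ => (n : S)) ?_
  intro a b h
  have h1 : ((a : S) : U) = ((b : S) : U) := congrArg Subtype.val h
  push_cast at h1
  exact_mod_cast h1

theorem comp {U : Type} [Field U] {O P Q : ValuationSubring U} (h1 : O ≤ P) (h2 : O ≤ Q) :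
    P ≤ Q ∨ Q ≤ P := by
  have h := le_total (⟨P, h1⟩ : {T : ValuationSubring U // O ≤ T}) ⟨Q, h2⟩
  exact h

end MCH_

open MCH_ in
theorem p_MCH (h_LCA : T_LCA) : T_MCH := by
  classical
  intro U B _ _ _ Φ S S' 𝒪 𝒪' hF hF' hsub
  have hinf := infS S
  have h3 := (h_LCA U S 𝒪 hinf hF.ne hF.sub hF.anti).2.2
  have hex : ∀ O' ∈ 𝒪', ∃ O ∈ 𝒪, O ≤ O' := by
    intro O' hO'
    refine h3 O' fun x hx => ?_
    exact (hF'.ring x).1 (hsub ((hF.ring x).2 hx)) O' hO'
  let f : ValuationSubring U → ValuationSubring U := fun O' =>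
    if h : ∃ O ∈ 𝒪, O ≤ O' then Classical.choose h else O'
  have hf : ∀ O' ∈ 𝒪', f O' ∈ 𝒪 ∧ f O' ≤ O' := by
    intro O' hO'
    have h := hex O' hO'
    have h1 : f O' = Classical.choose h := dif_pos h
    rw [h1]
    exact Classical.choose_spec h
  have hinj : ∀ P ∈ 𝒪', ∀ Q ∈ 𝒪', f P = f Q → P = Q := by
    intro P hP Q hQ h
    have h1 := (hf P hP).2
    have h2 := (hf Q hQ).2
    rw [← h] at h2
    rcases comp h1 h2 with h4 | h4
    · exact hF'.anti P hP Q hQ h4
    · exact (hF'.anti Q hQ P hP h4).symm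
  have hcard : 𝒪'.card ≤ 𝒪.card :=
    Finset.card_le_card_of_injOn f (fun P hP => (hf P hP).1)
      (fun P hP Q hQ h => hinj P hP Q hQ h)
  refine ⟨hcard, fun heq => ?_⟩
  have himg : 𝒪'.image f = 𝒪 := by
    apply Finset.eq_of_subset_of_card_le
    · intro O hO
      obtain ⟨P, hP, rfl⟩ := Finset.mem_image.1 hO
      exact (hf P hP).1
    · rw [Finset.card_image_of_injOn fun P hP Q hQ h => hinj P hP Q hQ h, heq]
  have hsurj : ∀ O ∈ 𝒪, ∃ P ∈ 𝒪', f P = O := by
    intro O hO
    rw [← himg] at hO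
    exact Finset.mem_image.1 hO
  let g : ValuationSubring U → ValuationSubring U := fun O =>
    if h : ∃ P ∈ 𝒪', f P = O then Classical.choose h else O
  have hg : ∀ O ∈ 𝒪, g O ∈ 𝒪' ∧ f (g O) = O := by
    intro O hO
    have h := hsurj O hO
    have h1 : g O = Classical.choose h := dif_pos h
    rw [h1]
    exact Classical.choose_spec h
  refine ⟨g, ?_, ?_, ?_⟩
  · intro O hO
    have h1 := hg O hO
    refine ⟨h1.1, ?_⟩
    have h2 := (hf (g O) h1.1).2
    rwa [h1.2] at h2
  · intro P hP Q hQ h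
    rw [← (hg P hP).2, ← (hg Q hQ).2, h]
  · intro P hP
    have h1 := (hf P hP).1
    refine ⟨f P, h1, ?_⟩
    exact hinj _ (hg _ h1).1 P hP (hg _ h1).2

end NFW
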