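import Pool.Agent.NFW.Base
import Pool.Agent.NFV.Targets3

/-!
# NFW: targets, part 2: valuation rings (statements; complete proofs in the docstrings)

`m_O` stands for `O.nonunits` (`ValuationSubring.nonunits`, the set of `x : U` with
`O.valuation x < 1`).  Facts used freely: `O ≤ O'` implies `m_{O'} ⊆ m_O`; two valuation subrings
containing a third are comparable; `x ∉ O` iff `x ≠ 0`, `x⁻¹ ∈ m_O`; an element of `O` outside of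
`m_O` has its inverse in `O`.
-/

set_option autoImplicit false

open Polynomial NFV

noncomputable section

namespace NFW

/-- the class map modulo `q`-th powers -/
def IsCl {U B : Type} [Field U] [CommGroupWithZero B] (Φ : U →*₀ B) (q : ℕ) : Prop :=
  Function.Surjective Φ ∧ ∀ x y : U, Φ x = Φ y ↔ ∃ u : U, u ≠ 0 ∧ x = y * u ^ q

/-- saturation for countable systems of conditions `Φ (α + β y) = c` -/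
def SatF {U B : Type} [Field U] (Φ : U → B) : Prop :=
  ∀ (α β : ℕ → U) (c : ℕ → B), (∀ k, ∃ y, ∀ j < k, Φ (α j + β j * y) = c j) →
    ∃ y, ∀ j, Φ (α j + β j * y) = c j

/-- `g` maps the rings attached to `S` bijectively to larger ones -/
structure Mtc {U : Type} [Field U] (𝒪 𝒪' : Finset (ValuationSubring U))
    (g : ValuationSubring U → ValuationSubring U) : Prop where
  le : ∀ O ∈ 𝒪, g O ∈ 𝒪' ∧ O ≤ g O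
  inj : ∀ O₁ ∈ 𝒪, ∀ O₂ ∈ 𝒪, g O₁ = g O₂ → O₁ = O₂
  surj : ∀ O' ∈ 𝒪', ∃ O ∈ 𝒪, g O = O'

/-! ## C. Commutative algebra -/

/-- SPR (semilocal Prüfer rings).  PROOF.  (a) `R` has fewer than `n` maximal ideals: if
`𝔪_0, …, 𝔪_{n-1}` are different ones, take different `s_i ∈ S`, by the Chinese remainder theorem
there is `y ∈ R` with `y + s_i ∈ 𝔪_i` for all `i`: none of the `y + s_i` is a unit of `R`,
contradicting `Few`.  (b) For each `y : U` there is `s ∈ S` with `y + s ≠ 0`,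
`r = (y + s)⁻¹ ∈ R` (`Few` and `S` infinite).  Let `𝔭` be a prime ideal of `R`,
`O_𝔭 = {a / b : a, b ∈ R, b ∉ 𝔭}`.  It is a valuation ring: with `s, r` for `y` as above,
`y = (1 - s r) / r`; if `r ∉ 𝔭` then `y ∈ O_𝔭`; if `r ∈ 𝔭` then `1 - s r ∉ 𝔭` and
`y⁻¹ = r / (1 - s r) ∈ O_𝔭`.  (c) `R = ⋂ O_𝔪` over the maximal ideals: if `x` is in all `O_𝔪` the
ideal `{r ∈ R : r x ∈ R}` is not contained in a maximal ideal.  (d) If `O_𝔪 ≤ O_𝔪'` then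
`𝔪' ⊆ 𝔪`: if `b ∈ 𝔪'`, `b ∉ 𝔪` then `1 / b = a / b'` with `b' ∉ 𝔪'`, `b' = a b ∈ 𝔪'`.
So `𝔪 = 𝔪'`.  Take for `𝒪` the set of the `O_𝔪`. -/
def T_SPR : Prop :=
  ∀ (U : Type) [Field U] (S : Subfield U) (R : Subring U) (n : ℕ), Infinite S →
    (∀ x ∈ S, x ∈ R) → Few S (R : Set U) n → ∃ 𝒪 : Finset (ValuationSubring U), 𝒪.Nonempty ∧
      (∀ O ∈ 𝒪, ∀ O' ∈ 𝒪, O ≤ O' → O = O') ∧ ∀ x, x ∈ R ↔ ∀ O ∈ 𝒪, x ∈ O

/-- LCA (the intersection ring of finitely many incomparable valuation rings containing an infinite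
field `S`).  PROOF.  (1) For `O ∈ 𝒪` at most one `s ∈ S` has `y + s ∈ m_O` (the difference of two
would be in `S ∩ m_O = 0`); otherwise `y + s ≠ 0` and `(y + s)⁻¹ ∈ O`.  `S` is infinite; also the
finite set `F` can be avoided.  Let `R = ⋂ O`.  For a prime ideal `𝔭` of `R`, as in SPR (b), the
localisation `O_𝔭 = {a / b : a, b ∈ R, b ∉ 𝔭}` is a valuation ring.  `𝔭_O = m_O ∩ R` is a prime
ideal of `R`.  (a) Each maximal ideal `𝔪` of `R` is one of the `𝔭_O`: if `x ∈ 𝔪` is in no `𝔭_O` then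
`x⁻¹ ∈ O` for all `O`, so `x⁻¹ ∈ R`, impossible; so `𝔪 ⊆ ⋃ 𝔭_O`, `𝔪 ⊆ 𝔭_O` for some `O` (prime
avoidance, `Ideal.subset_union_prime`), `𝔪 = 𝔭_O`.  (b) `O = O_{𝔭_O}`: `⊇` is clear; if `x ∈ O`,
`x ∉ O_{𝔭_O}` then `x⁻¹` is in the maximal ideal of `O_{𝔭_O}`: `x⁻¹ = a / b`, `a ∈ 𝔭_O`,
`b ∉ 𝔭_O`, so `x⁻¹ ∈ m_O`, a contradiction.  (c) if `𝔭_O ⊆ 𝔭_{O'}` then `O' ≤ O` by (b), so
`O = O'`.  So each `𝔭_O` is maximal (it is contained in a maximal ideal, which is some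
`𝔭_{O'}`).  (2) APX: the `𝔭_O` are pairwise different maximal ideals: CRT.
(3) OVR: let `Q ⊇ R` be a valuation ring; the prime ideal `m_Q ∩ R` of `R` is contained in some
`𝔭_O`, and `O = O_{𝔭_O} ⊆ Q`, as `b ∈ R`, `b ∉ 𝔭_O` implies `b ∉ m_Q`, `b⁻¹ ∈ Q`. -/
def T_LCA : Prop :=
  ∀ (U : Type) [Field U] (S : Subfield U) (𝒪 : Finset (ValuationSubring U)), Infinite S →
    𝒪.Nonempty → (∀ O ∈ 𝒪, ∀ x ∈ S, x ∈ O) → (∀ O ∈ 𝒪, ∀ O' ∈ 𝒪, O ≤ O' → O = O') →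
    (∀ (y : U) (F : Finset U), ∃ s ∈ S, s ∉ F ∧ y + s ≠ 0 ∧ ∀ O ∈ 𝒪, (y + s)⁻¹ ∈ O) ∧
    (∀ O ∈ 𝒪, ∃ e : U, e - 1 ∈ O.nonunits ∧ ∀ O' ∈ 𝒪, O' ≠ O → e ∈ O'.nonunits) ∧
    (∀ Q : ValuationSubring U, (∀ x, (∀ O ∈ 𝒪, x ∈ O) → x ∈ Q) → ∃ O ∈ 𝒪, O ≤ Q)

/-- JAC (the ideal `μ` is the Jacobson radical of its stabiliser).  PROOF.  `R = ⋂ O`; `μ` is an
ideal of `R`.  (→) Let `m ∈ μ`, `O ∈ 𝒪`, `m ∉ m_O`.  `y = - m⁻¹ ∈ O`.  By LCA (1) there is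
`s ∈ S` with `b = (y + s)⁻¹ ∈ R`, and `s` may be chosen such that `y + s ∉ m_O` (exclude one more
value; it is a unit of `O` as `y ∈ O`), so `b ∉ m_O`; `y = a / b` with `a = 1 - s b ∈ R`.  By LCA (2)
take `e`; `b' = 1 + e (b - 1)` is `≡ b` modulo `m_O`, `≡ 1` modulo the other `m_{O'}`, so it is a
unit of `R`; `r = a / b' ∈ R`, `r - y ∈ m_O`, so `1 + r m ∈ m_O`; but `r m ∈ μ`, so
`(1 + r m)⁻¹ ∈ O`, a contradiction.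
(←) Let `e ∈ m_O` for all `O`, `e ∉ μ`.  `μ` is a radical ideal of `R`
(if `x ^ k ∈ μ` then `x ^ (2 ^ l) ∈ μ` for large `l`).  Each minimal prime ideal `𝔭` over `μ` in `R` is
contained in some maximal ideal `𝔭_O = m_O ∩ R` (proof of LCA), and as the primes of `R` below `𝔭_O`
correspond to primes of the valuation ring `O = R_{𝔭_O}` they form a chain, so `𝔭` is the unique
minimal prime `𝔭(O)` over `μ` inside `𝔭_O`: there are finitely many, and `μ = ⋂ 𝔭(O)`.  Let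
`I = {r ∈ R : r e ∈ μ}`, the intersection of the `𝔭(O)` not containing `e` (if `e ∉ 𝔭`,
`r e ∈ 𝔭` iff `r ∈ 𝔭`).  If `𝔭(O)` contains `e` then `I ⊄ 𝔭(O)` (else it contains, hence equals, a
minimal prime not containing `e`).  By prime avoidance there is `a ∈ I` in none of the minimal
primes containing `e`.  Then `e' = e + a` is in no `𝔭(O)`.  For `m ∈ μ` and `O ∈ 𝒪`: `m / e' ∈ O`
(otherwise `e' / m ∈ O`, `e' ∈ m O ∩ R ⊆ 𝔭(O)`, because the extension of `𝔭(O)` to the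
localisation `O` contracts to `𝔭(O)`; if `m = 0` it is clear), so `x = m / e' ∈ R`, `x e' ∈ μ`, and
`x ∈ 𝔭(O)` for all `O`: `x ∈ μ`.  So `e'⁻¹` stabilises `μ`, hence `e'⁻¹ ∈ O` for all `O`.  As
`e ∈ m_O`, `a = e' - e` is a unit in all `O`, hence in `R`, and it is in `I`: so `e ∈ μ`. -/
def T_JAC : Prop :=
  ∀ (U : Type) [Field U] (S : Subfield U) (𝒪 : Finset (ValuationSubring U)) (μ : Set U),
    Infinite S → 𝒪.Nonempty → (∀ O ∈ 𝒪, ∀ x ∈ S, x ∈ O) →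
    (∀ O ∈ 𝒪, ∀ O' ∈ 𝒪, O ≤ O' → O = O') → (0 : U) ∈ μ →
    (∀ x ∈ μ, ∀ y ∈ μ, x + y ∈ μ) → (∀ x, x ∈ Stb μ ↔ ∀ O ∈ 𝒪, x ∈ O) →
    (∀ m ∈ μ, ∀ O ∈ 𝒪, m ∈ O) → (∀ m ∈ μ, 1 + m ≠ 0 ∧ ∀ O ∈ 𝒪, (1 + m)⁻¹ ∈ O) →
    (∀ x, (∀ O ∈ 𝒪, x ∈ O) → x * x ∈ μ → x ∈ μ) →
    ∀ x, x ∈ μ ↔ ∀ O ∈ 𝒪, x ∈ O.nonunits

/-! ## D. The valuation rings attached to good subfields -/

/-- PQK (class maps).  PROOF.  (1) `T_PCL` (`Pool/Agent/NFV/Targets2.lean`) gives a finite `B` and `Φ`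
surjective; given `a` and `c : Fin n → B` lift `c i = Φ (c' i)`; `Φ (x + a i) = Φ (c' i)` iff
`x + a i = c' i * u ^ q` with `u ≠ 0`.  (2) `NoShat` for `n` implies it for larger `n`: restrict
`a`, `c` to the first `n` indices.  (3) a class map on `L` with `NoShat` gives `PQ`.
(4) transport along an isomorphism. -/
def T_PQK : Prop :=
  (∀ (L : Type) [Field L] (q : ℕ), 0 < q → PQ L q →
    ∃ (B : Type) (_ : CommGroupWithZero B) (_ : Finite B) (Φ : L →*₀ B) (n : ℕ), IsCl Φ q ∧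
      2 ≤ n ∧ NoShat Φ n) ∧
  (∀ (L L' : Type) [Field L] [Field L'] (q : ℕ), (L ≃+* L') → PQ L q → PQ L' q) ∧
  (∀ (L L' : Type) [Field L] [Field L'] (q : ℕ), (L ≃+* L') → PowSat L q → PowSat L' q)

/-- SAF.  PROOF.  Let `α, β, c` be given.  If `c j = 0`, `β j ≠ 0` for some `j`: then `y = - α j / β j`
is the only solution of condition `j`, so it satisfies all conditions.  If `c j = 0`, `β j = 0`
then `α j = 0` and condition `j` holds for all `y`: replace it by `Φ (1 + 0 y) = 1`.  If `c j ≠ 0`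
write `c j = Φ γ`, `γ ≠ 0`; the condition is `γ⁻¹ α j + γ⁻¹ β j y = w ^ q`, `w ≠ 0`. -/
def T_SAF : Prop :=
  ∀ (U B : Type) [Field U] [CommGroupWithZero B] (Φ : U →*₀ B) (q : ℕ), 0 < q → IsCl Φ q →
    PowSat U q → SatF Φ

/-- NZE (`μ_S ≠ 0`).  PROOF.  Enumerate `S \ 0 = {a_0, a_1, …}`.  For each `k` there is `y ≠ 0` with
`Φ (a_j + y) = Φ (a_j)` for `j < k`: by NCA (`NCS Φ S`) there is a family `c` in `S` with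
`ρ_c(a_j⁻¹) ≤ 1 / (4 (k + 1))` for `j < k` and `Spr c (1 / 4)`; so there is a value `b ≠ 0` of `c`
with `Φ (b + a_j⁻¹) = Φ b` for `j < k`; `y = b⁻¹`:
`Φ (a_j + b⁻¹) = Φ (a_j / b) Φ (b + a_j⁻¹) = Φ (a_j / b) Φ b = Φ (a_j)`.  Some value `c ≠ 0` is
`Φ y` for arbitrarily large `k` (`B` finite), so the conditions `Φ y = c`,
`Φ (a_j + y) = Φ (a_j)`, `j : ℕ`, are finitely satisfiable; by `SatF` there is a solution `y`: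
`y ≠ 0` and `Φ (1 + a_j⁻¹ y) = 1` for all `j`, so `y ∈ μ_S`. -/
def T_NZE : Prop :=
  ∀ (U B : Type) [Field U] [CharZero U] [CommGroupWithZero B] [Finite B] (Φ : U →*₀ B)
    (S : Subfield U), (S : Set U).Countable → NCS Φ S → SatF Φ → ∃ y ∈ mu Φ S, y ≠ 0

/-- MON (monotonicity).  PROOF.  Let `x ∈ Stab(μ_S)`.  We show `x ∈ M_S(1)`; then
`x ∈ M_{S'}(1) ⊆ Stab(μ_{S'})` (STR).  Let `ε > 0`, `(c, E)` from `g1` for `S`.  Enumerate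
`S \ 0 = {a_0, a_1, …}`.  (*) There is `k` such that for all `y : U`: if `Φ (a_j + y) = Φ (a_j)` for
`j < k` then `Φ (a + x y) = Φ a` for all `a ∈ E`.  Otherwise for each `k` there are `y_k`,
`e_k ∈ E`, `b_k ∈ B`, `b_k ≠ Φ (e_k)` with `Φ (a_j + y_k) = Φ (a_j)` for `j < k` and
`Φ (e_k + x y_k) = b_k`; some pair `(e, b)` occurs for arbitrarily large `k`, so the conditions
`Φ (e + x y) = b`, `Φ (a_j + y) = Φ (a_j)`, `j : ℕ`, are finitely satisfiable; a solution `y`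
(`SatF`) is in `μ_S`, so `x y ∈ μ_S` and `Φ (e + x y) = Φ e Φ (1 + e⁻¹ x y) = Φ e`, a contradiction.
As in NZE there is `b ∈ S`, `b ≠ 0` with `Φ (a_j + b⁻¹) = Φ (a_j)` for `j < k`; so
`Φ (a + x b⁻¹) = Φ a` for `a ∈ E`, so `ρ_c(x b⁻¹) ≤ ε` and `ρ_{b c}(x) ≤ ε` (`Rh.smul`). -/
def T_MON : Prop :=
  ∀ (U B : Type) [Field U] [CharZero U] [CommGroupWithZero B] [Finite B] (Φ : U →*₀ B)
    (S S' : Subfield U) (n : ℕ), 2 ≤ n → NoShat Φ n → SatF Φ → Good Φ n S → Good Φ n S' →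
    S ≤ S' → Stb (mu Φ S) ⊆ Stb (mu Φ S')

/-- FMX (existence of the family).  PROOF.  STR, SPR (for the subring `Stab(μ_S)`; `S` is infinite
because it has characteristic zero), JAC. -/
def T_FMX : Prop :=
  ∀ (U B : Type) [Field U] [CharZero U] [CommGroupWithZero B] [Finite B] (Φ : U →*₀ B)
    (S : Subfield U) (n : ℕ), 2 ≤ n → NoShat Φ n → Good Φ n S →
    ∃ 𝒪 : Finset (ValuationSubring U), Fml Φ S 𝒪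

/-- MCH (matching).  PROOF.  Each `O' ∈ 𝒪'` contains `⋂ 𝒪 = Stab(μ_S)`, so by LCA (3) there is
`f O' ∈ 𝒪` with `f O' ≤ O'`.  `f` is injective: if `f O' = f O''` then `O'` and `O''` are
comparable, hence equal.  If the cardinalities are equal `f` is bijective; `g = f⁻¹`. -/
def T_MCH : Prop :=
  ∀ (U B : Type) [Field U] [CharZero U] [One B] (Φ : U → B) (S S' : Subfield U)
    (𝒪 𝒪' : Finset (ValuationSubring U)), Fml Φ S 𝒪 → Fml Φ S' 𝒪' →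
    Stb (mu Φ S) ⊆ Stb (mu Φ S') →
    𝒪'.card ≤ 𝒪.card ∧ (𝒪'.card = 𝒪.card → ∃ g, Mtc 𝒪 𝒪' g)

/-- NTE.  PROOF.  Let `e` be as in LCA (2) for `O`: `e ∉ m_O`, so `e ∉ μ_S`: there is `b ∈ S` with
`Φ (1 + b e) ≠ 1`.  `p = 1 + b e`; `p - 1 = b e ∈ m_{O'}` for `O' ≠ O` (`b ∈ S ⊆ O'`).  `p ≠ 0`:
otherwise `e = - b⁻¹ ∈ S`, `e⁻¹ ∈ S ⊆ O₂`, contradicting `e ∈ m_{O₂}`. -/
def T_NTE : Prop :=
  ∀ (U B : Type) [Field U] [CharZero U] [One B] (Φ : U → B) (S : Subfield U)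
    (𝒪 : Finset (ValuationSubring U)), Fml Φ S 𝒪 → ∀ O ∈ 𝒪, ∀ O₂ ∈ 𝒪, O₂ ≠ O →
    ∃ p : U, p ≠ 0 ∧ Φ p ≠ 1 ∧ ∀ O' ∈ 𝒪, O' ≠ O → p - 1 ∈ O'.nonunits

/-- NTM.  Let `g O = O⁺`.  In (1) `p ∈ O`, `p⁻¹ ∈ O`; in (2) `p ∈ S'`; in both cases `p` is a unit of
`O⁺`, and `p - 1 ∈ m_{O'}` for `O' ∈ 𝒪`, `O' ≠ O`.  PROOF.  By LCA (2) for `𝒪'` choose `e` with
`e - 1 ∈ m_{O⁺}`, `e ∈ m_{O''}` for the other `O'' ∈ 𝒪'`.  `p' = 1 + e (p - 1)`.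
`p' - p = (e - 1)(p - 1) ∈ m_{O⁺}`, so `p'` is a unit of `O⁺`; for `O'' = O'⁺`, `O' ≠ O`:
`p - 1 ∈ O'⁺` (`p - 1 ∈ O' ≤ O'⁺`), so `p' - 1 ∈ m_{O'⁺}`.  Let `r = p / p'`.
`r - 1 ∈ m_{O⁺} ⊆ m_O`; for `O' ≠ O`, `p' - 1 ∈ m_{O'⁺} ⊆ m_{O'}` and `p - 1 ∈ m_{O'}`, so
`r - 1 ∈ m_{O'}`.  So `r - 1 ∈ μ_S`, `Φ r = 1`, `Φ p' = Φ p ≠ 1`. -/
def T_NTM : Prop :=
  ∀ (U B : Type) [Field U] [CharZero U] [CommGroupWithZero B] (Φ : U →*₀ B)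
    (S S' : Subfield U) (𝒪 𝒪' : Finset (ValuationSubring U))
    (g : ValuationSubring U → ValuationSubring U), Fml Φ S 𝒪 → Fml Φ S' 𝒪' → Mtc 𝒪 𝒪' g →
    ∀ O ∈ 𝒪, (NT Φ 𝒪 O → NT Φ 𝒪' (g O)) ∧
      (∀ p ∈ S', p ≠ 0 → Φ p ≠ 1 → (∀ O' ∈ 𝒪, O' ≠ O → p - 1 ∈ O'.nonunits) → NT Φ 𝒪' (g O))

/-- TWZ.  PROOF.  Suppose `Φ (p₁) = Φ (p₁ p₂) ^ j`: `p₁ = (p₁ p₂) ^ j w ^ q`, `w ≠ 0`.  `p₁` and `p₂` are
units of all `O ∈ 𝒪`, so `w` is a unit of all `O` (`w ^ q` is a unit of the valuation ring `O`).  Let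
`e` be as in LCA (2) for `O₁`, `w₁ = 1 + e (w - 1)`: `≡ w` modulo `m_{O₁}`, `≡ 1` modulo the others.
Then `p₁ ≡ p₁ ^ j w₁ ^ q` modulo all `m_O` (`p₂ ≡ 1` modulo `m_{O₁}`, `p₁ ≡ 1` modulo the others),
so `p₁ / (p₁ ^ j w₁ ^ q) - 1 ∈ μ_S` and `Φ (p₁) = Φ (p₁) ^ j`.  In the same way with `O₂`,
`w₂ ≡ w` modulo `m_{O₂}`, `w₂ ≡ 1` modulo the others: `1 ≡ p₂ ^ j w₂ ^ q` modulo all `m_O`, so
`Φ (p₂) ^ j = 1`.  As `Φ (p) ^ q = 1` and `q` is prime, `Φ (p₂) ≠ 1` gives `q ∣ j`, so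
`Φ (p₁) ^ j = 1` and `Φ (p₁) = 1`, a contradiction. -/
def T_TWZ : Prop :=
  ∀ (U B : Type) [Field U] [CharZero U] [CommGroupWithZero B] (Φ : U →*₀ B) (q : ℕ), q.Prime →
    IsCl Φ q → ∀ (S : Subfield U) (𝒪 : Finset (ValuationSubring U)), Fml Φ S 𝒪 →
    ∀ O₁ ∈ 𝒪, ∀ O₂ ∈ 𝒪, O₁ ≠ O₂ → ∀ p₁ p₂ : U,
    (p₁ ∈ O₁ ∧ p₁⁻¹ ∈ O₁ ∧ (∀ O' ∈ 𝒪, O' ≠ O₁ → p₁ - 1 ∈ O'.nonunits) ∧ p₁ ≠ 0 ∧ Φ p₁ ≠ 1) →
    (p₂ ∈ O₂ ∧ p₂⁻¹ ∈ O₂ ∧ (∀ O' ∈ 𝒪, O' ≠ O₂ → p₂ - 1 ∈ O'.nonunits) ∧ p₂ ≠ 0 ∧ Φ p₂ ≠ 1) →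
    ∀ j : ℕ, Φ p₁ ≠ Φ (p₁ * p₂) ^ j

/-- TWX.  PROOF.  For `O' ∈ 𝒪_L` let `Q(O') = O' ∩ U` (`ValuationSubring.comap`).  Let `𝒳` be the set of
all `O ∈ 𝒪` and all `Q(O')`; they contain `S`.  Let `𝒲` be the set of the maximal elements of `𝒳`,
an antichain; each `X ∈ 𝒳` is `≤` some `W ∈ 𝒲`.  Let `O₁ ≤ W₁ ∈ 𝒲`.  (i) `O₂ ≤ W₁` is false: if
`W₁ ∈ 𝒪` then `O₁ = W₁ = O₂`; if `W₁ = Q(O')` use the last hypothesis.  LCA (2) for `𝒲`: `e` with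
`e - 1 ∈ m_{W₁}`, `e ∈ m_W` for `W ∈ 𝒲`, `W ≠ W₁`.  `c = p₁ p₂` is a unit of all `X ∈ 𝒳` (for
`Q(O')`: `c = δ ^ q`, `δ ∈ S_L`).  Put `x = 1 + e (c - 1)`, `δ' = 1 + e (δ - 1) ∈ L`.
At `O' ∈ 𝒪_L` with `Q(O') ≤ W₁`: `e - 1 ∈ m_{W₁} ⊆ m_{Q(O')} ⊆ m_{O'}`,
`x - c = (e - 1)(c - 1) ∈ m_{O'}`, `δ' - δ ∈ m_{O'}`, so `x / δ' ^ q - 1 ∈ m_{O'}`.  If
`Q(O') ≤ W ≠ W₁`: `e ∈ m_{O'}`, `x - 1, δ' - 1 ∈ m_{O'}`, again `x / δ' ^ q - 1 ∈ m_{O'}`.  So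
`x / δ' ^ q - 1 ∈ μ_{S_L}`, `Φ_L x = Φ_L (δ' ^ q)`, `x` is a `q`-th power in `L`, and by `T_KUM`
(`Pool/Agent/NFV/Targets3.lean`) `x = c ^ j u ^ q`, `u ∈ U`, so `Φ x = Φ c ^ j`.  On the other hand
`x / p₁ - 1 ∈ m_O` for all `O ∈ 𝒪`: for `O = O₁`: `x ≡ c = p₁ p₂ ≡ p₁` modulo `m_{O₁}`; for
`O ≠ O₁, O₂` with `O ≤ W₁`: `x ≡ c ≡ 1 ≡ p₁`; for `O ≤ W ≠ W₁` (then `O ≠ O₁`, because `W₁` and
`W` are not comparable; this includes `O = O₂` by (i)): `x ≡ 1 ≡ p₁` modulo `m_O`.  So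
`Φ (p₁) = Φ x = Φ c ^ j`, which contradicts TWZ. -/
def T_TWX : Prop :=
  ∀ (U B : Type) [Field U] [CharZero U] [CommGroupWithZero B] (Φ : U →*₀ B) (q : ℕ) (ζ : U),
    q.Prime → IsPrimitiveRoot ζ q → IsCl Φ q → ∀ (S : Subfield U)
    (𝒪 : Finset (ValuationSubring U)), Fml Φ S 𝒪 → ∀ O₁ ∈ 𝒪, ∀ O₂ ∈ 𝒪, O₁ ≠ O₂ → ∀ p₁ p₂ : U,
    (p₁ ∈ O₁ ∧ p₁⁻¹ ∈ O₁ ∧ (∀ O' ∈ 𝒪, O' ≠ O₁ → p₁ - 1 ∈ O'.nonunits) ∧ p₁ ≠ 0 ∧ Φ p₁ ≠ 1) →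
    (p₂ ∈ O₂ ∧ p₂⁻¹ ∈ O₂ ∧ (∀ O' ∈ 𝒪, O' ≠ O₂ → p₂ - 1 ∈ O'.nonunits) ∧ p₂ ≠ 0 ∧ Φ p₂ ≠ 1) →
    ∀ (L B' : Type) [Field L] [Algebra U L] [CommGroupWithZero B'] (Φ' : L →*₀ B') (δ : L),
    IsCl Φ' q → δ ^ q = algebraMap U L (p₁ * p₂) → IntermediateField.adjoin U {δ} = ⊤ →
    ∀ (S' : Subfield L) (𝒪' : Finset (ValuationSubring L)), (∀ s ∈ S, algebraMap U L s ∈ S') →
    δ ∈ S' → Fml Φ' S' 𝒪' →
    (∀ O' ∈ 𝒪', ¬ (O₁ ≤ O'.comap (algebraMap U L) ∧ O₂ ≤ O'.comap (algebraMap U L))) → False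

/-- VAL.  PROOF.  Class map `Φ : U → B` with `NoShat Φ n`, `2 ≤ n` from `PS U q` (for `L = U`, `δ = 1`)
and PQK; `SatF Φ` by SAF; `Φ` is not trivial.  By CLO and FMX there are pairs `(S, 𝒪)` with
`Good Φ n S`, `A ⊆ S`, `Fml Φ S 𝒪`; let `k` be the smallest value of `𝒪.card`; call the pairs with
`𝒪.card = k` minimal.  By MON and MCH, if `(S, 𝒪)` is minimal, `S ≤ S'`, `Good Φ n S'`,
`Fml Φ S' 𝒪'`, then `(S', 𝒪')` is minimal and there is a matching `g`.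
CLAIM: `k = 1`.  Suppose `k ≥ 2`; `(S₀, 𝒪₀)` minimal, `O₁ ≠ O₂` in `𝒪₀`.  NTE for `O₁`: `p`;
`S₁ ⊇ S₀ ∪ {p}` good (CLO with `A = S₀ ∪ {p}`), `𝒪₁`; by NTM (2) `NT Φ 𝒪₁ (g O₁)`.  NTE for
`g O₂` in `𝒪₁`: `p'`; `S₂ ⊇ S₁ ∪ {p'}`, `𝒪₂`, matching `g'`: `NT Φ 𝒪₂ (g' (g O₂))` by NTM (2) and
`NT Φ 𝒪₂ (g' (g O₁))` by NTM (1).  Rename: `(S, 𝒪)` minimal, `O₁ ≠ O₂` in `𝒪` with witnesses
`p₁, p₂` of `NT`; `c = p₁ p₂`.  Let `δ` be a root of `X ^ q - c` in an algebraic closure,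
`L = U(δ)`.  `PS U q` gives `PQ L q`, `PowSat L q`; class map `Φ_L`, `NoShat Φ_L n'`, `SatF Φ_L`.
If `Φ_L` is trivial on `L \ 0` then `p₁` is a `q`-th power in `L`, `p₁ = c ^ j u ^ q` by `T_KUM`, which
contradicts TWZ.  Otherwise CLO for `L` gives a good `S_L` containing the image of `S` and `δ`, FMX
gives `𝒪_L`, NZE gives `0 ≠ y ∈ μ_{S_L}`.  Let `O' ∈ 𝒪_L`, `Q = O' ∩ U`.  `Q ≠ U`, since otherwise
`O' = L` (`L` is integral over `U` and `O'` is integrally closed), but `y ∈ m_{O'}`.  Suppose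
`O₁ ≤ Q` and `O₂ ≤ Q`.  Take `h ≠ 0` in `m_Q` and `S' ⊇ S ∪ {h}` good, `𝒪'`, matching `g`.  `g O₁` and
`Q` contain `O₁`, so they are comparable; `g O₁ ≤ Q` is impossible as
`h⁻¹ ∈ S' ⊆ g O₁`, `h⁻¹ ∉ Q`; so `Q ≤ g O₁`, and `Q ≤ g O₂`, so `g O₁`, `g O₂` are comparable, hence
equal, `O₁ = O₂`: a contradiction.  So the last hypothesis of TWX holds, and TWX gives a
contradiction.
So `k = 1`: `(S₀, {O₀})`.  CLO: good `S ⊇ S₀ ∪ A` stable under `τ` and `τ⁻¹`; `𝒪 = {O}` by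
minimality.  `A ⊆ S ⊆ O`, `Q0 O`.  `τ (μ_S) = μ_S`: `Φ (1 + b τ x) = 1` iff
`1 + b τ x = τ (1 + τ⁻¹ (b) x)` is a nonzero `q`-th power iff `1 + τ⁻¹(b) x` is.  So
`O = Stab(μ_S)` is stable.  `x ∈ m_O = μ_S`: `Φ (1 + x) = 1`: `Hq O q`.  NZE: `m_O ≠ 0`. -/
def T_VAL : Prop :=
  ∀ (U : Type) [Field U] [CharZero U] (q : ℕ) (ζ : U), q.Prime → IsPrimitiveRoot ζ q → PS U q →
    (∃ x : U, x ≠ 0 ∧ ∀ w : U, x ≠ w ^ q) → ∀ A : Set U, A.Countable → ∀ τ : U ≃+* U,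
    ∃ O : ValuationSubring U, (∀ a ∈ A, a ∈ O) ∧ (∀ x ∈ O, τ x ∈ O) ∧ Hq O q ∧ Q0 O ∧
      ∃ x ∈ O.nonunits, x ≠ 0

/-! ## E. Neighbourhoods of 1 in the power classes -/

/-- THS (saturated case).  PROOF.  (A) Squares in `F`.  `-1` is not a square, `PS F 2`, `ζ = -1`: VAL
with `A = ∅`, `τ = id` gives `O` with `Hq O 2` and `0 ≠ x₁ ∈ m_O`; let `u₁ = |x₁|`.  If `|y| ≤ u₁` then
`y ∈ m_O`: otherwise `y ≠ 0`, `y⁻¹ ∈ O`, `u₁ / |y| ∈ m_O`, `1 - u₁ / |y|` is a nonzero square,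
`> 0`, so `u₁ < |y|`.  So `1 + y` is a square for `|y| ≤ u₁`.
(B) If every nonzero element of `N` is a `q`-th power take `u = 1 / 2`
(`1 + a + b i = 0` would give `1 + a = 0`).  Otherwise let `C = 2 / u₁ + 1 ∈ F`, `τ` the automorphism
`a + b i ↦ a - b i` of `N` (well defined, `i ∉ F` as `F` is ordered), `A = {C}` (its image in
`N`); VAL for `N`, `q`: `O`, `Hq O q`, `0 ≠ w₀ ∈ m_O`.  `i ∈ O` (`i ^ 2 = -1`), `2 i` is a unit of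
`O`.  `τ (m_O) ⊆ m_O` (if `x ∈ m_O`, `x ≠ 0`, `τ x ∉ m_O`, then `(τ x)⁻¹ ∈ O`, and applying `τ`,
`x⁻¹ ∈ O`).
(C) If `x ∈ F`, `x ∈ m_O` then `|x| ≤ C`: suppose `x > C` (else take `-x`); `z = 1 - 2 / (1 + x)`;
`2 / (1 + x) ≤ u₁`, so `z = y ^ 2`, `y ∈ F` by (A).  `y ^ 2 + 1 = z + 1 = 2 x / (1 + x) ∈ m_O`
(`1 + x` is a unit of `O`), and `y ∈ O` as `y ^ 2 = z ∈ O`; so `(y - i)(y + i) ∈ m_O`, one of the
factors is in `m_O`, by `τ` both are, so `2 i ∈ m_O`, a contradiction.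
(D) `x ∈ F ∩ m_O` implies `2 C x ∈ F ∩ m_O`, `|2 C x| ≤ C`, `|x| ≤ 1 / 2`.  So if
`x ∈ F ∩ m_O`, `y ∈ F`, `|y| ≤ |x|` then `y ∈ m_O` (otherwise `y⁻¹ ∈ O`, `x / y ∈ m_O`,
`|x / y| ≥ 1`).  `x₂ = w₀ τ w₀ ∈ F ∩ m_O` is not zero; `u = |x₂|`.  If `|a|, |b| ≤ u` then
`a, b ∈ m_O`, `a + b i ∈ m_O`, `1 + a + b i` is a `q`-th power. -/
def T_THS : Prop :=
  ∀ (F N : Type) [Field F] [LinearOrder F] [IsStrictOrderedRing F] [Field N] [Algebra F N]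
    (i : N) (q : ℕ) (ζ : N), i ^ 2 = -1 →
    (∀ z : N, ∃ a b : F, z = algebraMap F N a + algebraMap F N b * i) → q.Prime →
    IsPrimitiveRoot ζ q → PS F 2 → PS N q →
    ∃ u : F, 0 < u ∧ ∀ a b : F, |a| ≤ u → |b| ≤ u →
      ∃ w : N, w ≠ 0 ∧ 1 + algebraMap F N a + algebraMap F N b * i = w ^ q

end NFW
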