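import Pool.Agent.NFW.Targets1
import Pool.Agent.NFW.Targets2

/-!
# NFW: monotonicity of the stabiliser in the subfield
-/

set_option autoImplicit false

open Polynomial NFV

noncomputable section

namespace NFW

namespace MON_

variable {U B : Type} [Field U] [CommGroupWithZero B] {Φ : U →*₀ B}

theorem val_of (a y : U) (ha : a ≠ 0) (h : Φ (a + y) = Φ a) : Φ (1 + a⁻¹ * y) = 1 := by
  have h1 : 1 + a⁻¹ * y = a⁻¹ * (a + y) := by
    rw [mul_add, inv_mul_cancel₀ ha]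
  rw [h1, map_mul, h, ← map_mul, inv_mul_cancel₀ ha, map_one]

theorem val_to (a y : U) (ha : a ≠ 0) (h : Φ (1 + a⁻¹ * y) = 1) : Φ (a + y) = Φ a := by
  have h1 : a + y = a * (1 + a⁻¹ * y) := by
    rw [mul_add, mul_one, ← mul_assoc, mul_inv_cancel₀ ha, one_mul]
  rw [h1, map_mul, h, mul_one]

/-- a nonzero element of `S` whose inverse does not change the values at `a j`, `j < k` -/
theorem small (S : Subfield U) (hN : NCS Φ S) (a : ℕ → U) (ha : ∀ j, a j ∈ S ∧ a j ≠ 0)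
    (k : ℕ) : ∃ b ∈ S, b ≠ 0 ∧ ∀ j < k, Φ (a j + b⁻¹) = Φ (a j) := by
  classical
  have hk : (0 : ℝ) < 4 * ((k : ℝ) + 1) := by positivity
  obtain ⟨ι, hf, hne, c, hc, hR, hs⟩ := hN ((Finset.range k).image fun j => (a j)⁻¹)
    (by
      intro v hv
      obtain ⟨j, _, rfl⟩ := Finset.mem_image.mp hv
      exact S.inv_mem (ha j).1) (1 / (4 * ((k : ℝ) + 1))) (by positivity)
  have h1 : pr (fun i => ¬ (c i ≠ 0 ∧ ∀ j < k, Φ (c i + (a j)⁻¹) = Φ (c i))) < 1 := by
    have h2 : pr (fun i => ¬ (c i ≠ 0 ∧ ∀ j < k, Φ (c i + (a j)⁻¹) = Φ (c i))) ≤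
        pr (fun i => c i = 0 ∨ ∃ j ∈ Finset.range k, Φ (0 + c i + (a j)⁻¹) ≠ Φ (0 + c i)) := by
      apply pr_mono
      intro i hi
      by_contra hcon
      push Not at hcon
      apply hi
      refine ⟨hcon.1, fun j hj => ?_⟩
      have h3 := hcon.2 j (Finset.mem_range.mpr hj)
      rwa [zero_add] at h3
    have h4 := pr_or (fun i => c i = 0)
      (fun i => ∃ j ∈ Finset.range k, Φ (0 + c i + (a j)⁻¹) ≠ Φ (0 + c i))
    have h5 := pr_union_le (Finset.range k)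
      (fun j i => Φ (0 + c i + (a j)⁻¹) ≠ Φ (0 + c i)) (1 / (4 * ((k : ℝ) + 1)))
      (fun j hj => hR _ (Finset.mem_image.mpr ⟨j, hj, rfl⟩) 0)
    have h6 := hs 0
    rw [Finset.card_range] at h5
    have h7 : 1 / (4 * ((k : ℝ) + 1)) + k * (1 / (4 * ((k : ℝ) + 1))) = 1 / 4 := by
      field_simp
      ring
    have h8 : (1 : ℝ) / 4 < 1 := by norm_num
    calc _ ≤ _ := h2
      _ ≤ _ := h4
      _ ≤ 1 / (4 * ((k : ℝ) + 1)) + k * (1 / (4 * ((k : ℝ) + 1))) := add_le_add h6 h5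
      _ < 1 := by rw [h7]; exact h8
  obtain ⟨i, hi0, hi⟩ := exists_of_pr h1
  refine ⟨c i, hc i, hi0, fun j hj => ?_⟩
  have h9 : a j + (c i)⁻¹ = a j * (c i)⁻¹ * (c i + (a j)⁻¹) := by
    have := (ha j).2
    field_simp
  have h10 : Φ (c i)⁻¹ * Φ (c i) = 1 := by
    rw [← map_mul, inv_mul_cancel₀ hi0, map_one]
  rw [h9, map_mul, map_mul, hi j hj, mul_assoc, h10, mul_one]

end MON_

open MON_ in
theorem p_MON (h_STR : T_STR) (h_NCA : T_NCA) : T_MON := by
  classical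
  intro U B _ _ _ _ Φ S S' n hn hNS hsat hS hS' hle x hx
  apply (h_STR U B Φ S' n hn hNS hS').2.2.2.2.1
  intro ε hε
  obtain ⟨ι, hf, hne, c, E, hc, hE, h⟩ := hS.g1 ε hε
  -- enumeration
  have hcnt : {a : U | a ∈ S ∧ a ≠ 0}.Countable := hS.cnt.mono fun a ha => ha.1
  obtain ⟨a, ha⟩ := hcnt.exists_eq_range ⟨1, S.one_mem, one_ne_zero⟩
  have ha1 : ∀ j, a j ∈ S ∧ a j ≠ 0 := by
    intro j
    have : a j ∈ {a : U | a ∈ S ∧ a ≠ 0} := ha ▸ Set.mem_range_self j
    exact this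
  have ha2 : ∀ b ∈ S, b ≠ 0 → ∃ j, a j = b := by
    intro b hb hb0
    have : b ∈ Set.range a := ha ▸ ⟨hb, hb0⟩
    exact this
  have hstar : ∃ k, ∀ y, (∀ j < k, Φ (a j + y) = Φ (a j)) → ∀ e ∈ E, Φ (e + x * y) = Φ e := by
    by_contra hcon
    push Not at hcon
    choose y hy e he hye using hcon
    obtain ⟨p, hp⟩ := Finite.exists_infinite_fiber
      (fun k => ((⟨e k, he k⟩, Φ (e k + x * y k)) : {e // e ∈ E} × B))
    have hp' : ∀ k, ∃ K, k ≤ K ∧ e K = p.1.1 ∧ Φ (e K + x * y K) = p.2 := by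
      intro k
      have hinf := Set.infinite_coe_iff.mp hp
      obtain ⟨K, hK, hkK⟩ := hinf.exists_gt k
      have hK' : ((⟨e K, he K⟩, Φ (e K + x * y K)) : {e // e ∈ E} × B) = p := hK
      exact ⟨K, hkK.le, by rw [← hK'], by rw [← hK']⟩
    have hpne : p.2 ≠ Φ p.1.1 := by
      obtain ⟨K, _, h1, h2⟩ := hp' 0
      rw [← h2, ← h1]
      exact hye K
    obtain ⟨z, hz⟩ := hsat (fun j => Nat.casesOn j p.1.1 a) (fun j => Nat.casesOn j x fun _ => 1)
      (fun j => Nat.casesOn j p.2 fun i => Φ (a i)) (by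
        intro k
        obtain ⟨K, hkK, h1, h2⟩ := hp' k
        refine ⟨y K, fun j hj => ?_⟩
        cases j with
        | zero =>
          change Φ (p.1.1 + x * y K) = p.2
          rw [← h1]
          exact h2
        | succ i =>
          change Φ (a i + 1 * y K) = Φ (a i)
          rw [one_mul]
          exact hy K i (by omega))
    have hz0 : Φ (p.1.1 + x * z) = p.2 := hz 0
    have hz1 : ∀ j, Φ (a j + z) = Φ (a j) := by
      intro j
      have h3 : Φ (a j + 1 * z) = Φ (a j) := hz (j + 1)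
      rwa [one_mul] at h3
    have hzm : z ∈ mu Φ S := by
      intro b hb
      by_cases hb0 : b = 0
      · rw [hb0, zero_mul, add_zero, map_one]
      · obtain ⟨j, hj⟩ := ha2 b⁻¹ (S.inv_mem hb) (inv_ne_zero hb0)
        have h4 := val_of (a j) z (ha1 j).2 (hz1 j)
        rwa [hj, inv_inv] at h4
    have hxz := hx z hzm
    have hpE := hE p.1.1 p.1.2
    have h5 := hxz (p.1.1)⁻¹ (S.inv_mem hpE.1)
    exact hpne (by rw [← hz0]; exact val_to _ _ hpE.2 h5)
  obtain ⟨k, hk⟩ := hstar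
  obtain ⟨b, hbS, hb0, hb⟩ := small S (h_NCA U B Φ n hNS S) a ha1 k
  have h6 := (h (x * b⁻¹) (hk b⁻¹ hb)).smul hε.le b
  have h7 : b * (x * b⁻¹) = x := by
    field_simp
  rw [h7] at h6
  refine ⟨ι, hf, hne, fun i => b * c i, fun i => hle (S.mul_mem hbS (hc i)), ?_⟩
  apply Rh.lin_of (j := ())
  simpa using h6

end NFW
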