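import Pool.Agent.NFW.Targets1

/-!
# NFW: the target MUM (the set `mu` of a good subfield is `Mm` of the one element family)
-/

set_option autoImplicit false

open Polynomial

noncomputable section

namespace NFW

namespace MUM_

theorem rh_unit {U B ι : Type} [Field U] (Φ : U → B) (c : ι → U) (v : U) (ε : ℝ) :
    Rh Φ (lin c (fun _ : Unit => (1 : U))) v ε ↔ Rh Φ c v ε := by
  have hl : ∀ f : Unit → ι, lin c (fun _ : Unit => (1 : U)) f = c (Equiv.funUnique Unit ι f) := by
    intro f
    unfold lin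
    simp
  unfold Rh
  apply forall_congr'
  intro u
  have h1 : pr (fun f : Unit → ι => Φ (u + lin c (fun _ : Unit => (1 : U)) f + v) ≠
      Φ (u + lin c (fun _ : Unit => (1 : U)) f)) =
      pr (fun i : ι => Φ (u + c i + v) ≠ Φ (u + c i)) := by
    rw [← pr_equiv (Equiv.funUnique Unit ι)]
    apply pr_congr
    intro f
    rw [hl f]
  rw [h1]

end MUM_

theorem p_MUM : T_MUM := by
  intro U B _ _ Φ S n hG
  apply Set.eq_of_subset_of_subset
  · intro v hv ε hε
    obtain ⟨ι, hfin, hne, c, E, hc, hE, hx⟩ := hG.g1 ε hε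
    refine ⟨ι, hfin, hne, c, hc, ?_⟩
    intro C hC
    rw [MUM_.rh_unit]
    apply hx
    intro a ha
    obtain ⟨haS, ha0⟩ := hE a ha
    have h1 : a + C * v = a * (1 + C * a⁻¹ * v) := by
      field_simp
    have h2 : Φ (1 + C * a⁻¹ * v) = 1 := hv (C * a⁻¹) (S.mul_mem hC (S.inv_mem haS))
    rw [h1, map_mul, h2, mul_one]
  · intro v hv b hb
    have hε : 0 < e0 n := by
      unfold e0
      positivity
    obtain ⟨ι, hfin, hne, c, hc, hR⟩ := hv (e0 n) hε
    obtain ⟨E, hE, hx⟩ := hG.g2 ι c hc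
    apply hx
    intro a ha
    rw [← mul_assoc, ← MUM_.rh_unit]
    exact hR (a * b) (S.mul_mem (hE a ha) hb)

end NFW
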