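import Pool.Agent.NFW.Targets1

/-!
# NFW: near constancy within a subfield (target NCA)
-/

set_option autoImplicit false

open Polynomial NFV

noncomputable section

namespace NFW

namespace NCA_

/-- the probability on `Fin X` as a count over `range X` -/
theorem pr_fin (X : ℕ) (p : ℕ → Prop) [DecidablePred p] :
    pr (fun i : Fin X => p i) = (((Finset.range X).filter p).card : ℝ) / X := by
  unfold pr
  rw [Nat.card_eq_fintype_card, Fintype.card_subtype, Nat.card_eq_fintype_card, Fintype.card_fin]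
  congr 2
  rw [← Finset.card_map (Fin.valEmbedding : Fin X ↪ ℕ)]
  congr 1
  ext a
  simp only [Finset.mem_map, Finset.mem_filter, Finset.mem_univ, true_and, Finset.mem_range,
    Fin.valEmbedding_apply]
  constructor
  · rintro ⟨i, hi, rfl⟩
    exact ⟨i.2, hi⟩
  · rintro ⟨h1, h2⟩
    exact ⟨⟨a, h1⟩, h2, rfl⟩

/-- one translation -/
theorem one_v (h_NCL : NFV.T_NCL) (U B : Type) [Field U] [CharZero U] [CommGroupWithZero B]
    [Finite B] (Φ : U →*₀ B) (n : ℕ) (hn : NoShat Φ n) (v : U) (hv : v ≠ 0) (ε : ℝ)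
    (hε : 0 < ε) (S : Subfield U) (hvS : v ∈ S) :
    ∃ (X : ℕ) (c : Fin X → U), 0 < X ∧ (∀ i, c i ∈ S) ∧ Rh Φ c v ε := by
  classical
  obtain ⟨D, δ, X₀, hD, hδ, H⟩ := h_NCL U B Φ n hn ε hε
  obtain ⟨X₁, hX₁⟩ := exists_nat_gt ((D : ℝ) / δ)
  let X := max X₀ X₁
  have hX0 : X₀ ≤ X := le_max_left _ _
  have hX1 : X₁ ≤ X := le_max_right _ _
  have hDX : (D : ℝ) ≤ δ * X := by
    have h1 : (X₁ : ℝ) ≤ X := by exact_mod_cast hX1
    rw [div_lt_iff₀ hδ] at hX₁
    nlinarith
  have hXpos : 0 < X := by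
    have h2 : (0 : ℝ) < D := by exact_mod_cast hD
    have h3 : (0 : ℝ) < δ * X := lt_of_lt_of_le h2 hDX
    have h4 : (0 : ℝ) < X := by
      by_contra hc
      push Not at hc
      nlinarith
    exact_mod_cast h4
  have hD0 : (D : U) ≠ 0 := by exact_mod_cast hD.ne'
  have h5 := H X hX0 (D : ℤ) (dvd_refl _) (by
    rw [Int.cast_natCast, abs_of_nonneg (Nat.cast_nonneg D)]
    exact hDX)
  refine ⟨X, fun i => v / D * (i : ℕ), hXpos, fun i => ?_, ?_⟩
  · exact S.mul_mem (S.div_mem hvS (natCast_mem S D)) (natCast_mem S _)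
  · intro u
    have h6 := h5 (D * u / v)
    rw [Int.cast_natCast] at h6
    have hvD : Φ (v / D) ≠ 0 := (map_ne_zero Φ).2 (div_ne_zero hv hD0)
    have h7 : pr (fun i : Fin X => Φ (u + v / D * (i : ℕ) + v) ≠ Φ (u + v / D * (i : ℕ))) =
        pr (fun i : Fin X => Φ (D * u / v + D + (i : ℕ)) ≠ Φ (D * u / v + (i : ℕ))) := by
      refine pr_congr fun i => ?_
      have e1 : u + v / D * (i : ℕ) + v = v / D * (D * u / v + D + (i : ℕ)) := by
        field_simp
        ring
      have e2 : u + v / D * (i : ℕ) = v / D * (D * u / v + (i : ℕ)) := by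
        field_simp
      rw [e1, e2, map_mul, map_mul]
      exact not_congr ⟨fun h => mul_left_cancel₀ hvD h, fun h => by rw [h]⟩
    rw [h7, pr_fin X (fun i : ℕ => Φ (D * u / v + D + (i : U)) ≠ Φ (D * u / v + (i : U)))]
    have hXr : (0 : ℝ) < X := by exact_mod_cast hXpos
    rw [div_le_iff₀ hXr]
    refine le_trans (le_of_eq ?_) h6
    unfold dis
    rfl

end NCA_

/-- NCA -/
theorem p_NCA (h_NCL : NFV.T_NCL) : T_NCA := by
  intro U B _ _ _ _ Φ n hn S F
  classical
  induction F using Finset.induction_on with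
  | empty =>
    intro _ ε hε
    obtain ⟨X, hX⟩ := exists_nat_gt (1 / ε)
    have hXr : (0 : ℝ) < X := lt_trans (by positivity) hX
    have hX0 : 0 < X := by exact_mod_cast hXr
    refine ⟨Fin X, inferInstance, ⟨⟨0, hX0⟩⟩, fun i => ((i : ℕ) : U), fun i => natCast_mem S _,
      by simp, ?_⟩
    intro x
    have h1 : pr (fun i : Fin X => ((i : ℕ) : U) = x) ≤ 1 / X := by
      unfold pr
      rw [Nat.card_eq_fintype_card (α := Fin X), Fintype.card_fin]
      have h2 : Nat.card {i : Fin X // ((i : ℕ) : U) = x} ≤ 1 := by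
        rw [Finite.card_le_one_iff_subsingleton]
        refine ⟨fun a b => Subtype.ext (Fin.ext ?_)⟩
        have := a.2.trans b.2.symm
        exact_mod_cast this
      have h3 : (Nat.card {i : Fin X // ((i : ℕ) : U) = x} : ℝ) ≤ 1 := by exact_mod_cast h2
      gcongr
    refine h1.trans ?_
    rw [div_le_iff₀ hXr]
    rw [div_lt_iff₀ hε] at hX
    linarith
  | insert v F hvF ih =>
    intro hF ε hε
    obtain ⟨ι, hι1, hι2, c, hc1, hc2, hc3⟩ :=
      ih (fun w hw => hF w (Finset.mem_insert_of_mem hw)) ε hε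
    rcases eq_or_ne v 0 with rfl | hv
    · refine ⟨ι, hι1, hι2, c, hc1, fun w hw => ?_, hc3⟩
      rcases Finset.mem_insert.1 hw with rfl | hw
      · exact Rh.zero _ _ hε.le
      · exact hc2 w hw
    · obtain ⟨X, d, hX, hd1, hd2⟩ := NCA_.one_v h_NCL U B Φ n hn v hv ε hε S
        (hF v (Finset.mem_insert_self _ _))
      have : Nonempty (Fin X) := ⟨⟨0, hX⟩⟩
      refine ⟨ι × Fin X, inferInstance, inferInstance, fun p => c p.1 + d p.2,
        fun p => S.add_mem (hc1 _) (hd1 _), fun w hw => ?_, hc3.prod_left d⟩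
      rcases Finset.mem_insert.1 hw with rfl | hw
      · exact hd2.prod_right c
      · exact (hc2 w hw).prod_left d

end NFW
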