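import Pool.Agent.NFW.Targets2

/-!
# NFW-NTM: nontrivial components under a matching (MP_32850b_lc), helper66
-/

set_option autoImplicit false

noncomputable section

namespace NFW

namespace NTM_

variable {U : Type} [Field U]

theorem nu_iff (V : ValuationSubring U) {x : U} : x ∈ V.nonunits ↔ V.valuation x < 1 :=
  ValuationSubring.mem_nonunits_iff V

theorem mem_iff (V : ValuationSubring U) {x : U} : x ∈ V ↔ V.valuation x ≤ 1 :=
  (ValuationSubring.valuation_le_one_iff V x).symm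

theorem nu_mem {V : ValuationSubring U} {x : U} (h : x ∈ V.nonunits) : x ∈ V :=
  (mem_iff V).2 ((nu_iff V).1 h).le

theorem nu_mul {V : ValuationSubring U} {x y : U} (hx : x ∈ V.nonunits) (hy : y ∈ V) :
    x * y ∈ V.nonunits := by
  rw [nu_iff] at hx ⊢
  rw [mem_iff] at hy
  rw [map_mul]
  calc V.valuation x * V.valuation y ≤ V.valuation x * 1 := mul_le_mul_right hy _
    _ < 1 := by rwa [mul_one]

theorem nu_mul' {V : ValuationSubring U} {x y : U} (hx : x ∈ V) (hy : y ∈ V.nonunits) :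
    x * y ∈ V.nonunits := by
  rw [mul_comm]
  exact nu_mul hy hx

theorem nu_add {V : ValuationSubring U} {x y : U} (hx : x ∈ V.nonunits) (hy : y ∈ V.nonunits) :
    x + y ∈ V.nonunits := by
  rw [nu_iff] at hx hy ⊢
  exact Valuation.map_add_lt _ hx hy

theorem nu_neg {V : ValuationSubring U} {x : U} (hx : x ∈ V.nonunits) : -x ∈ V.nonunits := by
  rw [nu_iff] at hx ⊢
  rwa [Valuation.map_neg]

theorem nu_sub {V : ValuationSubring U} {x y : U} (hx : x ∈ V.nonunits) (hy : y ∈ V.nonunits) :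
    x - y ∈ V.nonunits := by
  rw [sub_eq_add_neg]
  exact nu_add hx (nu_neg hy)

/-- valuation of a unit -/
theorem val_one {V : ValuationSubring U} {x : U} (hx : x ∈ V) (hx' : x⁻¹ ∈ V) (h0 : x ≠ 0) :
    V.valuation x = 1 := by
  rw [mem_iff] at hx hx'
  apply le_antisymm hx
  rw [map_inv₀] at hx'
  have h1 : V.valuation x ≠ 0 := (Valuation.ne_zero_iff _).2 h0
  by_contra h
  push Not at h
  have h2 : 1 < (V.valuation x)⁻¹ := by
    rw [one_lt_inv₀ (zero_lt_iff.2 h1)]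
    exact h
  exact absurd hx' (not_le.2 h2)

/-- an element congruent to a unit is a unit -/
theorem unit_of {V : ValuationSubring U} {x y : U} (hx : V.valuation x = 1)
    (h : y - x ∈ V.nonunits) : y ∈ V ∧ y⁻¹ ∈ V ∧ y ≠ 0 := by
  rw [nu_iff] at h
  have h1 : V.valuation y = 1 := by
    have h2 : y = x + (y - x) := by ring
    rw [h2, Valuation.map_add_eq_of_lt_left, hx]
    rwa [hx]
  have h0 : y ≠ 0 := by
    rintro rfl
    rw [map_zero] at h1
    exact zero_ne_one h1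
  refine ⟨(mem_iff V).2 h1.le, ?_, h0⟩
  rw [mem_iff, map_inv₀, h1, inv_one]

theorem nu_of_le {V W : ValuationSubring U} (h : V ≤ W) {x : U} (hx : x ∈ W.nonunits) :
    x ∈ V.nonunits := (ValuationSubring.nonunits_le_nonunits.2 h) hx

theorem inf_sub [CharZero U] (S : Subfield U) : Infinite S :=
  Infinite.of_injective (fun n : ℕ => (⟨(n : U), natCast_mem S n⟩ : S)) (by
    intro a b h
    have h1 := congrArg Subtype.val h
    exact Nat.cast_injective h1)

theorem core {B : Type} [CharZero U] [CommGroupWithZero B] (h_LCA : T_LCA) (Φ : U →*₀ B)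
    (S S' : Subfield U) (𝒪 𝒪' : Finset (ValuationSubring U))
    (g : ValuationSubring U → ValuationSubring U) (hF : Fml Φ S 𝒪) (hF' : Fml Φ S' 𝒪')
    (hg : Mtc 𝒪 𝒪' g) (O : ValuationSubring U) (hO : O ∈ 𝒪) (p : U) (hp1 : p ∈ g O)
    (hp2 : p⁻¹ ∈ g O) (hp0 : p ≠ 0) (hΦ : Φ p ≠ 1)
    (hp : ∀ O' ∈ 𝒪, O' ≠ O → p - 1 ∈ O'.nonunits) : NT Φ 𝒪' (g O) := by
  have hgO : g O ∈ 𝒪' := (hg.le O hO).1
  obtain ⟨-, h2, -⟩ := h_LCA U S' 𝒪' (inf_sub S') hF'.ne hF'.sub hF'.anti
  obtain ⟨e, he1, he2⟩ := h2 (g O) hgO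
  have hsub : p - 1 ∈ g O := sub_mem hp1 (one_mem _)
  set p' : U := 1 + e * (p - 1) with hp'
  have hpu : (g O).valuation p = 1 := val_one hp1 hp2 hp0
  have hd : p' - p ∈ (g O).nonunits := by
    have h3 : p' - p = (e - 1) * (p - 1) := by
      rw [hp']
      ring
    rw [h3]
    exact nu_mul he1 hsub
  obtain ⟨hq1, hq2, hq0⟩ := unit_of hpu hd
  -- the other rings
  have hoth : ∀ O' ∈ 𝒪, O' ≠ O → p' - 1 ∈ (g O').nonunits := by
    intro O' hO' hne
    have hne' : g O' ≠ g O := fun h => hne (hg.inj O' hO' O hO h)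
    have h3 : p' - 1 = e * (p - 1) := by
      rw [hp']
      ring
    rw [h3]
    apply nu_mul (he2 (g O') (hg.le O' hO').1 hne')
    exact (hg.le O' hO').2 (nu_mem (hp O' hO' hne))
  have hr : p / p' - 1 ∈ mu Φ S := by
    rw [hF.ideal]
    intro O' hO'
    have h3 : p / p' - 1 = (p - p') * p'⁻¹ := by
      field_simp
    rw [h3]
    by_cases hne : O' = O
    · rw [hne]
      apply nu_of_le (hg.le O hO).2
      apply nu_mul _ hq2
      have h4 : p - p' = -(p' - p) := by ring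
      rw [h4]
      exact nu_neg hd
    · have h4 : p' - 1 ∈ O'.nonunits := nu_of_le (hg.le O' hO').2 (hoth O' hO' hne)
      have h5 : p - p' = (p - 1) - (p' - 1) := by ring
      have h6 := unit_of (V := O') (x := 1) (y := p') (map_one _) h4
      rw [h5]
      exact nu_mul (nu_sub (hp O' hO' hne) h4) h6.2.1
  have hΦr : Φ (p / p') = 1 := by
    have h3 := hr 1 (one_mem S)
    rwa [one_mul, add_sub_cancel] at h3
  have hΦp' : Φ p' ≠ 1 := by
    intro h
    apply hΦ
    have h3 : p = p / p' * p' := (div_mul_cancel₀ p hq0).symm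
    rw [h3, map_mul, hΦr, h, one_mul]
  refine ⟨p', hq1, hq2, ?_, hq0, hΦp'⟩
  intro O'' hO'' hne
  obtain ⟨O', hO', rfl⟩ := hg.surj O'' hO''
  apply hoth O' hO'
  rintro rfl
  exact hne rfl

end NTM_

open NTM_ in
theorem p_NTM (h_LCA : T_LCA) : T_NTM := by
  intro U B _ _ _ Φ S S' 𝒪 𝒪' g hF hF' hg O hO
  constructor
  · rintro ⟨p, hp1, hp2, hp, hp0, hΦ⟩
    exact core h_LCA Φ S S' 𝒪 𝒪' g hF hF' hg O hO p ((hg.le O hO).2 hp1) ((hg.le O hO).2 hp2)
      hp0 hΦ hp
  · intro p hpS hp0 hΦ hp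
    exact core h_LCA Φ S S' 𝒪 𝒪' g hF hF' hg O hO p (hF'.sub _ (hg.le O hO).1 p hpS)
      (hF'.sub _ (hg.le O hO).1 _ (inv_mem hpS)) hp0 hΦ hp

end NFW
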