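import Pool.Agent.NFW.Targets4

/-!
# NFW-RAT: approximation by `q`-th powers of Gaussian rationals
-/

set_option autoImplicit false

noncomputable section

namespace NFW

namespace RAT_

/-- coordinates of the powers of a Gaussian rational -/
def pw (p s : ℚ) : ℕ → ℚ × ℚ
  | 0 => (1, 0)
  | k + 1 => ((pw p s k).1 * p - (pw p s k).2 * s, (pw p s k).1 * s + (pw p s k).2 * p)

lemma pw_eq {F : Type} [Field F] [CharZero F] {j : F} (hj : j ^ 2 = -1) (p s : ℚ) (k : ℕ) :
    ((p : F) + (s : F) * j) ^ k = ((pw p s k).1 : F) + ((pw p s k).2 : F) * j := by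
  induction k with
  | zero => simp [pw]
  | succ k ih =>
    rw [pow_succ, ih]
    simp only [pw]
    push_cast
    linear_combination (((pw p s k).2 : F) * (s : F)) * hj

/-- density of the `q`-th powers of Gaussian rationals -/
lemma dens (x₀ y₀ : ℚ) (q : ℕ) (hq : 0 < q) (ε : ℚ) (hε : 0 < ε) :
    ∃ p s : ℚ, |(pw p s q).1 - x₀| ≤ ε ∧ |(pw p s q).2 - y₀| ≤ ε := by
  obtain ⟨β, hβ⟩ := IsAlgClosed.exists_pow_nat_eq ((x₀ : ℂ) + (y₀ : ℂ) * Complex.I) hq
  have hε' : (0 : ℝ) < ε := by exact_mod_cast hε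
  have hcont : ContinuousAt (fun z : ℂ => z ^ q) β := (continuous_pow q).continuousAt
  obtain ⟨δ, hδ, h⟩ := Metric.continuousAt_iff.1 hcont ε hε'
  obtain ⟨p, hp⟩ := exists_rat_near β.re (half_pos hδ)
  obtain ⟨s, hs⟩ := exists_rat_near β.im (half_pos hδ)
  have hd : dist ((p : ℂ) + (s : ℂ) * Complex.I) β < δ := by
    rw [dist_eq_norm]
    refine (Complex.norm_le_abs_re_add_abs_im _).trans_lt ?_
    have h1 : ((p : ℂ) + (s : ℂ) * Complex.I - β).re = p - β.re := by simp
    have h2 : ((p : ℂ) + (s : ℂ) * Complex.I - β).im = s - β.im := by simp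
    rw [h1, h2, abs_sub_comm, abs_sub_comm (s : ℝ)]
    linarith
  have h3 := h hd
  rw [hβ, dist_eq_norm, pw_eq Complex.I_sq] at h3
  refine ⟨p, s, ?_, ?_⟩
  · have h4 := (Complex.abs_re_le_norm _).trans h3.le
    have h5 : (((pw p s q).1 : ℂ) + ((pw p s q).2 : ℂ) * Complex.I -
        ((x₀ : ℂ) + (y₀ : ℂ) * Complex.I)).re = (((pw p s q).1 - x₀ : ℚ) : ℝ) := by
      push_cast
      simp
    rw [h5] at h4
    exact_mod_cast h4
  · have h4 := (Complex.abs_im_le_norm _).trans h3.le
    have h5 : (((pw p s q).1 : ℂ) + ((pw p s q).2 : ℂ) * Complex.I -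
        ((x₀ : ℂ) + (y₀ : ℂ) * Complex.I)).im = (((pw p s q).2 - y₀ : ℚ) : ℝ) := by
      push_cast
      simp
    rw [h5] at h4
    exact_mod_cast h4

/-- bounded elements of an ordered field are close to rational numbers -/
lemma near {R : Type} [Field R] [LinearOrder R] [IsStrictOrderedRing R] (x : R) (m E : ℕ)
    (hE : 0 < E) (hx : |x| ≤ m) : ∃ x₀ : ℚ, |x - (x₀ : R)| ≤ 1 / (E : R) := by
  have hE' : (0 : R) < E := by exact_mod_cast hE
  have hex : ∃ k : ℕ, x < -(m : R) + k / E := by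
    refine ⟨2 * m * E + E, ?_⟩
    have h1 : ((2 * m * E + E : ℕ) : R) / E = 2 * m + 1 := by
      push_cast
      field_simp
    rw [h1]
    have := (abs_le.1 hx).2
    linarith
  classical
  have hk := Nat.find_spec hex
  have hk0 : Nat.find hex ≠ 0 := by
    intro h
    rw [h, Nat.cast_zero, zero_div, add_zero] at hk
    have := (abs_le.1 hx).1
    linarith
  obtain ⟨k, hk1⟩ := Nat.exists_eq_succ_of_ne_zero hk0
  have hk2 : ¬ x < -(m : R) + k / E := Nat.find_min hex (by rw [hk1]; exact Nat.lt_succ_self k)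
  rw [hk1] at hk
  push_cast at hk
  refine ⟨-(m : ℚ) + k / E, ?_⟩
  push_cast
  rw [abs_le]
  have h2 : ((k : R) + 1) / E = k / E + 1 / E := by ring
  rw [h2] at hk
  have h3 : (0 : R) < 1 / E := by positivity
  constructor
  · linarith
  · linarith

end RAT_

open RAT_ in
theorem p_RAT : T_RAT := by
  intro R C _ _ _ _ _ i hi x y m n q hn hq hxm hmx
  have hcR : CharZero R := inferInstance
  have hcC : CharZero C := charZero_of_injective_algebraMap (algebraMap R C).injective
  have hm : 0 < m := by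
    rcases Nat.eq_zero_or_pos m with h | h
    · rw [h, Nat.cast_zero, mul_zero] at hmx
      linarith
    · exact h
  have hmR : (1 : R) ≤ m := by exact_mod_cast hm
  have hnR : (1 : R) ≤ n := by exact_mod_cast hn
  have hmm : (m : R) ≤ (m : R) ^ 2 := by
    rw [sq]
    exact le_mul_of_one_le_left (by linarith) hmR
  have hx : |x| ≤ m := by
    apply abs_le_of_sq_le_sq _ (by linarith)
    have := sq_nonneg y
    linarith
  have hy : |y| ≤ m := by
    apply abs_le_of_sq_le_sq _ (by linarith)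
    have := sq_nonneg x
    linarith
  set E : ℕ := 10 * m * n with hE
  have hEpos : 0 < E := by positivity
  have hEQ : (0 : ℚ) < 1 / (E : ℚ) := by positivity
  obtain ⟨x₀, hx₀⟩ := near x m E hEpos hx
  obtain ⟨y₀, hy₀⟩ := near y m E hEpos hy
  obtain ⟨p, s, hp, hs⟩ := dens x₀ y₀ q hq (1 / (E : ℚ)) hEQ
  set u : ℚ := (pw p s q).1 with hu
  set v : ℚ := (pw p s q).2 with hv
  set ε : R := 1 / (E : R) with hε
  have hER : (E : R) = 10 * m * n := by rw [hE]; push_cast; ring
  have hε0 : 0 < ε := by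
    rw [hε, hER]
    positivity
  have hεmn : ε * (10 * m * n) = 1 := by
    rw [hε, hER]
    field_simp
  have hp' : |(u : R) - x₀| ≤ ε := by
    have : |(u : R) - x₀| = ((|u - x₀| : ℚ) : R) := by push_cast; rfl
    rw [this, hε]
    have h1 : ((1 / (E : ℚ) : ℚ) : R) = 1 / (E : R) := by push_cast; rfl
    rw [← h1]
    exact_mod_cast hp
  have hs' : |(v : R) - y₀| ≤ ε := by
    have : |(v : R) - y₀| = ((|v - y₀| : ℚ) : R) := by push_cast; rfl
    rw [this, hε]
    have h1 : ((1 / (E : ℚ) : ℚ) : R) = 1 / (E : R) := by push_cast; rfl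
    rw [← h1]
    exact_mod_cast hs
  have hxu : |x - u| ≤ 2 * ε := by
    have h1 : x - u = (x - x₀) - ((u : R) - x₀) := by ring
    rw [h1]
    refine (abs_sub _ _).trans ?_
    linarith
  have hyv : |y - v| ≤ 2 * ε := by
    have h1 : y - v = (y - y₀) - ((v : R) - y₀) := by ring
    rw [h1]
    refine (abs_sub _ _).trans ?_
    linarith
  set S : R := (u : R) ^ 2 + (v : R) ^ 2 with hS
  have hxu2 : (x - u) ^ 2 ≤ 4 * ε ^ 2 := by
    have := pow_le_pow_left₀ (abs_nonneg _) hxu 2
    rw [sq_abs, mul_pow] at this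
    linarith
  have hyv2 : (y - v) ^ 2 ≤ 4 * ε ^ 2 := by
    have := pow_le_pow_left₀ (abs_nonneg _) hyv 2
    rw [sq_abs, mul_pow] at this
    linarith
  have hS1 : x ^ 2 + y ^ 2 ≤ 2 * S + 16 * ε ^ 2 := by
    have e1 : x ^ 2 + (2 * u - x) ^ 2 = 2 * u ^ 2 + 2 * (x - u) ^ 2 := by ring
    have e2 : y ^ 2 + (2 * v - y) ^ 2 = 2 * v ^ 2 + 2 * (y - v) ^ 2 := by ring
    have e3 := sq_nonneg (2 * (u : R) - x)
    have e4 := sq_nonneg (2 * (v : R) - y)
    linarith
  have hεm : ε * (10 * m) ≤ 1 := by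
    have h1 : 0 ≤ ε * (10 * m) := by positivity
    calc ε * (10 * m) = ε * (10 * m) * 1 := by ring
      _ ≤ ε * (10 * m) * n := by gcongr
      _ = 1 := by rw [← hεmn]; ring
  have hSm : 1 ≤ S * (4 * m) := by
    have h1 : 32 * (ε ^ 2 * m) ≤ 1 := by
      have h2 : ε ≤ 1 / 10 := by
        have h3 : ε * 10 * 1 ≤ ε * 10 * m := by gcongr
        linarith
      calc 32 * (ε ^ 2 * m) = 16 / 5 * ε * (ε * (10 * m)) := by ring
        _ ≤ 16 / 5 * ε * 1 := by gcongr
        _ ≤ 1 := by linarith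
    have h3 : (x ^ 2 + y ^ 2) * m ≤ (2 * S + 16 * ε ^ 2) * m :=
      mul_le_mul_of_nonneg_right hS1 (by linarith)
    have h4 : (2 * S + 16 * ε ^ 2) * m = 2 * (S * m) + 16 * (ε ^ 2 * m) := by ring
    have h5 : S * (4 * m) = 4 * (S * m) := by ring
    linarith
  have hS0 : 0 < S := by
    by_contra h
    push Not at h
    have h1 : S * (4 * m) ≤ 0 := mul_nonpos_of_nonpos_of_nonneg h (by linarith)
    linarith
  have hSne : S ≠ 0 := hS0.ne'
  set a : R := ((x - u) * u + (y - v) * v) / S with ha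
  set b : R := ((y - v) * u - (x - u) * v) / S with hb
  have hbd : |(u : R)| + |(v : R)| ≤ S * (5 * m) := by
    have hsq : ∀ t : R, |t| ≤ (t ^ 2 + 1) / 2 := by
      intro t
      have h6 := sq_nonneg (|t| - 1)
      have h7 : (|t| - 1) ^ 2 = t ^ 2 - 2 * |t| + 1 := by
        rw [sub_sq, sq_abs]
        ring
      linarith
    have h1 := hsq (u : R)
    have h2 := hsq (v : R)
    have h3 : S * 1 ≤ S * m := by gcongr
    have h4 : S * (5 * m) = 5 * (S * m) := by ring
    have h5 : S * (4 * m) = 4 * (S * m) := by ring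
    linarith
  have hab : ∀ c d : R, |c| ≤ 2 * ε → |d| ≤ 2 * ε → ∀ g h : R, |g| + |h| ≤ S * (5 * m) →
      |(c * g + d * h) / S| * n ≤ 1 := by
    intro c d hc hd g h hgh
    have h1 : |c * g + d * h| ≤ 2 * ε * (|g| + |h|) := by
      refine (abs_add_le _ _).trans ?_
      rw [abs_mul, abs_mul, mul_add]
      gcongr
    rw [abs_div, abs_of_pos hS0, div_mul_eq_mul_div, div_le_one hS0]
    calc |c * g + d * h| * n ≤ 2 * ε * (|g| + |h|) * n := by gcongr
      _ ≤ 2 * ε * (S * (5 * m)) * n := by gcongr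
      _ = S * (ε * (10 * m * n)) := by ring
      _ = S := by rw [hεmn, mul_one]
  have hpow : ((p : C) + (s : C) * i) ^ q = (u : C) + (v : C) * i := pw_eq hi p s q
  have hSC : algebraMap R C S = (u : C) ^ 2 + (v : C) ^ 2 := by
    rw [hS, map_add, map_pow, map_pow, map_ratCast, map_ratCast]
  have hSC0 : (u : C) ^ 2 + (v : C) ^ 2 ≠ 0 := by
    rw [← hSC]
    exact (map_ne_zero (algebraMap R C)).2 hSne
  refine ⟨p, s, a, b, ?_, ?_, ?_, ?_⟩
  · intro h
    rw [h, zero_pow hq.ne'] at hpow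
    apply hSC0
    linear_combination (-(u : C) + (v : C) * i) * hpow + (v : C) ^ 2 * hi
  · exact hab _ _ hxu hyv _ _ hbd
  · have h1 := hab (y - v) (-(x - u)) hyv (by rw [abs_neg]; exact hxu) u v hbd
    have h2 : (y - v) * u + -(x - u) * v = (y - v) * u - (x - u) * v := by ring
    rw [h2] at h1
    exact h1
  · have hax : a * S = (x - u) * u + (y - v) * v := by rw [ha]; field_simp
    have hbx : b * S = (y - v) * u - (x - u) * v := by rw [hb]; field_simp
    have hax' := congrArg (algebraMap R C) hax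
    have hbx' := congrArg (algebraMap R C) hbx
    simp only [map_mul, map_add, map_sub, map_ratCast, hSC] at hax' hbx'
    rw [hpow]
    apply mul_right_cancel₀ hSC0
    linear_combination (-((u : C) + (v : C) * i)) * hax' -
      ((u : C) + (v : C) * i) * i * hbx' -
      (v : C) * (algebraMap R C y * (u : C) - algebraMap R C x * (v : C)) * hi

end NFW
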