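import Pool.Agent.NFW.Targets4

/-!
# NFW: existence of a real closure
-/

set_option autoImplicit false

open Polynomial

noncomputable section

namespace NFW

namespace RCL_

variable {K C : Type} [Field K] [LinearOrder K] [IsStrictOrderedRing K] [Field C] [Algebra K C]

set_option linter.unusedSectionVars false

/-- a preordering `S` of an intermediate field `E` -/
structure Pre (E : IntermediateField K C) (S : Set C) : Prop where
  sub : S ⊆ E
  base : ∀ a : K, 0 ≤ a → algebraMap K C a ∈ S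
  add : ∀ x ∈ S, ∀ y ∈ S, x + y ∈ S
  mul : ∀ x ∈ S, ∀ y ∈ S, x * y ∈ S
  sq : ∀ x ∈ E, x * x ∈ S
  neg : (-1 : C) ∉ S

variable (K) in
/-- preorderings of intermediate fields, without the field -/
structure Good (S : Set C) : Prop where
  base : ∀ a : K, 0 ≤ a → algebraMap K C a ∈ S
  add : ∀ x ∈ S, ∀ y ∈ S, x + y ∈ S
  mul : ∀ x ∈ S, ∀ y ∈ S, x * y ∈ S
  inv : ∀ x ∈ S, x⁻¹ ∈ S
  sq : ∀ x ∈ S, ∀ y ∈ S, (x - y) * (x - y) ∈ S
  neg : (-1 : C) ∉ S

theorem good_of_pre {E : IntermediateField K C} {S : Set C} (h : Pre E S) : Good K S where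
  base := h.base
  add := h.add
  mul := h.mul
  inv x hx := by
    by_cases h0 : x = 0
    · rw [h0, inv_zero, ← h0]; exact hx
    · have : x⁻¹ = x * (x⁻¹ * x⁻¹) := by field_simp
      rw [this]
      exact h.mul _ hx _ (h.sq _ (E.inv_mem (h.sub hx)))
  sq x hx y hy := h.sq _ (E.sub_mem (h.sub hx) (h.sub hy))
  neg := h.neg

theorem good_zero {T : Set C} (h : Good K T) : (0 : C) ∈ T := by
  simpa using h.base 0 le_rfl

theorem good_one {T : Set C} (h : Good K T) : (1 : C) ∈ T := by
  simpa using h.base 1 zero_le_one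

/-- the field of differences of a good set -/
def fld {T : Set C} (h : Good K T) : IntermediateField K C where
  carrier := {x | ∃ a ∈ T, ∃ b ∈ T, x = a - b}
  mul_mem' := by
    rintro _ _ ⟨a, ha, b, hb, rfl⟩ ⟨c, hc, d, hd, rfl⟩
    exact ⟨a * c + b * d, h.add _ (h.mul _ ha _ hc) _ (h.mul _ hb _ hd), a * d + b * c,
      h.add _ (h.mul _ ha _ hd) _ (h.mul _ hb _ hc), by ring⟩
  one_mem' := ⟨1, good_one h, 0, good_zero h, by ring⟩
  add_mem' := by
    rintro _ _ ⟨a, ha, b, hb, rfl⟩ ⟨c, hc, d, hd, rfl⟩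
    exact ⟨a + c, h.add _ ha _ hc, b + d, h.add _ hb _ hd, by ring⟩
  zero_mem' := ⟨0, good_zero h, 0, good_zero h, by ring⟩
  algebraMap_mem' := by
    intro a
    rcases le_total 0 a with ha | ha
    · exact ⟨_, h.base a ha, 0, good_zero h, by ring⟩
    · exact ⟨0, good_zero h, _, h.base (-a) (neg_nonneg.2 ha), by simp⟩
  inv_mem' := by
    rintro _ ⟨a, ha, b, hb, rfl⟩
    by_cases h0 : a - b = 0
    · rw [h0, inv_zero]; exact ⟨0, good_zero h, 0, good_zero h, by ring⟩
    · have hs : ((a - b) * (a - b))⁻¹ ∈ T := h.inv _ (h.sq _ ha _ hb)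
      exact ⟨_, h.mul _ ha _ hs, _, h.mul _ hb _ hs, by field_simp⟩

theorem mem_fld {T : Set C} (h : Good K T) {x : C} :
    x ∈ fld h ↔ ∃ a ∈ T, ∃ b ∈ T, x = a - b := Iff.rfl

theorem sub_fld {T : Set C} (h : Good K T) {x : C} (hx : x ∈ T) : x ∈ fld h :=
  ⟨x, hx, 0, good_zero h, by ring⟩

theorem sq_fld {T : Set C} (h : Good K T) {x : C} (hx : x ∈ fld h) : x * x ∈ T := by
  obtain ⟨a, ha, b, hb, rfl⟩ := hx
  exact h.sq _ ha _ hb

theorem eq_zero {T : Set C} (h : Good K T) {x : C} (hx : x ∈ T) (hx' : -x ∈ T) : x = 0 := by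
  by_contra h0
  apply h.neg
  have : (-1 : C) = -x * x⁻¹ := by field_simp
  rw [this]
  exact h.mul _ hx' _ (h.inv _ hx)

/-- a maximal good set is total on its field -/
theorem total {T : Set C} (h : Good K T) (hmax : ∀ S : Set C, Good K S → T ⊆ S → S ⊆ T) {x : C}
    (hx : x ∈ fld h) : x ∈ T ∨ -x ∈ T := by
  by_contra hcon
  push Not at hcon
  obtain ⟨hx1, hx2⟩ := hcon
  let S : Set C := {z | ∃ t ∈ T, ∃ s ∈ T, z = t - x * s}
  have hS : Pre (fld h) S := by
    refine ⟨?_, ?_, ?_, ?_, ?_, ?_⟩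
    · rintro _ ⟨t, ht, s, hs, rfl⟩
      exact (fld h).sub_mem (sub_fld h ht) ((fld h).mul_mem hx (sub_fld h hs))
    · intro a ha
      exact ⟨_, h.base a ha, 0, good_zero h, by ring⟩
    · rintro _ ⟨t, ht, s, hs, rfl⟩ _ ⟨t', ht', s', hs', rfl⟩
      exact ⟨t + t', h.add _ ht _ ht', s + s', h.add _ hs _ hs', by ring⟩
    · rintro _ ⟨t, ht, s, hs, rfl⟩ _ ⟨t', ht', s', hs', rfl⟩
      exact ⟨t * t' + x * x * (s * s'),
        h.add _ (h.mul _ ht _ ht') _ (h.mul _ (sq_fld h hx) _ (h.mul _ hs _ hs')),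
        s * t' + s' * t, h.add _ (h.mul _ hs _ ht') _ (h.mul _ hs' _ ht), by ring⟩
    · intro z hz
      exact ⟨z * z, sq_fld h hz, 0, good_zero h, by ring⟩
    · rintro ⟨t, ht, s, hs, hts⟩
      by_cases h0 : s = 0
      · rw [h0] at hts
        apply h.neg
        rw [hts]
        simpa using ht
      · apply hx1
        have : x = (1 + t) * s⁻¹ := by
          field_simp
          linear_combination hts
        rw [this]
        exact h.mul _ (h.add _ (good_one h) _ ht) _ (h.inv _ hs)
  have hTS : T ⊆ S := fun t ht => ⟨t, ht, 0, good_zero h, by ring⟩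
  exact hx2 (hmax S (good_of_pre hS) hTS ⟨0, good_zero h, 1, good_one h, by ring⟩)

/-- sums of `p x ^ 2`, `p ∈ T`, `x ∈ E` -/
def sm (T : Set C) (E : IntermediateField K C) : AddSubmonoid C :=
  AddSubmonoid.closure {z | ∃ p ∈ T, ∃ x ∈ E, z = p * (x * x)}

theorem sm_mul {T : Set C} (h : Good K T) (E : IntermediateField K C) {x y : C}
    (hx : x ∈ sm T E) (hy : y ∈ sm T E) : x * y ∈ sm T E := by
  induction hx using AddSubmonoid.closure_induction with
  | mem x hx =>
    obtain ⟨p, hp, u, hu, rfl⟩ := hx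
    induction hy using AddSubmonoid.closure_induction with
    | mem y hy =>
      obtain ⟨q, hq, v, hv, rfl⟩ := hy
      exact AddSubmonoid.subset_closure ⟨p * q, h.mul _ hp _ hq, u * v, E.mul_mem hu hv, by ring⟩
    | zero => rw [mul_zero]; exact (sm T E).zero_mem
    | add a b _ _ ha hb => rw [mul_add]; exact (sm T E).add_mem ha hb
  | zero => rw [zero_mul]; exact (sm T E).zero_mem
  | add a b _ _ ha hb => rw [add_mul]; exact (sm T E).add_mem ha hb

/-- the extension step -/
theorem ext {T : Set C} (h : Good K T) (hmax : ∀ S : Set C, Good K S → T ⊆ S → S ⊆ T)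
    (E : IntermediateField K C) (hE : fld h ≤ E) (hn : (-1 : C) ∉ sm T E) : E ≤ fld h := by
  have hTS : T ⊆ (sm T E : Set C) := fun t ht =>
    AddSubmonoid.subset_closure ⟨t, ht, 1, E.one_mem, by ring⟩
  have hpre : Pre E (sm T E : Set C) := by
    refine ⟨?_, ?_, ?_, ?_, ?_, hn⟩
    · have : sm T E ≤ E.toSubfield.toAddSubgroup.toAddSubmonoid := by
        refine AddSubmonoid.closure_le.2 ?_
        rintro _ ⟨p, hp, x, hx, rfl⟩
        exact E.mul_mem (hE (sub_fld h hp)) (E.mul_mem hx hx)
      exact this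
    · intro a ha
      exact hTS (h.base a ha)
    · intro x hx y hy
      exact (sm T E).add_mem hx hy
    · intro x hx y hy
      exact sm_mul h E hx hy
    · intro x hx
      exact AddSubmonoid.subset_closure ⟨1, good_one h, x, hx, by ring⟩
  have hsub := hmax _ (good_of_pre hpre) hTS
  intro x hx
  have h2 : (2 : C) ≠ 0 := by
    intro h2
    apply h.neg
    have : (-1 : C) = 1 := by linear_combination - h2
    rw [this]
    exact good_one h
  have h2E : (2 : C) ∈ E := by
    rw [← one_add_one_eq_two]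
    exact E.add_mem E.one_mem E.one_mem
  have hdiv : ∀ y ∈ E, y / 2 ∈ E := fun y hy => E.div_mem hy h2E
  refine ⟨((x + 1) / 2) * ((x + 1) / 2), hsub (hpre.sq _ (hdiv _ (E.add_mem hx E.one_mem))),
    ((x - 1) / 2) * ((x - 1) / 2), hsub (hpre.sq _ (hdiv _ (E.sub_mem hx E.one_mem))), ?_⟩
  field_simp
  ring

/-- the field `F(θ)` -/
def adj (F : IntermediateField K C) (θ : C) : IntermediateField K C :=
  (IntermediateField.adjoin F {θ}).restrictScalars K

theorem le_adj (F : IntermediateField K C) (θ : C) : F ≤ adj F θ := fun x hx => by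
  change x ∈ IntermediateField.adjoin F {θ}
  exact (IntermediateField.adjoin F {θ}).algebraMap_mem ⟨x, hx⟩

theorem mem_adj (F : IntermediateField K C) (θ : C) : θ ∈ adj F θ :=
  IntermediateField.mem_adjoin_simple_self F θ

theorem adj_eq (F : IntermediateField K C) (θ : C) (hθ : IsAlgebraic F θ) {x : C}
    (hx : x ∈ adj F θ) : ∃ g : F[X], x = aeval θ g := by
  change x ∈ IntermediateField.adjoin F {θ} at hx
  rw [← IntermediateField.mem_toSubalgebra,
    IntermediateField.adjoin_simple_toSubalgebra_of_isAlgebraic hθ,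
    Algebra.adjoin_singleton_eq_range_aeval] at hx
  obtain ⟨g, hg⟩ := hx
  exact ⟨g, hg.symm⟩

theorem rep2 {T : Set C} (h : Good K T) {r : C} (hr : r * r ∈ T) (g : (fld h)[X]) :
    ∃ u ∈ fld h, ∃ v ∈ fld h, aeval r g = u + v * r := by
  induction g using Polynomial.induction_on with
  | C a =>
    refine ⟨a, a.2, 0, (fld h).zero_mem, ?_⟩
    rw [aeval_C, zero_mul, add_zero]
    rfl
  | add p q hp hq =>
    obtain ⟨u, hu, v, hv, h1⟩ := hp
    obtain ⟨u', hu', v', hv', h2⟩ := hq
    exact ⟨u + u', (fld h).add_mem hu hu', v + v', (fld h).add_mem hv hv', by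
      rw [map_add, h1, h2]; ring⟩
  | monomial n a ih =>
    obtain ⟨u, hu, v, hv, h1⟩ := ih
    refine ⟨v * (r * r), (fld h).mul_mem hv (sub_fld h hr), u, hu, ?_⟩
    rw [pow_succ, ← mul_assoc, map_mul, h1, aeval_X]
    ring

/-- square roots of elements of `T` -/
theorem sqrt_mem {T : Set C} (h : Good K T) (hmax : ∀ S : Set C, Good K S → T ⊆ S → S ⊆ T)
    {r : C} (hr : r * r ∈ T) : r ∈ fld h := by
  by_contra hrF
  have hralg : IsAlgebraic (fld h) r := by
    refine ⟨X ^ 2 - Polynomial.C ⟨r * r, sub_fld h hr⟩, ?_, ?_⟩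
    · exact (monic_X_pow_sub_C _ two_ne_zero).ne_zero
    · rw [map_sub, map_pow, aeval_X, aeval_C]
      change r ^ 2 - r * r = 0
      ring
  refine hrF (ext h hmax (adj (fld h) r) (le_adj _ _) ?_ (mem_adj _ _))
  have hs : ∀ s ∈ sm T (adj (fld h) r), ∃ u ∈ T, ∃ v ∈ fld h, s = u + v * r := by
    intro s hs
    induction hs using AddSubmonoid.closure_induction with
    | mem s hs =>
      obtain ⟨p, hp, x, hx, rfl⟩ := hs
      obtain ⟨g, rfl⟩ := adj_eq _ _ hralg hx
      obtain ⟨u, hu, v, hv, h1⟩ := rep2 h hr g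
      refine ⟨p * (u * u + v * v * (r * r)), ?_, p * (2 * u * v), ?_, ?_⟩
      · exact h.mul _ hp _ (h.add _ (sq_fld h hu) _ (h.mul _ (sq_fld h hv) _ hr))
      · have h2 : (2 : C) ∈ fld h := by
          rw [← one_add_one_eq_two]
          exact (fld h).add_mem (fld h).one_mem (fld h).one_mem
        exact (fld h).mul_mem (sub_fld h hp) ((fld h).mul_mem ((fld h).mul_mem h2 hu) hv)
      · rw [h1]
        ring
    | zero => exact ⟨0, good_zero h, 0, (fld h).zero_mem, by ring⟩
    | add a b _ _ ha hb =>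
      obtain ⟨u, hu, v, hv, rfl⟩ := ha
      obtain ⟨u', hu', v', hv', rfl⟩ := hb
      exact ⟨u + u', h.add _ hu _ hu', v + v', (fld h).add_mem hv hv', by ring⟩
  intro hn
  obtain ⟨u, hu, v, hv, h1⟩ := hs _ hn
  by_cases h0 : v = 0
  · apply h.neg
    rw [h1, h0, zero_mul, add_zero]
    exact hu
  · apply hrF
    have : r = (-1 - u) / v := by
      rw [h1]
      field_simp
      ring
    rw [this]
    exact (fld h).div_mem
      ((fld h).sub_mem ((fld h).neg_mem (fld h).one_mem) (sub_fld h hu)) hv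

/-- polynomials behaving like sums of squares -/
structure Q {T : Set C} (h : Good K T) (d : ℕ) (G : (fld h)[X]) : Prop where
  even : Even G.natDegree
  deg : G.natDegree + 2 ≤ 2 * d
  lc : (G.leadingCoeff : C) ∈ T
  ev : ∀ x : fld h, ((G.eval x : fld h) : C) ∈ T

theorem Q_zero {T : Set C} (h : Good K T) (d : ℕ) (hd : 0 < d) : Q h d 0 where
  even := by rw [natDegree_zero]; exact Even.zero
  deg := by rw [natDegree_zero]; omega
  lc := by rw [leadingCoeff_zero]; exact good_zero h
  ev x := by rw [eval_zero]; exact good_zero h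

theorem Q_one {T : Set C} (h : Good K T) (d : ℕ) (hd : 0 < d) : Q h d 1 where
  even := by rw [natDegree_one]; exact Even.zero
  deg := by rw [natDegree_one]; omega
  lc := by rw [leadingCoeff_one]; exact good_one h
  ev x := by rw [eval_one]; exact good_one h

theorem Q_add {T : Set C} (h : Good K T) (d : ℕ) (hd : 0 < d) {F G : (fld h)[X]} (hF : Q h d F)
    (hG : Q h d G) : Q h d (F + G) := by
  have hev : ∀ x : fld h, (((F + G).eval x : fld h) : C) ∈ T := by
    intro x
    rw [eval_add]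
    exact h.add _ (hF.ev x) _ (hG.ev x)
  rcases lt_trichotomy F.degree G.degree with hlt | heq | hgt
  · have h1 : (F + G).degree = G.degree := degree_add_eq_right_of_degree_lt hlt
    have h2 : (F + G).natDegree = G.natDegree := natDegree_eq_of_degree_eq h1
    exact ⟨h2 ▸ hG.even, h2 ▸ hG.deg, by rw [leadingCoeff_add_of_degree_lt hlt]; exact hG.lc, hev⟩
  · by_cases h0 : F.leadingCoeff + G.leadingCoeff = 0
    · have h1 : ((F.leadingCoeff : fld h) : C) = 0 := by
        refine eq_zero h hF.lc ?_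
        have : -((F.leadingCoeff : fld h) : C) = ((G.leadingCoeff : fld h) : C) := by
          have h2 : G.leadingCoeff = - F.leadingCoeff := by linear_combination h0
          rw [h2]
          rfl
        rw [this]
        exact hG.lc
      have h1' : F.leadingCoeff = 0 := Subtype.ext h1
      have h2' : G.leadingCoeff = 0 := by linear_combination h0 - h1'
      rw [leadingCoeff_eq_zero.1 h1', leadingCoeff_eq_zero.1 h2', add_zero]
      exact Q_zero h d hd
    · have h1 : (F + G).degree = F.degree := by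
        rw [degree_add_eq_of_leadingCoeff_add_ne_zero h0, heq, max_self]
      have h2 : (F + G).natDegree = F.natDegree := natDegree_eq_of_degree_eq h1
      exact ⟨h2 ▸ hF.even, h2 ▸ hF.deg, by
        rw [leadingCoeff_add_of_degree_eq heq h0]
        exact h.add _ hF.lc _ hG.lc, hev⟩
  · have h1 : (F + G).degree = F.degree := degree_add_eq_left_of_degree_lt hgt
    have h2 : (F + G).natDegree = F.natDegree := natDegree_eq_of_degree_eq h1
    exact ⟨h2 ▸ hF.even, h2 ▸ hF.deg, by
      rw [leadingCoeff_add_of_degree_lt' hgt]; exact hF.lc, hev⟩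

theorem Q_sq {T : Set C} (h : Good K T) (d : ℕ) (hd : 0 < d) {p : fld h} (hp : (p : C) ∈ T)
    {g : (fld h)[X]} (hg : g.natDegree < d) : Q h d (Polynomial.C p * (g * g)) := by
  by_cases hp0 : p = 0
  · rw [hp0, map_zero, zero_mul]; exact Q_zero h d hd
  by_cases hg0 : g = 0
  · rw [hg0, zero_mul, mul_zero]; exact Q_zero h d hd
  have h1 : (Polynomial.C p * (g * g)).natDegree = g.natDegree + g.natDegree := by
    rw [natDegree_C_mul hp0, natDegree_mul hg0 hg0]
  refine ⟨h1 ▸ ⟨_, rfl⟩, by omega, ?_, ?_⟩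
  · rw [leadingCoeff_mul, leadingCoeff_mul, leadingCoeff_C]
    exact h.mul _ hp _ (sq_fld h g.leadingCoeff.2)
  · intro x
    rw [eval_mul, eval_mul, eval_C]
    exact h.mul _ hp _ (sq_fld h (g.eval x).2)

/-- polynomials of odd degree have roots -/
theorem odd_root {T : Set C} (h : Good K T) (hmax : ∀ S : Set C, Good K S → T ⊆ S → S ⊆ T)
    [IsAlgClosed C] : ∀ d : ℕ, Odd d → ∀ f : (fld h)[X], f.natDegree = d → ∃ x, f.IsRoot x := by
  intro d
  induction d using Nat.strong_induction_on with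
  | _ d IH =>
  intro hd f hf
  have hd0 : 0 < d := hd.pos
  have hf0 : f ≠ 0 := by
    rintro rfl
    rw [natDegree_zero] at hf
    omega
  have hfu : ¬ IsUnit f := by
    intro hu
    rw [natDegree_eq_zero_of_isUnit hu] at hf
    omega
  by_cases hirr : Irreducible f
  · obtain ⟨θ, hθ⟩ := IsAlgClosed.exists_aeval_eq_zero C f (by
      rw [degree_eq_natDegree hf0, hf]
      exact_mod_cast hd0.ne')
    have halg : IsAlgebraic (fld h) θ := ⟨f, hf0, hθ⟩
    by_cases hn : (-1 : C) ∈ sm T (adj (fld h) θ)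
    · exfalso
      have hs : ∀ s ∈ sm T (adj (fld h) θ), ∃ G : (fld h)[X], Q h d G ∧ s = aeval θ G := by
        intro s hs
        induction hs using AddSubmonoid.closure_induction with
        | mem s hs =>
          obtain ⟨p, hp, x, hx, rfl⟩ := hs
          obtain ⟨g, rfl⟩ := adj_eq _ _ halg hx
          have hg1 : aeval θ (g % f) = aeval θ g := by
            conv_rhs => rw [← EuclideanDomain.mod_add_div g f]
            rw [map_add, map_mul, hθ, zero_mul, add_zero]
          have hg2 : (g % f).natDegree < d := by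
            rw [← hf]
            exact natDegree_mod_lt g (by omega)
          refine ⟨Polynomial.C ⟨p, sub_fld h hp⟩ * (g % f * (g % f)), Q_sq h d hd0 hp hg2, ?_⟩
          rw [map_mul, map_mul, aeval_C, hg1]
          rfl
        | zero => exact ⟨0, Q_zero h d hd0, by rw [map_zero]⟩
        | add a b _ _ ha hb =>
          obtain ⟨G, hG, rfl⟩ := ha
          obtain ⟨G', hG', rfl⟩ := hb
          exact ⟨G + G', Q_add h d hd0 hG hG', by rw [map_add]⟩
      obtain ⟨G, hG, hG1⟩ := hs _ hn
      have hF := Q_add h d hd0 (Q_one h d hd0) hG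
      have hF0 : (1 + G) ≠ 0 := by
        intro h0
        have h1 := hG.ev 0
        have h2 : G = -1 := by linear_combination h0
        rw [h2, eval_neg, eval_one] at h1
        exact h.neg h1
      have hdvd : f ∣ 1 + G := by
        have h1 : aeval θ (1 + G) = 0 := by
          rw [map_add, map_one, ← hG1]; ring
        have hm := minpoly.dvd (fld h) θ h1
        have h2 : f ∣ minpoly (fld h) θ := by
          have h3 := minpoly.dvd (fld h) θ hθ
          exact ((minpoly.irreducible halg.isIntegral).associated_of_dvd hirr h3).symm.dvd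
        exact h2.trans hm
      obtain ⟨k, hk⟩ := hdvd
      have hk0 : k ≠ 0 := by
        rintro rfl
        rw [mul_zero] at hk
        exact hF0 hk
      have hdeg : (1 + G).natDegree = d + k.natDegree := by
        rw [hk, natDegree_mul hf0 hk0, hf]
      have h1 := hF.even
      have h2 := hF.deg
      rw [hdeg] at h1 h2
      have hkodd : Odd k.natDegree := by
        rcases Nat.even_or_odd k.natDegree with h3 | h3
        · exact absurd h1 (Nat.not_even_iff_odd.2 (hd.add_even h3))
        · exact h3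
      obtain ⟨x, hx⟩ := IH k.natDegree (by omega) hkodd k rfl
      have h3 : (1 + G).eval x = 0 := by
        rw [hk, eval_mul, hx.eq_zero, mul_zero]
      rw [eval_add, eval_one] at h3
      have h4 : G.eval x = -1 := by linear_combination h3
      have h5 := hG.ev x
      rw [h4] at h5
      exact h.neg h5
    · have hmem := ext h hmax (adj (fld h) θ) (le_adj _ _) hn (mem_adj _ _)
      refine ⟨⟨θ, hmem⟩, ?_⟩
      have h1 : aeval (algebraMap (fld h) C ⟨θ, hmem⟩) f = 0 := hθ
      rw [aeval_algebraMap_apply, coe_aeval_eq_eval] at h1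
      exact (map_eq_zero _).1 h1
  · rw [irreducible_iff] at hirr
    push Not at hirr
    obtain ⟨a, b, hab, ha, hb⟩ := hirr hfu
    have ha0 : a ≠ 0 := by
      rintro rfl
      exact hf0 (by rw [hab, zero_mul])
    have hb0 : b ≠ 0 := by
      rintro rfl
      exact hf0 (by rw [hab, mul_zero])
    have ha1 : a.natDegree ≠ 0 := fun h0 =>
      ha (isUnit_iff_degree_eq_zero.2 (by rw [degree_eq_natDegree ha0, h0]; rfl))
    have hb1 : b.natDegree ≠ 0 := fun h0 =>
      hb (isUnit_iff_degree_eq_zero.2 (by rw [degree_eq_natDegree hb0, h0]; rfl))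
    have hdeg : a.natDegree + b.natDegree = d := by
      rw [← natDegree_mul ha0 hb0, ← hab, hf]
    rcases Nat.even_or_odd a.natDegree with h1 | h1
    · have h2 : Odd b.natDegree := by
        rcases Nat.even_or_odd b.natDegree with h3 | h3
        · exact absurd (hdeg ▸ h1.add h3) (Nat.not_even_iff_odd.2 hd)
        · exact h3
      obtain ⟨x, hx⟩ := IH b.natDegree (by omega) h2 b rfl
      exact ⟨x, by rw [IsRoot, hab, eval_mul, hx.eq_zero, mul_zero]⟩
    · obtain ⟨x, hx⟩ := IH a.natDegree (by omega) h1 a rfl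
      exact ⟨x, by rw [IsRoot, hab, eval_mul, hx.eq_zero, zero_mul]⟩

variable (K C) in
/-- existence of a maximal good set -/
theorem exists_max : ∃ T : Set C, Good K T ∧ ∀ S : Set C, Good K S → T ⊆ S → S ⊆ T := by
  let S0 : Set C := {x | ∃ a : K, 0 ≤ a ∧ x = algebraMap K C a}
  have h0 : Good K S0 := by
    refine ⟨fun a ha => ⟨a, ha, rfl⟩, ?_, ?_, ?_, ?_, ?_⟩
    · rintro _ ⟨a, ha, rfl⟩ _ ⟨b, hb, rfl⟩
      exact ⟨a + b, add_nonneg ha hb, by rw [map_add]⟩
    · rintro _ ⟨a, ha, rfl⟩ _ ⟨b, hb, rfl⟩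
      exact ⟨a * b, mul_nonneg ha hb, by rw [map_mul]⟩
    · rintro _ ⟨a, ha, rfl⟩
      exact ⟨a⁻¹, inv_nonneg.2 ha, by rw [map_inv₀]⟩
    · rintro _ ⟨a, ha, rfl⟩ _ ⟨b, hb, rfl⟩
      exact ⟨(a - b) * (a - b), mul_self_nonneg _, by rw [map_mul, map_sub]⟩
    · rintro ⟨a, ha, h1⟩
      have : algebraMap K C (-1) = algebraMap K C a := by rw [map_neg, map_one]; exact h1
      have h2 := (algebraMap K C).injective this
      have : (0 : K) ≤ -1 := h2 ▸ ha
      linarith
  obtain ⟨T, -, hT⟩ := zorn_subset_nonempty {S : Set C | Good K S} (by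
    intro c hc hch hne
    refine ⟨⋃₀ c, ?_, fun s hs => Set.subset_sUnion_of_mem hs⟩
    have key : ∀ x ∈ ⋃₀ c, ∀ y ∈ ⋃₀ c, ∃ S ∈ c, x ∈ S ∧ y ∈ S := by
      rintro x ⟨S, hS, hx⟩ y ⟨S', hS', hy⟩
      rcases hch.total hS hS' with h1 | h1
      · exact ⟨S', hS', h1 hx, hy⟩
      · exact ⟨S, hS, hx, h1 hy⟩
    refine ⟨?_, ?_, ?_, ?_, ?_, ?_⟩
    · intro a ha
      obtain ⟨S, hS⟩ := hne
      exact ⟨S, hS, (hc hS).base a ha⟩
    · intro x hx y hy
      obtain ⟨S, hS, h1, h2⟩ := key x hx y hy
      exact ⟨S, hS, (hc hS).add _ h1 _ h2⟩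
    · intro x hx y hy
      obtain ⟨S, hS, h1, h2⟩ := key x hx y hy
      exact ⟨S, hS, (hc hS).mul _ h1 _ h2⟩
    · rintro x ⟨S, hS, hx⟩
      exact ⟨S, hS, (hc hS).inv _ hx⟩
    · intro x hx y hy
      obtain ⟨S, hS, h1, h2⟩ := key x hx y hy
      exact ⟨S, hS, (hc hS).sq _ h1 _ h2⟩
    · rintro ⟨S, hS, hx⟩
      exact (hc hS).neg hx) S0 h0
  exact ⟨T, hT.prop, fun S hS hTS => hT.le_of_ge hS hTS⟩

/-- the positive cone of the field of a maximal good set -/
def cone {T : Set C} (h : Good K T) : RingCone (fld h) where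
  carrier := {x | (x : C) ∈ T}
  mul_mem' := fun {a b} ha hb => h.mul _ ha _ hb
  one_mem' := by
    change ((1 : fld h) : C) ∈ T
    exact good_one h
  add_mem' := fun {a b} ha hb => h.add _ ha _ hb
  zero_mem' := by
    change ((0 : fld h) : C) ∈ T
    exact good_zero h
  eq_zero_of_mem_of_neg_mem' := fun {a} ha hb => Subtype.ext (eq_zero h ha hb)

theorem mem_cone {T : Set C} (h : Good K T) {x : fld h} : x ∈ cone h ↔ (x : C) ∈ T := Iff.rfl

end RCL_

open RCL_ in
/-- existence of a real closure -/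
theorem p_RCL : T_RCL := by
  intro K _ _ _
  obtain ⟨T, hT, hmax⟩ := exists_max K (AlgebraicClosure K)
  classical
  have h0 : HasMemOrNegMem (cone hT) := ⟨fun x => by
    rw [mem_cone, mem_cone]
    exact total hT hmax x.2⟩
  let ord : LinearOrder (fld hT) := LinearOrder.mkOfAddGroupCone (cone hT)
  have h1 : IsOrderedRing (fld hT) := IsOrderedRing.mkOfCone (cone hT)
  have h2 : IsStrictOrderedRing (fld hT) := IsOrderedRing.toIsStrictOrderedRing _
  refine ⟨fld hT, inferInstance, ord, h2, inferInstance, ?_, ?_, ?_⟩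
  · refine Monotone.strictMono_of_injective ?_ (algebraMap K (fld hT)).injective
    intro a b hab
    change algebraMap K (fld hT) b - algebraMap K (fld hT) a ∈ cone hT
    rw [← map_sub]
    exact hT.base _ (sub_nonneg.2 hab)
  · infer_instance
  · refine IsRealClosed.of_linearOrderedField ?_ ?_
    · intro x hx
      have hx' : (x : AlgebraicClosure K) ∈ T := by
        have : x - 0 ∈ cone hT := hx
        rw [sub_zero] at this
        exact this
      obtain ⟨r, hr⟩ := IsAlgClosed.exists_pow_nat_eq (x : AlgebraicClosure K) (n := 2) two_pos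
      rw [sq] at hr
      have hrF := sqrt_mem hT hmax (hr ▸ hx')
      exact ⟨⟨r, hrF⟩, Subtype.ext hr.symm⟩
    · intro f hf
      exact odd_root hT hmax _ hf f rfl

end NFW
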