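import Pool.Agent.NFW.Targets1

/-!
# NFW: target RKB (the rank bound)
-/

set_option autoImplicit false

open Polynomial NFV

noncomputable section

namespace NFW

theorem RKB_coord {U B : Type} [Field U] [CommGroupWithZero B] (Φ : U →*₀ B) {n : ℕ}
    (w : Fin n → U) {ι : Type} [Finite ι] [Nonempty ι] (c : ι → U) {η : ℝ} (hη : 0 ≤ η)
    (hc : Rh Φ c 1 η) (i j : Fin n) (hj : j ≠ i) :
    Rh Φ (lin c (fun j : {j : Fin n // j ≠ i} => w j)) (w j) η := by
  have h1 : Rh Φ (fun k => w j * c k) (w j * 1) η := hc.smul hη (w j)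
  have h2 : Rh Φ (fun k => c k * w j) (w j) η := by
    have e1 : (fun k => c k * w j) = fun k => w j * c k := by
      funext k
      exact mul_comm _ _
    rw [e1]
    rw [mul_one] at h1
    exact h1
  exact Rh.lin_of (Φ := (Φ : U → B)) (c := c)
    (t := fun j : {j : Fin n // j ≠ i} => w j) ⟨j, hj⟩ (v := w j) (ε := η) h2

theorem RKB_sum {U B : Type} [Field U] [CommGroupWithZero B] (Φ : U →*₀ B) {n : ℕ}
    (w : Fin n → U) {ι : Type} [Finite ι] [Nonempty ι] (c : ι → U) {η : ℝ} (hη : 0 ≤ η)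
    (hc : Rh Φ c 1 η) (i : Fin n) (A : Finset (Fin n)) (hA : i ∉ A) :
    Rh Φ (lin c (fun j : {j : Fin n // j ≠ i} => w j)) (∑ j ∈ A, w j) (n * η) := by
  have h1 := Rh.sum (Φ := Φ) (c := lin c (fun j : {j : Fin n // j ≠ i} => w j)) A w
    (ε := η) (fun j hj => RKB_coord Φ w c hη hc i j (fun h => hA (h ▸ hj)))
  refine h1.mono ?_
  have h2 : (A.card : ℝ) ≤ n := by
    have := Finset.card_le_univ A
    rw [Fintype.card_fin] at this
    exact_mod_cast this
  exact mul_le_mul_of_nonneg_right h2 hη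

theorem RKB_point {U B : Type} [Field U] [CommGroupWithZero B] (Φ : U →*₀ B) {n : ℕ}
    (w : Fin n → U) {ι : Type} [Finite ι] [Nonempty ι] (c : ι → U) {η ε : ℝ} (hη : 0 ≤ η)
    (hc : Rh Φ c 1 η) (hε : 2 ^ n * (n * η + n * η) < ε) (i : Fin n)
    (hi : ¬ Rh Φ (lin c (fun j : {j : Fin n // j ≠ i} => w j)) (w i) ε) :
    ∃ a : U, ∀ A : Finset (Fin n), (Φ ((∑ j ∈ A, w j) + a) = Φ a ↔ i ∉ A) := by
  classical
  set C := lin c (fun j : {j : Fin n // j ≠ i} => w j) with hC
  unfold Rh at hi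
  push Not at hi
  obtain ⟨u, hu⟩ := hi
  let s : Finset (Finset (Fin n)) := Finset.univ.filter fun A => i ∉ A
  have hs : s.card ≤ 2 ^ n := by
    calc s.card ≤ (Finset.univ : Finset (Finset (Fin n))).card :=
          Finset.card_le_card (Finset.filter_subset _ _)
      _ = 2 ^ n := by simp
  have hbad : pr (fun f => ∃ A ∈ s, (Φ (u + C f + ∑ j ∈ A, w j) ≠ Φ (u + C f) ∨
      Φ (u + w i + C f + ∑ j ∈ A, w j) ≠ Φ (u + w i + C f))) < ε := by
    refine lt_of_le_of_lt ?_ hε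
    refine (pr_union_le s _ (n * η + n * η) ?_).trans ?_
    · intro A hA
      have hA' : i ∉ A := (Finset.mem_filter.1 hA).2
      have h1 := RKB_sum Φ w c hη hc i A hA'
      exact (pr_or _ _).trans (add_le_add (h1 u) (h1 (u + w i)))
    · have h1 : (0 : ℝ) ≤ n * η + n * η := by positivity
      have h2 : (s.card : ℝ) ≤ 2 ^ n := by exact_mod_cast hs
      exact mul_le_mul_of_nonneg_right h2 h1
  obtain ⟨f, hf1, hf2⟩ := exists_of_pr_lt (hbad.trans hu)
  push Not at hf2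
  refine ⟨u + C f, ?_⟩
  intro A
  constructor
  · intro h hiA
    have h0 : A.erase i ∈ s :=
      Finset.mem_filter.2 ⟨Finset.mem_univ _, Finset.notMem_erase i A⟩
    have h1 := (hf2 (A.erase i) h0).2
    have h2 : ∑ j ∈ A, w j = w i + ∑ j ∈ A.erase i, w j := (Finset.add_sum_erase A w hiA).symm
    apply hf1
    rw [show u + C f + w i = u + w i + C f by ring, ← h1, ← h, h2]
    congr 1
    ring
  · intro hiA
    have h1 := (hf2 A (Finset.mem_filter.2 ⟨Finset.mem_univ _, hiA⟩)).1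
    rw [add_comm]
    exact h1

theorem p_RKB : T_RKB := by
  classical
  intro U B _ _ Φ S n hNS hNC w
  by_contra hcon
  push Not at hcon
  have h1 : ∀ i : Fin n, ∃ ε : ℝ, 0 < ε ∧ ∀ (ι : Type) (_ : Finite ι) (_ : Nonempty ι)
      (c : ι → U), (∀ k, c k ∈ S) →
        ¬ Rh Φ (lin c (fun j : {j : Fin n // j ≠ i} => w j)) (w i) ε := by
    intro i
    have := hcon i
    unfold Md at this
    rw [Set.mem_ofPred_eq] at this
    push Not at this
    exact this
  choose e he0 he using h1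
  -- a common positive lower bound
  obtain ⟨ε, hε0, hε⟩ : ∃ ε : ℝ, 0 < ε ∧ ∀ i, ε ≤ e i := by
    rcases isEmpty_or_nonempty (Fin n) with hn | hn
    · exact ⟨1, one_pos, fun i => isEmptyElim i⟩
    · obtain ⟨i0, hi0⟩ := Finite.exists_min e
      exact ⟨e i0, he0 i0, hi0⟩
  have hn0 : (0 : ℝ) ≤ n := Nat.cast_nonneg n
  set η : ℝ := ε / (((n : ℝ) + 1) * 2 ^ (n + 2)) with hη
  have hη0 : 0 < η := by positivity
  obtain ⟨ι, hι1, hι2, c, hcS, hc1, -⟩ := hNC {1} (fun v hv => by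
    rw [Finset.mem_singleton] at hv
    rw [hv]
    exact S.one_mem) η hη0
  have hc : Rh Φ c 1 η := hc1 1 (Finset.mem_singleton_self 1)
  have hbound : 2 ^ n * (n * η + n * η) < ε := by
    have h2 : (2 : ℝ) ^ n * (n * η + n * η) = ε * (n / (2 * (n + 1))) := by
      rw [hη, pow_add]
      field_simp
      ring
    rw [h2]
    have h3 : (n : ℝ) / (2 * (n + 1)) < 1 := by
      rw [div_lt_one (by positivity)]
      linarith
    calc ε * (n / (2 * (n + 1))) < ε * 1 := mul_lt_mul_of_pos_left h3 hε0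
      _ = ε := mul_one ε
  have h4 : ∀ i : Fin n, ∃ a : U, ∀ A : Finset (Fin n),
      (Φ ((∑ j ∈ A, w j) + a) = Φ a ↔ i ∉ A) := by
    intro i
    apply RKB_point Φ w c hη0.le hc hbound i
    intro hR
    exact he i ι hι1 hι2 c hcS (hR.mono (hε i))
  choose a ha using h4
  obtain ⟨T, hT⟩ := hNS a (fun i => Φ (a i))
  apply hT (∑ j ∈ Tᶜ, w j)
  intro i
  rw [ha i Tᶜ]
  simp

end NFW
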