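import Pool.Agent.NFW.Targets1

/-!
# NFW-RKF: few exceptions (Lagrange products)
-/

set_option autoImplicit false

open Polynomial NFV

noncomputable section

namespace NFW

namespace RKF_

/-- the product of the `1 + d l X` -/
def qq {n : ℕ} {K : Type} [Field K] (d : Fin n → K) (A : Finset (Fin n)) : K[X] :=
  ∏ l ∈ A, (1 + C (d l) * X)

theorem deg1 {K : Type} [Field K] (a : K) : (1 + C a * X).natDegree ≤ 1 := by
  refine (natDegree_add_le _ _).trans ?_
  rw [natDegree_one]
  exact max_le (Nat.zero_le _) ((natDegree_C_mul_le _ _).trans natDegree_X_le)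

theorem qq_deg {n : ℕ} {K : Type} [Field K] (d : Fin n → K) (A : Finset (Fin n)) :
    (qq d A).natDegree ≤ A.card := by
  refine (natDegree_prod_le _ _).trans ?_
  refine (Finset.sum_le_card_nsmul _ _ 1 fun l _ => deg1 _).trans ?_
  simp

theorem qq_coeff {n : ℕ} {K : Type} [Field K] (d : Fin n → K) (A : Finset (Fin n)) :
    (qq d A).coeff A.card = ∏ l ∈ A, d l := by
  have h := coeff_prod_of_natDegree_le A (fun l => 1 + C (d l) * X) 1 (fun l _ => deg1 _)
  rw [mul_one] at h
  unfold qq
  rw [h]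
  refine Finset.prod_congr rfl fun l _ => ?_
  simp [coeff_one]

end RKF_

open RKF_ in
theorem p_RKF (h_RKB : T_RKB) (h_MC1 : T_MC1) (h_MC2 : T_MC2) (h_MC3 : T_MC3) : T_RKF := by
  intro U B _ _ Φ S n hn hNS hNC y s hs hsS
  classical
  obtain ⟨-, -, hS, -, -, -, -, -, -⟩ := h_MC3 U B Φ S hNC
  by_cases h0 : ∃ i, y + s i = 0
  · obtain ⟨i, hi⟩ := h0
    have hk : ∃ k : Fin n, k ≠ i := by
      have : Nontrivial (Fin n) := Fin.nontrivial_iff_two_le.2 hn
      exact exists_ne i
    obtain ⟨k, hk⟩ := hk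
    have h1 : y + s k = s k - s i := by linear_combination hi
    have h2 : y + s k ≠ 0 := by
      rw [h1]
      exact sub_ne_zero.2 fun e => hk (hs e)
    refine ⟨k, h2, hS _ ?_⟩
    rw [h1]
    exact S.inv_mem (S.sub_mem (hsS k) (hsS i))
  · push Not at h0
    set P : Fin n → U := fun i => ∏ j ∈ Finset.univ.erase i, (y + s j) with hP
    obtain ⟨i, hi⟩ := h_RKB U B Φ S n hNS hNC P
    set τ : U := (y + s i)⁻¹ with hτ
    have hτ1 : (y + s i) * τ = 1 := mul_inv_cancel₀ (h0 i)
    set d : Fin n → S := fun l => ⟨s l - s i, S.sub_mem (hsS l) (hsS i)⟩ with hd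
    have hfac : ∀ l, (y + s l) * τ = 1 + (s l - s i) * τ := by
      intro l
      linear_combination hτ1
    -- the evaluation of `qq`
    have hev : ∀ A : Finset (Fin n), aeval τ (qq d A) = ∏ l ∈ A, ((y + s l) * τ) := by
      intro A
      unfold qq
      rw [map_prod]
      refine Finset.prod_congr rfl fun l _ => ?_
      rw [hfac l, map_add, map_one, map_mul, aeval_C, aeval_X]
      rfl
    let t : Fin (n - 1) → U := fun k => τ ^ (k : ℕ)
    obtain ⟨m1, m2, -, m4, -, -, -, -, -⟩ := h_MC1 U B Φ S hNC (Fin (n - 1)) t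
    have hz : (0 : U) ∈ Md Φ S t := by
      have := m1 ⟨0, by omega⟩ 0 S.zero_mem
      rwa [zero_mul] at this
    have hsum : ∀ (A : Finset ℕ) (f : ℕ → U), (∀ k ∈ A, f k ∈ Md Φ S t) →
        ∑ k ∈ A, f k ∈ Md Φ S t := by
      intro A f
      induction A using Finset.induction_on with
      | empty => intro _; rw [Finset.sum_empty]; exact hz
      | insert a A ha ih =>
        intro h
        rw [Finset.sum_insert ha]
        exact m2 _ (h a (Finset.mem_insert_self _ _)) _
          (ih fun k hk => h k (Finset.mem_insert_of_mem hk))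
    have hlow : ∀ p : S[X], ∑ k ∈ Finset.range (n - 1), p.coeff k • τ ^ k ∈ Md Φ S t := by
      intro p
      refine hsum _ _ fun k hk => ?_
      exact m1 ⟨k, Finset.mem_range.1 hk⟩ (p.coeff k : U) (p.coeff k).2
    -- scaled products
    have hscale : ∀ j : Fin n, τ ^ (n - 1) * P j = ∏ l ∈ Finset.univ.erase j, ((y + s l) * τ) := by
      intro j
      rw [Finset.prod_mul_distrib, Finset.prod_const, Finset.card_erase_of_mem (Finset.mem_univ _),
        Finset.card_univ, Fintype.card_fin, mul_comm]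
    have hj : ∀ j : {j : Fin n // j ≠ i}, τ ^ (n - 1) * P j ∈ Md Φ S t := by
      intro j
      have h1 : τ ^ (n - 1) * P j = aeval τ (qq d ((Finset.univ.erase (j : Fin n)).erase i)) := by
        rw [hscale, hev]
        rw [← Finset.mul_prod_erase (Finset.univ.erase (j : Fin n)) (fun l => (y + s l) * τ)
          (a := i) (Finset.mem_erase.2 ⟨j.2.symm, Finset.mem_univ _⟩)]
        rw [hτ1, one_mul]
      have h2 : (qq d ((Finset.univ.erase (j : Fin n)).erase i)).natDegree < n - 1 := by
        refine (qq_deg _ _).trans_lt ?_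
        rw [Finset.card_erase_of_mem (Finset.mem_erase.2 ⟨j.2.symm, Finset.mem_univ _⟩),
          Finset.card_erase_of_mem (Finset.mem_univ _), Finset.card_univ, Fintype.card_fin]
        omega
      rw [h1, aeval_eq_sum_range' h2]
      exact hlow _
    have h7 := (h_MC1 U B Φ S hNC {j : Fin n // j ≠ i} (fun j => P j)).2.2.2.2.2.2.1
      (τ ^ (n - 1)) _ hi
    have h8 : τ ^ (n - 1) * P i ∈ Md Φ S t :=
      (h_MC2 U B Φ S hNC (Fin (n - 1)) {j : Fin n // j ≠ i} t
        (fun j => τ ^ (n - 1) * P j)).1 hj h7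
    set q : S[X] := qq d (Finset.univ.erase i) with hq
    have hcard : (Finset.univ.erase i).card = n - 1 := by
      rw [Finset.card_erase_of_mem (Finset.mem_univ _), Finset.card_univ, Fintype.card_fin]
    have h9 : τ ^ (n - 1) * P i = aeval τ q := by rw [hscale, hev]
    have h10 : q.natDegree < n - 1 + 1 := by
      have := qq_deg d (Finset.univ.erase i)
      rw [hcard] at this
      exact Nat.lt_succ_of_le this
    rw [h9, aeval_eq_sum_range' h10, Finset.sum_range_succ] at h8
    have hco : q.coeff (n - 1) = ∏ l ∈ Finset.univ.erase i, d l := by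
      rw [← hcard]; exact qq_coeff d _
    have hco0 : (q.coeff (n - 1) : S) ≠ 0 := by
      rw [hco, Finset.prod_ne_zero_iff]
      intro l hl hl0
      have h11 : s l - s i = 0 := congrArg Subtype.val hl0
      exact (Finset.mem_erase.1 hl).1 (hs (sub_eq_zero.1 h11))
    have h12 : (q.coeff (n - 1) : U) * τ ^ (n - 1) ∈ Md Φ S t := by
      have h13 := m2 _ h8 _ (m4 _ (hlow q) (-1) (S.neg_mem S.one_mem))
      have h14 : (∑ k ∈ Finset.range (n - 1), q.coeff k • τ ^ k + q.coeff (n - 1) • τ ^ (n - 1)) +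
          (-1) * ∑ k ∈ Finset.range (n - 1), q.coeff k • τ ^ k =
          (q.coeff (n - 1) : U) * τ ^ (n - 1) := by
        rw [Subfield.smul_def, smul_eq_mul]
        ring
      rwa [h14] at h13
    have h15 : τ ^ (n - 1) ∈ Md Φ S t := by
      have h16 := m4 _ h12 ((q.coeff (n - 1) : U)⁻¹) (S.inv_mem (q.coeff (n - 1)).2)
      have h17 : (q.coeff (n - 1) : U) ≠ 0 := fun e => hco0 (Subtype.ext e)
      rwa [inv_mul_cancel_left₀ h17] at h16
    refine ⟨i, h0 i, Fin (n - 1), inferInstance, t, ⟨⟨0, by omega⟩, ?_⟩, ?_⟩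
    · show τ ^ 0 = 1
      exact pow_zero _
    · intro j
      show τ * τ ^ (j : ℕ) ∈ Md Φ S t
      rw [← pow_succ']
      by_cases hj1 : (j : ℕ) + 1 < n - 1
      · have := m1 ⟨(j : ℕ) + 1, hj1⟩ 1 S.one_mem
        rwa [one_mul] at this
      · have hj2 : (j : ℕ) + 1 = n - 1 := by
          have := j.2
          omega
        rw [hj2]
        exact h15

end NFW
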