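import Pool.Agent.NFW.Targets1

/-!
# NFW: compactness statement 2
-/

set_option autoImplicit false

open Polynomial NFV

noncomputable section

namespace NFW

namespace SM_

/-! ### One coordinate at a time -/

theorem pr_coord {σ K : Type} [Finite σ] [Finite K] [Nonempty K] [DecidableEq σ] (s : σ)
    (p : (σ → K) → Prop) {ε : ℝ} (h : ∀ ω, pr (fun k => p (Function.update ω s k)) ≤ ε) :
    pr p ≤ ε := by
  classical
  rw [← pr_equiv (Equiv.funSplitAt s K).symm]
  apply pr_prod'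
  intro r
  refine le_trans (le_of_eq (pr_congr fun k => ?_))
    (h ((Equiv.funSplitAt s K).symm (Classical.arbitrary K, r)))
  have hk : (Equiv.funSplitAt s K).symm (k, r) =
      Function.update ((Equiv.funSplitAt s K).symm (Classical.arbitrary K, r)) s k := by
    funext j
    by_cases hj : j = s
    · subst hj
      simp [Equiv.funSplitAt, Equiv.piSplitAt]
    · simp [Equiv.funSplitAt, Equiv.piSplitAt, hj]
  rw [hk]

/-- successive choices -/
theorem exists_seq {α : Type} (P : (l : ℕ) → (Fin l → α) → α → Prop)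
    (h : ∀ l f, ∃ v, P l f v) : ∃ e : ℕ → α, ∀ l, P l (fun j => e j) (e l) := by
  classical
  choose g hg using h
  let e : ℕ → α := fun l =>
    Nat.strongRec (motive := fun _ => α) (fun l ih => g l (fun j => ih j.1 j.2)) l
  refine ⟨e, fun l => ?_⟩
  have he : e l = g l (fun j => e j) := by
    show Nat.strongRec (motive := fun _ => α) (fun l ih => g l (fun j => ih j.1 j.2)) l = _
    rw [Nat.strongRec_eq]
  rw [he]
  exact hg l _

/-! ### The sums -/

section sums

variable {U : Type} [Field U] {n : ℕ}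

/-- the first `m` terms are divided -/
def Gm (z f : Fin (n + 1) → U) (m : ℕ) : U :=
  ∑ j : Fin (n + 1), (if (j : ℕ) < m then f j / z j else f j)

/-- the terms below `l` are divided, the term `l` is omitted -/
def Qm (z f : Fin (n + 1) → U) (l : Fin (n + 1)) : U :=
  ∑ j : Fin (n + 1), (if j < l then f j / z j else if j = l then 0 else f j)

theorem Gm_succ (z f : Fin (n + 1) → U) (l : Fin (n + 1)) :
    Gm z f (l + 1) = Qm z f l + f l / z l := by
  classical
  unfold Gm Qm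
  rw [← Finset.add_sum_erase _ _ (Finset.mem_univ l), ← Finset.add_sum_erase _
    (fun j => if j < l then f j / z j else if j = l then 0 else f j) (Finset.mem_univ l)]
  simp only [lt_irrefl, if_false, if_true, Nat.lt_succ_self, zero_add]
  rw [add_comm]
  congr 1
  apply Finset.sum_congr rfl
  intro j hj
  have hjl : j ≠ l := Finset.ne_of_mem_erase hj
  have h1 : ((j : ℕ) < (l : ℕ) + 1) ↔ j < l := by
    have : (j : ℕ) ≠ l := fun h => hjl (Fin.ext h)
    rw [Fin.lt_def]; omega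
  simp only [h1, hjl, if_false]

theorem Gm_self (z f : Fin (n + 1) → U) (l : Fin (n + 1)) :
    Gm z f l = Qm z f l + f l := by
  classical
  unfold Gm Qm
  rw [← Finset.add_sum_erase _ _ (Finset.mem_univ l), ← Finset.add_sum_erase _
    (fun j => if j < l then f j / z j else if j = l then 0 else f j) (Finset.mem_univ l)]
  simp only [lt_irrefl, if_false, if_true, zero_add]
  rw [add_comm]
  congr 1
  apply Finset.sum_congr rfl
  intro j hj
  have hjl : j ≠ l := Finset.ne_of_mem_erase hj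
  have h1 : ((j : ℕ) < (l : ℕ)) ↔ j < l := by rw [Fin.lt_def]
  simp only [h1, hjl, if_false]

theorem Gm_full (z f : Fin (n + 1) → U) : Gm z f (n + 1) = ∑ j, f j / z j := by
  unfold Gm
  exact Finset.sum_congr rfl fun j _ => by rw [if_pos j.2]

theorem Qm_congr {z f f' : Fin (n + 1) → U} {l : Fin (n + 1)}
    (h : ∀ j, j ≠ l → f j = f' j) : Qm z f l = Qm z f' l := by
  unfold Qm
  apply Finset.sum_congr rfl
  intro j _
  by_cases hj : j = l
  · subst hj; simp
  · rw [h j hj]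

theorem Qm_update_self (z f : Fin (n + 1) → U) (l : Fin (n + 1)) (x : U) :
    Qm z (Function.update f l x) l = Qm z f l :=
  Qm_congr fun j hj => by rw [Function.update_of_ne hj]

theorem Qm_update_gt (z f : Fin (n + 1) → U) {l m : Fin (n + 1)} (h : l < m) (x : U) :
    Qm z (Function.update f m x) l = Qm z (Function.update f m 0) l + x := by
  classical
  unfold Qm
  rw [← Finset.add_sum_erase _ _ (Finset.mem_univ m), ← Finset.add_sum_erase _
    (fun j => if j < l then Function.update f m 0 j / z j else if j = l then 0 else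
      Function.update f m 0 j) (Finset.mem_univ m)]
  have h1 : ¬ m < l := not_lt.2 h.le
  have h2 : m ≠ l := h.ne'
  simp only [h1, h2, if_false, Function.update_self, zero_add]
  rw [add_comm]
  congr 1
  apply Finset.sum_congr rfl
  intro j hj
  rw [Function.update_of_ne (Finset.ne_of_mem_erase hj),
    Function.update_of_ne (Finset.ne_of_mem_erase hj)]

theorem Gm_update (z f : Fin (n + 1) → U) (m : Fin (n + 1)) (x : U) :
    Gm z (Function.update f m x) (n + 1) = Gm z (Function.update f m 0) (n + 1) + x / z m := by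
  classical
  rw [Gm_full, Gm_full, ← Finset.add_sum_erase _ _ (Finset.mem_univ m),
    ← Finset.add_sum_erase _ (fun j => Function.update f m 0 j / z j) (Finset.mem_univ m)]
  simp only [Function.update_self, zero_div, zero_add]
  rw [add_comm]
  congr 1
  apply Finset.sum_congr rfl
  intro j hj
  rw [Function.update_of_ne (Finset.ne_of_mem_erase hj),
    Function.update_of_ne (Finset.ne_of_mem_erase hj)]

/-- the deterministic chain -/
theorem det {B : Type} [CommGroupWithZero B] {Φ : U →*₀ B} {z f0 f1 : Fin (n + 1) → U}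
    (i : Fin (n + 1)) (h01 : ∀ j, j ≠ i → f0 j = f1 j) (h0 : f0 i = 0)
    (hB0 : ∀ l, i < l → Φ (z l) * Φ (Qm z f0 l + f0 l / z l) = Φ (Qm z f0 l + f0 l))
    (hB1 : ∀ l, i < l → Φ (z l) * Φ (Qm z f1 l + f1 l / z l) = Φ (Qm z f1 l + f1 l))
    (hC : Φ (z i) * Φ (Qm z f1 i + f1 i / z i) = Φ (Qm z f1 i + f1 i))
    (hD : Φ (Qm z f1 i + f1 i) = Φ (Qm z f1 i)) (hE : Qm z f1 i ≠ 0)
    (hz : ∀ l, z l ≠ 0) (hg : ∀ l, Φ (z l) ≠ 1) :
    Φ (Gm z f1 (n + 1)) ≠ Φ (Gm z f0 (n + 1)) := by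
  have hzz : ∀ l, Φ (z l) ≠ 0 := fun l => (map_ne_zero Φ).2 (hz l)
  have chain : ∀ m : ℕ, (i : ℕ) + 1 ≤ m → m ≤ n + 1 → ∃ g : B, g ≠ 0 ∧
      g * Φ (Gm z f0 m) = Φ (Gm z f0 (i + 1)) ∧ g * Φ (Gm z f1 m) = Φ (Gm z f1 (i + 1)) := by
    intro m hm
    induction m, hm using Nat.le_induction with
    | base => intro _; exact ⟨1, one_ne_zero, one_mul _, one_mul _⟩
    | succ m hm ih =>
      intro hmn
      obtain ⟨g, hg0, hg1, hg2⟩ := ih (by omega)
      let l : Fin (n + 1) := ⟨m, by omega⟩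
      have hil : i < l := by rw [Fin.lt_def]; exact hm
      have e0 := Gm_succ z f0 l
      have e1 := Gm_succ z f1 l
      have e2 := Gm_self z f0 l
      have e3 := Gm_self z f1 l
      have b0 := hB0 l hil
      have b1 := hB1 l hil
      rw [← e0, ← e2] at b0
      rw [← e1, ← e3] at b1
      refine ⟨g * Φ (z l), mul_ne_zero hg0 (hzz l), ?_, ?_⟩
      · rw [mul_assoc]
        rw [← hg1]
        exact congrArg (fun t => g * t) b0
      · rw [mul_assoc]
        rw [← hg2]
        exact congrArg (fun t => g * t) b1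
  obtain ⟨g, hg0, hg1, hg2⟩ := chain (n + 1) (by have := i.2; omega) le_rfl
  intro hcon
  have h1 : Φ (Gm z f1 (i + 1)) = Φ (Gm z f0 (i + 1)) := by rw [← hg1, ← hg2, hcon]
  rw [Gm_succ, Gm_succ, h0, zero_div, add_zero, Qm_congr h01] at h1
  rw [h1, hD] at hC
  have h2 : Φ (Qm z f1 i) ≠ 0 := (map_ne_zero Φ).2 hE
  exact hg i (mul_right_cancel₀ h2 (by rw [hC, one_mul]))

end sums

/-! ### The events -/

section events

variable {U B K : Type} [Field U] [CommGroupWithZero B] {n : ℕ}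

theorem star {Φ : U →*₀ B} {c : K → U} {z e Q : U} {ε : ℝ} (hz : z = 1 + e) (hz0 : z ≠ 0)
    (h : Rh Φ c (Q * e) ε) :
    pr (fun k => ¬ (Φ z * Φ (Q + c k / z) = Φ (Q + c k))) ≤ ε := by
  refine le_trans (le_of_eq (pr_congr fun k => ?_)) (h Q)
  have h1 : z * (Q + c k / z) = Q + c k + Q * e := by
    rw [mul_add, mul_div_cancel₀ _ hz0, hz]; ring
  rw [← map_mul, h1]

/-- row `i`, without the distinguished term -/
def F0 (b : K → U) (i : Fin n) (ω : Fin n × Fin (n + 1) → K) : Fin (n + 1) → U :=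
  fun j => if j = i.castSucc then 0 else b (ω (i, j))

/-- row `i`, with the distinguished term -/
def F1 (b c : K → U) (i : Fin n) (ω : Fin n × Fin (n + 1) → K) : Fin (n + 1) → U :=
  fun j => if j = i.castSucc then c (ω (i, j)) else b (ω (i, j))

theorem F0_update (b : K → U) (i : Fin n) (ω : Fin n × Fin (n + 1) → K) {l : Fin (n + 1)}
    (hl : l ≠ i.castSucc) (k : K) :
    F0 b i (Function.update ω (i, l) k) = Function.update (F0 b i ω) l (b k) := by
  funext j
  unfold F0
  by_cases hj : j = l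
  · subst hj
    simp [hl]
  · have : (i, j) ≠ (i, l) := fun h => hj (Prod.ext_iff.1 h).2
    rw [Function.update_of_ne hj, Function.update_of_ne this]

omit [Field U] in
theorem F1_update (b c : K → U) (i : Fin n) (ω : Fin n × Fin (n + 1) → K) {l : Fin (n + 1)}
    (hl : l ≠ i.castSucc) (k : K) :
    F1 b c i (Function.update ω (i, l) k) = Function.update (F1 b c i ω) l (b k) := by
  funext j
  unfold F1
  by_cases hj : j = l
  · subst hj
    simp [hl]
  · have : (i, j) ≠ (i, l) := fun h => hj (Prod.ext_iff.1 h).2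
    rw [Function.update_of_ne hj, Function.update_of_ne this]

omit [Field U] in
theorem F1_update' (b c : K → U) (i : Fin n) (ω : Fin n × Fin (n + 1) → K) (k : K) :
    F1 b c i (Function.update ω (i, i.castSucc) k) =
      Function.update (F1 b c i ω) i.castSucc (c k) := by
  funext j
  unfold F1
  by_cases hj : j = i.castSucc
  · subst hj
    simp
  · have : (i, j) ≠ (i, i.castSucc) := fun h => hj (Prod.ext_iff.1 h).2
    rw [Function.update_of_ne hj, Function.update_of_ne this]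

/-- the distinguished terms -/
def cv (c : K → U) (ω : Fin n × Fin (n + 1) → K) (j : Fin n) : U := c (ω (j, j.castSucc))

omit [Field U] in
theorem cv_update (c : K → U) (ω : Fin n × Fin (n + 1) → K) {i : Fin n} {l : Fin (n + 1)}
    (hl : l ≠ i.castSucc) (k : K) : cv c (Function.update ω (i, l) k) = cv c ω := by
  funext j
  unfold cv
  have : (j, j.castSucc) ≠ (i, l) := by
    intro h
    obtain ⟨h1, h2⟩ := Prod.ext_iff.1 h
    exact hl (by rw [← show j.castSucc = l from h2, show j = i from h1])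
  rw [Function.update_of_ne this]

omit [Field U] in
theorem F1_self (b c : K → U) (i : Fin n) (ω : Fin n × Fin (n + 1) → K) :
    F1 b c i ω i.castSucc = cv c ω i := by
  unfold F1 cv
  rw [if_pos rfl]

theorem F01 (b c : K → U) (i : Fin n) (ω : Fin n × Fin (n + 1) → K) (j : Fin (n + 1))
    (hj : j ≠ i.castSucc) : F0 b i ω j = F1 b c i ω j := by
  unfold F0 F1
  rw [if_neg hj, if_neg hj]

theorem Gm_F1 (z : Fin (n + 1) → U) (b c : K → U) (i : Fin n)
    (ω : Fin n × Fin (n + 1) → K) :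
    Gm z (F1 b c i ω) (n + 1) = Gm z (F0 b i ω) (n + 1) + cv c ω i / z i.castSucc := by
  have h1 : F1 b c i ω = Function.update (F0 b i ω) i.castSucc (cv c ω i) := by
    funext j
    by_cases hj : j = i.castSucc
    · subst hj; rw [Function.update_self, F1_self]
    · rw [Function.update_of_ne hj, F01 b c i ω j hj]
  have h0 : F0 b i ω = Function.update (F0 b i ω) i.castSucc 0 := by
    funext j
    by_cases hj : j = i.castSucc
    · subst hj; rw [Function.update_self]; unfold F0; rw [if_pos rfl]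
    · rw [Function.update_of_ne hj]
  rw [h1, Gm_update, ← h0]

/-- sums of distinguished terms -/
def yy (z : Fin (n + 1) → U) (c : K → U) (ω : Fin n × Fin (n + 1) → K) (A : Finset (Fin n)) :
    U := ∑ k ∈ A, cv c ω k / z k.castSucc

variable [Finite K] [Nonempty K]

theorem prA {Φ : U →*₀ B} {z : Fin (n + 1) → U} {b c : K → U} {η : ℝ}
    (hη : 0 ≤ η) (hb : ∀ k, Rh Φ b (c k) η) (i j : Fin n) (A : Finset (Fin n)) :
    pr (fun ω : Fin n × Fin (n + 1) → K => ¬ (i ≠ j → j ∉ A →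
      Φ (Gm z (F0 b i ω) (n + 1) + yy z c ω A + cv c ω j / z j.castSucc) =
        Φ (Gm z (F0 b i ω) (n + 1) + yy z c ω A))) ≤ η := by
  classical
  by_cases hij : i ≠ j
  · have hl : j.castSucc ≠ i.castSucc := fun h => hij (Fin.castSucc_injective n h).symm
    apply pr_coord (i, j.castSucc)
    intro ω
    have h1 := (hb (ω (j, j.castSucc))).smul hη (z j.castSucc)⁻¹
    refine le_trans (pr_mono fun k hk => ?_)
      (h1 (Gm z (Function.update (F0 b i ω) j.castSucc 0) (n + 1) + yy z c ω A))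
    rw [F0_update b i ω hl, Gm_update] at hk
    unfold yy at hk ⊢
    rw [cv_update c ω hl] at hk
    intro hc
    apply hk
    intro _ _
    have e1 : Gm z (Function.update (F0 b i ω) j.castSucc 0) (n + 1) + b k / z j.castSucc +
        ∑ k ∈ A, cv c ω k / z k.castSucc + cv c ω j / z j.castSucc =
        Gm z (Function.update (F0 b i ω) j.castSucc 0) (n + 1) +
          ∑ k ∈ A, cv c ω k / z k.castSucc + (z j.castSucc)⁻¹ * b k +
          (z j.castSucc)⁻¹ * c (ω (j, j.castSucc)) := by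
      unfold cv; ring
    have e2 : Gm z (Function.update (F0 b i ω) j.castSucc 0) (n + 1) + b k / z j.castSucc +
        ∑ k ∈ A, cv c ω k / z k.castSucc =
        Gm z (Function.update (F0 b i ω) j.castSucc 0) (n + 1) +
          ∑ k ∈ A, cv c ω k / z k.castSucc + (z j.castSucc)⁻¹ * b k := by
      ring
    rw [e1, e2, hc]
  · rw [pr_congr (q := fun _ => False) (fun ω => by simp [hij])]
    rw [pr_false]; exact hη

theorem prB0 {Φ : U →*₀ B} {z e : Fin (n + 1) → U} {b : K → U} {ε : ℝ}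
    (hε : 0 ≤ ε) (hz : ∀ l, z l = 1 + e l) (hz0 : ∀ l, z l ≠ 0)
    (i : Fin n) (l : Fin (n + 1))
    (hQ : ∀ ω, Rh Φ b (Qm z (F0 b i ω) l * e l) ε) :
    pr (fun ω : Fin n × Fin (n + 1) → K => ¬ (i.castSucc < l →
      Φ (z l) * Φ (Qm z (F0 b i ω) l + F0 b i ω l / z l) =
        Φ (Qm z (F0 b i ω) l + F0 b i ω l))) ≤ ε := by
  classical
  by_cases hil : i.castSucc < l
  · apply pr_coord (i, l)
    intro ω
    refine le_trans (pr_mono fun k hk => ?_) (star (hz l) (hz0 l) (hQ ω))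
    rw [F0_update b i ω hil.ne', Qm_update_self, Function.update_self] at hk
    intro hc
    exact hk fun _ => hc
  · rw [pr_congr (q := fun _ => False) (fun ω => by simp [hil])]
    rw [pr_false]; exact hε

theorem prB1 {Φ : U →*₀ B} {z e : Fin (n + 1) → U} {b c : K → U} {ε : ℝ}
    (hε : 0 ≤ ε) (hz : ∀ l, z l = 1 + e l) (hz0 : ∀ l, z l ≠ 0)
    (i : Fin n) (l : Fin (n + 1))
    (hQ : ∀ ω, Rh Φ b (Qm z (F1 b c i ω) l * e l) ε) :
    pr (fun ω : Fin n × Fin (n + 1) → K => ¬ (i.castSucc < l →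
      Φ (z l) * Φ (Qm z (F1 b c i ω) l + F1 b c i ω l / z l) =
        Φ (Qm z (F1 b c i ω) l + F1 b c i ω l))) ≤ ε := by
  classical
  by_cases hil : i.castSucc < l
  · apply pr_coord (i, l)
    intro ω
    refine le_trans (pr_mono fun k hk => ?_) (star (hz l) (hz0 l) (hQ ω))
    rw [F1_update b c i ω hil.ne', Qm_update_self, Function.update_self] at hk
    intro hc
    exact hk fun _ => hc
  · rw [pr_congr (q := fun _ => False) (fun ω => by simp [hil])]
    rw [pr_false]; exact hε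

theorem prC {Φ : U →*₀ B} {z e : Fin (n + 1) → U} {b c : K → U} {ε : ℝ}
    (hz : ∀ l, z l = 1 + e l) (hz0 : ∀ l, z l ≠ 0) (i : Fin n)
    (hQ : ∀ ω, Rh Φ c (Qm z (F1 b c i ω) i.castSucc * e i.castSucc) ε) :
    pr (fun ω : Fin n × Fin (n + 1) → K => ¬ (
      Φ (z i.castSucc) * Φ (Qm z (F1 b c i ω) i.castSucc + F1 b c i ω i.castSucc /
        z i.castSucc) = Φ (Qm z (F1 b c i ω) i.castSucc + F1 b c i ω i.castSucc))) ≤ ε := by
  classical
  apply pr_coord (i, i.castSucc)
  intro ω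
  refine le_trans (pr_mono fun k hk => ?_) (star (hz i.castSucc) (hz0 i.castSucc) (hQ ω))
  rw [F1_update' b c i ω, Qm_update_self, Function.update_self] at hk
  exact hk

theorem prD {Φ : U →*₀ B} {z : Fin (n + 1) → U} {b c : K → U} {η : ℝ}
    (hb : ∀ k, Rh Φ b (c k) η) (i : Fin n) :
    pr (fun ω : Fin n × Fin (n + 1) → K => ¬ (
      Φ (Qm z (F1 b c i ω) i.castSucc + F1 b c i ω i.castSucc) =
        Φ (Qm z (F1 b c i ω) i.castSucc))) ≤ η := by
  classical
  have hl : Fin.last n ≠ i.castSucc := (Fin.castSucc_lt_last i).ne'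
  apply pr_coord (i, Fin.last n)
  intro ω
  refine le_trans (pr_mono fun k hk => ?_) (hb (ω (i, i.castSucc))
    (Qm z (Function.update (F1 b c i ω) (Fin.last n) 0) i.castSucc))
  rw [F1_update b c i ω hl, Qm_update_gt z _ (Fin.castSucc_lt_last i),
    Function.update_of_ne hl.symm, F1_self] at hk
  exact hk

theorem prE {z : Fin (n + 1) → U} {b c : K → U} {η : ℝ}
    (hb : Spr b η) (i : Fin n) :
    pr (fun ω : Fin n × Fin (n + 1) → K => ¬ (Qm z (F1 b c i ω) i.castSucc ≠ 0)) ≤ η := by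
  classical
  have hl : Fin.last n ≠ i.castSucc := (Fin.castSucc_lt_last i).ne'
  apply pr_coord (i, Fin.last n)
  intro ω
  refine le_trans (pr_mono fun k hk => ?_) (hb
    (-(Qm z (Function.update (F1 b c i ω) (Fin.last n) 0) i.castSucc)))
  rw [F1_update b c i ω hl, Qm_update_gt z _ (Fin.castSucc_lt_last i)] at hk
  push Not at hk
  exact eq_neg_of_add_eq_zero_right hk

end events

/-! ### The numbers -/

theorem e0_le (n : ℕ) (hn : 1 ≤ n) : e0 n ≤ 1 / 7 := by
  unfold e0
  have h1 : (1 : ℝ) ≤ n := by exact_mod_cast hn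
  rw [div_le_div_iff₀ (by positivity) (by norm_num)]
  nlinarith

theorem e0_nonneg (n : ℕ) : 0 ≤ e0 n := by unfold e0; positivity

theorem total (n : ℕ) : (n * (n * 2 ^ n) : ℝ) * (1 / (16 * ((n : ℝ) + 1) ^ 2 * 2 ^ n)) +
    ((n * (n + 1) : ℝ) * e0 n + ((n * (n + 1) : ℝ) * e0 n + (n * e0 n +
      (n * (1 / (16 * ((n : ℝ) + 1) ^ 2 * 2 ^ n)) +
        n * (1 / (16 * ((n : ℝ) + 1) ^ 2 * 2 ^ n)))))) < 1 := by
  unfold e0
  have hn : (0 : ℝ) ≤ n := Nat.cast_nonneg n
  have h2 : (1 : ℝ) ≤ 2 ^ n := one_le_pow₀ (by norm_num)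
  have h3 : (0 : ℝ) < 2 ^ n := by positivity
  have h4 : (0 : ℝ) < ((n : ℝ) + 1) ^ 2 := by positivity
  have a1 : (n * (n * 2 ^ n) : ℝ) * (1 / (16 * ((n : ℝ) + 1) ^ 2 * 2 ^ n)) =
      (n : ℝ) ^ 2 / (16 * ((n : ℝ) + 1) ^ 2) := by
    field_simp
  have a2 : (n * (1 / (16 * ((n : ℝ) + 1) ^ 2 * 2 ^ n)) : ℝ) ≤
      n / (16 * ((n : ℝ) + 1) ^ 2) := by
    rw [mul_one_div]
    apply div_le_div_of_nonneg_left hn (by positivity)
    nlinarith
  have a3 : (n * (n + 1) : ℝ) * (1 / (4 * ((n : ℝ) + 1) ^ 2)) +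
      ((n * (n + 1) : ℝ) * (1 / (4 * ((n : ℝ) + 1) ^ 2)) +
        n * (1 / (4 * ((n : ℝ) + 1) ^ 2))) =
      (2 * n ^ 2 + 3 * n) / (4 * ((n : ℝ) + 1) ^ 2) := by
    field_simp; ring
  have a4 : (n : ℝ) ^ 2 / (16 * ((n : ℝ) + 1) ^ 2) +
      ((2 * n ^ 2 + 3 * n) / (4 * ((n : ℝ) + 1) ^ 2) +
        2 * (n / (16 * ((n : ℝ) + 1) ^ 2))) < 1 := by
    have : (n : ℝ) ^ 2 / (16 * ((n : ℝ) + 1) ^ 2) +
      ((2 * n ^ 2 + 3 * n) / (4 * ((n : ℝ) + 1) ^ 2) +
        2 * (n / (16 * ((n : ℝ) + 1) ^ 2))) =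
        (n ^ 2 + 4 * (2 * n ^ 2 + 3 * n) + 2 * n) / (16 * ((n : ℝ) + 1) ^ 2) := by
      field_simp; ring
    rw [this, div_lt_one (by positivity)]
    nlinarith
  rw [a1]
  linarith

end SM_

open SM_ in
theorem p_SM (h_NCA : T_NCA) (h_TRV : T_TRV) : T_SM := by
  intro U B _ _ _ _ Φ n hNS hg ι _ _ c
  classical
  by_contra hcon
  push Not at hcon
  obtain ⟨g, hg0, hg1⟩ := hg
  obtain ⟨a₀, ha₀⟩ := h_TRV U B Φ g hg0 hg1 ι c
  have hn : 1 ≤ n := by
    rcases Nat.eq_zero_or_pos n with rfl | h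
    · exfalso
      obtain ⟨S, hS⟩ := hNS (fun i => i.elim0) (fun i => i.elim0)
      exact hS 0 (fun i => i.elim0)
    · exact h
  have ha₀' : ¬ Rh Φ c a₀ (e0 n) := fun h => ha₀ (h.mono (e0_le n hn))
  have := Fintype.ofFinite ι
  obtain ⟨η, hη⟩ : ∃ η : ℝ, η = 1 / (16 * ((n : ℝ) + 1) ^ 2 * 2 ^ n) := ⟨_, rfl⟩
  have hη0 : 0 < η := by rw [hη]; positivity
  obtain ⟨ι', _, _, c', -, hc', hsp⟩ := h_NCA U B Φ n hNS ⊤ (Finset.univ.image c)
    (fun v _ => Subfield.mem_top v) η hη0
  have := Fintype.ofFinite ι'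
  let K := ι × ι'
  let b : K → U := fun p => c p.1 + c' p.2
  let cK : K → U := fun p => c p.1
  have hb1 : ∀ k : K, Rh Φ b (cK k) η := fun k =>
    (hc' (c k.1) (Finset.mem_image_of_mem _ (Finset.mem_univ _))).prod_right c
  have hb2 : Spr b η := hsp.prod_right c
  let D : Finset U := insert 0 (Finset.univ.image cK ∪ Finset.univ.image b)
  have hD0 : (0 : U) ∈ D := Finset.mem_insert_self _ _
  have hDc : ∀ k, cK k ∈ D := fun k => Finset.mem_insert_of_mem
    (Finset.mem_union_left _ (Finset.mem_image_of_mem _ (Finset.mem_univ _)))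
  have hDb : ∀ k, b k ∈ D := fun k => Finset.mem_insert_of_mem
    (Finset.mem_union_right _ (Finset.mem_image_of_mem _ (Finset.mem_univ _)))
  -- the choice of the `e l`
  have step : ∀ (l : ℕ) (f : Fin l → U), ∃ v,
      (∀ a : Fin (n + 1) → U, (∀ j, a j ∈ D) →
        Rh Φ c ((∑ j : Fin (n + 1), if h : (j : ℕ) < l then a j / (1 + f ⟨j, h⟩) else
          if (j : ℕ) = l then 0 else a j) * v) (e0 n)) ∧ 1 + v ≠ 0 ∧ Φ (1 + v) ≠ 1 := by
    intro l f
    obtain ⟨v, hv, hv1⟩ := hcon (insert a₀ ((Fintype.piFinset fun _ : Fin (n + 1) => D).image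
      (fun a => ∑ j : Fin (n + 1), if h : (j : ℕ) < l then a j / (1 + f ⟨j, h⟩) else
          if (j : ℕ) = l then 0 else a j)))
    refine ⟨v, fun a ha => hv _ (Finset.mem_insert_of_mem (Finset.mem_image_of_mem _
      (Fintype.mem_piFinset.2 ha))), ?_, hv1⟩
    intro h0
    have hv' : v = -1 := by linear_combination h0
    have h1 := hv a₀ (Finset.mem_insert_self _ _)
    rw [hv', mul_neg, mul_one] at h1
    have h2 := h1.neg
    rw [neg_neg] at h2
    exact ha₀' h2
  obtain ⟨e, he⟩ := exists_seq _ step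
  let z : Fin (n + 1) → U := fun l => 1 + e l
  have hz : ∀ l, z l = 1 + e l := fun l => rfl
  have hz0 : ∀ l, z l ≠ 0 := fun l => (he l).2.1
  have hz1 : ∀ l, Φ (z l) ≠ 1 := fun l => (he l).2.2
  have hQ : ∀ (l : Fin (n + 1)) (f : Fin (n + 1) → U), (∀ j, f j ∈ D) →
      Rh Φ c (Qm z f l * e l) (e0 n) := by
    intro l f hf
    have h1 := (he l).1 f hf
    have h2 : Qm z f l = ∑ j : Fin (n + 1), (if h : (j : ℕ) < l then f j / (1 + e j) else
          if (j : ℕ) = l then 0 else f j) := by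
      unfold Qm
      apply Finset.sum_congr rfl
      intro j _
      by_cases hj : j < l
      · have hj' : (j : ℕ) < l := hj
        rw [if_pos hj, dif_pos hj']
      · have hj' : ¬ (j : ℕ) < l := hj
        rw [if_neg hj, dif_neg hj']
        by_cases hjl : j = l
        · rw [if_pos hjl, if_pos (by rw [hjl])]
        · rw [if_neg hjl, if_neg (fun h => hjl (Fin.ext h))]
    rw [h2]
    exact h1
  have hF0 : ∀ (i : Fin n) (ω : Fin n × Fin (n + 1) → K) (j), F0 b i ω j ∈ D := by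
    intro i ω j
    unfold F0
    split_ifs
    · exact hD0
    · exact hDb _
  have hF1 : ∀ (i : Fin n) (ω : Fin n × Fin (n + 1) → K) (j), F1 b cK i ω j ∈ D := by
    intro i ω j
    unfold F1
    split_ifs
    · exact hDc _
    · exact hDb _
  have hQb : ∀ (l : Fin (n + 1)) (f : Fin (n + 1) → U), (∀ j, f j ∈ D) →
      Rh Φ b (Qm z f l * e l) (e0 n) := fun l f hf => (hQ l f hf).prod_left c'
  have hQc : ∀ (l : Fin (n + 1)) (f : Fin (n + 1) → U), (∀ j, f j ∈ D) →
      Rh Φ cK (Qm z f l * e l) (e0 n) := by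
    intro l f hf
    have h1 := (hQ l f hf).prod_left (fun _ : ι' => (0 : U))
    simpa only [add_zero] using h1
  -- the probabilities
  have PA := pr_union_le (ι := Fin n × Fin (n + 1) → K)
    (Finset.univ : Finset (Fin n × Fin n × Finset (Fin n)))
    (fun x ω => ¬ (x.1 ≠ x.2.1 → x.2.1 ∉ x.2.2 →
      Φ (Gm z (F0 b x.1 ω) (n + 1) + yy z cK ω x.2.2 + cv cK ω x.2.1 / z x.2.1.castSucc) =
        Φ (Gm z (F0 b x.1 ω) (n + 1) + yy z cK ω x.2.2))) η
    (fun x _ => prA hη0.le hb1 x.1 x.2.1 x.2.2)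
  have PB0 := pr_union_le (ι := Fin n × Fin (n + 1) → K)
    (Finset.univ : Finset (Fin n × Fin (n + 1)))
    (fun x ω => ¬ (x.1.castSucc < x.2 →
      Φ (z x.2) * Φ (Qm z (F0 b x.1 ω) x.2 + F0 b x.1 ω x.2 / z x.2) =
        Φ (Qm z (F0 b x.1 ω) x.2 + F0 b x.1 ω x.2))) (e0 n)
    (fun x _ => prB0 (e := fun l => e l) (e0_nonneg n) hz hz0 x.1 x.2
      (fun ω => hQb x.2 _ (hF0 x.1 ω)))
  have PB1 := pr_union_le (ι := Fin n × Fin (n + 1) → K)
    (Finset.univ : Finset (Fin n × Fin (n + 1)))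
    (fun x ω => ¬ (x.1.castSucc < x.2 →
      Φ (z x.2) * Φ (Qm z (F1 b cK x.1 ω) x.2 + F1 b cK x.1 ω x.2 / z x.2) =
        Φ (Qm z (F1 b cK x.1 ω) x.2 + F1 b cK x.1 ω x.2))) (e0 n)
    (fun x _ => prB1 (e := fun l => e l) (e0_nonneg n) hz hz0 x.1 x.2
      (fun ω => hQb x.2 _ (hF1 x.1 ω)))
  have PC := pr_union_le (ι := Fin n × Fin (n + 1) → K) (Finset.univ : Finset (Fin n))
    (fun i ω => ¬ (Φ (z i.castSucc) * Φ (Qm z (F1 b cK i ω) i.castSucc +
      F1 b cK i ω i.castSucc / z i.castSucc) =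
        Φ (Qm z (F1 b cK i ω) i.castSucc + F1 b cK i ω i.castSucc))) (e0 n)
    (fun i _ => prC (e := fun l => e l) hz hz0 i (fun ω => hQc i.castSucc _ (hF1 i ω)))
  have PD := pr_union_le (ι := Fin n × Fin (n + 1) → K) (Finset.univ : Finset (Fin n))
    (fun i ω => ¬ (Φ (Qm z (F1 b cK i ω) i.castSucc + F1 b cK i ω i.castSucc) =
      Φ (Qm z (F1 b cK i ω) i.castSucc))) η
    (fun i _ => prD hb1 i)
  have PE := pr_union_le (ι := Fin n × Fin (n + 1) → K) (Finset.univ : Finset (Fin n))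
    (fun i ω => ¬ (Qm z (F1 b cK i ω) i.castSucc ≠ 0)) η
    (fun i _ => prE hb2 i)
  have hcard1 : ((Finset.univ : Finset (Fin n × Fin n × Finset (Fin n))).card : ℝ) =
      n * (n * 2 ^ n) := by
    simp [Fintype.card_prod, Fintype.card_finset]
  have hcard2 : ((Finset.univ : Finset (Fin n × Fin (n + 1))).card : ℝ) = n * (n + 1) := by
    simp [Fintype.card_prod]
  have hcard3 : ((Finset.univ : Finset (Fin n)).card : ℝ) = n := by simp
  rw [hcard1] at PA
  rw [hcard2] at PB0 PB1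
  rw [hcard3] at PC PD PE
  have htot := (pr_or _ _).trans (add_le_add PA ((pr_or _ _).trans (add_le_add PB0
    ((pr_or _ _).trans (add_le_add PB1 ((pr_or _ _).trans (add_le_add PC
      ((pr_or _ _).trans (add_le_add PD PE)))))))))
  have hlt := total n
  rw [← hη] at hlt
  have hlt2 := lt_of_le_of_lt htot hlt
  obtain ⟨ω, hω⟩ := exists_of_pr (p := fun ω : Fin n × Fin (n + 1) → K => ¬ (
      (∃ x ∈ (Finset.univ : Finset (Fin n × Fin n × Finset (Fin n))),
        ¬ (x.1 ≠ x.2.1 → x.2.1 ∉ x.2.2 →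
        Φ (Gm z (F0 b x.1 ω) (n + 1) + yy z cK ω x.2.2 + cv cK ω x.2.1 / z x.2.1.castSucc) =
          Φ (Gm z (F0 b x.1 ω) (n + 1) + yy z cK ω x.2.2))) ∨
      (∃ x ∈ (Finset.univ : Finset (Fin n × Fin (n + 1))), ¬ (x.1.castSucc < x.2 →
        Φ (z x.2) * Φ (Qm z (F0 b x.1 ω) x.2 + F0 b x.1 ω x.2 / z x.2) =
        Φ (Qm z (F0 b x.1 ω) x.2 + F0 b x.1 ω x.2))) ∨
      (∃ x ∈ (Finset.univ : Finset (Fin n × Fin (n + 1))), ¬ (x.1.castSucc < x.2 →
        Φ (z x.2) * Φ (Qm z (F1 b cK x.1 ω) x.2 + F1 b cK x.1 ω x.2 / z x.2) =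
        Φ (Qm z (F1 b cK x.1 ω) x.2 + F1 b cK x.1 ω x.2))) ∨
      (∃ i ∈ (Finset.univ : Finset (Fin n)), ¬ (Φ (z i.castSucc) *
        Φ (Qm z (F1 b cK i ω) i.castSucc + F1 b cK i ω i.castSucc / z i.castSucc) =
        Φ (Qm z (F1 b cK i ω) i.castSucc + F1 b cK i ω i.castSucc))) ∨
      (∃ i ∈ (Finset.univ : Finset (Fin n)),
        ¬ (Φ (Qm z (F1 b cK i ω) i.castSucc + F1 b cK i ω i.castSucc) =
        Φ (Qm z (F1 b cK i ω) i.castSucc))) ∨
      (∃ i ∈ (Finset.univ : Finset (Fin n)), ¬ (Qm z (F1 b cK i ω) i.castSucc ≠ 0))))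
    (by
      refine lt_of_le_of_lt (pr_mono fun ω hω => ?_) hlt2
      exact not_not.1 hω)
  simp only [Finset.mem_univ, true_and, not_or, not_exists, not_not] at hω
  obtain ⟨gA, gB0, gB1, gC, gD, gE⟩ := hω
  -- the deterministic end
  have hne : ∀ i : Fin n, Φ (Gm z (F1 b cK i ω) (n + 1)) ≠ Φ (Gm z (F0 b i ω) (n + 1)) := by
    intro i
    exact det i.castSucc (fun j hj => F01 b cK i ω j hj) (by unfold F0; rw [if_pos rfl])
      (fun l hl => gB0 (i, l) hl) (fun l hl => gB1 (i, l) hl) (gC i) (gD i) (gE i) hz0 hz1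
  have hrem : ∀ (i : Fin n) (s : Finset (Fin n)), i ∉ s → ∀ t : Finset (Fin n), t ⊆ {i} →
      Φ (Gm z (F0 b i ω) (n + 1) + yy z cK ω (s ∪ t)) =
        Φ (Gm z (F0 b i ω) (n + 1) + yy z cK ω t) := by
    intro i s
    induction s using Finset.induction_on with
    | empty => intro _ t _; rw [Finset.empty_union]
    | insert j s hjs ih =>
      intro hi t ht
      have hij : i ≠ j := fun h => hi (by rw [h]; exact Finset.mem_insert_self _ _)
      have his : i ∉ s := fun h => hi (Finset.mem_insert_of_mem h)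
      have hjt : j ∉ s ∪ t := by
        intro h
        rcases Finset.mem_union.1 h with h | h
        · exact hjs h
        · exact hij (Finset.mem_singleton.1 (ht h)).symm
      rw [Finset.insert_union, ← ih his t ht]
      have h1 := gA (i, j, s ∪ t) hij hjt
      have h2 : yy z cK ω (insert j (s ∪ t)) =
          yy z cK ω (s ∪ t) + cv cK ω j / z j.castSucc := by
        unfold yy
        rw [Finset.sum_insert hjt, add_comm]
      rw [h2, ← add_assoc]
      exact h1
  obtain ⟨S, hS⟩ := hNS (fun i => Gm z (F0 b i ω) (n + 1))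
    (fun i => Φ (Gm z (F0 b i ω) (n + 1)))
  apply hS (yy z cK ω Sᶜ)
  intro i
  rw [add_comm]
  by_cases hi : i ∈ S
  · refine iff_of_true ?_ hi
    have h1 := hrem i Sᶜ (by simpa using hi) ∅ (Finset.empty_subset _)
    rw [Finset.union_empty] at h1
    rw [h1]
    unfold yy
    rw [Finset.sum_empty, add_zero]
  · refine iff_of_false ?_ hi
    have h1 := hrem i (Sᶜ.erase i) (Finset.notMem_erase _ _) {i} (Finset.Subset.refl _)
    have h2 : Sᶜ.erase i ∪ {i} = Sᶜ := by
      ext j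
      simp only [Finset.mem_union, Finset.mem_erase, Finset.mem_singleton, Finset.mem_compl]
      constructor
      · rintro (h | h)
        · exact h.2
        · rw [h]; exact hi
      · intro h
        by_cases hj : j = i
        · exact Or.inr hj
        · exact Or.inl ⟨hj, h⟩
    rw [h2] at h1
    rw [h1]
    have h3 := hne i
    rw [Gm_F1] at h3
    unfold yy
    rw [Finset.sum_singleton]
    exact h3

end NFW
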