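import Pool.Agent.NFW.Targets1

/-!
# NFW-TRV: some translation is not negligible
-/

set_option autoImplicit false

open Polynomial NFV

noncomputable section

namespace NFW

namespace TRV_

/-- two events of small failure probability have a common point -/
theorem both {ι : Type} [Finite ι] [Nonempty ι] {p q : ι → Prop} {a b : ℝ}
    (hp : pr (fun i => ¬ p i) ≤ a) (hq : pr (fun i => ¬ q i) ≤ b) (hab : a + b < 1) :
    ∃ i, p i ∧ q i := by
  apply exists_of_pr
  refine lt_of_le_of_lt ?_ hab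
  calc pr (fun i => ¬ (p i ∧ q i)) = pr (fun i => ¬ p i ∨ ¬ q i) :=
        pr_congr fun i => not_and_or
    _ ≤ _ := (pr_or _ _).trans (add_le_add hp hq)

end TRV_

theorem p_TRV : T_TRV := by
  intro U B _ _ Φ g hg0 hg1 ι _ _ c
  by_contra hc
  push Not at hc
  have hgne : g ≠ 0 := by
    rintro rfl
    exact hg0 (map_zero Φ)
  -- the basic estimate
  have hb : ∀ a : U, pr (fun i => ¬ Φ (a + c i) = Φ (c i)) ≤ 1 / 7 := by
    intro a
    have h := hc a 0
    refine le_trans (le_of_eq (pr_congr fun i => ?_)) h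
    rw [zero_add, add_comm a]
  have h1 : pr (fun p : ι × ι => ¬ Φ (c p.2 + c p.1) = Φ (c p.1)) ≤ 1 / 7 :=
    pr_prod' fun j => hb (c j)
  have h2 : pr (fun p : ι × ι => ¬ Φ (c p.2 + c p.1) = Φ (c p.2)) ≤ 1 / 7 := by
    refine pr_prod fun i => ?_
    refine le_trans (le_of_eq (pr_congr fun j => ?_)) (hb (c i))
    rw [add_comm (c j)]
  have h3 : pr (fun p : ι × ι => Φ (c p.1) ≠ Φ (c p.2)) ≤ 2 / 7 := by
    calc pr (fun p : ι × ι => Φ (c p.1) ≠ Φ (c p.2))
        ≤ pr (fun p : ι × ι => ¬ Φ (c p.2 + c p.1) = Φ (c p.1) ∨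
            ¬ Φ (c p.2 + c p.1) = Φ (c p.2)) := by
          apply pr_mono
          intro p hp
          by_contra hn
          push Not at hn
          exact hp (hn.1.symm.trans hn.2)
      _ ≤ 1 / 7 + 1 / 7 := (pr_or _ _).trans (add_le_add h1 h2)
      _ = 2 / 7 := by norm_num
  obtain ⟨i0, hi0⟩ := exists_pr_prod h3
  set b := Φ (c i0) with hbdef
  have h4 : ∀ u : U, pr (fun i => ¬ Φ (u + c i) = b) ≤ 3 / 7 := by
    intro u
    calc pr (fun i => ¬ Φ (u + c i) = b)
        ≤ pr (fun i => ¬ Φ (u + c i) = Φ (c i) ∨ b ≠ Φ (c i)) := by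
          apply pr_mono
          intro i hi
          by_contra hn
          push Not at hn
          exact hi (hn.1.trans hn.2.symm)
      _ ≤ 1 / 7 + 2 / 7 := (pr_or _ _).trans (add_le_add (hb u) hi0)
      _ = 3 / 7 := by norm_num
  have h5 : ∀ u : U, pr (fun i => ¬ Φ (u + g * c i) = Φ g * b) ≤ 3 / 7 := by
    intro u
    refine le_trans (le_of_eq (pr_congr fun i => ?_)) (h4 (g⁻¹ * u))
    have e : Φ (u + g * c i) = Φ g * Φ (g⁻¹ * u + c i) := by
      rw [← map_mul]
      congr 1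
      field_simp
    rw [e]
    exact not_congr ⟨fun h => mul_left_cancel₀ hg0 h, fun h => by rw [h]⟩
  have h6 : pr (fun p : ι × ι => ¬ Φ (c p.1 + g * c p.2) = b) ≤ 3 / 7 := by
    refine pr_prod' fun j => ?_
    refine le_trans (le_of_eq (pr_congr fun i => ?_)) (h4 (g * c j))
    rw [add_comm (c i)]
  have h7 : pr (fun p : ι × ι => ¬ Φ (c p.1 + g * c p.2) = Φ g * b) ≤ 3 / 7 :=
    pr_prod fun i => h5 (c i)
  obtain ⟨p, hp1, hp2⟩ := TRV_.both h6 h7 (by norm_num)
  have hb0 : b = 0 := by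
    by_contra hne
    apply hg1
    have : Φ g * b = 1 * b := by rw [← hp2, hp1, one_mul]
    exact mul_right_cancel₀ hne this
  obtain ⟨i, hi1, hi2⟩ := TRV_.both (h4 0) (h4 1) (by norm_num)
  rw [hb0, zero_add, map_eq_zero] at hi1
  rw [hb0, hi1, add_zero, map_one] at hi2
  exact one_ne_zero hi2

end NFW
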