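import Pool.Agent.NFW.Targets1
import Pool.Agent.NFW.Targets2

/-!
# NFW: proof of `T_VAL` (there is a valuation ring)
-/

set_option autoImplicit false

open Polynomial NFV

noncomputable section

namespace NFW

namespace VAL_

/-- adjunction of a `q`-th root -/
lemma root (N : Type) [Field N] (q : ℕ) (hq : 0 < q) (d : N) :
    ∃ (N' : Type) (_ : Field N') (_ : Algebra N N') (δ : N'), δ ^ q = algebraMap N N' d ∧
      IntermediateField.adjoin N {δ} = ⊤ := by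
  have hdeg : (X ^ q - C d : N[X]).natDegree ≠ 0 := by
    rw [natDegree_X_pow_sub_C]
    omega
  obtain ⟨g, hg, hdvd⟩ := Polynomial.exists_irreducible_of_natDegree_ne_zero hdeg
  have : Fact (Irreducible g) := ⟨hg⟩
  refine ⟨AdjoinRoot g, inferInstance, inferInstance, AdjoinRoot.root g, ?_, ?_⟩
  · obtain ⟨h, hh⟩ := hdvd
    have h1 : aeval (AdjoinRoot.root g) (X ^ q - C d : N[X]) = 0 := by
      rw [hh, map_mul, AdjoinRoot.aeval_eq, AdjoinRoot.mk_self, zero_mul]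
    rw [map_sub, map_pow, aeval_X, aeval_C, sub_eq_zero] at h1
    exact h1
  · rw [eq_top_iff]
    intro x _
    refine IntermediateField.algebra_adjoin_le_adjoin N _ ?_
    rw [AdjoinRoot.adjoinRoot_eq_top]
    exact Algebra.mem_top

/-- the extension is integral -/
lemma integral {N N' : Type} [Field N] [Field N'] [Algebra N N'] {q : ℕ} (hq : 0 < q) {d : N}
    {δ : N'} (h : δ ^ q = algebraMap N N' d) (hadj : IntermediateField.adjoin N {δ} = ⊤)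
    (y : N') : IsIntegral N y := by
  have hint : IsIntegral N δ := by
    refine ⟨X ^ q - C d, monic_X_pow_sub_C d hq.ne', ?_⟩
    rw [eval₂_sub, eval₂_X_pow, eval₂_C, h, sub_self]
  have h1 : Algebra.IsAlgebraic N (IntermediateField.adjoin N {δ}) := by
    apply IntermediateField.isAlgebraic_adjoin
    intro x hx
    rw [Set.mem_singleton_iff.1 hx]
    exact hint
  have hy : y ∈ IntermediateField.adjoin N {δ} := by
    rw [hadj]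
    exact IntermediateField.mem_top
  have h2 : IsAlgebraic N (⟨y, hy⟩ : IntermediateField.adjoin N {δ}) := h1.isAlgebraic _
  have h3 := isAlgebraic_iff_isIntegral.1 h2
  exact h3.map (IntermediateField.adjoin N {δ}).val

/-- a valuation ring containing the base field contains all integral elements -/
lemma mem_of_integral {N N' : Type} [Field N] [Field N'] [Algebra N N'] (O : ValuationSubring N')
    (h : ∀ x : N, algebraMap N N' x ∈ O) (y : N') (hy : IsIntegral N y) : y ∈ O := by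
  have h1 : IsIntegral O y := by
    obtain ⟨p, hp, hy⟩ := hy
    let φ : N →+* O := (algebraMap N N').codRestrict O.toSubring h
    refine ⟨p.map φ, hp.map φ, ?_⟩
    rw [eval₂_map]
    exact hy
  have h2 := (IsIntegrallyClosed.isIntegral_iff (R := O) (K := N')).1 h1
  obtain ⟨z, hz⟩ := h2
  rw [← hz]
  exact z.2

/-- overrings of a valuation ring are comparable -/
lemma comparable {N : Type} [Field N] (A B C : ValuationSubring N) (h : A ≤ B) (h' : A ≤ C) :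
    B ≤ C ∨ C ≤ B := by
  have := le_total (⟨B, h⟩ : {S // A ≤ S}) ⟨C, h'⟩
  exact this

lemma Mm_inv {N : Type} [Field N] (O : ValuationSubring N) {x : N} (hx : x ∈ O.nonunits)
    (h0 : x ≠ 0) : x⁻¹ ∉ O := by
  rw [ValuationSubring.mem_nonunits_iff_or] at hx
  exact hx.resolve_left h0

lemma adjoin_self (N : Type) [Field N] (x : N) : IntermediateField.adjoin N {x} = ⊤ := by
  rw [eq_top_iff]
  intro y _
  exact (IntermediateField.adjoin N {x}).algebraMap_mem y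

end VAL_

open VAL_ in
theorem p_VAL (h_PQK : T_PQK) (h_SAF : T_SAF) (h_CLO : T_CLO) (h_FMX : T_FMX) (h_NZE : T_NZE)
    (h_NCA : T_NCA) (h_MON : T_MON) (h_MCH : T_MCH) (h_NTE : T_NTE) (h_NTM : T_NTM)
    (h_TWZ : T_TWZ) (h_TWX : T_TWX) (h_KUM : NFV.T_KUM) : T_VAL := by
  classical
  intro U _ _ q ζ hq hζ hPS hnt A hA τ
  -- the class map
  have hPU := hPS U (1 : U) (1 : U) (by simp) (adjoin_self U 1)
  obtain ⟨B, iB, iBf, Φ, n, hCl, hn, hNS⟩ := h_PQK.1 U q hq.pos hPU.1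
  have hSat : SatF Φ := h_SAF U B Φ q hq.pos hCl hPU.2
  have hone : ∀ x : U, Φ x = 1 ↔ ∃ u : U, u ≠ 0 ∧ x = u ^ q := by
    intro x
    have := hCl.2 x 1
    rw [map_one] at this
    simpa using this
  have hg : ∃ g : U, Φ g ≠ 0 ∧ Φ g ≠ 1 := by
    obtain ⟨x, hx0, hx⟩ := hnt
    refine ⟨x, (map_ne_zero Φ).2 hx0, fun h => ?_⟩
    obtain ⟨u, -, hu⟩ := (hone x).1 h
    exact hx u hu
  -- minimal cardinality
  have hex : ∃ k : ℕ, ∃ (S : Subfield U) (𝒪 : Finset (ValuationSubring U)),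
      Good Φ n S ∧ Fml Φ S 𝒪 ∧ 𝒪.card = k := by
    obtain ⟨S, hS, -, -⟩ := h_CLO U B Φ n hNS hg ∅ Set.countable_empty (RingEquiv.refl U)
    obtain ⟨𝒪, h𝒪⟩ := h_FMX U B Φ S n hn hNS hS
    exact ⟨_, S, 𝒪, hS, h𝒪, rfl⟩
  obtain ⟨k, hk⟩ : ∃ k, k = Nat.find hex := ⟨_, rfl⟩
  have hkex := Nat.find_spec hex
  rw [← hk] at hkex
  have hkmin : ∀ (S : Subfield U) (𝒪 : Finset (ValuationSubring U)), Good Φ n S → Fml Φ S 𝒪 →
      k ≤ 𝒪.card := by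
    intro S 𝒪 h1 h2
    rw [hk]
    exact Nat.find_min' hex ⟨S, 𝒪, h1, h2, rfl⟩
  -- extension of minimal pairs
  have hext : ∀ (S : Subfield U) (𝒪 : Finset (ValuationSubring U)), Good Φ n S → Fml Φ S 𝒪 →
      𝒪.card = k → ∀ A' : Set U, A'.Countable → ∀ τ' : U ≃+* U,
      ∃ (S' : Subfield U) (𝒪' : Finset (ValuationSubring U))
        (g : ValuationSubring U → ValuationSubring U), Good Φ n S' ∧ Fml Φ S' 𝒪' ∧
        𝒪'.card = k ∧ Mtc 𝒪 𝒪' g ∧ S ≤ S' ∧ A' ⊆ S' ∧ ∀ x ∈ S', τ' x ∈ S' ∧ τ'.symm x ∈ S' := by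
    intro S 𝒪 hS h𝒪 hc A' hA' τ'
    obtain ⟨S', hS', hsub, hst⟩ := h_CLO U B Φ n hNS hg ((S : Set U) ∪ A')
      (hS.cnt.union hA') τ'
    obtain ⟨𝒪', h𝒪'⟩ := h_FMX U B Φ S' n hn hNS hS'
    have hle : S ≤ S' := fun x hx => hsub (Or.inl hx)
    have hmon := h_MON U B Φ S S' n hn hNS hSat hS hS' hle
    obtain ⟨hc1, hc2⟩ := h_MCH U B Φ S S' 𝒪 𝒪' h𝒪 h𝒪' hmon
    have hc3 := hkmin S' 𝒪' hS' h𝒪'
    have hc4 : 𝒪'.card = 𝒪.card := by omega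
    obtain ⟨g, hg⟩ := hc2 hc4
    exact ⟨S', 𝒪', g, hS', h𝒪', by omega, hg, hle, fun x hx => hsub (Or.inr hx), hst⟩
  obtain ⟨S₀, 𝒪₀, hS₀, h𝒪₀, hc₀⟩ := hkex
  have hkpos : 1 ≤ k := by
    rw [← hc₀]
    exact Finset.card_pos.2 h𝒪₀.ne
  -- the claim
  have hk1 : k = 1 := by
    by_contra hk1
    have h2 : 1 < 𝒪₀.card := by omega
    obtain ⟨P₁, hP₁, P₂, hP₂, hP⟩ := Finset.one_lt_card.1 h2
    -- first witness
    obtain ⟨p, hp0, hp1, hp⟩ := h_NTE U B Φ S₀ 𝒪₀ h𝒪₀ P₁ hP₁ P₂ hP₂ (Ne.symm hP)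
    obtain ⟨S₁, 𝒪₁, g, hS₁, h𝒪₁, hc₁, hg₁, hle₁, hA₁, -⟩ := hext S₀ 𝒪₀ hS₀ h𝒪₀ hc₀ {p}
      (Set.countable_singleton p) (RingEquiv.refl U)
    have hpS : p ∈ S₁ := hA₁ rfl
    have hNT₁ : NT Φ 𝒪₁ (g P₁) :=
      (h_NTM U B Φ S₀ S₁ 𝒪₀ 𝒪₁ g h𝒪₀ h𝒪₁ hg₁ P₁ hP₁).2 p hpS hp0 hp1 hp
    have hQ₁ := (hg₁.le P₁ hP₁).1
    have hQ₂ := (hg₁.le P₂ hP₂).1
    have hQ : g P₁ ≠ g P₂ := fun h => hP (hg₁.inj P₁ hP₁ P₂ hP₂ h)
    -- second witness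
    obtain ⟨p', hp'0, hp'1, hp'⟩ := h_NTE U B Φ S₁ 𝒪₁ h𝒪₁ (g P₂) hQ₂ (g P₁) hQ₁ hQ
    obtain ⟨S, 𝒪, g', hS, h𝒪, hc, hg', hle, hA', -⟩ := hext S₁ 𝒪₁ hS₁ h𝒪₁ hc₁ {p'}
      (Set.countable_singleton p') (RingEquiv.refl U)
    have hpS' : p' ∈ S := hA' rfl
    have hNT₂ : NT Φ 𝒪 (g' (g P₂)) :=
      (h_NTM U B Φ S₁ S 𝒪₁ 𝒪 g' h𝒪₁ h𝒪 hg' (g P₂) hQ₂).2 p' hpS' hp'0 hp'1 hp'
    have hNT₃ : NT Φ 𝒪 (g' (g P₁)) :=
      (h_NTM U B Φ S₁ S 𝒪₁ 𝒪 g' h𝒪₁ h𝒪 hg' (g P₁) hQ₁).1 hNT₁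
    have hO₁ := (hg'.le (g P₁) hQ₁).1
    have hO₂ := (hg'.le (g P₂) hQ₂).1
    have hO : g' (g P₁) ≠ g' (g P₂) := fun h => hQ (hg'.inj (g P₁) hQ₁ (g P₂) hQ₂ h)
    generalize g' (g P₁) = O₁ at hO₁ hO hNT₃
    generalize g' (g P₂) = O₂ at hO₂ hO hNT₂
    obtain ⟨p₁, hW₁⟩ := hNT₃
    obtain ⟨p₂, hW₂⟩ := hNT₂
    have hp₁0 : p₁ ≠ 0 := hW₁.2.2.2.1
    have hp₂0 : p₂ ≠ 0 := hW₂.2.2.2.1
    -- the extension
    obtain ⟨L, iL, iA, δ, hδ, hadj⟩ := root U q hq.pos (p₁ * p₂)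
    have hcharL : CharZero L := charZero_of_injective_algebraMap (algebraMap U L).injective
    obtain ⟨hPL, hSL⟩ := hPS L δ (p₁ * p₂) hδ hadj
    obtain ⟨B', iB', iB'f, Φ', n', hCl', hn', hNS'⟩ := h_PQK.1 L q hq.pos hPL
    have hSat' : SatF Φ' := h_SAF L B' Φ' q hq.pos hCl' hSL
    have hone' : ∀ x : L, Φ' x = 1 ↔ ∃ u : L, u ≠ 0 ∧ x = u ^ q := by
      intro x
      have := hCl'.2 x 1
      rw [map_one] at this
      simpa using this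
    have hg' : ∃ g : L, Φ' g ≠ 0 ∧ Φ' g ≠ 1 := by
      refine ⟨algebraMap U L p₁, ?_, ?_⟩
      · rw [map_ne_zero Φ']
        exact (map_ne_zero (algebraMap U L)).2 hp₁0
      · intro h
        obtain ⟨w, -, hw⟩ := (hone' _).1 h
        obtain ⟨j, u, hu0, hu⟩ := h_KUM U L q ζ δ (p₁ * p₂) hq hζ hδ hadj p₁ w hp₁0 hw.symm
        have h1 : Φ p₁ = Φ (p₁ * p₂) ^ j := by
          have h2 : Φ (u ^ q) = 1 := (hone _).2 ⟨u, hu0, rfl⟩
          conv_lhs => rw [hu]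
          rw [map_mul, map_pow, h2, mul_one]
        exact h_TWZ U B Φ q hq hCl S 𝒪 h𝒪 O₁ hO₁ O₂ hO₂ hO p₁ p₂ hW₁ hW₂ j h1
    -- good subfield of the extension
    obtain ⟨S', hS', hsub', -⟩ := h_CLO L B' Φ' n' hNS' hg'
      ((algebraMap U L '' (S : Set U)) ∪ {δ})
      ((hS.cnt.image _).union (Set.countable_singleton δ)) (RingEquiv.refl L)
    obtain ⟨𝒪', h𝒪'⟩ := h_FMX L B' Φ' S' n' hn' hNS' hS'
    obtain ⟨y, hy, hy0⟩ := h_NZE L B' Φ' S' hS'.cnt (h_NCA L B' Φ' n' hNS' S') hSat'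
    refine h_TWX U B Φ q ζ hq hζ hCl S 𝒪 h𝒪 O₁ hO₁ O₂ hO₂ hO p₁ p₂ hW₁ hW₂ L B' Φ' δ hCl' hδ
      hadj S' 𝒪' (fun s hs => hsub' (Or.inl ⟨s, hs, rfl⟩)) (hsub' (Or.inr rfl)) h𝒪' ?_
    rintro O' hO' ⟨hle1, hle2⟩
    -- an element outside of the comap
    have hz : ∃ z : U, algebraMap U L z ∉ O' := by
      by_contra hcon
      push Not at hcon
      have h1 := mem_of_integral O' hcon y⁻¹ (integral hq.pos hδ hadj _)
      exact Mm_inv O' ((h𝒪'.ideal y).1 hy O' hO') hy0 h1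
    obtain ⟨z, hz⟩ := hz
    obtain ⟨S₃, 𝒪₃, g₃, hS₃, h𝒪₃, hc₃, hg₃, hle₃, hA₃, -⟩ := hext S 𝒪 hS h𝒪 hc {z}
      (Set.countable_singleton z) (RingEquiv.refl U)
    have hzS : z ∈ S₃ := hA₃ rfl
    have hkey : ∀ O ∈ 𝒪, O ≤ O'.comap (algebraMap U L) →
        O'.comap (algebraMap U L) ≤ g₃ O := by
      intro O hO hle
      rcases comparable O _ _ (hg₃.le O hO).2 hle with h | h
      · exfalso
        apply hz
        have h1 : z ∈ g₃ O := h𝒪₃.sub _ (hg₃.le O hO).1 z hzS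
        exact ValuationSubring.mem_comap.1 (h h1)
      · exact h
    have hq1 := hkey O₁ hO₁ hle1
    have hq2 := hkey O₂ hO₂ hle2
    apply hO
    apply hg₃.inj O₁ hO₁ O₂ hO₂
    rcases comparable _ _ _ hq1 hq2 with h | h
    · exact h𝒪₃.anti _ (hg₃.le O₁ hO₁).1 _ (hg₃.le O₂ hO₂).1 h
    · exact (h𝒪₃.anti _ (hg₃.le O₂ hO₂).1 _ (hg₃.le O₁ hO₁).1 h).symm
  -- conclusion
  obtain ⟨S, 𝒪, g, hS, h𝒪, hc, -, -, hAS, hst⟩ := hext S₀ 𝒪₀ hS₀ h𝒪₀ hc₀ A hA τ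
  rw [hk1] at hc
  obtain ⟨O, rfl⟩ := Finset.card_eq_one.1 hc
  have hOmem : O ∈ ({O} : Finset (ValuationSubring U)) := Finset.mem_singleton_self O
  have hring : ∀ x : U, x ∈ Stb (mu Φ S) ↔ x ∈ O := by
    intro x
    rw [h𝒪.ring x]
    simp
  have hideal : ∀ x : U, x ∈ mu Φ S ↔ x ∈ O.nonunits := by
    intro x
    rw [h𝒪.ideal x]
    simp
  have hmu : ∀ σ : U ≃+* U, (∀ x ∈ S, σ.symm x ∈ S) → ∀ m ∈ mu Φ S, σ m ∈ mu Φ S := by
    intro σ hσ m hm b hb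
    obtain ⟨u, hu0, hu⟩ := (hone _).1 (hm (σ.symm b) (hσ b hb))
    rw [hone]
    refine ⟨σ u, fun h => hu0 ((map_eq_zero_iff σ σ.injective).1 h), ?_⟩
    rw [← map_pow, ← hu, map_add, map_one, map_mul, RingEquiv.apply_symm_apply]
  have hmu1 := hmu τ (fun x hx => (hst x hx).2)
  have hmu2 := hmu τ.symm (fun x hx => (hst x hx).1)
  refine ⟨O, fun a ha => h𝒪.sub O hOmem a (hAS ha), ?_, ?_, ?_, ?_⟩
  · intro x hx
    rw [← hring] at hx ⊢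
    intro m hm
    have h1 := hmu1 _ (hx _ (hmu2 m hm))
    rwa [map_mul, RingEquiv.apply_symm_apply] at h1
  · intro x hx
    rw [← hideal] at hx
    have h1 := hx 1 S.one_mem
    rw [one_mul, hone] at h1
    exact h1
  · intro m hm
    have h1 : (m : U) ≠ 0 := by exact_mod_cast hm.ne'
    exact ⟨h1, h𝒪.sub O hOmem _ (S.inv_mem (natCast_mem S m))⟩
  · obtain ⟨y, hy, hy0⟩ := h_NZE U B Φ S hS.cnt (h_NCA U B Φ n hNS S) hSat
    exact ⟨y, (hideal y).1 hy, hy0⟩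

end NFW
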