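import Pool.Agent.NFW.Base
import Pool.Agent.NFV.Targets

/-!
# NFW: targets, part 1: the calculus (statements; complete proofs in the docstrings)

Throughout `Φ : U →*₀ B` is a homomorphism from a field of characteristic zero to a finite
commutative group with zero, `NoShat Φ n`.  `ρ_c(v) ≤ ε` stands for `Rh Φ c v ε`; families are
functions `c : ι → U` on finite nonempty types; for families `c`, `c'` the family `c + c'` is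
`fun p : ι × ι' => c p.1 + c' p.2`, and `ρ_{c + c'} ≤ min (ρ_c, ρ_{c'})` (`Rh.prod_left`,
`Rh.prod_right`).  Note `Φ x = 0 ↔ x = 0`, `Φ (x y) = Φ x Φ y`.
-/

set_option autoImplicit false

open Polynomial NFV

noncomputable section

namespace NFW

/-! ## A. Near constancy, two compactness statements -/

/-- NCA (near constancy within a subfield).  PROOF.  For one `v ≠ 0` and `ε' = min ε 1`: by
`T_NCL` (in `Pool/Agent/NFV/Targets.lean`) there are `D > 0` and arbitrarily large `X` with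
`dis Φ X (u + D) u ≤ ε' X` for all `u`; take `c i = (v / D) * i`, `i : Fin X`:
`Φ (u + v i / D + v) = Φ (v / D) Φ (D u / v + i + D)`, so `ρ_c(v) ≤ ε'`; and `c` is injective, so
`Spr c (1 / X)`.  For a finite set `F` take the sum of the families for the nonzero `v ∈ F`
(induction on `F`; start with the family `c i = i`, `i : Fin X`, which has `Spr c (1 / X)`); for
`v = 0` `Rh` is trivial. -/
def T_NCA : Prop :=
  ∀ (U B : Type) [Field U] [CharZero U] [CommGroupWithZero B] [Finite B] (Φ : U →*₀ B) (n : ℕ),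
    NoShat Φ n → ∀ S : Subfield U, NCS Φ S

/-- TRV (some translation is not negligible).  PROOF.  Suppose `ρ_c(a) ≤ ε = 1 / 7` for all `a`.
Then `pr_{(i,j)} (Φ (c j + c i) ≠ Φ (c i)) ≤ ε` and `pr_{(i,j)} (Φ (c i + c j) ≠ Φ (c j)) ≤ ε`, so
`pr_{(i,j)} (Φ (c i) ≠ Φ (c j)) ≤ 2 ε`, so for some `j`, with `b = Φ (c j)`,
`pr_i (Φ (c i) ≠ b) ≤ 2 ε`, and `pr_i (Φ (u + c i) ≠ b) ≤ 3 ε` for each `u`.  Hence
`pr_i (Φ (u + g c i) ≠ Φ g b) ≤ 3 ε` for each `u` (divide by `g`), and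
`pr_{(i,j)} (Φ (c i + g c j) ≠ b) ≤ 3 ε`, `pr_{(i,j)} (Φ (c i + g c j) ≠ Φ g b) ≤ 3 ε`.  As
`6 ε < 1`, `b = Φ g b`, so `b = 0`.  But then `pr_i (u + c i ≠ 0) ≤ 3 ε` for `u = 0` and `u = 1`: a
contradiction. -/
def T_TRV : Prop :=
  ∀ (U B : Type) [Field U] [CommGroupWithZero B] (Φ : U →*₀ B) (g : U), Φ g ≠ 0 → Φ g ≠ 1 →
    ∀ (ι : Type) [Finite ι] [Nonempty ι] (c : ι → U), ∃ a : U, ¬ Rh Φ c a (1 / 7)

/-- TS.  PROOF.  Suppose the contrary: there is `ε > 0` such that for each family `c` and each finite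
set `E` of nonzero elements there is `x` with `Φ (a + x) = Φ a` for all `a ∈ E` and not
`ρ_c(x) ≤ ε`.  Let `η = ε / 2 ^ (n + 3)`.  Construct `δ_0, …, δ_{n-1}` and `y_0, …, y_{n-1}` in `U`
with, writing `δ_A = ∑_{j ∈ A} δ_j`: (1) `Φ (y_k + δ_A) = Φ (y_k)` for `A ⊆ {0, …, i}`, `k ∉ A`,
and `Φ (y_k + δ_A) = Φ (y_k + δ_k)` for `k ∈ A`; (2) `Φ (y_k + δ_k) ≠ Φ (y_k)`;
(3) `y_k + δ_A ≠ 0`.  Step `k`: let `c` be a family with `ρ_c(δ_A) ≤ η` for all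
`A ⊆ {0, …, k - 1}` and `Spr c η` (NCA, `S = ⊤`), `E` = all `y_l + δ_A`, `l < k`,
`A ⊆ {0, …, k - 1}`; let `δ_k = x` be given by the assumption.  (1) and (3) persist for `l < k`:
`Φ (y_l + δ_A + δ_k) = Φ (y_l + δ_A) ≠ 0`.  There is `u` with
`pr_i (Φ (u + c i + δ_k) ≠ Φ (u + c i)) > ε`; the probability that
`Φ (u + c i + δ_A) ≠ Φ (u + c i)` or `Φ (u + δ_k + c i + δ_A) ≠ Φ (u + δ_k + c i)` for some
`A ⊆ {0, …, k - 1}`, or `u + c i + δ_A = 0` for some `A ⊆ {0, …, k}`, is `≤ (2 + 2) 2 ^ k η < ε`;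
so some `y_k = u + c i` is good.  At the end `a k = y_k`, `c k = Φ (y_k)`, `x = δ_A`:
`Φ (δ_A + y_k) = Φ (y_k) ↔ k ∉ A` for all `A ⊆ {0, …, n - 1}`, contradicting `NoShat Φ n`. -/
def T_TS : Prop :=
  ∀ (U B : Type) [Field U] [CharZero U] [CommGroupWithZero B] [Finite B] (Φ : U →*₀ B) (n : ℕ),
    NoShat Φ n → ∀ ε : ℝ, 0 < ε → ∃ (m : ℕ) (c : Fin m → U) (E : Finset U), 0 < m ∧
      (∀ a ∈ E, a ≠ 0) ∧ ∀ x : U, (∀ a ∈ E, Φ (a + x) = Φ a) → Rh Φ c x ε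

/-- SM.  PROOF.  Suppose there is a family `c` such that for each finite `E` there is `v` with
`ρ_c(a v) ≤ ε₀ = e0 n` for all `a ∈ E` and `Φ (1 + v) ≠ 1`.  By TRV choose `a₀` such that not
`ρ_c(a₀) ≤ ε₀` (`n ≥ 1` as `NoShat Φ 0` is false, so `ε₀ ≤ 1 / 16`); if `a₀ ∈ E` then `v ≠ -1`
(`Rh.neg`).  Let `η > 0` be tiny (`(n + 1) ^ 2 2 ^ n η ≤ 1 / 16`), `c'` a family with
`ρ_{c'}(c i) ≤ η` for all `i` and `Spr c' η` (NCA, `S = ⊤`), `b = c + c'`; let `D` be the finite set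
containing `0`, all `c i` and all values of `b`.  Choose `e_0, …, e_n` successively:
`e_l` is the `v` for `E_l = {a₀} ∪ {∑_{j < l} α_j / z_j + ∑_{j ≤ n} β_j : α_j, β_j ∈ D}`,
`z_j = 1 + e_j ≠ 0`, `g_j = Φ (z_j) ≠ 1`.
(*) If `Q ∈ E_l` then `Φ (Q + b_p / z_l) = g_l⁻¹ Φ (Q + b_p)` for all `p` in the index set of `b` but
a set of probability `≤ ε₀`; the same for `c` in place of `b`: multiply by `z_l`:
`Φ (z_l Q + b_p) = Φ (Q + b_p + e_l Q)`, and `ρ_c(Q e_l) ≤ ε₀`.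
Now choose at random independently `p_{ij}` (`0 ≤ i < n`, `0 ≤ j ≤ n`, `j ≠ i`) in the index set of
`b`, and `r_i` (`0 ≤ i < n`) in the index set of `c`.  Let `Z = ∏ z_j`, `w_j = Z / z_j`,
`a_i = ∑_{j ≠ i} b_{p_{ij}} w_j`, and `x_A = ∑_{j ∈ A} c_{r_j} w_j` for `A ⊆ {0, …, n - 1}`.
(i) `Φ (x_A + a_i) = Φ (a_i + [i ∈ A] c_{r_i} w_i)` up to probability `≤ n η`: remove the
`c_{r_j} w_j`, `j ∈ A`, `j ≠ i`, one after the other: `ρ_{c' w_j}(c_{r_j} w_j) = ρ_{c'}(c_{r_j}) ≤ η`.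
(ii) `Φ (a_i + c_{r_i} w_i) ≠ Φ (a_i)` up to probability `≤ (2 n + 1) ε₀ + 2 η`: divide by `Z`; let
`a = ∑_{j ≠ i} b_{p_{ij}} / z_j` and `s = c_{r_i} / z_i`; using (*) for `l = n, n - 1, …, i + 1`
(with `Q = ∑_{j < l, j ≠ i} b_{p_{ij}} / z_j + ∑_{j > l} b_{p_{ij}}`, plus `s` or not: it is in `E_l`)
both `Φ (a)` and `Φ (a + s)` are multiplied by `∏_{l > i} g_l` when the `b_{p_{il}} / z_l`, `l > i`,
are replaced by `b_{p_{il}}`; we get to `q = ∑_{j < i} b_{p_{ij}} / z_j + ∑_{j > i} b_{p_{ij}}` and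
`q + s`; by (*) for `c` and `l = i`, `Φ (q + s) = g_i⁻¹ Φ (q + c_{r_i})`; and as `i < n` the sum `q`
contains the independent term `b_{p_{in}}`, so `Φ (q + c_{r_i}) = Φ (q)` up to probability `η`, and
`q ≠ 0` up to probability `η`.  So `Φ (a) = G Φ (q)`, `Φ (a + s) = G g_i⁻¹ Φ (q)`, `G ≠ 0`,
`Φ (q) ≠ 0`, `g_i ≠ 1`.
The total probability of failure is `≤ n ((2 n + 1) ε₀ + 2 η) + 2 ^ n n ^ 2 η < 1`.  For a choice
without failure, `Φ (x_A + a_i) = Φ (a_i) ↔ i ∉ A`, contradicting `NoShat Φ n`. -/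
def T_SM : Prop :=
  ∀ (U B : Type) [Field U] [CharZero U] [CommGroupWithZero B] [Finite B] (Φ : U →*₀ B) (n : ℕ),
    NoShat Φ n → (∃ g : U, Φ g ≠ 0 ∧ Φ g ≠ 1) → ∀ (ι : Type) [Finite ι] [Nonempty ι] (c : ι → U),
      ∃ E : Finset U, ∀ v : U, (∀ a ∈ E, Rh Φ c (a * v) (e0 n)) → Φ (1 + v) = 1

/-! ## B. The calculus of `M(t)`, `𝔪(t)` over a subfield `S` with `NCS Φ S` -/

/-- MC1 (module facts).  PROOF.  (1) `s t_j`: a family `c` in `S` with `ρ_c(s) ≤ ε`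
(NCS), so `ρ_{c t_j}(s t_j) ≤ ε` (`Rh.smul`) and `Rh.lin_of`.  (2), (3) sums: take the sum of two
families for `ε / 2` (`Rh.lin_prod_left`, `Rh.lin_prod_right`, `Rh.add`).  (4), (5) `s = 0` is
trivial (`Rh.zero`); otherwise use the family `s c` (`lin_smul`, `Rh.smul`); for `Mm` no change of the
family is needed.  (6) `C = 1`.  (7), (8): `lin_smul'` and `Rh.smul`.  (9), (10): `Rh.lin_sub`.
(11), (12) equivalent index types (special case of (9), (10)). -/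
def T_MC1 : Prop :=
  ∀ (U B : Type) [Field U] [CommGroupWithZero B] (Φ : U →*₀ B) (S : Subfield U),
    NCS Φ S → ∀ (κ : Type) [Fintype κ] (t : κ → U),
    (∀ j, ∀ s ∈ S, s * t j ∈ Md Φ S t) ∧
    (∀ v ∈ Md Φ S t, ∀ w ∈ Md Φ S t, v + w ∈ Md Φ S t) ∧
    (∀ v ∈ Mm Φ S t, ∀ w ∈ Mm Φ S t, v + w ∈ Mm Φ S t) ∧
    (∀ v ∈ Md Φ S t, ∀ s ∈ S, s * v ∈ Md Φ S t) ∧
    (∀ v ∈ Mm Φ S t, ∀ s ∈ S, s * v ∈ Mm Φ S t) ∧
    (Mm Φ S t ⊆ Md Φ S t) ∧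
    (∀ a : U, ∀ v ∈ Md Φ S t, a * v ∈ Md Φ S (fun j => a * t j)) ∧
    (∀ a : U, ∀ v ∈ Mm Φ S t, a * v ∈ Mm Φ S (fun j => a * t j)) ∧
    (∀ (κ' : Type) [Fintype κ'] (t' : κ' → U) (e : κ → κ'), Function.Injective e →
      (∀ j, t j = t' (e j)) → Md Φ S t ⊆ Md Φ S t' ∧ Mm Φ S t ⊆ Mm Φ S t')

/-- MC2 (transitivity).  PROOF.  (1) Let `v ∈ M(t')`, `t'_j ∈ M(t)` for all `j`, `ε > 0`.  Choose `c'`
in `S` with `ρ_{lin c' t'}(v) ≤ ε / 3`.  For each `f` in the (finite) index set of `lin c' t'` the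
element `g_f = ∑ c'_{f j} t'_j` is in `M(t)` (MC1); adding families we get one `c` in `S` with
`ρ_{lin c t}(g_f) ≤ ε / 3` for all `f`.  For `u : U`, `h` in the index set of `lin c t`, `x_h` the
element: up to probability `ε` in `(h, f)`: `Φ (u + x_h + v) = Φ (u + v + x_h + g_f)` (`f` fixed),
`Φ (u + x_h + g_f + v) = Φ (u + x_h + g_f)` (`h` fixed), `Φ (u + x_h + g_f) = Φ (u + x_h)` (`f` fixed).
So `ρ_{lin c t}(v) ≤ ε` (`pr_fst`).  (2) `v ∈ 𝔪(t')`, `t'_j ∈ M(t)`: the same with `C v` for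
`v`; the families do not depend on `C`.  (3) `v ∈ M(t')`, `t'_j ∈ 𝔪(t)`: for `C ≠ 0` in `S`,
`ρ_{lin (C c') t'}(C v) ≤ ε / 3` and the elements of the family `lin (C c') t'` are `C g_f`, with
`g_f ∈ 𝔪(t)` (MC1), so `c` may be chosen with `ρ_{lin c t}(C g_f) ≤ ε / 3` for all `f` and all
`C ∈ S`; as before `ρ_{lin c t}(C v) ≤ ε`.  `C = 0` is trivial. -/
def T_MC2 : Prop :=
  ∀ (U B : Type) [Field U] [CommGroupWithZero B] (Φ : U →*₀ B) (S : Subfield U),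
    NCS Φ S → ∀ (κ κ' : Type) [Fintype κ] [Fintype κ'] (t : κ → U) (t' : κ' → U),
    ((∀ j, t' j ∈ Md Φ S t) → Md Φ S t' ⊆ Md Φ S t) ∧
    ((∀ j, t' j ∈ Md Φ S t) → Mm Φ S t' ⊆ Mm Φ S t) ∧
    ((∀ j, t' j ∈ Mm Φ S t) → Md Φ S t' ⊆ Mm Φ S t)

/-- MC3 (the rings `R_t`, the ideals `E_t`).  Here `t ⊗ t'` is `fun p => t p.1 * t' p.2`.  PROOF.
(1) `1, s ∈ R_t` and sums: MC1.  Products: `x, y ∈ R_t`: `y t_j ∈ M(t)`, so
`x (y t_j) ∈ M(x t)` (MC1) `⊆ M(t)` (MC2, as `x t_i ∈ M(t)`).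
(2) sums: MC1.  `x ∈ R_t`, `e ∈ E_t`: `x t_j ∈ M(t)`, `e (x t_j) ∈ M(e t) ⊆ 𝔪(t)` (MC2 (3)).
(3) `E_t ⊆ R_t`.  (4) `R_t ⊆ R_{t ⊗ t'}`: `x t_i t'_j = t'_j (x t_i) ∈ M(t'_j t) ⊆ M(t ⊗ t')` (MC1; the
injection `i ↦ (i, j)`); same for `𝔪` and for `t'`.  (5) follows: `R = ∪ R_t` is directed (`t ⊗ t'`
contains `1` if both do), so it is a ring, and `E = ∪ E_t` is an `R`-submodule of it.
(6) `𝔪(1) = E_1 ⊆ E_t` for `t` containing `1`: `e t_j ∈ 𝔪(t_j) ⊆ 𝔪(t)`. -/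
def T_MC3 : Prop :=
  ∀ (U B : Type) [Field U] [CommGroupWithZero B] (Φ : U →*₀ B) (S : Subfield U),
    NCS Φ S →
    (∀ (κ : Type) [Fintype κ] (t : κ → U),
      (∀ s ∈ S, s ∈ RT Φ S t) ∧ (∀ x ∈ RT Φ S t, ∀ y ∈ RT Φ S t, x + y ∈ RT Φ S t) ∧
      (∀ x ∈ RT Φ S t, ∀ y ∈ RT Φ S t, x * y ∈ RT Φ S t) ∧
      (∀ x ∈ ET Φ S t, ∀ y ∈ ET Φ S t, x + y ∈ ET Φ S t) ∧
      (∀ x ∈ RT Φ S t, ∀ y ∈ ET Φ S t, x * y ∈ ET Φ S t) ∧ ET Φ S t ⊆ RT Φ S t ∧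
      Mm Φ S (fun _ : Unit => (1 : U)) ⊆ ET Φ S t) ∧
    (∀ (κ κ' : Type) [Fintype κ] [Fintype κ'] (t : κ → U) (t' : κ' → U),
      RT Φ S t ⊆ RT Φ S (fun p : κ × κ' => t p.1 * t' p.2) ∧
      RT Φ S t' ⊆ RT Φ S (fun p : κ × κ' => t p.1 * t' p.2) ∧
      ET Φ S t ⊆ ET Φ S (fun p : κ × κ' => t p.1 * t' p.2) ∧
      ET Φ S t' ⊆ ET Φ S (fun p : κ × κ' => t p.1 * t' p.2)) ∧
    (∀ s ∈ S, s ∈ RH Φ S) ∧ (∀ x ∈ RH Φ S, ∀ y ∈ RH Φ S, x + y ∈ RH Φ S) ∧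
    (∀ x ∈ RH Φ S, ∀ y ∈ RH Φ S, x * y ∈ RH Φ S) ∧
    (∀ x ∈ RH Φ S, ∀ y ∈ EH Φ S, x * y ∈ EH Φ S) ∧ EH Φ S ⊆ RH Φ S ∧
    Mm Φ S (fun _ : Unit => (1 : U)) ⊆ EH Φ S ∧ Md Φ S (fun _ : Unit => (1 : U)) ⊆ RH Φ S

/-- RKB (the rank bound).  PROOF.  If not, for each `i` there is `ε_i > 0` such that for all families
`c` in `S`, `ρ_{lin c (w_j)_{j ≠ i}}(w_i) ≤ ε_i` is false.  Let `ε = min ε_i` (`n ≥ 1`:
`NoShat Φ 0` is false), `η = ε / ((n + 1) 2 ^ (n + 2))`, `c` a family in `S` with `ρ_c(1) ≤ η`;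
`c_i = lin c (w_j)_{j ≠ i}`.  For `j ≠ i`, `ρ_{c_i}(w_j) ≤ ρ_{c w_j}(w_j) ≤ η` (`Rh.lin_of`,
`Rh.smul`), so `ρ_{c_i}(w_A) ≤ n η` for `w_A = ∑_{j ∈ A} w_j`, `i ∉ A`.  There is `u_i` with
`pr_f (Φ (u_i + c_i(f) + w_i) ≠ Φ (u_i + c_i(f))) > ε`; the probability that
`Φ (u_i + c_i(f) + w_A) ≠ Φ (u_i + c_i(f))` or
`Φ (u_i + w_i + c_i(f) + w_A) ≠ Φ (u_i + w_i + c_i(f))` for some `A` not containing `i` is
`≤ 2 ^ (n + 1) n η < ε`.  So there is `a_i = u_i + c_i(f)` with `Φ (w_A + a_i) = Φ (a_i) ↔ i ∉ A`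
for all `A`: this contradicts `NoShat Φ n` (with `x = w_A`). -/
def T_RKB : Prop :=
  ∀ (U B : Type) [Field U] [CommGroupWithZero B] (Φ : U →*₀ B) (S : Subfield U) (n : ℕ),
    NoShat Φ n → NCS Φ S → ∀ w : Fin n → U,
      ∃ i, w i ∈ Md Φ S (fun j : {j : Fin n // j ≠ i} => w j)

/-- RKF (few exceptions).  `NoShat Φ n` implies `NoShat Φ (n + 1)` etc.; `n ≥ 2` is assumed.  PROOF.
Let `s : Fin n → S` be injective.  If `y + s i = 0` for some `i` take another index `k`: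
`y + s k = s k - s i` is a nonzero element of `S`, its inverse is in `S ⊆ RH` (MC3).  So assume
`y + s i ≠ 0` for all `i`.  Let `P_i = ∏_{j ≠ i} (y + s j)`; by RKB some
`P_i ∈ M((P_j)_{j ≠ i})`.  Let `τ = (y + s i)⁻¹`, `d_l = s l - s i`, so
`y + s l = τ⁻¹ + d_l`, `t : Fin (n - 1) → U`, `t k = τ ^ k` (it contains `1`).
`τ ^ (n - 1) P_j = ∏_{l ≠ i, j} (1 + d_l τ)` for `j ≠ i` is a polynomial in `τ` of degree
`≤ n - 2` with coefficients in `S`, so it is in `M(t)` (MC1), and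
`τ ^ (n - 1) P_i = ∏_{l ≠ i} (1 + d_l τ)` is in `M((τ ^ (n - 1) P_j)_{j ≠ i}) ⊆ M(t)` (MC1, MC2); it
is a polynomial in `τ` of degree `n - 1` with leading coefficient `∏ d_l ≠ 0` in `S`.
Subtracting the lower terms, `τ ^ (n - 1) ∈ M(t)`.  So `τ t_k = t_{k+1}` or `τ ^ (n - 1)` is in
`M(t)` for all `k`, that is `τ ∈ R_t ⊆ RH`. -/
def T_RKF : Prop :=
  ∀ (U B : Type) [Field U] [CommGroupWithZero B] (Φ : U →*₀ B) (S : Subfield U) (n : ℕ),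
    2 ≤ n → NoShat Φ n → NCS Φ S → Few S (RH Φ S) n

/-- EE1 (decorrelation).  PROOF.  `z = 1 + e ≠ 0`.  Let `ε = 1 / (4 (k + 2))`, `k = |κ|` (`k ≥ 1`).
As `e t_j ∈ 𝔪(t)`, adding families we find `c` in `S` with `ρ_{lin c t}(C e t_j) ≤ ε` for all
`C ∈ S` and `j`; so `ρ_{lin c t}(∑_j C_j e t_j) ≤ k ε` for all `C : κ → S`.  For each `f` in the
index set of `lin c t` put `g_f = ∑ c_{f j} t_j`; `g_f ∈ M(t)` and `z⁻¹ g_f ∈ M(t)` as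
`z⁻¹ ∈ R_t` (MC1).  So there is `c'` in `S` with `ρ_{lin c' t}(g_f) ≤ ε` and
`ρ_{lin c' t}(z⁻¹ g_f) ≤ ε` for all `f`, and (adding a family with `Spr`, NCS) `Spr c' (1 / 4)`.  For
`F` in the index set of `lin c' t` put `G_F = ∑ C_j t_j`, `C_j = c'_{F j}`; so
`z G_F = G_F + ∑ C_j e t_j`.  In `(F, f)`: `Φ (z G_F) = Φ (z G_F + g_f)` up to probability `ε`
(`f` fixed: divide by `z`); `Φ (z G_F + g_f) = Φ (G_F + g_f + ∑ C_j e t_j) = Φ (G_F + g_f)` up to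
`k ε` (`F` fixed); `Φ (G_F + g_f) = Φ (G_F)` up to `ε` (`f` fixed).  And `G_F ≠ 0` up to `1 / 4`: there
is `j₀` with `t j₀ = 1`, and given the other `C_j` the equation `G_F = 0` determines `C_{j₀}`.  The
total is `≤ (k + 2) ε + 1 / 4 < 1`, so there is `F` with `G_F ≠ 0`, `Φ z Φ (G_F) = Φ (G_F)`. -/
def T_EE1 : Prop :=
  ∀ (U B : Type) [Field U] [CommGroupWithZero B] (Φ : U →*₀ B) (S : Subfield U), NCS Φ S →
    ∀ (κ : Type) [Fintype κ] (t : κ → U), (∃ j, t j = 1) → ∀ e ∈ ET Φ S t, 1 + e ≠ 0 →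
      (1 + e)⁻¹ ∈ RT Φ S t → Φ (1 + e) = 1

/-- EE2 (`E = 𝔪(1)`).  PROOF.  `⊇` is in MC3.  Let `e ∈ EH`, `u : U`, `C ∈ S`.  (a) Let `a ∈ S` with
`u + a ≠ 0`, `(u + a)⁻¹ ∈ RH`, `u + C e + a ≠ 0`, `(u + C e + a)⁻¹ ∈ RH`.  Put
`e' = C e (u + a)⁻¹`, `z = 1 + e' = (u + a + C e) / (u + a)`,
`z⁻¹ = 1 - C e (u + C e + a)⁻¹`.  By MC3 (take the product `t` of the families of `e`, of
`(u + a)⁻¹` and of `(u + C e + a)⁻¹`) `e' ∈ E_t` and `z⁻¹ ∈ R_t` for one `t` containing `1`;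
so `Φ z = 1` (EE1), `Φ (u + a + C e) = Φ (u + a)`.  (b) By `Few` fewer than `2 n` elements `a` of
`S` are excluded in (a) (if `s_1, …, s_n` are different and bad for `y = u`, `Few` is contradicted).
So the family `c i = i`, `i : Fin m` has `ρ_c(C e) ≤ 2 n / m` for all `C ∈ S`
(`Φ (u + a + C e) ≠ Φ (u + a)` for at most `2 n` values of `a = i`); `lin c (1) = c` up to the
equivalence `(Unit → Fin m) ≃ Fin m`.  As `m` is arbitrary `e ∈ 𝔪(1)`. -/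
def T_EE2 : Prop :=
  ∀ (U B : Type) [Field U] [CharZero U] [CommGroupWithZero B] (Φ : U →*₀ B) (S : Subfield U)
    (n : ℕ), NCS Φ S → Few S (RH Φ S) n → EH Φ S = Mm Φ S (fun _ : Unit => (1 : U))

/-- MUM (`μ_S = 𝔪(1)`).  PROOF.  Let `v ∈ μ_S`, `ε > 0`; `c`, `E` from `g1`.  For `C ∈ S`, `a ∈ E`:
`Φ (a + C v) = Φ a Φ (1 + (C / a) v) = Φ a`, so `ρ_c(C v) ≤ ε`, for all `C`
(`lin c (1) = c` up to `(Unit → ι) ≃ ι`).  Conversely let `v ∈ 𝔪(1)`, `b ∈ S`: there is `c` in `S` with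
`ρ_c(C v) ≤ e0 n` for all `C ∈ S`; `E` from `g2`; `ρ_c(a (b v)) ≤ e0 n` for `a ∈ E`, so
`Φ (1 + b v) = 1`. -/
def T_MUM : Prop :=
  ∀ (U B : Type) [Field U] [CommGroupWithZero B] (Φ : U →*₀ B) (S : Subfield U) (n : ℕ),
    Good Φ n S → mu Φ S = Mm Φ S (fun _ : Unit => (1 : U))

/-- STR (the ring `R = Stab(μ_S)`).  `(U, Φ)` as always.  PROOF.  `NCS` from NCA.  `μ = μ_S =
𝔪(1) = E` (MUM, EE2 with RKF).  (1) `0 ∈ μ`, sums (MC1).  (2) `RH ⊆ R`: `x ∈ RH`,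
`m ∈ μ = E`: `x m ∈ E = μ` (MC3).  So `S ⊆ R`, `Few S R n` (RKF), and `M(1) ⊆ R`, `μ ⊆ R`.
(3) `R` is closed under sums (by (1)) and products.  (4) Let `m ∈ μ`: `Φ (1 + m) = 1` (`b = 1`) so
`1 + m ≠ 0`; for `m' ∈ μ`, `b ∈ S`: `1 + b m' / (1 + m) = (1 + m + b m') / (1 + m)` has value
`1 / 1`; so `m' / (1 + m) ∈ μ`; that is `(1 + m)⁻¹ ∈ R`.  (5) Let `x ∈ R`, `x x ∈ μ`.  For
`r ∈ R`: `(1 + r x)(1 - r x) = 1 - r r (x x) ∈ 1 + μ` has its inverse in `R`, so `1 + r x ≠ 0` and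
`(1 + r x)⁻¹ ∈ R`.  For `r, r' ∈ R`:
`(1 + r x)(1 + r' x) = (1 + (r + r') x)(1 + r r' (x x) (1 + (r + r') x)⁻¹)`, and the last factor is
in `1 + μ`; so `h r = Φ (1 + r x)` is a homomorphism from `(R, +)` to `Bˣ`, which has
finite order `N`; `h r = h (r / N) ^ N = 1` (`1 / N ∈ S ⊆ R`).  So `x ∈ μ`. -/
def T_STR : Prop :=
  ∀ (U B : Type) [Field U] [CharZero U] [CommGroupWithZero B] [Finite B] (Φ : U →*₀ B)
    (S : Subfield U) (n : ℕ), 2 ≤ n → NoShat Φ n → Good Φ n S →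
    (∀ s ∈ S, s ∈ Stb (mu Φ S)) ∧
    (∀ x ∈ Stb (mu Φ S), ∀ y ∈ Stb (mu Φ S), x + y ∈ Stb (mu Φ S)) ∧
    (∀ x ∈ Stb (mu Φ S), ∀ y ∈ Stb (mu Φ S), x * y ∈ Stb (mu Φ S)) ∧
    Few S (Stb (mu Φ S)) n ∧ Md Φ S (fun _ : Unit => (1 : U)) ⊆ Stb (mu Φ S) ∧
    (0 : U) ∈ mu Φ S ∧ (∀ x ∈ mu Φ S, ∀ y ∈ mu Φ S, x + y ∈ mu Φ S) ∧
    mu Φ S ⊆ Stb (mu Φ S) ∧
    (∀ m ∈ mu Φ S, 1 + m ≠ 0 ∧ (1 + m)⁻¹ ∈ Stb (mu Φ S)) ∧
    (∀ x ∈ Stb (mu Φ S), x * x ∈ mu Φ S → x ∈ mu Φ S)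

/-- CLO (good subfields exist).  PROOF.  `NCS` is not needed.  For each `k : ℕ` choose by TS a pair
`(c_k, E_k)` for `ε = 1 / (k + 1)`; for each family `c : Fin m → U`, `m > 0`, choose by SM a finite
set `E(c)`.  Let `A₀` be the countable set of all elements of `A`, of all values of the `c_k` and
of all elements of the `E_k`.  For a countable set `X` the set `X'` of all elements `0`, `1`,
`x + y`, `x y`, `- x`, `x⁻¹`, `τ x`, `τ⁻¹ x` (`x, y ∈ X`), together with all `E(c)` for families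
`c : Fin m → X`, is countable (there are countably many such families).  The union `S` of
`A₀ ∪ …`, its closure under `X ↦ X ∪ X'` (iterated `ω` times), is a countable subfield with the
properties.  (A family with a finite index type `ι` has the same `Rh` as one indexed by `Fin m`,
`exists_fin`; and a family in `S` lies in some stage of the union.) -/
def T_CLO : Prop :=
  ∀ (U B : Type) [Field U] [CharZero U] [CommGroupWithZero B] [Finite B] (Φ : U →*₀ B) (n : ℕ),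
    NoShat Φ n → (∃ g : U, Φ g ≠ 0 ∧ Φ g ≠ 1) → ∀ A : Set U, A.Countable → ∀ τ : U ≃+* U,
      ∃ S : Subfield U, Good Φ n S ∧ A ⊆ S ∧ ∀ x ∈ S, τ x ∈ S ∧ τ.symm x ∈ S

end NFW
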