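import Pool.Agent.NFW.Base
import Pool.Agent.NFV.Targets3

/-!
# NFW: targets, part 3: ultrapowers, residue fields, the cut (statements; complete proofs in the
docstrings)

`m_O` stands for `O.nonunits`.
-/

set_option autoImplicit false

open Polynomial NFV

noncomputable section

namespace NFW

/-- the ultrapower -/
abbrev Up (N : Type) : Type := (Filter.hyperfilter ℕ : Filter ℕ).Germ N

/-! ## F. Ultrapowers -/

/-- UPS (countable saturation).  PROOF.  Let `α, β : ℕ → Up N` be represented by sequences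
`α_j(m), β_j(m)`.  Suppose that for each `k` there are `y, w_0, …, w_{k-1}` in `Up N` with
`w_j ≠ 0`, `α_j + β_j y = w_j ^ q` for `j < k`; so the set `A_k` of the `m : ℕ` for which there are
`y, w_0, …, w_{k-1} : N` with `w_j ≠ 0`, `α_j(m) + β_j(m) y = w_j ^ q` for `j < k` is in the
ultrafilter.  For each `m` let `k(m) ≤ m` be the largest `k ≤ m` with `m ∈ A_k` (`A_0 = ℕ`), and
`y(m), w_j(m)` (`j < k(m)`) corresponding elements (`w_j(m) = 1` for `j ≥ k(m)`).  For each `j`,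
`{m | j < k(m)} ⊇ A_{j+1} ∩ {m | m > j}` is in the ultrafilter (it is not principal), and there
`α_j(m) + β_j(m) y(m) = w_j(m) ^ q`. -/
def T_UPS : Prop := ∀ (N : Type) [Field N] (q : ℕ), PowSat (Up N) q

/-- UPQ.  PROOF.  `FinCl`: the constants of the elements of `C`; if `z ≠ 0` in `Up N` then
`z(m) = c(m) y(m) ^ q` for almost all `m`, and `c(m)` is constant almost everywhere as `C` is finite.
VC dimension: the same `n`.  Suppose `a, c : Fin n → Up N` are such that for each `S` there is `x_S`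
with `∀ i, (∃ y ≠ 0, x_S + a i = c i * y ^ q) ↔ i ∈ S`.  For almost all `m` the same holds for
`a i (m)`, `c i (m)`, `x_S(m)`, for all `i` and the finitely many `S` at once (choose
representatives; if there is no `y ≠ 0` in `Up N` then for almost all `m` there is none in `N`), which
contradicts the property of `N` at such an `m`. -/
def T_UPQ : Prop := ∀ (N : Type) [Field N] (q : ℕ), 0 < q → PQ N q → PQ (Up N) q

/-- UPE.  PROOF.  Let `L ⊇ Up N` be generated by `δ`, `δ ^ q = d ∈ Up N`.  (i) If `d = 0` then `δ = 0`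
and `L ≃ Up N`, use UPQ, UPS and transport (PQK).  (ii) `d ≠ 0`: by `FinCl N q` (`PE` for
`L = N`), as in UPQ, `d = c y ^ q` with `c ∈ N` (constant), `c, y ≠ 0`; `δ₁ = δ / y` generates `L`,
`δ₁ ^ q = c`.  If `c = b ^ q` with `b ∈ N` then `δ₁ = ζ ^ j b ∈ Up N` and again `L ≃ Up N`.
(iii) Otherwise `X ^ q - c` is irreducible over `N` (`X_pow_sub_C_irreducible_iff_of_prime`), and over
`Up N`: `c` is not a `q`-th power in `Up N`.  Let `N' = AdjoinRoot (X ^ q - C c)` over `N`, `δ₀` the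
root.  `PQ N' q` by `PE N q`, so `PQ (Up N') q` and `PowSat (Up N') q`.  The map
`Up N → Up N'` (`Filter.Germ.map`) makes `Up N'` an `Up N`-algebra, and `Up N' = Up N (δ₀)`: every
germ of a sequence in `N'` is `∑_{j < q} x_j δ₀ ^ j` with `x_j ∈ Up N`.  Both `L` and `Up N'` are
isomorphic to `AdjoinRoot (X ^ q - C c)` over `Up N`.  So `L ≃+* Up N'`; transport (PQK). -/
def T_UPE : Prop :=
  ∀ (N : Type) [Field N] [CharZero N] (q : ℕ) (ζ : N), q.Prime → IsPrimitiveRoot ζ q →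
    PE N q → PS (Up N) q

/-- THA.  PROOF.  `Up F` is an ordered field, `Up N` is an `Up F`-algebra (`Filter.Germ.map`),
generated by the constant `i`; `PS (Up F) 2` (`ζ = -1`) and `PS (Up N) q` by UPE.  THS gives
`u ∈ Up F`, `u > 0`.  If THA fails, for each `v > 0` in `F` there are `a_v, b_v` with
`|a_v|, |b_v| ≤ v` such that `1 + a_v + b_v i` is not `w ^ q`, `w ≠ 0`.  Let `u` be represented by
`u(m)`, positive for almost all `m`; the germs `a, b` of `a_{u(m)}`, `b_{u(m)}` satisfy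
`|a|, |b| ≤ u` and `1 + a + b i` is not a `q`-th power: a contradiction. -/
def T_THA : Prop :=
  ∀ (F N : Type) [Field F] [LinearOrder F] [IsStrictOrderedRing F] [Field N] [Algebra F N]
    (i : N) (q : ℕ) (ζ : N), i ^ 2 = -1 →
    (∀ z : N, ∃ a b : F, z = algebraMap F N a + algebraMap F N b * i) → q.Prime →
    IsPrimitiveRoot ζ q → PE F 2 → PE N q →
    ∃ u : F, 0 < u ∧ ∀ a b : F, |a| ≤ u → |b| ≤ u →
      ∃ w : N, w ≠ 0 ∧ 1 + algebraMap F N a + algebraMap F N b * i = w ^ q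

/-! ## G. Residue fields -/

/-- RES.  Let `k` be the residue field.  PROOF.  (FinCl) For each class of `L` modulo `q`-th powers
which contains a unit of `O` fix a unit `c` in it; if `z` is a unit in the class of `c` then
`z = c y ^ q`, `y` is a unit (`y ^ q` is), and `z̄ = c̄ ȳ ^ q`.  (VC) Let `σ : k → O` be a section with
`σ 0 = 0`.  Given `ā, c̄ : Fin n → k` put `a i = σ (ā i)`, `c i = σ (c̄ i)`.  For `x̄ ∈ k` put
`x = - σ (- x̄)`.  Claim: `(∃ ȳ ≠ 0, x̄ + ā i = c̄ i ȳ ^ q) ↔ (∃ y ≠ 0, x + a i = c i y ^ q)`.  If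
`x̄ = - ā i` then `x = - a i`; both sides say `c̄ i = 0` (`c i = 0`).  If `x̄ + ā i ≠ 0` then `x + a i` is
a unit; if `c̄ i = 0` both sides are false; otherwise `c i` is a unit, and if
`x̄ + ā i = c̄ i ȳ ^ q` lift `ȳ` to a unit `y`: `(x + a i) / (c i y ^ q) ∈ 1 + m_O` is a `q`-th power by
`Hq`; conversely `y` is a unit of `O`, reduce.  So a shattering in `k` gives one in `L`. -/
def T_RES : Prop :=
  ∀ (L : Type) [Field L] (q : ℕ) (O : ValuationSubring L), 0 < q → Hq O q → PQ L q →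
    PQ (IsLocalRing.ResidueField O) q

/-- UNR (unramified Kummer extensions).  PROOF.  Let `k` be the residue field of `O`, `d̄ ∈ k` the
residue of `d`, not a `q`-th power in `k` (for `w ∉ O` or `w ∈ O`: hypothesis), `k ∋ ζ̄` a primitive
`q`-th root of unity (`∏_{0<j<q} (1 - ζ ^ j) = q` is a unit by `Q0`).  So `X ^ q - d̄` is irreducible
over `k`, `X ^ q - d` is irreducible over `N` (`d` is not a `q`-th power in `N`: `w ^ q = d` implies
`w ∈ O`), and `1, δ, …, δ ^ (q-1)` is a basis of `L` over `N`.  Let `O_L = ∑ O δ ^ j`, a subring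
(`d ∈ O`).  Let `x = ∑ a_j δ ^ j ≠ 0`; choose `a ∈ {a_j}` of largest value; `x = a x'`,
`x' = ∑ a'_j δ ^ j`, `a'_j ∈ O`, some `a'_j = 1`.  `x'` is invertible in `O_L`: `O_L / m_O O_L` is
`k[X] / (X ^ q - d̄)`, a field, `x'` is not zero in it, so `x' y' ∈ 1 + m_O O_L` for some `y' ∈ O_L`; and
`1 + m_O O_L` consists of units of `O_L`, because `O_L` is a finite `O`-module, `O` local
(Nakayama), or: the norm (determinant of multiplication in the basis) is in `1 + m_O`.  So `O_L` is a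
valuation ring, its maximal ideal is `∑ m_O δ ^ j`, and its residue field is `k(δ̄) =
k[X] / (X ^ q - d̄)`.  (4): if `k₁ ⊇ k` is a field generated by `δ₁` with `δ₁ ^ q = d̄` then
`k₁ ≃ k[X] / (X ^ q - d̄)`. -/
def T_UNR : Prop :=
  ∀ (N : Type) [Field N] [CharZero N] (q : ℕ) (ζ : N) (O : ValuationSubring N), q.Prime →
    IsPrimitiveRoot ζ q → Q0 O → ∀ (L : Type) [Field L] [Algebra N L] (δ : L) (d : N),
    δ ^ q = algebraMap N L d → IntermediateField.adjoin N {δ} = ⊤ → d ∈ O → d⁻¹ ∈ O →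
    (∀ w ∈ O, d - w ^ q ∉ O.nonunits) → d ≠ 0 →
    ∃ OL : ValuationSubring L,
      (∀ x : L, ∃! a : Fin q → N, x = ∑ j, algebraMap N L (a j) * δ ^ (j : ℕ)) ∧
      (∀ a : Fin q → N, ∑ j, algebraMap N L (a j) * δ ^ (j : ℕ) ∈ OL ↔ ∀ j, a j ∈ O) ∧
      (∀ a : Fin q → N, ∑ j, algebraMap N L (a j) * δ ^ (j : ℕ) ∈ OL.nonunits ↔
        ∀ j, a j ∈ O.nonunits) ∧
      (∀ (k₁ : Type) [Field k₁] [Algebra (IsLocalRing.ResidueField O) k₁] (δ₁ : k₁) (d' : O),
        (d' : N) = d → δ₁ ^ q = algebraMap _ k₁ (IsLocalRing.residue O d') →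
        IntermediateField.adjoin (IsLocalRing.ResidueField O) {δ₁} = ⊤ →
        Nonempty (IsLocalRing.ResidueField OL ≃+* k₁))

/-- HPL (the property `Hq` passes to unramified extensions).  `OL` as in UNR.  PROOF.  `L / N` is
cyclic of degree `q`, `σ δ = ζ δ`; `σ (OL) = OL`, `σ (m_L) = m_L`, `m_L = OL.nonunits`.  Suppose some
element of `1 + m_L` is not a `q`-th power.  For `x ∈ 1 + m_L` put `T x = σ x / x ∈ 1 + m_L`.
`T^q x = ∏_j σ^j(x) ^ ((-1)^(q-j) (q choose j))` is a `q`-th power: all exponents but the first and the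
last are divisible by `q`, and `σ^q x = x`, so the first and last factor give
`x ^ (1 + (-1)^q)`, which is `1` or `x ^ 2` with `q = 2`.  So there is `x ∈ 1 + m_L` (some
`T^j x`) which is not a `q`-th power but `σ x = x y ^ q`.  `y` is a unit, `ȳ ^ q = 1` in the residue
field, so `y ∈ ζ ^ j (1 + m_L)`; replace `y` by `ζ ^ (-j) y`: `y ∈ 1 + m_L`.  The norm
`n = ∏_j σ^j y` satisfies `n ^ q = ∏ σ^j (σ x / x) = 1`, `n ∈ 1 + m_L`, so `n = 1`
(`ζ ^ j - 1` is a unit for `0 < j < q`).  Hilbert 90 for the cyclic extension (direct proof: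
`z = ∑_{j < q} y σ(y) ⋯ σ^{j-1}(y) σ^j(θ) ≠ 0` for some `θ`, linear independence of
`1, σ, …`; then `y σ(z) = z`): `y = z / σ z`.  So `x z ^ q =: a` is fixed by `σ`, `a ∈ N`.  By UNR
`z = b z'` with `b ∈ N`, `b ≠ 0`, `z'` a unit of `OL` (`b` a coefficient of largest value);
`a' = a / b ^ q = x z' ^ q ∈ N` is a unit of `O`, `ā' = z̄' ^ q` in the residue field
`k_L = k(δ̄)`, so by `T_KUM` (for `k ⊆ k_L`; `Pool/Agent/NFV/Targets3.lean`)
`ā' = d̄ ^ j b̄' ^ q` with `b' ∈ O` a unit; so `a' / (d ^ j b' ^ q) ∈ 1 + m_O` is a `q`-th power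
in `N`, `a'` is a `q`-th power in `L` (`d = δ ^ q`), and so is `x = a' / z' ^ q`, a contradiction.
(`1 + x ≠ 0` for `x ∈ m_L`, so the root is not `0`.) -/
def T_HPL : Prop :=
  ∀ (N : Type) [Field N] [CharZero N] (q : ℕ) (ζ : N) (O : ValuationSubring N), q.Prime →
    IsPrimitiveRoot ζ q → Q0 O → Hq O q → ∀ (L : Type) [Field L] [Algebra N L] (δ : L) (d : N),
    δ ^ q = algebraMap N L d → IntermediateField.adjoin N {δ} = ⊤ → d ∈ O → d⁻¹ ∈ O →
    (∀ w ∈ O, d - w ^ q ∉ O.nonunits) → d ≠ 0 → ∀ OL : ValuationSubring L,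
    (∀ a : Fin q → N, ∑ j, algebraMap N L (a j) * δ ^ (j : ℕ) ∈ OL ↔ ∀ j, a j ∈ O) →
    (∀ a : Fin q → N, ∑ j, algebraMap N L (a j) * δ ^ (j : ℕ) ∈ OL.nonunits ↔
      ∀ j, a j ∈ O.nonunits) → Hq OL q

/-- PKR.  `k` = residue field of `O`.  PROOF.  Let `k₁ ⊇ k` be generated by `δ₁`, `δ₁ ^ q = d̄ ∈ k`.
If `d̄ = b̄ ^ q` with `b̄ ∈ k` (possibly `0`) then `δ₁ = ζ̄ ^ j b̄ ∈ k`, `k₁ ≃ k`, and `PQ k q` by RES
(`PQ N q` from `PE` with `L = N`).  Otherwise let `d ∈ O` lift `d̄`: a unit, and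
`d - w ^ q ∉ m_O` for `w ∈ O`.  `L = AdjoinRoot (X ^ q - C d)` over `N` (irreducible); `PQ L q`
by `PE N q`; `OL` from UNR, `Hq OL q` by HPL, RES: `PQ` for the residue field of `OL`, which is
isomorphic to `k₁` (UNR (4)); PQK. -/
def T_PKR : Prop :=
  ∀ (N : Type) [Field N] [CharZero N] (q : ℕ) (ζ : N) (O : ValuationSubring N), q.Prime →
    IsPrimitiveRoot ζ q → Q0 O → Hq O q → PE N q → PE (IsLocalRing.ResidueField O) q

/-! ## H. The cut -/

/-- the interval of the `x` such that `1 + a + b i` is a `q`-th power for `|a|, |b| ≤ |x|` -/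
def Jq {F N : Type} [Field F] [LinearOrder F] [Field N] [Algebra F N] (i : N) (q : ℕ) : Set F :=
  {x | ∀ a b : F, |a| ≤ |x| → |b| ≤ |x| →
    ∃ w : N, w ≠ 0 ∧ 1 + algebraMap F N a + algebraMap F N b * i = w ^ q}

/-- CVX.  `J = Jq i q`.  PROOF.  `x ∈ J`, `|y| ≤ |x|` implies `y ∈ J`; so `x ∈ J` implies
`|x| < 1 / n` for all `n ≥ 1`.  Say that `z = a + b i ∈ N` is bounded by `c ∈ F` if
`|a|, |b| ≤ c`.  If `z`, `z'` are bounded by `c`, `c'` then `z z'` is bounded by `2 c c'`, and if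
`z` is bounded by `1 / 4` then `(1 + z)⁻¹` is bounded by `4`.
(1) `x, y ∈ J` implies `|x| + |y| ∈ J`: if `z` is bounded by `|x| + |y|` then `z = z₁ + z₂` with
`z₁`, `z₂` bounded by `|x|`, `|y|`; `1 + z = (1 + z₁)(1 + z₂)(1 + t)`,
`t = - z₁ z₂ / ((1 + z₁)(1 + z₂))` bounded by `1000 |x| |y| ≤ |x|`; so `1 + z` is a `q`-th power.
(2) If `x ∈ F`, `x ^ 2 ∈ J` then `x ∈ J`: `|x| < 1 / n` for all `n`.  For `z`, `z'` bounded by
`m |x|` (`m : ℕ`), `(1 + z)(1 + z') = (1 + z + z')(1 + z z' / (1 + z + z'))` and the last factor is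
a `q`-th power, because `z z' / (1 + z + z')` is bounded by `M x ^ 2` for some `M : ℕ`,
and `M x ^ 2 ∈ J` by (1).  So modulo `q`-th powers `1 + z ≡ (1 + z / q) ^ q ≡ 1` for `z` bounded by
`|x|` (`z = z / q + ⋯ + z / q`).
(3) Let `O = {x | x = 0 ∨ x⁻¹ ∉ J}`.  Let `O₀ = {x | ∃ n : ℕ, |x| ≤ n}`; `J` is a prime ideal of the
valuation ring `O₀`: ideal by (1); if `x y ∈ J`, `|x| ≤ |y|`, `x, y ∈ O₀` then `x ^ 2 ∈ J`, so
`x ∈ J`.  `J ∌ 1`.  So `O` is the localisation of `O₀` at `J`, a valuation ring with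
maximal ideal `J`: `x ∈ m_O` iff `x = 0` or `x⁻¹ ∉ O` iff `x ∈ J`.  Convexity: if `x ∈ O`,
`|y| ≤ |x|`, `y ≠ 0`, `y⁻¹ ∈ J` then `|x⁻¹| ≤ |y⁻¹|`, so `x⁻¹ ∈ J`, a contradiction. -/
def T_CVX : Prop :=
  ∀ (F N : Type) [Field F] [LinearOrder F] [IsStrictOrderedRing F] [Field N] [Algebra F N]
    (i : N) (q : ℕ), i ^ 2 = -1 → q.Prime →
    (∀ z : N, ∃ a b : F, z = algebraMap F N a + algebraMap F N b * i) →
    (∃ x ∈ Jq (F := F) i q, x ≠ 0) → (∀ n : ℕ, 0 < n → (1 : F) / n ∉ Jq (F := F) i q) →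
    ∃ O : ValuationSubring F, (∀ x ∈ O, ∀ y : F, |y| ≤ |x| → y ∈ O) ∧
      ∀ x, x ∈ O.nonunits ↔ x ∈ Jq (F := F) i q

/-- ORD (the order of the residue field).  PROOF.  `m_O` is convex: if `x ∈ m_O`, `|y| ≤ |x|`,
`y ∉ m_O` then `y⁻¹ ∈ O`, `|x⁻¹| ≤ |y⁻¹|`, so `x⁻¹ ∈ O`, a contradiction.  Define `ā ≤ b̄` iff
`a ≤ b` or `b - a ∈ m_O`: independent of the representatives, a linear order, compatible with the
ring operations.  (Or: positive cone = residues of the nonnegative elements.) -/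
def T_ORD : Prop :=
  ∀ (F : Type) [Field F] [LinearOrder F] [IsStrictOrderedRing F] (O : ValuationSubring F),
    (∀ x ∈ O, ∀ y : F, |y| ≤ |x| → y ∈ O) →
    ∃ (_ : LinearOrder (IsLocalRing.ResidueField O))
      (_ : IsStrictOrderedRing (IsLocalRing.ResidueField O)),
      ∀ a : O, 0 < IsLocalRing.residue O a ↔ 0 < (a : F) ∧ (a : F) ∉ O.nonunits

/-- ONR (the ring `O + O i`).  PROOF.  `i` is not in `F`, so the representation `a + b i` is unique.
`O_N = {a + b i : a, b ∈ O}` is a subring.  For `z = a + b i ≠ 0`, `z⁻¹ = (a - b i) / (a² + b²)`.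
Valuation ring: let `c` be the one of `a, b` with larger absolute value, `z = c z'` with
`z' = a' + b' i`, `|a'|, |b'| ≤ 1`, so `a', b' ∈ O`, and `1 ≤ a'² + b'² ≤ 2` is a unit of `O`, so `z'`
is a unit of `O_N`.  So `z ∈ O_N` iff `c ∈ O` iff `a, b ∈ O` (convexity) and `z ∈ m` iff `c ∈ m_O` iff
`a, b ∈ m_O`. -/
def T_ONR : Prop :=
  ∀ (F N : Type) [Field F] [LinearOrder F] [IsStrictOrderedRing F] [Field N] [Algebra F N]
    (i : N), i ^ 2 = -1 →
    (∀ z : N, ∃ a b : F, z = algebraMap F N a + algebraMap F N b * i) →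
    ∀ O : ValuationSubring F, (∀ x ∈ O, ∀ y : F, |y| ≤ |x| → y ∈ O) →
    ∃ ON : ValuationSubring N,
      (∀ a b : F, algebraMap F N a + algebraMap F N b * i ∈ ON ↔ a ∈ O ∧ b ∈ O) ∧
      (∀ a b : F, algebraMap F N a + algebraMap F N b * i ∈ ON.nonunits ↔
        a ∈ O.nonunits ∧ b ∈ O.nonunits)

/-- CUT.  PROOF.  Let `J = Jq i q`.  THA: `J` contains some `u > 0`.  If `1 / n ∈ J` for some
`n ≥ 1` we are done.  Otherwise CVX gives `O` convex with `m_O = J`; `O_N` from ONR.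
`Hq O_N q`: if `a, b ∈ m_O = J`, the one of larger absolute value is in `J`, so `1 + a + b i` is a
`q`-th power.  `Hq O 2`: let `x ∈ m_O = J`; `|x| < 1 / n` for all `n ≥ 1`.  If `q ≠ 2` use the
hypothesis on squares.  If `q = 2`, `1 + x = (c + d i) ^ 2`, `c d = 0`, and `1 + x > 0` excludes
`c = 0`; so `1 + x = c ^ 2`.  `Q0 O`, `Q0 O_N` by convexity.  PKR: `PE k 2` and `PE k_N q` for the
residue fields `k` of `O` and `k_N` of `O_N`.  `k` is ordered (ORD), `k_N` is a `k`-algebra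
generated by the residue `i'` of `i` (every element is `ā + b̄ i'`), the residue of `ζ` is a primitive
`q`-th root of unity (`Q0`).  THA for `k`, `k_N`: `ū > 0`; let `u ∈ O` lift it: `u > 0`,
`u ∉ m_O`.  Claim `u ∈ J`, which is a contradiction: let `|a|, |b| ≤ u`; `a, b ∈ O`, `|ā|, |b̄| ≤ ū`, so
`1 + ā + b̄ i' = w̄ ^ q`, `w̄ ≠ 0`; lift `w̄` to a unit `w` of `O_N`; `(1 + a + b i) / w ^ q ∈ 1 + m_{O_N}`
is a `q`-th power. -/
def T_CUT : Prop :=
  ∀ (F N : Type) [Field F] [LinearOrder F] [IsStrictOrderedRing F] [Field N] [Algebra F N]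
    (i : N) (q : ℕ) (ζ : N), i ^ 2 = -1 →
    (∀ z : N, ∃ a b : F, z = algebraMap F N a + algebraMap F N b * i) → q.Prime →
    IsPrimitiveRoot ζ q → PE F 2 → PE N q →
    (q ≠ 2 → ∃ n : ℕ, 0 < n ∧ ∀ x : F, |x| * n ≤ 1 → ∃ w : F, w ≠ 0 ∧ 1 + x = w ^ 2) →
    ∃ n : ℕ, 0 < n ∧ ∀ a b : F, |a| * n ≤ 1 → |b| * n ≤ 1 →
      ∃ w : N, w ≠ 0 ∧ 1 + algebraMap F N a + algebraMap F N b * i = w ^ q

end NFW
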