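import Pool.Agent.NFW.Base

/-!
# NFW: targets, part 4: Galois theory over a real closure, the main theorem (statements; complete
proofs in the docstrings)
-/

set_option autoImplicit false

open Polynomial NFV

noncomputable section

namespace NFW

/-- `K` ordered, `R` a real closed ordered field, algebraic over `K`, `C = R + R i` -/
structure RC (K R C : Type) [Field K] [LinearOrder K] [Field R] [LinearOrder R]
    [Field C] [Algebra K R] [Algebra R C] [Algebra K C] (i : C) : Prop where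
  ord : IsStrictOrderedRing R
  ordK : IsStrictOrderedRing K
  tower : IsScalarTower K R C
  mono : StrictMono (algebraMap K R)
  alg : Algebra.IsAlgebraic K R
  rc : IsRealClosed R
  sq : i ^ 2 = -1
  gen : ∀ z : C, ∃ a b : R, z = algebraMap R C a + algebraMap R C b * i
  acl : IsAlgClosed C

/-- `V` is the ring of finite elements of `C = R + R i` -/
def NV {R C : Type} [Field R] [LinearOrder R] [Field C] [Algebra R C] (i : C)
    (V : ValuationSubring C) : Prop :=
  (∀ a b : R, algebraMap R C a + algebraMap R C b * i ∈ V ↔ ∃ n : ℕ, a ^ 2 + b ^ 2 ≤ n) ∧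
  (∀ a b : R, algebraMap R C a + algebraMap R C b * i ∈ V.nonunits ↔
    ∀ n : ℕ, 0 < n → (a ^ 2 + b ^ 2) * n ≤ 1)

/-- the automorphisms of `M` over `K(i)` preserve `V` and act trivially on the residue field -/
def Tm {K C : Type} [Field K] [Field C] [Algebra K C] (V : ValuationSubring C) (i : C)
    (M : IntermediateField K C) : Prop :=
  ∀ σ : M ≃ₐ[K] M, (∀ x : M, (x : C) = i → σ x = x) → ∀ z : M, (z : C) ∈ V →
    ((σ z : M) : C) ∈ V ∧ ((σ z : M) : C) - (z : C) ∈ V.nonunits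

/-- hypothesis on units being `q`-th powers -/
def HU {K C : Type} [Field K] [Field C] [Algebra K C] (V : ValuationSubring C) (i : C) : Prop :=
  ∀ M : IntermediateField K C, FiniteDimensional K M → Normal K M → i ∈ M → ∀ q : ℕ, q.Prime →
    (∃ ζ ∈ M, IsPrimitiveRoot ζ q) → ∀ z ∈ M, z ≠ 0 → z ∈ V → z⁻¹ ∈ V → ∃ w ∈ M, z = w ^ q

/-! ## I. Real closures -/

/-- RCL (existence of a real closure).  PROOF.  Let `C` be an algebraic closure of `K`.  Consider pairs
`(E, P)`: `E` an intermediate field of `C / K`, `P ⊆ E` a positive cone (`P + P ⊆ P`, `P P ⊆ P`,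
`E = P ∪ -P`, `P ∩ -P = {0}`) containing the nonnegative elements of `K` (so `P ∩ K` is exactly this set); ordered by
extension.  By Zorn there is a maximal `(R, P)`.
(a) If `a ∈ P` then `a` is a square in `R`: otherwise `E = R(√a) ⊆ C`, the set `P'` of the finite sums
`∑ p_i x_i ^ 2`, `p_i ∈ P`, `x_i ∈ E`, does not contain `-1` (if
`-1 = ∑ p_i (u_i + v_i √a) ^ 2` then `-1 = ∑ p_i (u_i ^ 2 + v_i ^ 2 a) ∈ P`), and a preorder
(closed under `+`, `·`, containing squares, not containing `-1`) extends to a positive cone (Zorn: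
a maximal preorder `T`: if `x ∉ T` then `T - x T` is a preorder, so `-x ∈ T`; this is in
`Mathlib.Algebra.Order.Ring.Ordering` if present).  This contradicts maximality.
(b) Every `f ∈ R[X]` of odd degree has a root in `R`: by induction on the degree; it has an
irreducible factor of odd degree, so let `f` be irreducible of odd degree `d > 1` and every
polynomial of smaller odd degree have a root; `E = R(θ) ⊆ C`, `f(θ) = 0`.  If
`-1 = ∑ p_i g_i(θ) ^ 2`, `deg g_i < d`, then `1 + ∑ p_i g_i ^ 2 = f h` and `1 + ∑ p_i g_i ^ 2` has even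
degree `≤ 2 d - 2` (leading coefficients are sums of elements `p x ^ 2` of `P`, no cancellation), so
`h` has odd degree `< d`; a root of `h` in `R` gives `-1 ∈ P`, a contradiction.  So the cone
extends to `E`, which contradicts maximality unless `E = R`. -/
def T_RCL : Prop :=
  ∀ (K : Type) [Field K] [LinearOrder K] [IsStrictOrderedRing K], ∃ (R : Type) (_ : Field R)
    (_ : LinearOrder R) (_ : IsStrictOrderedRing R) (_ : Algebra K R),
    StrictMono (algebraMap K R) ∧ Algebra.IsAlgebraic K R ∧ IsRealClosed R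

/-- FTA.  PROOF.  Every element of `C` is a square: `a + b i` (`a, b ∈ R`): `c = √(a² + b²)`,
`(c + a) / 2 ≥ 0`, `(c - a) / 2 ≥ 0` are squares in `R`.  Let `f ∈ C[X]` be irreducible; let `E` be a
splitting field over `R` of (product of `f` and its conjugate, in `R[X]`) `(X ^ 2 + 1)` containing `C`,
Galois over `R`, group `G`; the fixed field of a Sylow 2-subgroup has odd degree over `R`, so
(primitive element, odd degree polynomials have roots) it is `R`, so `G` is a 2-group, and so is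
`Gal(E / C)`; if it is not trivial it has a subgroup of index 2, and `C` has a quadratic extension:
impossible.  (Compare `Pool/Agent/NFV/P_GA2.lean`.) -/
def T_FTA : Prop :=
  ∀ (R : Type) [Field R] [LinearOrder R] [IsStrictOrderedRing R], IsRealClosed R →
    ∀ (C : Type) [Field C] [Algebra R C] (i : C), i ^ 2 = -1 →
    (∀ z : C, ∃ a b : R, z = algebraMap R C a + algebraMap R C b * i) → IsAlgClosed C

/-- SET.  PROOF.  RCL, `C = AdjoinRoot (X ^ 2 + 1 : R[X])` (irreducible since `-1` is not a square),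
FTA. -/
def T_SET : Prop :=
  ∀ (K : Type) [Field K] [LinearOrder K] [IsStrictOrderedRing K], ∃ (R C : Type) (_ : Field R)
    (_ : LinearOrder R) (_ : Field C) (_ : Algebra K R) (_ : Algebra R C) (_ : Algebra K C)
    (i : C), RC K R C i

/-- VNT.  PROOF.  For `z = a + b i` (unique representation, `i ∉ R`) let `N z = a ^ 2 + b ^ 2`, a
multiplicative function to `R`, `N (z + w) ≤ 2 (N z + N w)`.  `V = {z | ∃ n : ℕ, N z ≤ n}` is a
subring, and `z ∉ V` implies `N z > 1`, `N z⁻¹ ≤ 1`.  `z ∈ V.nonunits` iff `z = 0` or `z⁻¹ ∉ V` iff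
`N z = 0` or `(N z)⁻¹ > n` for all `n`. -/
def T_VNT : Prop :=
  ∀ (R C : Type) [Field R] [LinearOrder R] [IsStrictOrderedRing R] [Field C] [Algebra R C] (i : C),
    i ^ 2 = -1 → (∀ z : C, ∃ a b : R, z = algebraMap R C a + algebraMap R C b * i) →
    ∃ V : ValuationSubring C, NV (R := R) i V

/-- RAT (approximation by `q`-th powers of Gaussian numbers).  PROOF.  Let `z = x + y i`,
`1 / m ≤ x² + y² ≤ m`, `m ≥ 2` an integer.  Let `ε = 1 / E`, `E` a large integer.  There are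
`x₀, y₀ ∈ ℚ` with `|x - x₀|, |y - y₀| ≤ ε` (as `|x|, |y| ≤ m`, one of the finitely many integers
`k` with `|k| ≤ m E` satisfies `k ε ≤ x < (k + 1) ε`).  Then
`1 / (2 m) ≤ x₀² + y₀² ≤ 2 m`.  Let `β₀ ∈ ℂ` be a `q`-th root of `x₀ + y₀ i`; as `ℚ(i)` is dense in
`ℂ` and `β ↦ β ^ q` is continuous there is `β = p + s i`, `p, s ∈ ℚ`, such that in `ℂ` the
coordinates of `β ^ q - (x₀ + y₀ i)` are `≤ ε` in absolute value; they are rational
numbers `r₁, r₂`, and the same identity `β ^ q = (x₀ + r₁) + (y₀ + r₂) i` holds in `C` (both `ℂ` and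
`C` contain `ℚ(i)`).  So `z = β ^ q + t`, the coordinates of `t` are `≤ 2 ε`, and
`|β ^ q|² = (x₀ + r₁)² + (y₀ + r₂)² ≥ 1 / (4 m)`; the coordinates of
`t / β ^ q = t conj(β ^ q) / |β ^ q|²` are `≤ 4 ε (2 m + 1) 4 m ≤ 1 / n` for large `E`. -/
def T_RAT : Prop :=
  ∀ (R C : Type) [Field R] [LinearOrder R] [IsStrictOrderedRing R] [Field C] [Algebra R C] (i : C),
    i ^ 2 = -1 → ∀ (x y : R) (m n q : ℕ), 0 < n → 0 < q → x ^ 2 + y ^ 2 ≤ m →
    1 ≤ (x ^ 2 + y ^ 2) * m → ∃ (p s : ℚ) (a b : R), (p : C) + (s : C) * i ≠ 0 ∧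
      |a| * n ≤ 1 ∧ |b| * n ≤ 1 ∧ algebraMap R C x + algebraMap R C y * i =
        ((p : C) + (s : C) * i) ^ q * (1 + algebraMap R C a + algebraMap R C b * i)

/-! ## J. Galois theory -/

/-- PRI (automorphisms of prime order).  PROOF.  For `z : M` and `j < q` put
`z_j = q⁻¹ ∑_{l<q} ζ ^ (- j l) σ^l z`; `z = ∑ z_j`, `σ z_j = ζ ^ j z_j`.  CLAIM: if `y ≠ 0`,
`σ y = ζ ^ j y`, `0 < j < q` then `y` is not a unit of `V`.  Otherwise `y = w ^ q`; let
`n = ∏_{l<q} σ^l w`, `σ n = n`; `n ^ q = ∏ σ^l y = ζ ^ (j q (q-1) / 2) y ^ q`.  For odd `q` this is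
`y ^ q`, so `y = ζ ^ m n`, `σ y = y`, a contradiction.  For `q = 2`, `ζ = -1`,
`n ^ 2 = - y ^ 2 = (i y) ^ 2`, so `i y = ± n`, `σ y = y` (`σ i = i`), a contradiction.
If `z_j, z_l ≠ 0`, `j ≠ l` then `y = z_j / z_l` satisfies `σ y = ζ ^ (j - l) y`, so it is not a unit:
`v(z_j) ≠ v(z_l)`.  So `v(z) = max v(z_j)` (a sum of elements of different values); if `z ∈ V` then
all `z_j ∈ V`, `σ z = ∑ ζ ^ j z_j ∈ V` (`ζ ∈ V`), and for `j ≠ 0` the element `z_j ∈ V` is `0` or
not a unit, so `z_j ∈ V.nonunits`; `σ z - z = ∑_{j ≠ 0} (ζ ^ j - 1) z_j ∈ V.nonunits`. -/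
def T_PRI : Prop :=
  ∀ (M : Type) [Field M] (V : ValuationSubring M) (σ : M ≃+* M) (q : ℕ) (ζ : M), q.Prime →
    IsPrimitiveRoot ζ q → σ ζ = ζ → (∀ x, (σ^[q]) x = x) →
    (q = 2 → ∃ i : M, i ^ 2 = -1 ∧ σ i = i) →
    (∀ z : M, z ≠ 0 → z ∈ V → z⁻¹ ∈ V → ∃ w : M, z = w ^ q) → Q0 V →
    ∀ z ∈ V, σ z ∈ V ∧ σ z - z ∈ V.nonunits

/-- IND (the induction step).  PROOF.  `Z` = the group of the `σ : M ≃ₐ[K] M` fixing `i`, a normal
subgroup of `G = Gal(M / K)` (`g i = ± i`).  If `Z = 1` there is nothing to prove.  Otherwise let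
`Z₁` be the subgroup of `Z` generated by the elements of prime order; `Z₁ ≠ 1` (Cauchy), normal
in `G`.  `Z_P` = the set of the `σ ∈ Z` with (P): `z ∈ M ∩ V → σ z ∈ V ∧ σ z - z ∈ m_V`; it is closed
under composition, hence (finite group) a subgroup; by the first hypothesis `Z₁ ≤ Z_P`.  Let
`M' ⊂ M` be the fixed field of `Z₁`, normal over `K`, `i ∈ M'`, `M' < M`, so `Tm V i M'`.  Let
`σ ∈ Z`, `z ∈ M ∩ V`.  (a) `σ z ∈ V`: the polynomial `∏_{g ∈ Z₁} (X - g z)` has coefficients in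
`M' ∩ V` (all `g z ∈ V`), and `σ` maps `M' ∩ V` to `V` (`Tm`; the restriction of `σ` to `M'`), so
`σ z` is a root of a monic polynomial with coefficients in `V`, and `V` is integrally closed.
(b) `σ (m_V ∩ M) ⊆ m_V`: if `y ∈ m_V`, `y ≠ 0`, `σ y ∉ m_V`, then `(σ y)⁻¹ ∈ V`, and by (a) for
`σ⁻¹`, `y⁻¹ ∈ V`.  (c) `z' = |Z₁|⁻¹ ∑_{g ∈ Z₁} g z ∈ M' ∩ V` (`Q0`),
`z - z' = |Z₁|⁻¹ ∑ (z - g z) ∈ m_V`; `σ z - z = (σ z' - z') + σ (z - z') - (z - z') ∈ m_V`. -/
def T_IND : Prop :=
  ∀ (K C : Type) [Field K] [CharZero K] [Field C] [Algebra K C] (V : ValuationSubring C) (i : C)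
    (M : IntermediateField K C), i ^ 2 = -1 → Q0 V → FiniteDimensional K M → Normal K M → i ∈ M →
    (∀ σ : M ≃ₐ[K] M, (∀ x : M, (x : C) = i → σ x = x) → ∀ q : ℕ, q.Prime → orderOf σ = q →
      ∀ z : M, (z : C) ∈ V → ((σ z : M) : C) ∈ V ∧ ((σ z : M) : C) - (z : C) ∈ V.nonunits) →
    (∀ M' : IntermediateField K C, M' < M → Normal K M' → i ∈ M' → Tm V i M') → Tm V i M

/-- AL1.  PROOF.  Strong induction on `[M : K]`.  IND: the second hypothesis holds by induction
(`[M' : K]` divides `[M : K]` and is smaller).  The first: let `σ` have prime order `q`, fix `i`;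
`q ∣ |Gal(M / K)| = [M : K]`; so there is a primitive `q`-th root of unity `ζ ∈ K(i) ⊆ M`, fixed by
`σ`.  PRI for the field `M`, the valuation ring `V ∩ M` (`ValuationSubring.comap`; its nonunits
are the elements of `M` in `V.nonunits`), with `HU`. -/
def T_AL1 : Prop :=
  ∀ (K C : Type) [Field K] [CharZero K] [Field C] [Algebra K C] (V : ValuationSubring C) (i : C),
    i ^ 2 = -1 → Q0 V → HU (K := K) V i → ∀ M : IntermediateField K C, FiniteDimensional K M →
    Normal K M → i ∈ M → (∀ p : ℕ, p.Prime → p ∣ Module.finrank K M →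
      ∃ ζ ∈ IntermediateField.adjoin K {i}, IsPrimitiveRoot ζ p) → Tm V i M

/-- AL2.  PROOF.  (a) For each prime `q` there is a primitive `q`-th root of unity in `K(i)`: strong
induction on `q`.  `q = 2`: `-1`.  Let `q ≥ 3`, `ζ ∈ C` a primitive `q`-th root of unity (`C` is
algebraically closed of characteristic zero), `M = K(i, ζ)`, normal over `K`, `[M : K]` divides
`2 (q - 1)!` (`[K(i) : K] ≤ 2`, `[K(i, ζ) : K(i)] ≤ q - 1`), so its prime divisors are `< q`.
AL1: `Tm V i M`.  Let `σ ∈ Gal(M / K)` fix `i`; `σ ζ = ζ ^ j`; `σ ζ - ζ ∈ m_V` (`ζ ∈ V`).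
If `σ ζ ≠ ζ` then `ζ ^ (j-1) - 1` divides `∏_{0<l<q} (1 - ζ ^ l) = q` in `V`, a unit, and
`σ ζ - ζ = ζ (ζ ^ (j-1) - 1)` is a unit: a contradiction.  So `ζ` is fixed by all `σ` fixing `i`,
`ζ ∈ K(i)` (Galois correspondence).  (b) AL1 for all `M`. -/
def T_AL2 : Prop :=
  ∀ (K C : Type) [Field K] [CharZero K] [Field C] [IsAlgClosed C] [Algebra K C]
    (V : ValuationSubring C) (i : C), i ^ 2 = -1 → Q0 V → HU (K := K) V i →
    ∀ M : IntermediateField K C, FiniteDimensional K M → Normal K M → i ∈ M → Tm V i M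

/-- HUX.  PROOF.  Let `F = {x ∈ R | x ∈ M}`, an intermediate field of `R / K` (`IntermediateField.comap`
or by hand), finite over `K`; it is ordered, and `M` is an `F`-algebra.  Every `z ∈ M` is `a + b i`
with `a, b ∈ F`: `z = a + b i`, `a, b ∈ R`, the conjugation `τ` of `C / R` maps `M` to `M` (normal), so
`a = (z + τ z) / 2 ∈ M`, `b = (z - τ z) / (2 i) ∈ M`.  `PE F 2`, `PE M q'` for all primes `q'`: an
extension of `F` or `M` generated by one root of `X ^ q' - d` is finite over `K` (as a `K`-algebra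
through the composite), use the hypothesis.  CUT for `F`, `M`, `q' = 2`, `ζ = -1`: there is `n₂ > 0`
such that `1 + a` is a square in `M` for `a ∈ F`, `|a| n₂ ≤ 1`; then (enlarging `n₂` to
`≥ 2`) `1 + a = (c + d i) ^ 2`, `c d = 0`, `1 + a > 0`, so it is a square in `F`.  CUT for `q`: `n`.
Let `z ∈ M` be a unit of `V`, `z = x + y i`, `x, y ∈ F`; by `NV`, `x² + y² ≤ m` and
`1 ≤ (x² + y²) m` for some `m`.  RAT (with `F`, `M` for `R`, `C`, and the field operations
inherited): `z = β ^ q (1 + a + b i)`, `β ∈ M`, `a, b ∈ F`; the last factor is a `q`-th power in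
`M`. -/
def T_HUX : Prop :=
  ∀ (K R C : Type) [Field K] [LinearOrder K] [Field R] [LinearOrder R] [Field C] [Algebra K R]
    [Algebra R C] [Algebra K C] (i : C), RC K R C i → ∀ V : ValuationSubring C,
    NV (R := R) i V → (∀ (L : Type) [Field L] [Algebra K L] [FiniteDimensional K L] (q : ℕ),
      q.Prime → PQ L q) → HU (K := K) V i

/-- HEN (the conclusion).  `O = V ∩ K` (`ValuationSubring.comap`), `m = O.nonunits = m_V ∩ K`; for
`a ∈ K`: `a ∈ O` iff `∃ n : ℕ, |a| ≤ n`, `a ∈ m` iff `∀ n > 0, |a| n ≤ 1`.  `Q0 V`.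
PROOF.  Conjugation `τ` of `C / R` preserves `V` and `m_V`.
(1) Let `f ∈ O[X]` be monic, `a₀ ∈ O`, `f(a₀) ∈ m`, `f'(a₀) ∉ m`.  Let `M` be the splitting field in
`C` of `f (X ^ 2 + 1)` over `K`, `f = ∏ (X - z_j)`, `z_j ∈ M ∩ V` (integral over `V`).
`∏ (a₀ - z_j) ∈ m_V` so `a₀ - z_1 ∈ m_V` for some root `z_1`, and it is the only one (with
multiplicity): otherwise each term of `f'(a₀) = ∑_j ∏_{l ≠ j} (a₀ - z_l)` is in `m_V`.  If
`σ ∈ Gal(M / K)` fixes `i`, `σ z_1` is a root with `σ z_1 - z_1 ∈ m_V`, so `σ z_1 = z_1`.  If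
`σ i = -i` then `σ = σ' τ` on `M` with `σ' i = i`; `τ z_1` is a root with
`τ z_1 - a₀ = τ (z_1 - a₀) ∈ m_V`, so `τ z_1 = z_1` and `σ z_1 = z_1`.  So `z_1 ∈ K` (Galois), `z_1 ∈ O`,
`z_1 - a₀ ∈ m`.  This is the Hensel property (`HenselianLocalRing.is_henselian`).
(2) If `∑ f_j ^ 2 = -1` in the residue field, lift: `1 + ∑ a_j ^ 2 ∈ m`, but it is `≥ 1`.
(3) Let `c ∈ O` (a lift of a given element of the residue field), `c ≠ 0`; replacing `c` by `-c` we
assume `c > 0`.  If `c ∈ m` take `b = 0`.  Otherwise let `s ∈ R`, `s ^ 2 = c`; `s` is a unit of `V`;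
`M = K(i, s)` is normal over `K`.  If `σ` fixes `i`, `σ s = ± s`, `σ s - s ∈ m_V`, and `- 2 s` is a unit,
so `σ s = s`; and `τ s = s`.  So `s ∈ K`.
(4) Let `p` be a polynomial of odd degree over the residue field; divide by the leading coefficient
and lift to a monic `f ∈ O[X]` of the same degree.  `f` has a root `z ∈ R` (real closed), `z ∈ V`
(integral).  `M` = splitting field of `f (X ^ 2 + 1)`, `Z` = the group of `σ` fixing `i`;
`a = |Z|⁻¹ ∑_{σ ∈ Z} σ z ∈ K(i) ∩ V`, `a - z ∈ m_V`; `a = a₁ + a₂ i`, `a₁, a₂ ∈ K`; applying `τ` and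
adding, `a₁ - z ∈ m_V`, so `f(a₁) ∈ m`: the residue of `a₁` is a root of `p`. -/
def T_HEN : Prop :=
  ∀ (K R C : Type) [Field K] [LinearOrder K] [Field R] [LinearOrder R] [Field C] [Algebra K R]
    [Algebra R C] [Algebra K C] (i : C), RC K R C i → ∀ V : ValuationSubring C,
    NV (R := R) i V → (∀ M : IntermediateField K C, FiniteDimensional K M → Normal K M → i ∈ M →
      Tm V i M) →
    ∃ O : ValuationSubring K, HenselianLocalRing O ∧
      (∀ (n : ℕ) (f : Fin n → IsLocalRing.ResidueField O), ∑ j, f j ^ 2 ≠ -1) ∧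
      (∀ c : IsLocalRing.ResidueField O, ∃ b, b ^ 2 = c ∨ b ^ 2 = -c) ∧
      (∀ p : Polynomial (IsLocalRing.ResidueField O), Odd p.natDegree → ∃ x, p.IsRoot x)

/-- MAN (the main theorem, algebraic form).  PROOF.  SET, VNT, HUX, AL2, HEN (`Q0 V`: positive integers
are units of `V`). -/
def T_MAN : Prop :=
  ∀ (K : Type) [Field K] [LinearOrder K] [IsStrictOrderedRing K],
    (∀ (L : Type) [Field L] [Algebra K L] [FiniteDimensional K L] (q : ℕ), q.Prime → PQ L q) →
    ∃ O : ValuationSubring K, HenselianLocalRing O ∧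
      (∀ (n : ℕ) (f : Fin n → IsLocalRing.ResidueField O), ∑ j, f j ^ 2 ≠ -1) ∧
      (∀ c : IsLocalRing.ResidueField O, ∃ b, b ^ 2 = c ∨ b ^ 2 = -c) ∧
      (∀ p : Polynomial (IsLocalRing.ResidueField O), Odd p.natDegree → ∃ x, p.IsRoot x)

end NFW
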